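import Pool.Agent.H.MP_392fd3_nt.Formula

set_option autoImplicit false

open Polynomial MeasureTheory Set
open scoped ENNReal NNReal

namespace Pool.Agent.H.MP_392fd3_nt

/-- the transfer operator on nonnegative functions -/
noncomputable def tr (f : NMap ℂ) (g : ℂ → ℝ≥0∞) (y : ℂ) : ℝ≥0∞ :=
  ((f.fiber y).map (fun x => ENNReal.ofReal ((‖f.der x‖⁻¹) ^ 2) * g x)).sum

/-! ### Auxiliary facts -/

theorem arch_W_ne (f : NMap ℂ) : f.W ≠ 0 := by
  intro h
  -- `P' Q = P Q'`, so `P ∣ P'` by coprimality, contradiction with degrees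
  have h1 : derivative f.P * f.Q = f.P * derivative f.Q := by
    have := h
    unfold NMap.W at this
    exact sub_eq_zero.1 this
  have h2 : f.P ∣ derivative f.P * f.Q := ⟨derivative f.Q, h1⟩
  have h3 : f.P ∣ derivative f.P := f.cop.dvd_of_dvd_mul_right h2
  have h4 : derivative f.P ≠ 0 := by
    intro h0
    have := natDegree_eq_zero_of_derivative_eq_zero h0
    have h2' := f.two_le
    omega
  have h5 := natDegree_le_of_dvd h3 h4
  have h6 := natDegree_derivative_lt (p := f.P) (by have := f.two_le; omega)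
  omega

/-- the regular points -/
def archOm (f : NMap ℂ) : Set ℂ := {x | f.Q.eval x ≠ 0 ∧ f.W.eval x ≠ 0}

theorem archOm_compl_finite (f : NMap ℂ) : (archOm f)ᶜ.Finite := by
  have h1 : {x : ℂ | f.Q.IsRoot x}.Finite := finite_setOf_isRoot f.Q_ne
  have h2 : {x : ℂ | f.W.IsRoot x}.Finite := finite_setOf_isRoot (arch_W_ne f)
  refine (h1.union h2).subset ?_
  intro x hx
  simp only [archOm, mem_compl_iff, mem_setOf_eq, not_and_or, not_not] at hx
  exact hx

theorem archOm_isOpen (f : NMap ℂ) : IsOpen (archOm f) := by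
  have h : IsClosed (archOm f)ᶜ := (archOm_compl_finite f).isClosed
  simpa using h.isOpen_compl

theorem arch_hasDerivAt (f : NMap ℂ) (x : ℂ) (hx : f.Q.eval x ≠ 0) :
    HasDerivAt f.val (f.der x) x := by
  have h := (f.P.hasDerivAt x).div (f.Q.hasDerivAt x) hx
  have e : f.der x = ((derivative f.P).eval x * f.Q.eval x - f.P.eval x *
      (derivative f.Q).eval x) / (f.Q.eval x) ^ 2 := by
    simp [NMap.der, NMap.W]
  rw [e]
  exact h

/-- the real derivative of `f` as a continuous linear map -/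
noncomputable def archD (f : NMap ℂ) (x : ℂ) : ℂ →L[ℝ] ℂ :=
  (ContinuousLinearMap.toSpanSingleton ℂ (f.der x)).restrictScalars ℝ

theorem arch_hasFDerivAt (f : NMap ℂ) (x : ℂ) (hx : f.Q.eval x ≠ 0) :
    HasFDerivAt f.val (archD f x) x := by
  have h := (arch_hasDerivAt f x hx).hasFDerivAt
  exact h.restrictScalars ℝ

theorem arch_det (f : NMap ℂ) (x : ℂ) : (archD f x).det = ‖f.der x‖ ^ 2 := by
  have h : (archD f x : ℂ →ₗ[ℝ] ℂ) = LinearMap.mulLeft ℝ (f.der x) := by
    ext z
    all_goals simp [archD, mul_comm]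
  have h2 : (archD f x).det = Algebra.norm ℝ (f.der x) := by
    rw [ContinuousLinearMap.det, h]
    rw [Algebra.norm_apply]
    rfl
  rw [h2, Algebra.norm_complex_apply, Complex.normSq_eq_norm_sq]

theorem arch_der_ne (f : NMap ℂ) (x : ℂ) (hx : x ∈ archOm f) : f.der x ≠ 0 := by
  obtain ⟨h1, h2⟩ := hx
  exact div_ne_zero h2 (pow_ne_zero _ h1)

/-- the real derivative as an equivalence -/
noncomputable def archE (c : ℂ) (hc : c ≠ 0) : ℂ ≃L[ℝ] ℂ :=
  (ContinuousLinearEquiv.unitsEquivAut ℂ (Units.mk0 c hc)).restrictScalars ℝ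

theorem archE_coe (f : NMap ℂ) (x : ℂ) (hx : f.der x ≠ 0) :
    ((archE (f.der x) hx : ℂ ≃L[ℝ] ℂ) : ℂ →L[ℝ] ℂ) = archD f x := by
  ext z
  all_goals simp [archE, archD, mul_comm]

open Classical in
/-- a countable measurable partition of the regular points on the pieces of which `f` is
injective -/
theorem arch_partition (f : NMap ℂ) : ∃ U : ℕ → Set ℂ, Pairwise (Function.onFun Disjoint U) ∧
    (∀ n, MeasurableSet (U n)) ∧ (⋃ n, U n) = archOm f ∧ (∀ n, InjOn f.val (U n)) := by
  let r : (ℂ →L[ℝ] ℂ) → ℝ≥0 := fun A =>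
    if h : ∃ e : ℂ ≃L[ℝ] ℂ, (e : ℂ →L[ℝ] ℂ) = A then
      ‖(h.choose.symm : ℂ →L[ℝ] ℂ)‖₊⁻¹ / 2 else 1
  have hsymm : ∀ e : ℂ ≃L[ℝ] ℂ, 0 < ‖(e.symm : ℂ →L[ℝ] ℂ)‖₊ := by
    intro e
    rw [nnnorm_pos]
    intro h
    have h1 : e.symm (e 1) = 0 := by
      have : (e.symm : ℂ →L[ℝ] ℂ) (e 1) = 0 := by rw [h]; simp
      exact this
    rw [e.symm_apply_apply] at h1
    exact one_ne_zero h1
  have rpos : ∀ A, r A ≠ 0 := by
    intro A
    simp only [r]
    split_ifs with h
    · have := hsymm h.choose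
      positivity
    · exact one_ne_zero
  obtain ⟨t, A, ht1, ht2, ht3, ht4, ht5⟩ :=
    exists_partition_approximatesLinearOn_of_hasFDerivWithinAt f.val (archOm f) (archD f)
      (fun x hx => (arch_hasFDerivAt f x hx.1).hasFDerivWithinAt) r rpos
  have hne : (archOm f).Nonempty := by
    by_contra h
    rw [not_nonempty_iff_eq_empty] at h
    have := archOm_compl_finite f
    rw [h, compl_empty] at this
    exact infinite_univ this
  refine ⟨fun n => archOm f ∩ t n, ?_, ?_, ?_, ?_⟩
  · intro i j hij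
    exact (ht1 hij).mono inter_subset_right inter_subset_right
  · intro n
    exact (archOm_isOpen f).measurableSet.inter (ht2 n)
  · rw [← inter_iUnion]
    exact inter_eq_left.2 ht3
  · intro n
    obtain ⟨y, hy, hAy⟩ := ht5 hne n
    have hA : ∃ e : ℂ ≃L[ℝ] ℂ, (e : ℂ →L[ℝ] ℂ) = A n :=
      ⟨archE (f.der y) (arch_der_ne f y hy), by rw [archE_coe, hAy]⟩
    have happ := ht4 n
    have hr : r (A n) = ‖(hA.choose.symm : ℂ →L[ℝ] ℂ)‖₊⁻¹ / 2 := by
      simp only [r]
      rw [dif_pos hA]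
    have happ' : ApproximatesLinearOn f.val (hA.choose : ℂ →L[ℝ] ℂ) (archOm f ∩ t n)
        (r (A n)) := by
      rw [hA.choose_spec]
      exact happ
    refine happ'.injOn (Or.inr ?_)
    rw [hr]
    have := hsymm hA.choose
    exact NNReal.half_lt_self (inv_pos.2 this).ne'

/-- the branch of `h` over the `n`-th piece -/
noncomputable def archG (f : NMap ℂ) (U : ℕ → Set ℂ) (h : ℂ → ℝ≥0∞) (n : ℕ) : ℂ → ℝ≥0∞ :=
  Function.extend ((U n).domRestrict f.val) (fun x : U n => h x) (fun _ => 0)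

theorem archG_measurable (f : NMap ℂ) (U : ℕ → Set ℂ) (hU : ∀ n, MeasurableSet (U n))
    (hsub : ∀ n, U n ⊆ archOm f) (hinj : ∀ n, InjOn f.val (U n)) (h : ℂ → ℝ≥0∞)
    (hh : Measurable h) (n : ℕ) : Measurable (archG f U h n) := by
  have hc : ContinuousOn f.val (U n) := fun x hx =>
    (arch_hasDerivAt f x (hsub n hx).1).continuousAt.continuousWithinAt
  have he := ContinuousOn.measurableEmbedding (hU n) hc (hinj n)
  exact he.measurable_extend (hh.comp measurable_subtype_coe) measurable_const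

theorem archG_apply (f : NMap ℂ) (U : ℕ → Set ℂ) (hinj : ∀ n, InjOn f.val (U n))
    (h : ℂ → ℝ≥0∞) (n : ℕ) (x : ℂ) (hx : x ∈ U n) : archG f U h n (f.val x) = h x := by
  have hi : Function.Injective ((U n).domRestrict f.val) := injOn_iff_injective.1 (hinj n)
  exact hi.extend_apply (fun x : U n => h x) (fun _ => 0) ⟨x, hx⟩

theorem archG_zero (f : NMap ℂ) (U : ℕ → Set ℂ) (h : ℂ → ℝ≥0∞) (n : ℕ) (y : ℂ)
    (hy : y ∉ f.val '' (U n)) : archG f U h n y = 0 := by
  unfold archG
  rw [Function.extend_apply']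
  rintro ⟨x, hx⟩
  exact hy ⟨x, x.2, hx⟩

/-- the exceptional values -/
def archV (f : NMap ℂ) : Set ℂ := {y | ∃ c, f.W.eval c = 0 ∧ f.Q.eval c ≠ 0 ∧ f.val c = y}

theorem archV_finite (f : NMap ℂ) : (archV f).Finite := by
  have h2 : {x : ℂ | f.W.IsRoot x}.Finite := finite_setOf_isRoot (arch_W_ne f)
  refine (h2.image f.val).subset ?_
  rintro y ⟨c, h1, -, h3⟩
  exact ⟨c, h1, h3⟩

theorem arch_poly_ne (f : NMap ℂ) (y : ℂ) : f.P - Polynomial.C y * f.Q ≠ 0 := by
  intro h
  have h1 : f.P = Polynomial.C y * f.Q := sub_eq_zero.1 h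
  have h2 : f.P.natDegree ≤ f.Q.natDegree := by
    rw [h1]
    exact natDegree_C_mul_le _ _
  have := f.deg_lt
  omega

theorem arch_fiber_nodup (f : NMap ℂ) (y : ℂ) (hy : y ∉ archV f) : (f.fiber y).Nodup := by
  rw [Multiset.nodup_iff_count_le_one]
  intro x
  by_contra hcon
  push Not at hcon
  have hc : 1 < (f.P - Polynomial.C y * f.Q).rootMultiplicity x := by
    have : (f.fiber y).count x = (f.P - Polynomial.C y * f.Q).rootMultiplicity x :=
      count_roots _
    rw [← this]; exact hcon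
  obtain ⟨h1, h2⟩ := (one_lt_rootMultiplicity_iff_isRoot (arch_poly_ne f y)).1 hc
  have hx : x ∈ f.fiber y := by
    rw [← Multiset.count_pos]
    omega
  obtain ⟨hQ, hval⟩ := (mem_fiber f x y).1 hx
  apply hy
  refine ⟨x, ?_, hQ, hval⟩
  have e1 : f.P.eval x - y * f.Q.eval x = 0 := by
    have := h1.eq_zero
    simpa using this
  have e2 : (derivative f.P).eval x - y * (derivative f.Q).eval x = 0 := by
    have := h2.eq_zero
    simpa using this
  unfold NMap.W
  rw [eval_sub, eval_mul, eval_mul]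
  linear_combination f.Q.eval x * e2 - (derivative f.Q).eval x * e1

theorem arch_fiber_mem (f : NMap ℂ) (y x : ℂ) (hy : y ∉ archV f) :
    x ∈ f.fiber y ↔ x ∈ archOm f ∧ f.val x = y := by
  rw [mem_fiber]
  constructor
  · rintro ⟨h1, h2⟩
    refine ⟨⟨h1, ?_⟩, h2⟩
    intro h3
    exact hy ⟨x, h3, h1, h2⟩
  · rintro ⟨h1, h2⟩
    exact ⟨h1.1, h2⟩

open Classical in
theorem arch_sum_eq (f : NMap ℂ) (U : ℕ → Set ℂ) (hdis : Pairwise (Function.onFun Disjoint U))
    (hun : (⋃ n, U n) = archOm f) (hinj : ∀ n, InjOn f.val (U n)) (h : ℂ → ℝ≥0∞) (y : ℂ)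
    (hy : y ∉ archV f) : ((f.fiber y).map h).sum = ∑' n, archG f U h n y := by
  have hnd := arch_fiber_nodup f y hy
  set s : Finset ℂ := (f.fiber y).toFinset with hs
  have hmem : ∀ x, x ∈ s ↔ x ∈ archOm f ∧ f.val x = y := by
    intro x
    rw [hs, Multiset.mem_toFinset, arch_fiber_mem f y x hy]
  have e1 : ((f.fiber y).map h).sum = ∑ x ∈ s, h x := by
    rw [Finset.sum, hs, Multiset.toFinset_val, Multiset.dedup_eq_self.2 hnd]
  have e2 : ∀ n, archG f U h n y = ∑ x ∈ s, (if x ∈ U n then h x else 0) := by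
    intro n
    by_cases hn : y ∈ f.val '' (U n)
    · obtain ⟨x, hx, hxy⟩ := hn
      have hxs : x ∈ s := (hmem x).2 ⟨by rw [← hun]; exact mem_iUnion.2 ⟨n, hx⟩, hxy⟩
      rw [Finset.sum_eq_single x]
      · rw [if_pos hx, ← hxy, archG_apply f U hinj h n x hx]
      · intro x' hx' hne
        rw [if_neg]
        intro hx'U
        apply hne
        exact hinj n hx'U hx (by rw [((hmem x').1 hx').2, hxy])
      · intro h'
        exact absurd hxs h'
    · rw [archG_zero f U h n y hn]
      symm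
      apply Finset.sum_eq_zero
      intro x hx
      rw [if_neg]
      intro hxU
      exact hn ⟨x, hxU, ((hmem x).1 hx).2⟩
  have e3 : ∑' n, archG f U h n y = ∑' n, ∑ x ∈ s, (if x ∈ U n then h x else 0) := by
    congr 1
    funext n
    exact e2 n
  rw [e1, e3, Summable.tsum_finsetSum (fun i _ => ENNReal.summable)]
  apply Finset.sum_congr rfl
  intro x hx
  have hxO : x ∈ ⋃ n, U n := by rw [hun]; exact ((hmem x).1 hx).1
  obtain ⟨n, hn⟩ := mem_iUnion.1 hxO
  rw [tsum_eq_single n]
  · rw [if_pos hn]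
  · intro n' hne
    rw [if_neg]
    intro hn'
    exact Set.disjoint_left.1 (hdis hne) hn' hn

theorem arch_der_measurable (f : NMap ℂ) : Measurable f.der := by
  have h1 : Measurable (fun x : ℂ => f.W.eval x) := f.W.continuous.measurable
  have h2 : Measurable (fun x : ℂ => f.Q.eval x) := f.Q.continuous.measurable
  exact h1.div (h2.pow_const 2)

/-- Module J1 (change of variables). -/
theorem tr_measurable (f : NMap ℂ) (g : ℂ → ℝ≥0∞) (hg : Measurable g) : Measurable (tr f g) := by
  obtain ⟨U, hdis, hU, hun, hinj⟩ := arch_partition f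
  have hsub : ∀ n, U n ⊆ archOm f := fun n => by rw [← hun]; exact subset_iUnion U n
  set h : ℂ → ℝ≥0∞ := fun x => ENNReal.ofReal ((‖f.der x‖⁻¹) ^ 2) * g x with hh
  have hhm : Measurable h :=
    (((arch_der_measurable f).norm.inv).pow_const 2).ennreal_ofReal.mul hg
  have hm : Measurable (fun y => ∑' n, archG f U h n y) :=
    Measurable.tsum (fun n => archG_measurable f U hU hsub hinj h hhm n)
  refine hm.measurable_of_countable_ne ?_
  refine (archV_finite f).countable.mono ?_
  intro y hy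
  by_contra hyV
  apply hy
  exact (arch_sum_eq f U hdis hun hinj h y hyV).symm

theorem lintegral_tr_le (f : NMap ℂ) (g : ℂ → ℝ≥0∞) (hg : Measurable g) :
    ∫⁻ y, tr f g y ≤ ∫⁻ x, g x := by
  obtain ⟨U, hdis, hU, hun, hinj⟩ := arch_partition f
  have hsub : ∀ n, U n ⊆ archOm f := fun n => by rw [← hun]; exact subset_iUnion U n
  set h : ℂ → ℝ≥0∞ := fun x => ENNReal.ofReal ((‖f.der x‖⁻¹) ^ 2) * g x with hh
  have hhm : Measurable h :=
    (((arch_der_measurable f).norm.inv).pow_const 2).ennreal_ofReal.mul hg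
  have hGm := archG_measurable f U hU hsub hinj h hhm
  have hae : ∀ᵐ y ∂(volume : Measure ℂ), tr f g y = ∑' n, archG f U h n y := by
    have h0 : (volume : Measure ℂ) (archV f) = 0 := (archV_finite f).measure_zero _
    rw [ae_iff]
    refine measure_mono_null ?_ h0
    intro y hy
    by_contra hyV
    apply hy
    exact arch_sum_eq f U hdis hun hinj h y hyV
  rw [lintegral_congr_ae hae, lintegral_tsum (fun n => (hGm n).aemeasurable)]
  have key : ∀ n, ∫⁻ y, archG f U h n y = ∫⁻ x in U n, g x := by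
    intro n
    have him : MeasurableSet (f.val '' (U n)) := by
      have hc : ContinuousOn f.val (U n) := fun x hx =>
        (arch_hasDerivAt f x (hsub n hx).1).continuousAt.continuousWithinAt
      exact (hU n).image_of_continuousOn_injOn hc (hinj n)
    have s1 : ∫⁻ y, archG f U h n y = ∫⁻ y in f.val '' (U n), archG f U h n y := by
      rw [← lintegral_indicator him]
      congr 1
      funext y
      by_cases hy : y ∈ f.val '' (U n)
      · rw [indicator_of_mem hy]
      · rw [indicator_of_notMem hy, archG_zero f U h n y hy]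
    rw [s1, lintegral_image_eq_lintegral_abs_det_fderiv_mul volume (hU n)
      (fun x hx => (arch_hasFDerivAt f x (hsub n hx).1).hasFDerivWithinAt) (hinj n)]
    refine setLIntegral_congr_fun (hU n) ?_
    intro x hx
    have hd : f.der x ≠ 0 := arch_der_ne f x (hsub n hx)
    simp only
    rw [archG_apply f U hinj h n x hx, arch_det, hh]
    simp only
    rw [← mul_assoc, ← ENNReal.ofReal_mul (abs_nonneg _), abs_of_nonneg (sq_nonneg _), inv_pow,
      mul_inv_cancel₀ (pow_ne_zero _ (norm_ne_zero_iff.2 hd)), ENNReal.ofReal_one, one_mul]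
  calc ∑' n, ∫⁻ y, archG f U h n y = ∑' n, ∫⁻ x in U n, g x := by
        congr 1; funext n; exact key n
    _ = ∫⁻ x in ⋃ n, U n, g x := (lintegral_iUnion hU hdis g).symm
    _ ≤ ∫⁻ x, g x := setLIntegral_le_lintegral _ _

end Pool.Agent.H.MP_392fd3_nt
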