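import Pool.Agent.H.MP_392fd3_nt.Arch

set_option autoImplicit false

open Polynomial MeasureTheory Set
open scoped ENNReal NNReal

namespace Pool.Agent.H.MP_392fd3_nt

/-! ### Multiset lemmas -/

theorem ab_log_prod {α : Type*} (m : Multiset α) (u : α → ℝ) (h : ∀ x ∈ m, u x ≠ 0) :
    Real.log (m.map u).prod = (m.map (fun x => Real.log (u x))).sum := by
  induction m using Multiset.induction_on with
  | empty => simp
  | cons a m ih =>
    have h1 : u a ≠ 0 := h a (Multiset.mem_cons_self a m)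
    have h2 : ∀ x ∈ m, u x ≠ 0 := fun x hx => h x (Multiset.mem_cons_of_mem hx)
    have h3 : (m.map u).prod ≠ 0 := by
      rw [Ne, Multiset.prod_eq_zero_iff]
      intro h0
      obtain ⟨x, hx, hx0⟩ := Multiset.mem_map.1 h0
      exact h2 x hx hx0
    rw [Multiset.map_cons, Multiset.prod_cons, Real.log_mul h1 h3, ih h2, Multiset.map_cons,
      Multiset.sum_cons]

theorem ab_ofReal_sum {α : Type*} (m : Multiset α) (u : α → ℝ) (h : ∀ x, 0 ≤ u x) :
    (m.map (fun x => ENNReal.ofReal (u x))).sum = ENNReal.ofReal (m.map u).sum := by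
  induction m using Multiset.induction_on with
  | empty => simp
  | cons a m ih =>
    rw [Multiset.map_cons, Multiset.sum_cons, ih, Multiset.map_cons, Multiset.sum_cons,
      ENNReal.ofReal_add (h a)]
    apply Multiset.sum_nonneg
    intro x hx
    obtain ⟨y, -, rfl⟩ := Multiset.mem_map.1 hx
    exact h y

theorem ab_sum_le {α : Type*} (m : Multiset α) (u v : α → ℝ) (h : ∀ x ∈ m, u x ≤ v x) :
    (m.map u).sum ≤ (m.map v).sum := Multiset.sum_map_le_sum_map u v h

theorem ab_sum_pos {α : Type*} (m : Multiset α) (u : α → ℝ) (h : ∀ x ∈ m, 0 < u x)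
    (hm : 0 < Multiset.card m) : 0 < (m.map u).sum := by
  induction m using Multiset.induction_on with
  | empty => simp at hm
  | cons a m ih =>
    rw [Multiset.map_cons, Multiset.sum_cons]
    have h1 : 0 < u a := h a (Multiset.mem_cons_self a m)
    have h2 : 0 ≤ (m.map u).sum := by
      apply Multiset.sum_nonneg
      intro x hx
      obtain ⟨y, hy, rfl⟩ := Multiset.mem_map.1 hx
      exact (h y (Multiset.mem_cons_of_mem hy)).le
    linarith

/-- Jensen's inequality for `log` over a multiset. -/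
theorem ab_jensen {α : Type*} (m : Multiset α) (u : α → ℝ) (h : ∀ x ∈ m, 0 < u x)
    (hm : 0 < Multiset.card m) :
    (m.map (fun x => Real.log (u x))).sum ≤
      Multiset.card m * Real.log ((m.map u).sum / Multiset.card m) := by
  have hs := ab_sum_pos m u h hm
  have hc : (0 : ℝ) < Multiset.card m := by exact_mod_cast hm
  set A := (m.map u).sum / Multiset.card m with hA
  have hApos : 0 < A := div_pos hs hc
  have h1 : (m.map (fun x => Real.log (u x))).sum ≤
      (m.map (fun x => Real.log A - 1 + u x / A)).sum := by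
    apply ab_sum_le
    intro x hx
    have h2 := Real.log_le_sub_one_of_pos (div_pos (h x hx) hApos)
    rw [Real.log_div (h x hx).ne' hApos.ne'] at h2
    linarith
  have h3 : (m.map (fun x => Real.log A - 1 + u x / A)).sum =
      Multiset.card m * (Real.log A - 1) + (m.map u).sum / A := by
    rw [Multiset.sum_map_add, Multiset.map_const', Multiset.sum_replicate, nsmul_eq_mul]
    congr 1
    simp only [div_eq_mul_inv]
    rw [Multiset.sum_map_mul_right]
  have h4 : (m.map u).sum / A = Multiset.card m := by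
    rw [hA]
    field_simp
  rw [h3, h4] at h1
  linarith

/-! ### Mahler measure bound -/

theorem ab_monic (f : NMap ℂ) (y : ℂ) : (f.P - Polynomial.C y * f.Q).Monic := by
  apply f.monic.sub_of_left
  have h0 : f.P ≠ 0 := f.monic.ne_zero
  have hlt := f.deg_lt
  calc (Polynomial.C y * f.Q).degree ≤ f.Q.degree := by
        by_cases hy : y = 0
        · simp [hy]
        · rw [degree_C_mul hy]
    _ < f.P.degree := by
        rw [degree_eq_natDegree f.Q_ne, degree_eq_natDegree h0]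
        exact_mod_cast hlt

/-- Module J2 (Mahler measure). -/
theorem sum_posLog_fiber_le (f : NMap ℂ) :
    ∃ B : ℝ, ∀ y : ℂ, ((f.fiber y).map (fun x => Real.log (max 1 ‖x‖))).sum ≤
      Real.log (max 1 ‖y‖) + B := by
  set N := f.P.natDegree with hN
  set K : ℝ := ∑ i ∈ Finset.range (N + 1), (‖f.P.coeff i‖ + ‖f.Q.coeff i‖) with hK
  have hK1 : 1 ≤ K := by
    have h1 : ‖f.P.coeff N‖ + ‖f.Q.coeff N‖ ≤ K :=
      Finset.single_le_sum (f := fun i => ‖f.P.coeff i‖ + ‖f.Q.coeff i‖)
        (fun i _ => by positivity) (Finset.mem_range.2 (Nat.lt_succ_self N))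
    have h2 : ‖f.P.coeff N‖ = 1 := by
      rw [hN, f.monic.coeff_natDegree]
      simp
    have h3 := norm_nonneg (f.Q.coeff N)
    linarith
  refine ⟨Real.log K, fun y => ?_⟩
  set p := f.P - Polynomial.C y * f.Q with hp
  have hpm : p.Monic := ab_monic f y
  have e1 : ((f.fiber y).map (fun x => Real.log (max 1 ‖x‖))).sum = Real.log p.mahlerMeasure := by
    rw [mahlerMeasure_eq_leadingCoeff_mul_prod_roots, hpm.leadingCoeff, norm_one, one_mul]
    rw [ab_log_prod]
    · rfl
    · intro x _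
      have : (1 : ℝ) ≤ max 1 ‖x‖ := le_max_left _ _
      linarith
  rw [e1]
  have hpos : 0 < p.mahlerMeasure := mahlerMeasure_pos_of_ne_zero hpm.ne_zero
  have hle : p.mahlerMeasure ≤ K * max 1 ‖y‖ := by
    refine (mahlerMeasure_le_sum_norm_coeff p).trans ?_
    have hdeg : p.natDegree < N + 1 := by
      have h1 : p.natDegree ≤ max f.P.natDegree (Polynomial.C y * f.Q).natDegree :=
        natDegree_sub_le _ _
      have h2 : (Polynomial.C y * f.Q).natDegree ≤ f.Q.natDegree := natDegree_C_mul_le _ _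
      have h3 := f.deg_lt
      omega
    rw [Polynomial.sum_over_range' p (fun _ => norm_zero) (N + 1) hdeg, hK, Finset.sum_mul]
    apply Finset.sum_le_sum
    intro i _
    have h1 : p.coeff i = f.P.coeff i - y * f.Q.coeff i := by
      rw [hp, coeff_sub, coeff_C_mul]
    rw [h1]
    have h2 : ‖f.P.coeff i - y * f.Q.coeff i‖ ≤ ‖f.P.coeff i‖ + ‖y‖ * ‖f.Q.coeff i‖ := by
      refine (norm_sub_le _ _).trans ?_
      rw [norm_mul]
    have h3 : (1 : ℝ) ≤ max 1 ‖y‖ := le_max_left _ _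
    have h4 : ‖y‖ ≤ max 1 ‖y‖ := le_max_right _ _
    have h5 := norm_nonneg (f.P.coeff i)
    have h6 := norm_nonneg (f.Q.coeff i)
    nlinarith
  have hmax : (0 : ℝ) < max 1 ‖y‖ := lt_of_lt_of_le one_pos (le_max_left _ _)
  calc Real.log p.mahlerMeasure ≤ Real.log (K * max 1 ‖y‖) := Real.log_le_log hpos hle
    _ = Real.log (max 1 ‖y‖) + Real.log K := by
        rw [Real.log_mul (by linarith) hmax.ne', add_comm]

/-! ### The archimedean bound -/

/-- sum of `log max(1, |x|)` over the `n`-th preimages -/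
noncomputable def abLam (f : NMap ℂ) : ℕ → ℂ → ℝ
  | 0, y => Real.log (max 1 ‖y‖)
  | n + 1, y => ((f.fiber y).map (fun x => abLam f n x)).sum

theorem abLam_le (f : NMap ℂ) : ∃ B : ℝ, 0 ≤ B ∧ ∀ n : ℕ, ∀ y : ℂ,
    abLam f n y ≤ Real.log (max 1 ‖y‖) + B * ((f.d : ℝ) ^ n - 1) := by
  obtain ⟨B0, hB0⟩ := sum_posLog_fiber_le f
  have hd : (2 : ℝ) ≤ f.d := by exact_mod_cast f.two_le
  refine ⟨max B0 0, le_max_right _ _, ?_⟩
  intro n
  induction n with
  | zero => intro y; simp [abLam]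
  | succ n ih =>
    intro y
    have h1 : abLam f (n + 1) y ≤ ((f.fiber y).map (fun x => Real.log (max 1 ‖x‖) +
        max B0 0 * ((f.d : ℝ) ^ n - 1))).sum := ab_sum_le _ _ _ (fun x _ => ih x)
    rw [Multiset.sum_map_add, Multiset.map_const', Multiset.sum_replicate, nsmul_eq_mul,
      card_fiber] at h1
    have h2 := hB0 y
    have h3 : B0 ≤ max B0 0 := le_max_left _ _
    have h4 : 0 ≤ max B0 0 := le_max_right _ _
    have h5 : (f.d : ℝ) * (max B0 0 * ((f.d : ℝ) ^ n - 1)) + max B0 0 ≤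
        max B0 0 * ((f.d : ℝ) ^ (n + 1) - 1) := by
      rw [pow_succ]
      nlinarith
    linarith

/-- the iterated transfer operator, real version -/
noncomputable def abT (f : NMap ℂ) : ℕ → ℂ → ℝ
  | 0, y => ((max 1 ‖y‖)⁻¹) ^ 4
  | n + 1, y => ((f.fiber y).map (fun x => (‖f.der x‖⁻¹) ^ 2 * abT f n x)).sum

theorem abT_nonneg (f : NMap ℂ) (n : ℕ) : ∀ y, 0 ≤ abT f n y := by
  induction n with
  | zero =>
    intro y
    simp only [abT]
    positivity
  | succ n ih =>
    intro y
    simp only [abT]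
    apply Multiset.sum_nonneg
    intro x hx
    obtain ⟨z, -, rfl⟩ := Multiset.mem_map.1 hx
    exact mul_nonneg (sq_nonneg _) (ih z)

theorem abT_tr (f : NMap ℂ) (n : ℕ) :
    (fun y => ENNReal.ofReal (abT f (n + 1) y)) = tr f (fun y => ENNReal.ofReal (abT f n y)) := by
  funext y
  simp only [abT, tr]
  rw [← ab_ofReal_sum _ _ (fun x => mul_nonneg (sq_nonneg _) (abT_nonneg f n x))]
  congr 1
  apply Multiset.map_congr rfl
  intro x _
  rw [ENNReal.ofReal_mul (sq_nonneg _)]

theorem abT_measurable (f : NMap ℂ) (n : ℕ) :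
    Measurable (fun y => ENNReal.ofReal (abT f n y)) := by
  induction n with
  | zero =>
    simp only [abT]
    have : Continuous (fun y : ℂ => ((max 1 ‖y‖)⁻¹) ^ 4) := by
      apply Continuous.pow
      apply Continuous.inv₀ (by fun_prop)
      intro x
      have : (1 : ℝ) ≤ max 1 ‖x‖ := le_max_left _ _
      linarith
    exact this.measurable.ennreal_ofReal
  | succ n ih =>
    rw [abT_tr]
    exact tr_measurable f _ ih

theorem abT_lintegral_le (f : NMap ℂ) (n : ℕ) :
    ∫⁻ y, ENNReal.ofReal (abT f n y) ≤ ∫⁻ y, ENNReal.ofReal (abT f 0 y) := by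
  induction n with
  | zero => exact le_rfl
  | succ n ih =>
    rw [abT_tr]
    exact (lintegral_tr_le f _ (abT_measurable f n)).trans ih

theorem abT_zero_finite (f : NMap ℂ) : ∫⁻ y, ENNReal.ofReal (abT f 0 y) < ∞ := by
  have h := finite_integral_one_add_norm (E := ℂ) (μ := volume) (r := 4)
    (by rw [Complex.finrank_real_complex]; norm_num)
  have h2 : ∫⁻ y, ENNReal.ofReal (abT f 0 y) ≤
      ∫⁻ y : ℂ, ENNReal.ofReal 16 * ENNReal.ofReal ((1 + ‖y‖) ^ (-(4 : ℝ))) := by
    apply lintegral_mono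
    intro y
    show ENNReal.ofReal (abT f 0 y) ≤ ENNReal.ofReal 16 * ENNReal.ofReal ((1 + ‖y‖) ^ (-(4 : ℝ)))
    rw [← ENNReal.ofReal_mul (by norm_num)]
    apply ENNReal.ofReal_le_ofReal
    simp only [abT]
    have h3 : (1 : ℝ) ≤ max 1 ‖y‖ := le_max_left _ _
    have h4 : ‖y‖ ≤ max 1 ‖y‖ := le_max_right _ _
    have h5 : (1 + ‖y‖) ^ (-(4 : ℝ)) = ((1 + ‖y‖)⁻¹) ^ 4 := by
      rw [Real.rpow_neg (by positivity), inv_pow]
      norm_cast
    rw [h5]
    have h6 : (max 1 ‖y‖)⁻¹ ≤ 2 * (1 + ‖y‖)⁻¹ := by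
      have hp : 0 < 1 + ‖y‖ := by positivity
      have hq : 0 < max 1 ‖y‖ := by linarith
      rw [← div_eq_mul_inv, inv_eq_one_div, div_le_div_iff₀ hq hp]
      linarith
    calc ((max 1 ‖y‖)⁻¹) ^ 4 ≤ (2 * (1 + ‖y‖)⁻¹) ^ 4 := by
          apply pow_le_pow_left₀ (by positivity) h6
      _ = 16 * ((1 + ‖y‖)⁻¹) ^ 4 := by ring
  refine lt_of_le_of_lt h2 ?_
  rw [lintegral_const_mul' _ _ ENNReal.ofReal_ne_top]
  exact ENNReal.mul_lt_top ENNReal.ofReal_lt_top h

/-- points of the fibre over a good point are good -/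
theorem ab_good (f : NMap ℂ) (S : Set ℂ) (hS : f.CritSet S) (y : ℂ) (hy : y ∉ S) (x : ℂ)
    (hx : x ∈ f.fiber y) : x ∉ S ∧ f.der x ≠ 0 := by
  obtain ⟨h1, h2⟩ := (mem_fiber f x y).1 hx
  refine ⟨?_, ?_⟩
  · intro hxS
    apply hy
    rw [← h2]
    exact hS.2 x hxS h1
  · intro h0
    have h3 : f.W.eval x = 0 := by
      unfold NMap.der at h0
      rcases div_eq_zero_iff.1 h0 with h | h
      · exact h
      · exact absurd (pow_eq_zero_iff (two_ne_zero) |>.1 h) h1
    apply hy
    rw [← h2]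
    exact hS.1 x h3 h1

theorem ab_DD_ne (f : NMap ℂ) (S : Set ℂ) (hS : f.CritSet S) (n : ℕ) :
    ∀ y, y ∉ S → f.DD n y ≠ 0 := by
  induction n with
  | zero => intro y _; simp [NMap.DD]
  | succ n ih =>
    intro y hy
    simp only [NMap.DD]
    rw [Ne, Multiset.prod_eq_zero_iff]
    intro h0
    obtain ⟨x, hx, hx0⟩ := Multiset.mem_map.1 h0
    obtain ⟨g1, g2⟩ := ab_good f S hS y hy x hx
    rcases mul_eq_zero.1 hx0 with h | h
    · exact ih x g1 h
    · exact g2 (eq_zero_of_pow_eq_zero h)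

theorem abT_pos (f : NMap ℂ) (S : Set ℂ) (hS : f.CritSet S) (n : ℕ) :
    ∀ y, y ∉ S → 0 < abT f n y := by
  induction n with
  | zero =>
    intro y _
    simp only [abT]
    have : (1 : ℝ) ≤ max 1 ‖y‖ := le_max_left _ _
    positivity
  | succ n ih =>
    intro y hy
    simp only [abT]
    apply ab_sum_pos
    · intro x hx
      obtain ⟨g1, g2⟩ := ab_good f S hS y hy x hx
      have := norm_pos_iff.2 g2
      have := ih x g1
      positivity
    · rw [card_fiber]
      have := f.two_le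
      unfold NMap.d
      omega

theorem ab_log_norm_prod (m : Multiset ℂ) (u : ℂ → ℂ) (h : ∀ x ∈ m, u x ≠ 0) :
    Real.log ‖(m.map u).prod‖ = (m.map (fun x => Real.log ‖u x‖)).sum := by
  have e : ‖(m.map u).prod‖ = (m.map (fun x => ‖u x‖)).prod := by
    clear h
    induction m using Multiset.induction_on with
    | empty => simp
    | cons a t ih => rw [Multiset.map_cons, Multiset.map_cons, Multiset.prod_cons,
        Multiset.prod_cons, norm_mul, ih]
  rw [e, ab_log_prod _ _ (fun x hx => norm_ne_zero_iff.2 (h x hx))]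

theorem ab_main (f : NMap ℂ) (S : Set ℂ) (hS : f.CritSet S) (n : ℕ) :
    ∀ y, y ∉ S → -2 * Real.log ‖f.DD n y‖ - 4 * abLam f n y ≤
      (f.d : ℝ) ^ n * Real.log (abT f n y / (f.d : ℝ) ^ n) := by
  have hd : (2 : ℝ) ≤ f.d := by exact_mod_cast f.two_le
  have hd0 : (0 : ℝ) < f.d := by linarith
  induction n with
  | zero =>
    intro y _
    simp only [NMap.DD, abLam, abT, pow_zero, div_one, one_mul, norm_one, Real.log_one]
    rw [Real.log_pow, Real.log_inv]
    push_cast
    linarith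
  | succ n ih =>
    intro y hy
    have hgood := fun x hx => ab_good f S hS y hy x hx
    have hcard : Multiset.card (f.fiber y) = f.d := card_fiber f y
    have hcpos : 0 < Multiset.card (f.fiber y) := by
      rw [hcard]
      exact_mod_cast hd0
    -- the left hand side
    have e1 : Real.log ‖f.DD (n + 1) y‖ =
        ((f.fiber y).map (fun x => Real.log ‖f.DD n x‖ + (f.d : ℝ) ^ n * Real.log ‖f.der x‖)).sum := by
      simp only [NMap.DD]
      rw [ab_log_norm_prod]
      · congr 1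
        apply Multiset.map_congr rfl
        intro x hx
        obtain ⟨g1, g2⟩ := hgood x hx
        rw [norm_mul, norm_pow, Real.log_mul (norm_ne_zero_iff.2 (ab_DD_ne f S hS n x g1))
          (pow_ne_zero _ (norm_ne_zero_iff.2 g2)), Real.log_pow]
        push_cast
        rfl
      · intro x hx
        obtain ⟨g1, g2⟩ := hgood x hx
        exact mul_ne_zero (ab_DD_ne f S hS n x g1) (pow_ne_zero _ g2)
    have e2 : -2 * Real.log ‖f.DD (n + 1) y‖ - 4 * abLam f (n + 1) y =
        ((f.fiber y).map (fun x => (-2 * Real.log ‖f.DD n x‖ - 4 * abLam f n x) -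
          2 * (f.d : ℝ) ^ n * Real.log ‖f.der x‖)).sum := by
      rw [e1]
      simp only [abLam]
      rw [← Multiset.sum_map_mul_left, ← Multiset.sum_map_mul_left, ← Multiset.sum_map_sub]
      congr 1
      apply Multiset.map_congr rfl
      intro x _
      ring
    rw [e2]
    have hu : ∀ x ∈ f.fiber y, 0 < (‖f.der x‖⁻¹) ^ 2 * abT f n x / (f.d : ℝ) ^ n := by
      intro x hx
      obtain ⟨g1, g2⟩ := hgood x hx
      have h1 := norm_pos_iff.2 g2
      have h2 := abT_pos f S hS n x g1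
      positivity
    have s1 : ((f.fiber y).map (fun x => (-2 * Real.log ‖f.DD n x‖ - 4 * abLam f n x) -
          2 * (f.d : ℝ) ^ n * Real.log ‖f.der x‖)).sum ≤
        ((f.fiber y).map (fun x => (f.d : ℝ) ^ n *
          Real.log ((‖f.der x‖⁻¹) ^ 2 * abT f n x / (f.d : ℝ) ^ n))).sum := by
      apply ab_sum_le
      intro x hx
      obtain ⟨g1, g2⟩ := hgood x hx
      have h1 := norm_pos_iff.2 g2
      have h2 := abT_pos f S hS n x g1
      have h3 := ih x g1
      have h4 : Real.log ((‖f.der x‖⁻¹) ^ 2 * abT f n x / (f.d : ℝ) ^ n) =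
          -2 * Real.log ‖f.der x‖ + Real.log (abT f n x / (f.d : ℝ) ^ n) := by
        rw [mul_div_assoc, Real.log_mul (by positivity) (by positivity), Real.log_pow,
          Real.log_inv]
        push_cast
        ring
      rw [h4]
      linarith
    refine s1.trans ?_
    rw [Multiset.sum_map_mul_left]
    have s2 := ab_jensen (f.fiber y)
      (fun x => (‖f.der x‖⁻¹) ^ 2 * abT f n x / (f.d : ℝ) ^ n) hu hcpos
    have s3 : ((f.fiber y).map (fun x => (‖f.der x‖⁻¹) ^ 2 * abT f n x / (f.d : ℝ) ^ n)).sum /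
        Multiset.card (f.fiber y) = abT f (n + 1) y / (f.d : ℝ) ^ (n + 1) := by
      rw [hcard]
      simp only [abT, div_eq_mul_inv]
      rw [Multiset.sum_map_mul_right, pow_succ, mul_inv, mul_assoc]
    rw [s3, hcard] at s2
    calc (f.d : ℝ) ^ n * ((f.fiber y).map (fun x =>
          Real.log ((‖f.der x‖⁻¹) ^ 2 * abT f n x / (f.d : ℝ) ^ n))).sum
        ≤ (f.d : ℝ) ^ n * (f.d * Real.log (abT f (n + 1) y / (f.d : ℝ) ^ (n + 1))) :=
          mul_le_mul_of_nonneg_left s2 (by positivity)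
      _ = (f.d : ℝ) ^ (n + 1) * Real.log (abT f (n + 1) y / (f.d : ℝ) ^ (n + 1)) := by
          rw [pow_succ]; ring

/-- a good point in the unit disc -/
theorem ab_exists_point (f : NMap ℂ) (S : Set ℂ) (hSf : S.Finite) :
    ∃ K : ℝ, 1 ≤ K ∧ ∀ n : ℕ, ∃ y : ℂ, y ∉ S ∧ ‖y‖ ≤ 1 ∧ abT f n y ≤ K := by
  set C0 := ∫⁻ y, ENNReal.ofReal (abT f 0 y) with hC0
  have hC0f : C0 < ∞ := abT_zero_finite f
  set V := (volume : Measure ℂ) (Metric.ball 0 1) with hV
  have hVpos : 0 < V := Metric.measure_ball_pos _ _ one_pos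
  have hVfin : V < ∞ := measure_ball_lt_top
  have hdiv : C0 / V < ∞ := ENNReal.div_lt_top hC0f.ne hVpos.ne'
  refine ⟨(C0 / V).toReal + 1, by have := ENNReal.toReal_nonneg (a := C0 / V); linarith, ?_⟩
  intro n
  by_contra hcon
  push Not at hcon
  have h1 : ∀ y ∈ Metric.ball (0 : ℂ) 1 \ S, C0 / V + 1 ≤ ENNReal.ofReal (abT f n y) := by
    intro y hy
    have h2 := hcon y hy.2 (by
      have := hy.1
      rw [mem_ball_zero_iff] at this
      exact this.le)
    have h3 : C0 / V + 1 = ENNReal.ofReal ((C0 / V).toReal + 1) := by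
      rw [ENNReal.ofReal_add ENNReal.toReal_nonneg zero_le_one, ENNReal.ofReal_toReal hdiv.ne,
        ENNReal.ofReal_one]
    rw [h3]
    exact ENNReal.ofReal_le_ofReal h2.le
  have hms : MeasurableSet (Metric.ball (0 : ℂ) 1 \ S) :=
    measurableSet_ball.diff hSf.measurableSet
  have h4 : (C0 / V + 1) * V ≤ C0 := by
    calc (C0 / V + 1) * V = (C0 / V + 1) * volume (Metric.ball (0 : ℂ) 1 \ S) := by
          rw [measure_diff_null (hSf.measure_zero _)]
      _ = ∫⁻ _ in Metric.ball (0 : ℂ) 1 \ S, (C0 / V + 1) := by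
          rw [setLIntegral_const]
      _ ≤ ∫⁻ y in Metric.ball (0 : ℂ) 1 \ S, ENNReal.ofReal (abT f n y) :=
          setLIntegral_mono' hms h1
      _ ≤ ∫⁻ y, ENNReal.ofReal (abT f n y) := setLIntegral_le_lintegral _ _
      _ ≤ C0 := abT_lintegral_le f n
  rw [add_mul, one_mul, ENNReal.div_mul_cancel hVpos.ne' hVfin.ne] at h4
  have h5 : C0 < C0 + V := ENNReal.lt_add_right hC0f.ne hVpos.ne'
  exact absurd h4 (not_le.2 h5)

/-- Module J (archimedean lower bound). -/
theorem arch_bound (f : NMap ℂ) (S : Set ℂ) (hSf : S.Finite) (hS : f.CritSet S) (a : ℂ)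
    (ha : a ∉ S) :
    ∃ B : ℝ, ∀ n : ℕ, (f.d : ℝ) ^ n * (n / 2 * Real.log f.d - B) ≤ Real.log ‖f.DD n a‖ := by
  have hd : (2 : ℝ) ≤ f.d := by exact_mod_cast f.two_le
  have hd0 : (0 : ℝ) < f.d := by linarith
  obtain ⟨B1, hB1, hlam⟩ := abLam_le f
  obtain ⟨K, hK1, hpt⟩ := ab_exists_point f S hSf
  obtain ⟨G, -, hform⟩ := DD_formula f S hSf hS
  -- bound for the transfer
  have hbd : ∃ c : ℝ, 0 ≤ c ∧ ∀ s ∈ S, Real.log (‖s‖ + 1) - Real.log ‖s - a‖ ≤ c := by
    obtain ⟨c, hc⟩ := (hSf.image (fun s => Real.log (‖s‖ + 1) - Real.log ‖s - a‖)).bddAbove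
    refine ⟨max c 0, le_max_right _ _, fun s hs => ?_⟩
    exact (hc ⟨s, hs, rfl⟩).trans (le_max_left _ _)
  obtain ⟨c, hc0, hc⟩ := hbd
  refine ⟨Real.log K / 2 + 2 * B1 + 2 * f.d * c, fun n => ?_⟩
  obtain ⟨y, hyS, hy1, hyK⟩ := hpt n
  have hTpos := abT_pos f S hS n y hyS
  have hdn : (0 : ℝ) < (f.d : ℝ) ^ n := by positivity
  have h1 := ab_main f S hS n y hyS
  have h2 := hlam n y
  have h3 : Real.log (max 1 ‖y‖) = 0 := by rw [max_eq_left hy1, Real.log_one]
  have h4 : Real.log (abT f n y / (f.d : ℝ) ^ n) ≤ Real.log K - n * Real.log f.d := by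
    rw [Real.log_div hTpos.ne' hdn.ne', Real.log_pow]
    have := Real.log_le_log hTpos hyK
    linarith
  have h5 : (f.d : ℝ) ^ n * Real.log (abT f n y / (f.d : ℝ) ^ n) ≤
      (f.d : ℝ) ^ n * (Real.log K - n * Real.log f.d) :=
    mul_le_mul_of_nonneg_left h4 hdn.le
  -- transfer
  obtain ⟨κ, -, M, hM, hMc, hDD⟩ := hform n
  have hκ : ((κ : ℂˣ) : ℂ) ≠ 0 := κ.ne_zero
  have hlog : ∀ z : ℂ, z ∉ S → Real.log ‖f.DD n z‖ = Real.log ‖(κ : ℂ)‖ +
      (M.map (fun s => Real.log ‖s - z‖)).sum := by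
    intro z hz
    have hne : ∀ s ∈ M, s - z ≠ 0 := by
      intro s hs h0
      apply hz
      rw [← sub_eq_zero.1 h0]
      exact hM s hs
    have hne' : (M.map (fun s => s - z)).prod ≠ 0 := by
      rw [Ne, Multiset.prod_eq_zero_iff]
      intro h0
      obtain ⟨x, hx, hx0⟩ := Multiset.mem_map.1 h0
      exact hne x hx hx0
    rw [hDD z, norm_mul, Real.log_mul (norm_ne_zero_iff.2 hκ) (norm_ne_zero_iff.2 hne'),
      ab_log_norm_prod _ _ hne]
  have h6 : Real.log ‖f.DD n y‖ - Real.log ‖f.DD n a‖ ≤ Multiset.card M * c := by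
    rw [hlog y hyS, hlog a ha]
    have e : (M.map (fun s => Real.log ‖s - y‖)).sum ≤
        (M.map (fun s => Real.log ‖s - a‖ + c)).sum := by
      apply ab_sum_le
      intro s hs
      have hsS := hM s hs
      have h7 := hc s hsS
      have h8 : 0 < ‖s - y‖ := by
        rw [norm_pos_iff]
        intro h0
        apply hyS
        rw [← sub_eq_zero.1 h0]
        exact hsS
      have h9 : ‖s - y‖ ≤ ‖s‖ + 1 := (norm_sub_le _ _).trans (by linarith)
      have h10 := Real.log_le_log h8 h9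
      linarith
    rw [Multiset.sum_map_add, Multiset.map_const', Multiset.sum_replicate, nsmul_eq_mul] at e
    linarith
  have h7 : (Multiset.card M : ℝ) ≤ 2 * f.d * (f.d : ℝ) ^ n := by exact_mod_cast hMc
  have h8 : (Multiset.card M : ℝ) * c ≤ 2 * f.d * (f.d : ℝ) ^ n * c :=
    mul_le_mul_of_nonneg_right h7 hc0
  rw [h3] at h2
  nlinarith [h1, h2, h5, h6, h8, hB1, hdn]

end Pool.Agent.H.MP_392fd3_nt
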