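import Pool.Agent.H.MP_392fd3_nt.Formula

set_option autoImplicit false

open Polynomial

namespace Pool.Agent.H.MP_392fd3_nt

theorem chain_log_prod {k : Type*} [NormedField k] (M : Multiset k) (g : k → k)
    (h : ∀ x ∈ M, g x ≠ 0) :
    Real.log ‖(M.map g).prod‖ = (M.map (fun x => Real.log ‖g x‖)).sum := by
  induction M using Multiset.induction_on with
  | empty => simp
  | cons a M ih =>
    have ha := h a (Multiset.mem_cons_self a M)
    have hM := ih (fun x hx => h x (Multiset.mem_cons_of_mem hx))
    have hp : (M.map g).prod ≠ 0 := by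
      intro h0
      rw [Multiset.prod_eq_zero_iff, Multiset.mem_map] at h0
      obtain ⟨x, hx, hx0⟩ := h0
      exact h x (Multiset.mem_cons_of_mem hx) hx0
    rw [Multiset.map_cons, Multiset.map_cons, Multiset.prod_cons, Multiset.sum_cons, norm_mul,
      Real.log_mul (norm_ne_zero_iff.mpr ha) (norm_ne_zero_iff.mpr hp), hM]

theorem chain_exists_le (M : Multiset ℝ) (hM : 0 < Multiset.card M) :
    ∃ x ∈ M, (Multiset.card M : ℝ) * x ≤ M.sum := by
  by_contra hcon
  push Not at hcon
  have h : ∀ N : Multiset ℝ, (∀ x ∈ N, M.sum < (Multiset.card M : ℝ) * x) →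
      (Multiset.card N : ℝ) * M.sum ≤ (Multiset.card M : ℝ) * N.sum ∧
      (0 < Multiset.card N → (Multiset.card N : ℝ) * M.sum < (Multiset.card M : ℝ) * N.sum) := by
    intro N
    induction N using Multiset.induction_on with
    | empty => simp
    | cons a N ih =>
      intro hN
      have h1 := hN a (Multiset.mem_cons_self a N)
      have h2 := (ih (fun x hx => hN x (Multiset.mem_cons_of_mem hx))).1
      rw [Multiset.card_cons, Multiset.sum_cons]
      push_cast
      constructor
      · nlinarith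
      · intro _
        nlinarith
  exact lt_irrefl _ ((h M hcon).2 hM)

/-- Module G (a backward chain along which the derivative is at least as small as on average). -/
theorem exists_chain {k : Type*} [NormedField k] [IsAlgClosed k] (f : NMap k) (e : k) (n : ℕ)
    (y : k) (hD : f.DD n y ≠ 0) (hE : f.EE e n y ≠ 0) :
    ∃ c : ℕ → k, c 0 = y ∧ (∀ j < n, c (j + 1) ∈ f.fiber (c j)) ∧
      (∀ j < n, f.der (c (j + 1)) ≠ 0) ∧ e ≠ c n ∧
      (Real.log ‖f.DD n y‖ + Real.log ‖f.EE e n y‖) / (f.d : ℝ) ^ n ≥
        (∑ j ∈ Finset.range n, Real.log ‖f.der (c (j + 1))‖) + Real.log ‖e - c n‖ := by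
  have hd : 2 ≤ f.d := f.two_le
  have hdR : (2 : ℝ) ≤ f.d := by exact_mod_cast hd
  induction n generalizing y with
  | zero =>
    refine ⟨fun _ => y, rfl, by simp, by simp, ?_, ?_⟩
    · intro h
      apply hE
      show e - y = 0
      rw [h, sub_self]
    · have h1 : f.DD 0 y = 1 := rfl
      have h2 : f.EE e 0 y = e - y := rfl
      rw [h1, h2]
      simp
  | succ n ih =>
    have hD' : f.DD (n + 1) y = ((f.fiber y).map (fun x => f.DD n x * (f.der x) ^ (f.d ^ n))).prod :=
      rfl
    have hE' : f.EE e (n + 1) y = ((f.fiber y).map (fun x => f.EE e n x)).prod := rfl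
    have hDx : ∀ x ∈ f.fiber y, f.DD n x * (f.der x) ^ (f.d ^ n) ≠ 0 := by
      intro x hx h0
      apply hD
      rw [hD', Multiset.prod_eq_zero_iff, Multiset.mem_map]
      exact ⟨x, hx, h0⟩
    have hEx : ∀ x ∈ f.fiber y, f.EE e n x ≠ 0 := by
      intro x hx h0
      apply hE
      rw [hE', Multiset.prod_eq_zero_iff, Multiset.mem_map]
      exact ⟨x, hx, h0⟩
    have hder : ∀ x ∈ f.fiber y, f.der x ≠ 0 := by
      intro x hx h0
      apply hDx x hx
      rw [h0, zero_pow (by positivity), mul_zero]
    set L : k → ℝ := fun x => Real.log ‖f.DD n x * (f.der x) ^ (f.d ^ n)‖ +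
      Real.log ‖f.EE e n x‖ with hL
    have hsum : Real.log ‖f.DD (n + 1) y‖ + Real.log ‖f.EE e (n + 1) y‖ =
        ((f.fiber y).map L).sum := by
      rw [hD', hE', chain_log_prod _ _ hDx, chain_log_prod _ _ hEx, ← Multiset.sum_map_add]
    have hcard := card_fiber f y
    obtain ⟨v, hv, hle⟩ := chain_exists_le ((f.fiber y).map L) (by
      rw [Multiset.card_map, hcard]
      omega)
    obtain ⟨x, hx, rfl⟩ := Multiset.mem_map.mp hv
    rw [Multiset.card_map, hcard, ← hsum] at hle
    have hDn : f.DD n x ≠ 0 := left_ne_zero_of_mul (hDx x hx)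
    obtain ⟨c, hc0, hc1, hc2, hc3, hc4⟩ := ih x hDn (hEx x hx)
    refine ⟨fun j => Nat.casesOn j y c, rfl, ?_, ?_, hc3, ?_⟩
    · intro j hj
      cases j with
      | zero =>
        show c 0 ∈ f.fiber y
        rw [hc0]
        exact hx
      | succ j => exact hc1 j (by omega)
    · intro j hj
      cases j with
      | zero =>
        show f.der (c 0) ≠ 0
        rw [hc0]
        exact hder x hx
      | succ j => exact hc2 j (by omega)
    · rw [Finset.sum_range_succ']
      show _ ≥ (∑ j ∈ Finset.range n, Real.log ‖f.der (c (j + 1))‖) + Real.log ‖f.der (c 0)‖ +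
        Real.log ‖e - c n‖
      rw [hc0]
      have hpos : (0 : ℝ) < (f.d : ℝ) ^ n := by positivity
      have e1 : L x = Real.log ‖f.DD n x‖ + (f.d : ℝ) ^ n * Real.log ‖f.der x‖ +
          Real.log ‖f.EE e n x‖ := by
        simp only [hL]
        rw [norm_mul, norm_pow, Real.log_mul (norm_ne_zero_iff.mpr hDn)
          (pow_ne_zero _ (norm_ne_zero_iff.mpr (hder x hx))), Real.log_pow]
        push_cast
        ring
      have h5 : (Real.log ‖f.DD (n + 1) y‖ + Real.log ‖f.EE e (n + 1) y‖) / (f.d : ℝ) ^ (n + 1) ≥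
          L x / (f.d : ℝ) ^ n := by
        rw [ge_iff_le, div_le_div_iff₀ hpos (by positivity), pow_succ]
        nlinarith
      have h6 : L x / (f.d : ℝ) ^ n = (Real.log ‖f.DD n x‖ + Real.log ‖f.EE e n x‖) /
          (f.d : ℝ) ^ n + Real.log ‖f.der x‖ := by
        rw [e1]
        field_simp
        ring
      rw [h6] at h5
      linarith

end Pool.Agent.H.MP_392fd3_nt
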