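import Pool.Agent.H.MP_392fd3_nt.Defs

set_option autoImplicit false

open Polynomial

namespace Pool.Agent.H.MP_392fd3_nt

theorem formula_monic {k : Type*} [Field k] (f : NMap k) (y : k) :
    (f.P - Polynomial.C y * f.Q).Monic := by
  refine f.monic.sub_of_left ?_
  exact degree_lt_degree (lt_of_le_of_lt (natDegree_C_mul_le y f.Q) f.deg_lt)

theorem formula_natDegree {k : Type*} [Field k] (f : NMap k) (y : k) :
    (f.P - Polynomial.C y * f.Q).natDegree = f.d := by
  refine natDegree_sub_eq_left_of_natDegree_lt ?_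
  exact lt_of_le_of_lt (natDegree_C_mul_le y f.Q) f.deg_lt

/-- every fibre has `d` points -/
theorem card_fiber {k : Type*} [Field k] [IsAlgClosed k] (f : NMap k) (y : k) :
    Multiset.card (f.fiber y) = f.d := by
  unfold NMap.fiber
  rw [IsAlgClosed.card_roots_eq_natDegree, formula_natDegree]

theorem formula_P_ne {k : Type*} [Field k] (f : NMap k) (x : k) (hx : f.Q.eval x = 0) :
    f.P.eval x ≠ 0 := by
  intro hP
  obtain ⟨u, v, huv⟩ := f.cop
  have h := congrArg (Polynomial.eval x) huv
  simp [hP, hx] at h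

/-- membership in the fibre -/
theorem mem_fiber {k : Type*} [Field k] (f : NMap k) (x y : k) :
    x ∈ f.fiber y ↔ f.Q.eval x ≠ 0 ∧ f.val x = y := by
  unfold NMap.fiber NMap.val
  rw [mem_roots (formula_monic f y).ne_zero]
  simp only [IsRoot, eval_sub, eval_mul, eval_C]
  constructor
  · intro h
    have hQ : f.Q.eval x ≠ 0 := by
      intro hQ
      rw [hQ, mul_zero, sub_zero] at h
      exact formula_P_ne f x hQ h
    refine ⟨hQ, ?_⟩
    rw [div_eq_iff hQ]
    exact sub_eq_zero.mp h
  · rintro ⟨hQ, h⟩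
    rw [div_eq_iff hQ] at h
    rw [h, sub_self]

/-- K1 -/
theorem prod_fiber_sub {k : Type*} [Field k] [IsAlgClosed k] (f : NMap k) (a y : k) :
    ((f.fiber y).map (fun x => a - x)).prod = f.P.eval a - y * f.Q.eval a := by
  have h := (IsAlgClosed.splits (f.P - Polynomial.C y * f.Q)).eval_eq_prod_roots_of_monic
    (formula_monic f y) a
  rw [eval_sub, eval_mul, eval_C] at h
  rw [h]
  rfl

/-- functions of the form `κ ∏ (a - y)` -/
def formula_Form {k : Type*} [Field k] (U : Subgroup kˣ) (S : Set k) (N : ℕ) (Ψ : k → k) : Prop :=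
  ∃ κ ∈ U, ∃ M : Multiset k, (∀ a ∈ M, a ∈ S) ∧ Multiset.card M ≤ N ∧
    ∀ y : k, Ψ y = ((κ : kˣ) : k) * (M.map (fun a => a - y)).prod

theorem formula_form_mono {k : Type*} [Field k] {U : Subgroup kˣ} {S : Set k} {N N' : ℕ}
    {Ψ : k → k} (h : formula_Form U S N Ψ) (hN : N ≤ N') : formula_Form U S N' Ψ := by
  obtain ⟨κ, hκ, M, hM, hc, hy⟩ := h
  exact ⟨κ, hκ, M, hM, hc.trans hN, hy⟩

theorem formula_form_one {k : Type*} [Field k] (U : Subgroup kˣ) (S : Set k) :
    formula_Form U S 0 (fun _ => 1) :=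
  ⟨1, U.one_mem, 0, by simp, by simp, by simp⟩

theorem formula_form_const {k : Type*} [Field k] (U : Subgroup kˣ) (S : Set k) (κ : kˣ)
    (hκ : κ ∈ U) : formula_Form U S 0 (fun _ => (κ : k)) :=
  ⟨κ, hκ, 0, by simp, by simp, by simp⟩

theorem formula_form_mul {k : Type*} [Field k] {U : Subgroup kˣ} {S : Set k} {N N' : ℕ}
    {Ψ Ψ' : k → k} (h : formula_Form U S N Ψ) (h' : formula_Form U S N' Ψ') :
    formula_Form U S (N + N') (fun y => Ψ y * Ψ' y) := by
  obtain ⟨κ, hκ, M, hM, hc, hy⟩ := h
  obtain ⟨κ', hκ', M', hM', hc', hy'⟩ := h'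
  refine ⟨κ * κ', U.mul_mem hκ hκ', M + M', ?_, ?_, ?_⟩
  · intro a ha
    rcases Multiset.mem_add.mp ha with ha | ha
    · exact hM a ha
    · exact hM' a ha
  · rw [Multiset.card_add]
    exact Nat.add_le_add hc hc'
  · intro y
    simp only [hy, hy', Units.val_mul, Multiset.map_add, Multiset.prod_add]
    ring

theorem formula_form_pow {k : Type*} [Field k] {U : Subgroup kˣ} {S : Set k} {N : ℕ}
    {Ψ : k → k} (h : formula_Form U S N Ψ) (m : ℕ) :
    formula_Form U S (N * m) (fun y => Ψ y ^ m) := by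
  induction m with
  | zero => simpa using formula_form_one U S
  | succ m ih =>
    have := formula_form_mul ih h
    simpa [pow_succ, Nat.mul_succ] using this

/-- the product of `P(c) - y Q(c)` over a multiset of points -/
theorem formula_form_T {k : Type*} [Field k] (f : NMap k) (U : Subgroup kˣ) (S : Set k)
    (T : Multiset k) (hS : ∀ c ∈ T, f.Q.eval c ≠ 0 → f.val c ∈ S)
    (hQ : ∀ c ∈ T, ∀ u : kˣ, (u : k) = f.Q.eval c → u ∈ U)
    (hP : ∀ c ∈ T, ∀ u : kˣ, (u : k) = f.P.eval c → u ∈ U) :
    formula_Form U S (Multiset.card T)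
      (fun y => (T.map (fun c => f.P.eval c - y * f.Q.eval c)).prod) := by
  induction T using Multiset.induction_on with
  | empty => simpa using formula_form_one U S
  | cons c T ih =>
    have ih' := ih (fun a ha => hS a (Multiset.mem_cons_of_mem ha))
      (fun a ha => hQ a (Multiset.mem_cons_of_mem ha))
      (fun a ha => hP a (Multiset.mem_cons_of_mem ha))
    have hc : formula_Form U S 1 (fun y => f.P.eval c - y * f.Q.eval c) := by
      by_cases hQc : f.Q.eval c = 0
      · have hPc := formula_P_ne f c hQc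
        refine formula_form_mono (N := 0) ?_ (Nat.zero_le _)
        have := formula_form_const U S (Units.mk0 _ hPc)
          (hP c (Multiset.mem_cons_self c T) _ rfl)
        simpa [hQc] using this
      · refine ⟨Units.mk0 _ hQc, hQ c (Multiset.mem_cons_self c T) _ rfl, {f.val c}, ?_, ?_, ?_⟩
        · intro a ha
          rw [Multiset.mem_singleton] at ha
          rw [ha]
          exact hS c (Multiset.mem_cons_self c T) hQc
        · simp
        · intro y
          simp only [Units.val_mk0, Multiset.map_singleton, Multiset.prod_singleton, NMap.val]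
          field_simp
    have := formula_form_mul hc ih'
    simpa [Nat.add_comm] using this

/-- REC -/
theorem formula_rec {k : Type*} [Field k] [IsAlgClosed k] (f : NMap k) (U : Subgroup kˣ)
    (S : Set k) (hS : ∀ c ∈ S, f.Q.eval c ≠ 0 → f.val c ∈ S)
    (hQ : ∀ c ∈ S, ∀ u : kˣ, (u : k) = f.Q.eval c → u ∈ U)
    (hP : ∀ c ∈ S, ∀ u : kˣ, (u : k) = f.P.eval c → u ∈ U) (N : ℕ) (Ψ : k → k)
    (h : formula_Form U S N Ψ) :
    formula_Form U S N (fun y => ((f.fiber y).map Ψ).prod) := by
  obtain ⟨κ, hκ, M, hM, hc, hy⟩ := h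
  have h1 := formula_form_mul (formula_form_const U S (κ ^ f.d) (U.pow_mem hκ _))
    (formula_form_T f U S M (fun c hc => hS c (hM c hc)) (fun c hc => hQ c (hM c hc))
      (fun c hc => hP c (hM c hc)))
  rw [zero_add] at h1
  refine formula_form_mono ?_ hc
  convert h1 using 2 with y
  have : Ψ = fun x => (κ : k) * (M.map (fun a => a - x)).prod := funext hy
  rw [this, Multiset.prod_map_mul, Multiset.map_const', Multiset.prod_replicate, card_fiber,
    Multiset.prod_map_prod_map]
  simp only [Units.val_pow_eq_pow_val]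
  congr 2
  refine Multiset.map_congr rfl (fun a _ => ?_)
  exact prod_fiber_sub f a y

theorem formula_eval {k : Type*} [Field k] [IsAlgClosed k] (R : k[X]) (x : k) :
    R.eval x = (R.leadingCoeff * (-1) ^ R.natDegree) * (R.roots.map (fun c => c - x)).prod := by
  have h := (IsAlgClosed.splits R).eval_eq_prod_roots x
  rw [h, mul_assoc]
  congr 1
  have : R.roots.map (fun a => x - a) = R.roots.map (fun a => -1 * (a - x)) := by
    refine Multiset.map_congr rfl (fun a _ => ?_)
    ring
  rw [this, Multiset.prod_map_mul, Multiset.map_const', Multiset.prod_replicate,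
    IsAlgClosed.card_roots_eq_natDegree]

theorem formula_prod_eval {k : Type*} [Field k] [IsAlgClosed k] (f : NMap k) (R : k[X]) (y : k) :
    ((f.fiber y).map (fun x => R.eval x)).prod = (R.leadingCoeff * (-1) ^ R.natDegree) ^ f.d *
      (R.roots.map (fun c => f.P.eval c - y * f.Q.eval c)).prod := by
  have : (fun x => R.eval x) = fun x =>
      (R.leadingCoeff * (-1) ^ R.natDegree) * (R.roots.map (fun c => c - x)).prod :=
    funext (formula_eval R)
  rw [this, Multiset.prod_map_mul, Multiset.map_const', Multiset.prod_replicate, card_fiber,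
    Multiset.prod_map_prod_map]
  congr 2
  refine Multiset.map_congr rfl (fun a _ => ?_)
  exact prod_fiber_sub f a y

theorem formula_W_ne {k : Type*} [Field k] [CharZero k] (f : NMap k) : f.W ≠ 0 := by
  intro hW
  have h1 : derivative f.P * f.Q = f.P * derivative f.Q := sub_eq_zero.mp hW
  have h2 : f.P ∣ derivative f.P := f.cop.dvd_of_dvd_mul_right ⟨_, h1⟩
  have h3 : derivative f.P = 0 :=
    eq_zero_of_dvd_of_degree_lt h2 (degree_derivative_lt f.monic.ne_zero)
  have h4 := derivative_eq_zero.mp h3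
  have := f.two_le
  omega

theorem formula_W_deg {k : Type*} [Field k] (f : NMap k) : f.W.natDegree ≤ 2 * f.d - 2 := by
  have h2 := f.two_le
  have h3 := f.deg_lt
  unfold NMap.W NMap.d
  refine (natDegree_sub_le _ _).trans ?_
  refine max_le ?_ ?_
  · refine natDegree_mul_le.trans ?_
    have := natDegree_derivative_le f.P
    omega
  · by_cases hQ : f.Q.natDegree = 0
    · rw [eq_C_of_natDegree_eq_zero hQ]
      simp
    · refine natDegree_mul_le.trans ?_
      have := natDegree_derivative_le f.Q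
      omega

/-- K2 -/
theorem formula_der {k : Type*} [Field k] [CharZero k] [IsAlgClosed k] (f : NMap k)
    (U : Subgroup kˣ) (S : Set k) (hS : ∀ c, f.W.eval c = 0 → f.Q.eval c ≠ 0 → f.val c ∈ S)
    (hQ : ∀ c, f.W.eval c = 0 → ∀ u : kˣ, (u : k) = f.Q.eval c → u ∈ U)
    (hP : ∀ c, f.W.eval c = 0 ∨ f.Q.eval c = 0 → ∀ u : kˣ, (u : k) = f.P.eval c → u ∈ U)
    (hW : ∀ u : kˣ, (u : k) = f.W.leadingCoeff * (-1) ^ f.W.natDegree → u ∈ U)
    (hQQ : ∀ u : kˣ, (u : k) = f.Q.leadingCoeff * (-1) ^ f.Q.natDegree → u ∈ U) :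
    formula_Form U S (2 * f.d - 2) (fun y => ((f.fiber y).map f.der).prod) := by
  have hWne := formula_W_ne f
  have hWl : f.W.leadingCoeff * (-1) ^ f.W.natDegree ≠ 0 :=
    mul_ne_zero (leadingCoeff_ne_zero.mpr hWne) (pow_ne_zero _ (by simp))
  have hQl : f.Q.leadingCoeff * (-1) ^ f.Q.natDegree ≠ 0 :=
    mul_ne_zero (leadingCoeff_ne_zero.mpr f.Q_ne) (pow_ne_zero _ (by simp))
  -- the numerator
  have hnum : formula_Form U S (2 * f.d - 2)
      (fun y => ((f.fiber y).map (fun x => f.W.eval x)).prod) := by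
    have h1 := formula_form_mul (formula_form_const U S (Units.mk0 _ hWl ^ f.d)
      (U.pow_mem (hW _ rfl) _))
      (formula_form_T f U S f.W.roots
        (fun c hc => hS c ((mem_roots hWne).mp hc))
        (fun c hc => hQ c ((mem_roots hWne).mp hc))
        (fun c hc => hP c (Or.inl ((mem_roots hWne).mp hc))))
    rw [zero_add] at h1
    refine formula_form_mono ?_ ((card_roots' f.W).trans (formula_W_deg f))
    convert h1 using 2 with y
    rw [formula_prod_eval]
    simp
  -- the denominator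
  have hden : ∃ κ ∈ U, ∀ y, ((f.fiber y).map (fun x => f.Q.eval x)).prod = ((κ : kˣ) : k) := by
    have h1 : ∀ c ∈ f.Q.roots, f.P.eval c ≠ 0 := fun c hc =>
      formula_P_ne f c ((mem_roots f.Q_ne).mp hc)
    have h2 : ∀ T : Multiset k, (∀ c ∈ T, c ∈ f.Q.roots) →
        ∃ κ ∈ U, ∀ y, (T.map (fun c => f.P.eval c - y * f.Q.eval c)).prod = ((κ : kˣ) : k) := by
      intro T
      induction T using Multiset.induction_on with
      | empty => exact fun _ => ⟨1, U.one_mem, by simp⟩
      | cons c T ih =>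
        intro hT
        obtain ⟨κ, hκ, hy⟩ := ih (fun a ha => hT a (Multiset.mem_cons_of_mem ha))
        have hc := hT c (Multiset.mem_cons_self c T)
        have hc0 : f.Q.eval c = 0 := (mem_roots f.Q_ne).mp hc
        refine ⟨Units.mk0 _ (h1 c hc) * κ, U.mul_mem (hP c (Or.inr hc0) _ rfl) hκ, fun y => ?_⟩
        rw [Multiset.map_cons, Multiset.prod_cons, hy, hc0]
        simp
    obtain ⟨κ, hκ, hy⟩ := h2 f.Q.roots (fun c hc => hc)
    refine ⟨Units.mk0 _ hQl ^ f.d * κ, U.mul_mem (U.pow_mem (hQQ _ rfl) _) hκ, fun y => ?_⟩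
    rw [formula_prod_eval, hy]
    simp
  obtain ⟨κ, hκ, hy⟩ := hden
  have h1 := formula_form_mul (formula_form_const U S ((κ ^ 2)⁻¹) (U.inv_mem (U.pow_mem hκ 2)))
    hnum
  rw [zero_add] at h1
  convert h1 using 2 with y
  have : f.der = fun x => (f.Q.eval x ^ 2)⁻¹ * f.W.eval x := by
    funext x
    rw [NMap.der, div_eq_mul_inv, mul_comm]
  rw [this, Multiset.prod_map_mul, Multiset.prod_map_inv, Multiset.prod_map_pow, hy]
  simp

/-- Module F (formula for `DD`). There is a finite set `G` of nonzero elements such that for every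
subgroup `U` of `kˣ` containing `G`, for all `n`: `DD n y = κ ∏_{a ∈ M} (a - y)` for all `y`
with `κ ∈ U`, `M` a multiset of elements of `S` with at most `2 d ⋅ d^n` elements. -/
theorem DD_formula {k : Type*} [Field k] [CharZero k] [IsAlgClosed k] (f : NMap k) (S : Set k)
    (hSf : S.Finite) (hS : f.CritSet S) :
    ∃ G : Set kˣ, G.Finite ∧ ∀ n : ℕ, ∃ κ ∈ Subgroup.closure G, ∃ M : Multiset k,
      (∀ a ∈ M, a ∈ S) ∧ Multiset.card M ≤ 2 * f.d * f.d ^ n ∧
      ∀ y : k, f.DD n y = κ * (M.map (fun a => a - y)).prod := by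
  classical
  have hWne := formula_W_ne f
  set T : Set k := S ∪ {c | f.W.eval c = 0} ∪ {c | f.Q.eval c = 0} with hT
  have hTf : T.Finite := by
    refine (hSf.union ?_).union ?_
    · refine (f.W.roots.toFinset.finite_toSet).subset ?_
      intro c hc
      simp only [Finset.mem_coe, Multiset.mem_toFinset]
      exact (mem_roots hWne).mpr hc
    · refine (f.Q.roots.toFinset.finite_toSet).subset ?_
      intro c hc
      simp only [Finset.mem_coe, Multiset.mem_toFinset]
      exact (mem_roots f.Q_ne).mpr hc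
  set E : Set k := (fun c => f.P.eval c) '' T ∪ (fun c => f.Q.eval c) '' T ∪
    {f.W.leadingCoeff * (-1) ^ f.W.natDegree, f.Q.leadingCoeff * (-1) ^ f.Q.natDegree} with hE
  have hEf : E.Finite := ((hTf.image _).union (hTf.image _)).union (by simp)
  refine ⟨Units.val ⁻¹' E, hEf.preimage (Units.val_injective.injOn), ?_⟩
  set U := Subgroup.closure (Units.val ⁻¹' E) with hU
  have hmem : ∀ (u : kˣ) (a : k), (u : k) = a → a ∈ E → u ∈ U := by
    intro u a hu ha
    refine Subgroup.subset_closure ?_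
    rw [Set.mem_preimage, hu]
    exact ha
  have hP : ∀ c ∈ T, ∀ u : kˣ, (u : k) = f.P.eval c → u ∈ U := fun c hc u hu =>
    hmem u _ hu (Or.inl (Or.inl ⟨c, hc, rfl⟩))
  have hQ : ∀ c ∈ T, ∀ u : kˣ, (u : k) = f.Q.eval c → u ∈ U := fun c hc u hu =>
    hmem u _ hu (Or.inl (Or.inr ⟨c, hc, rfl⟩))
  have hder := formula_der f U S hS.1
    (fun c hc => hQ c (Or.inl (Or.inr hc)))
    (fun c hc => hP c (hc.elim (fun h => Or.inl (Or.inr h)) (fun h => Or.inr h)))
    (fun u hu => hmem u _ hu (Or.inr (Or.inl rfl)))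
    (fun u hu => hmem u _ hu (Or.inr (Or.inr rfl)))
  have hd : 2 ≤ f.d := f.two_le
  have key : ∀ n : ℕ, formula_Form U S (2 * f.d ^ n - 2) (f.DD n) := by
    intro n
    induction n with
    | zero =>
      have h0 : f.DD 0 = fun _ => 1 := rfl
      rw [h0]
      simpa using formula_form_one U S
    | succ n ih =>
      have h1 := formula_rec f U S hS.2 (fun c hc => hQ c (Or.inl (Or.inl hc)))
        (fun c hc => hP c (Or.inl (Or.inl hc))) _ _ ih
      have h2 := formula_form_pow hder (f.d ^ n)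
      have h3 := formula_form_mul h1 h2
      refine formula_form_mono (N := 2 * f.d ^ n - 2 + (2 * f.d - 2) * f.d ^ n) ?_ ?_
      · convert h3 using 2 with y
        rw [NMap.DD, Multiset.prod_map_mul, Multiset.prod_map_pow]
      · have h4 : 1 ≤ f.d ^ n := Nat.one_le_pow _ _ (by omega)
        have h5 : (2 * f.d - 2) * f.d ^ n = 2 * f.d ^ (n + 1) - 2 * f.d ^ n := by
          rw [Nat.sub_mul, pow_succ]
          congr 1
          ring
        have h6 : f.d ^ n ≤ f.d ^ (n + 1) := Nat.pow_le_pow_right (by omega) (Nat.le_succ n)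
        omega
  intro n
  obtain ⟨κ, hκ, M, hM, hc, hy⟩ := key n
  refine ⟨κ, hκ, M, hM, hc.trans ?_, hy⟩
  have h1 : 2 * f.d ^ n ≤ 2 * f.d * f.d ^ n := by
    have : 0 < f.d ^ n := pow_pos (by omega) n
    nlinarith
  omega

/-- existence of the auxiliary point `e` -/
theorem exists_aux {k : Type*} [Field k] [IsAlgClosed k] (f : NMap k) :
    ∃ e : k, f.Q.eval e = 0 ∨ (f.Q.eval e ≠ 0 ∧ f.val e = e) := by
  by_cases hQ : f.Q.natDegree = 0
  · have h2 := f.two_le
    have hX : (X * f.Q).natDegree ≤ 1 := by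
      refine natDegree_mul_le.trans ?_
      rw [hQ, natDegree_X]
    have hdeg : (f.P - X * f.Q).natDegree = f.P.natDegree :=
      natDegree_sub_eq_left_of_natDegree_lt (by omega)
    obtain ⟨e, he⟩ := IsAlgClosed.exists_root (f.P - X * f.Q) (by
      intro h0
      have := natDegree_eq_zero_iff_degree_le_zero.mpr (le_of_eq h0)
      omega)
    have hQe : f.Q.eval e ≠ 0 := by
      have h3 := f.Q_ne
      rw [eq_C_of_natDegree_eq_zero hQ] at h3 ⊢
      rw [eval_C]
      intro h4
      rw [h4] at h3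
      exact h3 C_0
    refine ⟨e, Or.inr ⟨hQe, ?_⟩⟩
    rw [NMap.val, div_eq_iff hQe]
    simpa [IsRoot, sub_eq_zero] using he
  · obtain ⟨e, he⟩ := IsAlgClosed.exists_root f.Q (by
      intro h0
      exact hQ (natDegree_eq_zero_iff_degree_le_zero.mpr (le_of_eq h0)))
    exact ⟨e, Or.inl he⟩

/-- Module F' (formula for `EE`), with a bound for the constant. -/
theorem EE_formula {k : Type*} [NormedField k] [IsAlgClosed k] (f : NMap k) (e : k)
    (he : f.Q.eval e = 0 ∨ (f.Q.eval e ≠ 0 ∧ f.val e = e)) :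
    ∃ B : ℝ, ∀ n : ℕ, ∃ κ : k, κ ≠ 0 ∧ |Real.log ‖κ‖| ≤ B * f.d ^ n ∧
      ((∀ y : k, f.EE e n y = κ) ∨ (∀ y : k, f.EE e n y = κ * (e - y))) := by
  have hd : 2 ≤ f.d := f.two_le
  have hdR : (2 : ℝ) ≤ f.d := by exact_mod_cast hd
  rcases he with he | ⟨hQe, hve⟩
  · have hPe := formula_P_ne f e he
    have key : ∀ n : ℕ, ∀ y : k, f.EE e (n + 1) y = f.P.eval e ^ (f.d ^ n) := by
      intro n
      induction n with
      | zero =>
        intro y
        have := prod_fiber_sub f e y
        rw [he, mul_zero, sub_zero] at this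
        simpa [NMap.EE] using this
      | succ n ih =>
        intro y
        have : (fun x => f.EE e (n + 1) x) = fun _ => f.P.eval e ^ (f.d ^ n) := funext ih
        rw [NMap.EE, this, Multiset.map_const', Multiset.prod_replicate, card_fiber, ← pow_mul,
          pow_succ]
    refine ⟨|Real.log ‖f.P.eval e‖|, fun n => ?_⟩
    cases n with
    | zero =>
      refine ⟨1, one_ne_zero, ?_, Or.inr (fun y => ?_)⟩
      · simp
      · simp [NMap.EE]
    | succ n =>
      refine ⟨f.P.eval e ^ (f.d ^ n), pow_ne_zero _ hPe, ?_, Or.inl (key n)⟩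
      rw [norm_pow, Real.log_pow, abs_mul, mul_comm]
      refine mul_le_mul_of_nonneg_left ?_ (abs_nonneg _)
      rw [abs_of_nonneg (by positivity), pow_succ]
      push_cast
      nlinarith [pow_pos (lt_of_lt_of_le two_pos hdR) n]
  · have hP : f.P.eval e = e * f.Q.eval e := by
      rwa [NMap.val, div_eq_iff hQe] at hve
    set b := |Real.log ‖f.Q.eval e‖| with hb
    have hb0 : 0 ≤ b := abs_nonneg _
    refine ⟨b, ?_⟩
    have key : ∀ n : ℕ, ∃ κ : k, κ ≠ 0 ∧ |Real.log ‖κ‖| ≤ b * (f.d ^ n - 1) ∧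
        ∀ y : k, f.EE e n y = κ * (e - y) := by
      intro n
      induction n with
      | zero =>
        refine ⟨1, one_ne_zero, by simp, fun y => by simp [NMap.EE]⟩
      | succ n ih =>
        obtain ⟨κ, hκ, hl, hy⟩ := ih
        refine ⟨κ ^ f.d * f.Q.eval e, mul_ne_zero (pow_ne_zero _ hκ) hQe, ?_, fun y => ?_⟩
        · rw [norm_mul, norm_pow, Real.log_mul (pow_ne_zero _ (norm_ne_zero_iff.mpr hκ))
            (norm_ne_zero_iff.mpr hQe), Real.log_pow]
          refine (abs_add_le _ _).trans ?_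
          rw [abs_mul, abs_of_nonneg (by positivity : (0:ℝ) ≤ (f.d : ℝ)), ← hb]
          have h1 : (f.d : ℝ) * |Real.log ‖κ‖| ≤ f.d * (b * (f.d ^ n - 1)) :=
            mul_le_mul_of_nonneg_left hl (by positivity)
          refine (add_le_add_left h1 _).trans ?_
          rw [pow_succ]
          nlinarith
        · have : (fun x => f.EE e n x) = fun x => κ * (e - x) := funext hy
          rw [NMap.EE, this, Multiset.prod_map_mul, Multiset.map_const', Multiset.prod_replicate,
            card_fiber, prod_fiber_sub, hP]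
          ring
    intro n
    obtain ⟨κ, hκ, hl, hy⟩ := key n
    refine ⟨κ, hκ, hl.trans ?_, Or.inr hy⟩
    refine mul_le_mul_of_nonneg_left ?_ hb0
    linarith

end Pool.Agent.H.MP_392fd3_nt
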