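import Pool.Agent.H.MP_392fd3_nt.Statement
import Pool.Agent.H.MP_392fd3_nt.Formula

set_option autoImplicit false

open Polynomial

namespace Pool.Agent.H.MP_392fd3_nt

universe u

section conj_general

open Classical in
/-- the map induced on `P^1 = Option k` -/
noncomputable def conjOpt {k : Type*} [Field k] (f : NMap k) : Option k → Option k
  | none => none
  | some b => if f.Q.eval b = 0 then none else some (f.val b)

theorem conj_opt_none {k : Type*} [Field k] (f : NMap k) : conjOpt f none = none := rfl

theorem conj_opt_some {k : Type*} [Field k] (f : NMap k) (b : k) (hb : f.Q.eval b ≠ 0) :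
    conjOpt f (some b) = some (f.val b) := by
  simp [conjOpt, hb]

theorem conj_opt_pole {k : Type*} [Field k] (f : NMap k) (b : k) (hb : f.Q.eval b = 0) :
    conjOpt f (some b) = none := by
  simp [conjOpt, hb]

theorem conj_iterate_of_mem {k : Type*} [Field k] (f : NMap k) (n : ℕ) :
    ∀ x y : k, x ∈ f.pre n y → (conjOpt f)^[n] (some x) = some y := by
  induction n with
  | zero =>
    intro x y h
    have h' : x = y := by simpa [NMap.pre] using h
    simp [h']
  | succ n ih =>
    intro x y h
    have h' : ∃ z ∈ f.fiber y, x ∈ f.pre n z := by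
      simpa [NMap.pre, Multiset.mem_bind] using h
    obtain ⟨z, hz, hx⟩ := h'
    rw [Function.iterate_succ_apply', ih x z hx]
    obtain ⟨hQ, hv⟩ := (mem_fiber f z y).1 hz
    rw [conj_opt_some f z hQ, hv]

variable {K : Type u} [Field K]

theorem conj_W_ne_zero [CharZero K] (P Q : K[X]) (hcop : IsCoprime P Q) (hdeg : 2 ≤ rdeg P Q) :
    derivative P * Q - P * derivative Q ≠ 0 := by
  intro h
  have h1 : derivative P * Q = P * derivative Q := sub_eq_zero.1 h
  have hP : P ∣ derivative P := by
    have : P ∣ derivative P * Q := ⟨_, h1⟩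
    exact hcop.dvd_of_dvd_mul_right this
  have hQ : Q ∣ derivative Q := by
    have : Q ∣ P * derivative Q := ⟨derivative P, by rw [← h1]; ring⟩
    exact hcop.symm.dvd_of_dvd_mul_left this
  have key : ∀ R : K[X], R ∣ derivative R → R.natDegree = 0 := by
    intro R hR
    by_contra hne
    have h0 : derivative R ≠ 0 := by
      intro h0
      exact hne (derivative_eq_zero.1 h0)
    have := natDegree_le_of_dvd hR h0
    have h2 := natDegree_derivative_lt hne
    omega
  have := key P hP
  have := key Q hQ
  unfold rdeg at hdeg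
  omega

theorem conj_coeff_ne (P Q : K[X]) (hdeg : 2 ≤ rdeg P Q) (hQ : Q.coeff (rdeg P Q) = 0) :
    P.natDegree = rdeg P Q := by
  unfold rdeg at *
  by_contra h
  have h1 : max P.natDegree Q.natDegree = Q.natDegree := by omega
  rw [h1] at hQ hdeg
  have hQ0 : Q ≠ 0 := by
    rintro rfl
    simp at hdeg
  exact hQ0 (leadingCoeff_eq_zero.1 hQ)

theorem conj_noCommon (P Q : K[X]) (hcop : IsCoprime P Q) (x : AlgebraicClosure K)
    (h1 : aeval x P = 0) (h2 : aeval x Q = 0) : False := by
  obtain ⟨a, b, hab⟩ := hcop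
  have := congrArg (aeval x) hab
  simp [h1, h2] at this

theorem conj_surj (P Q : K[X]) (hcop : IsCoprime P Q) (hdeg : 2 ≤ rdeg P Q)
    (x : AlgebraicClosure K) : ∃ z, ratMap P Q z = some x := by
  classical
  set φ := algebraMap K (AlgebraicClosure K) with hφ
  set R : (AlgebraicClosure K)[X] := P.map φ - C x * Q.map φ with hR
  have hφi : Function.Injective φ := φ.injective
  by_cases hd : R.degree = 0
  · -- constant
    have hc : R.coeff (rdeg P Q) = 0 := by
      apply coeff_eq_zero_of_degree_lt
      rw [hd]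
      exact_mod_cast (by omega : 0 < rdeg P Q)
    have hc' : φ (P.coeff (rdeg P Q)) = x * φ (Q.coeff (rdeg P Q)) := by
      have : φ (P.coeff (rdeg P Q)) - x * φ (Q.coeff (rdeg P Q)) = 0 := by
        simpa [hR, coeff_sub, coeff_C_mul, coeff_map] using hc
      exact sub_eq_zero.1 this
    have hQ : Q.coeff (rdeg P Q) ≠ 0 := by
      intro hQ
      have hP := conj_coeff_ne P Q hdeg hQ
      rw [hQ, map_zero, mul_zero] at hc'
      have : P.coeff (rdeg P Q) = 0 := by
        apply hφi
        rw [hc', map_zero]
      rw [← hP] at this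
      have hP0 : P = 0 := leadingCoeff_eq_zero.1 this
      have h5 : P.natDegree = 0 := by rw [hP0]; simp
      omega
    refine ⟨none, ?_⟩
    have : ratMap P Q none = some (φ (P.coeff (rdeg P Q) / Q.coeff (rdeg P Q))) := by
      simp [ratMap, hQ, hφ]
    rw [this, map_div₀, hc', mul_div_cancel_right₀]
    intro h
    exact hQ (hφi (by rw [h, map_zero]))
  · obtain ⟨z, hz⟩ := IsAlgClosed.exists_root R hd
    have hz' : aeval z P = x * aeval z Q := by
      have : aeval z P - x * aeval z Q = 0 := by
        have h := hz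
        rw [hR, IsRoot.def, eval_sub, eval_mul, eval_C, eval_map, eval_map] at h
        simpa [aeval_def] using h
      exact sub_eq_zero.1 this
    have hQz : aeval z Q ≠ 0 := by
      intro h
      rw [h, mul_zero] at hz'
      exact conj_noCommon P Q hcop z hz' h
    refine ⟨some z, ?_⟩
    have : ratMap P Q (some z) = some (aeval z P / aeval z Q) := by
      simp [ratMap, hQz]
    rw [this, hz', mul_div_cancel_right₀ _ hQz]

theorem conj_tower_mono_one (P Q : K[X]) (hcop : IsCoprime P Q) (hdeg : 2 ≤ rdeg P Q)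
    (α : Option K) (n : ℕ) : towerField P Q α n ≤ towerField P Q α (n + 1) := by
  classical
  unfold towerField
  rw [IntermediateField.adjoin_le_iff]
  intro x hx
  have hx' : (ratMap P Q)^[n] (some x) = basePt α := hx
  obtain ⟨z, hz⟩ := conj_surj P Q hcop hdeg x
  rcases z with _ | z
  · by_cases hQ : Q.coeff (rdeg P Q) = 0
    · simp [ratMap, hQ] at hz
    · have h1 : ratMap P Q none =
          some (algebraMap K (AlgebraicClosure K) (P.coeff (rdeg P Q) / Q.coeff (rdeg P Q))) := by
        unfold ratMap
        rw [if_neg hQ]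
      rw [h1] at hz
      have h2 := Option.some.inj hz
      rw [← h2]
      exact IntermediateField.algebraMap_mem _ _
  · have hzm : z ∈ IntermediateField.adjoin K
        {x : AlgebraicClosure K | (ratMap P Q)^[n + 1] (some x) = basePt α} := by
      apply IntermediateField.subset_adjoin
      show (ratMap P Q)^[n + 1] (some z) = basePt α
      rw [Function.iterate_succ_apply, hz, hx']
    by_cases hQ : aeval z Q = 0
    · simp [ratMap, hQ] at hz
    · have h1 : ratMap P Q (some z) = some (aeval z P / aeval z Q) := by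
        simp [ratMap, hQ]
      rw [h1] at hz
      have h2 := Option.some.inj hz
      rw [← h2]
      have hmem : ∀ R : K[X], aeval z R ∈ IntermediateField.adjoin K
          {x : AlgebraicClosure K | (ratMap P Q)^[n + 1] (some x) = basePt α} := by
        intro R
        set L := IntermediateField.adjoin K
          {x : AlgebraicClosure K | (ratMap P Q)^[n + 1] (some x) = basePt α} with hL
        have h3 : aeval z R = ((aeval (⟨z, hzm⟩ : L) R : L) : AlgebraicClosure K) := by
          have := Polynomial.aeval_algebraMap_apply (AlgebraicClosure K) (⟨z, hzm⟩ : L) R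
          exact this
        rw [h3]
        exact (aeval (⟨z, hzm⟩ : L) R).2
      exact div_mem (hmem P) (hmem Q)

theorem conj_tower_mono (P Q : K[X]) (hcop : IsCoprime P Q) (hdeg : 2 ≤ rdeg P Q)
    (α : Option K) {m n : ℕ} (h : m ≤ n) : towerField P Q α m ≤ towerField P Q α n :=
  monotone_nat_of_le_succ (fun n => conj_tower_mono_one P Q hcop hdeg α n) h

theorem conj_abstract [NumberField K] (P Q : K[X])
    (hcop : IsCoprime P Q) (hdeg : 2 ≤ rdeg P Q) (hpcf : IsPCF P Q) (α : Option K)
    (hα : NonExceptional P Q α) (f : NMap (AlgebraicClosure K))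
    (M : Option (AlgebraicClosure K) ≃ Option (AlgebraicClosure K))
    (h1 : ∀ z, conjOpt f (M z) = M (ratMap P Q z))
    (h2 : ∀ b, f.W.eval b = 0 → IsCrit P Q (M.symm (some b)))
    (h3 : ∀ (L : IntermediateField K (AlgebraicClosure K)) (x z c e : AlgebraicClosure K),
      (∀ t, M.symm (some x) = some t → t ∈ L) → (∀ t, M.symm (some z) = some t → t ∈ L) →
      (∀ t, M.symm (some c) = some t → t ∈ L) → (∀ t, M.symm (some e) = some t → t ∈ L) →
      (x - c) * (z - e) / ((x - e) * (z - c)) ∈ L) :
    ∃ (f : NMap (AlgebraicClosure K)) (S : Set (AlgebraicClosure K)) (a : AlgebraicClosure K),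
      S.Finite ∧ f.CritSet S ∧ a ∉ S ∧
      ∀ x ∈ f.Back a, ∀ z ∈ f.Back a, ∀ c ∈ f.Back a, ∀ e ∈ f.Back a,
        ∃ n : ℕ, 1 ≤ n ∧ (x - c) * (z - e) / ((x - e) * (z - c)) ∈ towerField P Q α n := by
  classical
  set F0 := ratMap P Q with hF0
  -- iterates
  have hit : ∀ n z, (conjOpt f)^[n] (M z) = M (F0^[n] z) := by
    intro n
    induction n with
    | zero => intro z; rfl
    | succ n ih =>
      intro z
      rw [Function.iterate_succ_apply', ih, h1, Function.iterate_succ_apply']
  -- critical points
  have hcritfin : {c : Option (AlgebraicClosure K) | IsCrit P Q c}.Finite := by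
    have hW := conj_W_ne_zero P Q hcop hdeg
    have hsub : {c : Option (AlgebraicClosure K) | IsCrit P Q c} ⊆
        {none} ∪ some '' {x : AlgebraicClosure K |
          aeval x (derivative P * Q - P * derivative Q) = 0} := by
      intro c hc
      rcases c with _ | x
      · left; rfl
      · right
        exact ⟨x, hc, rfl⟩
    refine Set.Finite.subset (Set.Finite.union (Set.finite_singleton _) (Set.Finite.image _ ?_)) hsub
    have h := Polynomial.rootSet_finite (derivative P * Q - P * derivative Q) (AlgebraicClosure K)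
    refine h.subset ?_
    intro x hx
    exact (Polynomial.mem_rootSet).2 ⟨hW, hx⟩
  set S : Set (AlgebraicClosure K) :=
    {b | ∃ c, IsCrit P Q c ∧ ∃ m : ℕ, M (F0^[m + 1] c) = some b} with hS
  have hSfin : S.Finite := by
    have hfin : (⋃ c ∈ {c : Option (AlgebraicClosure K) | IsCrit P Q c},
        Set.range (fun m : ℕ => F0^[m] c)).Finite := by
      apply Set.Finite.biUnion hcritfin
      intro c hc
      exact hpcf c hc
    have hfin2 := hfin.image M
    have : (some '' S).Finite := by
      refine hfin2.subset ?_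
      rintro _ ⟨b, ⟨c, hc, m, hm⟩, rfl⟩
      refine ⟨F0^[m + 1] c, ?_, hm⟩
      simp only [Set.mem_iUnion]
      exact ⟨c, hc, ⟨m + 1, rfl⟩⟩
    exact Set.Finite.of_finite_image this (Option.some_injective _).injOn
  have hcs : f.CritSet S := by
    constructor
    · intro c hc hQ
      refine ⟨M.symm (some c), h2 c hc, 0, ?_⟩
      have h := h1 (M.symm (some c))
      rw [Equiv.apply_symm_apply] at h
      rw [conj_opt_some f c hQ] at h
      exact h.symm
    · rintro a ⟨c, hc, m, hm⟩ hQ
      refine ⟨c, hc, m + 1, ?_⟩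
      have h := h1 (F0^[m + 1] c)
      rw [hm, conj_opt_some f a hQ] at h
      rw [Function.iterate_succ_apply' F0 (m + 1) c]
      exact h.symm
  -- the base point
  have hbad : {z : Option (AlgebraicClosure K) | M z = none ∨ M z ∈ some '' S}.Finite := by
    have h : ({none} ∪ some '' S : Set (Option (AlgebraicClosure K))).Finite :=
      Set.Finite.union (Set.finite_singleton _) (hSfin.image _)
    exact Set.Finite.subset (Set.Finite.preimage (M.injective.injOn) h) (fun z hz => hz)
  obtain ⟨z0, hz0, hz0b⟩ := Set.Infinite.exists_notMem_finset hα hbad.toFinset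
  rw [Set.Finite.mem_toFinset] at hz0b
  obtain ⟨n0, hn0⟩ := hz0
  have hne : M z0 ≠ none := fun h => hz0b (Or.inl h)
  obtain ⟨a, ha⟩ := Option.ne_none_iff_exists'.1 hne
  have haS : a ∉ S := by
    intro h
    exact hz0b (Or.inr ⟨a, h, ha.symm⟩)
  refine ⟨f, S, a, hSfin, hcs, haS, ?_⟩
  have hback : ∀ b ∈ f.Back a, ∃ N : ℕ, ∀ t, M.symm (some b) = some t →
      t ∈ towerField P Q α N := by
    rintro b ⟨n, hn⟩
    refine ⟨n0 + n, ?_⟩
    intro t ht
    apply IntermediateField.subset_adjoin
    show (ratMap P Q)^[n0 + n] (some t) = basePt α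
    have h := conj_iterate_of_mem f n b a hn
    rw [← M.apply_symm_apply (some b), hit, ht, ← ha] at h
    have h' := M.injective h
    rw [Function.iterate_add_apply, ← hF0, h', hn0]
  intro x hx z hz c hc e he
  obtain ⟨nx, hnx⟩ := hback x hx
  obtain ⟨nz, hnz⟩ := hback z hz
  obtain ⟨nc, hnc⟩ := hback c hc
  obtain ⟨ne, hne'⟩ := hback e he
  refine ⟨nx + nz + nc + ne + 1, by omega, ?_⟩
  have hm : ∀ m, m ≤ nx + nz + nc + ne + 1 →
      towerField P Q α m ≤ towerField P Q α (nx + nz + nc + ne + 1) :=
    fun m hm => conj_tower_mono P Q hcop hdeg α hm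
  exact h3 _ x z c e (fun t ht => hm nx (by omega) (hnx t ht))
    (fun t ht => hm nz (by omega) (hnz t ht)) (fun t ht => hm nc (by omega) (hnc t ht))
    (fun t ht => hm ne (by omega) (hne' t ht))

end conj_general

section conj_reflect

variable {k : Type*} [Field k]

theorem conj_reflect_eval (N : ℕ) (p : k[X]) (hp : p.natDegree ≤ N) (t : k) (ht : t ≠ 0) :
    (reflect N p).eval t = t ^ N * p.eval t⁻¹ := by
  have hti : t⁻¹ ≠ 0 := inv_ne_zero ht
  have : Invertible (t⁻¹) := invertibleOfNonzero hti
  have h := eval₂_reflect_mul_pow (RingHom.id k) (t⁻¹) N p hp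
  rw [invOf_eq_inv, inv_inv] at h
  rw [eval₂_id, eval₂_id] at h
  rw [← h, inv_pow]
  have : t ^ N ≠ 0 := pow_ne_zero _ ht
  field_simp

theorem conj_reflect_deriv (N : ℕ) (p : k[X]) (hp : p.natDegree ≤ N) :
    X * derivative (reflect N p) = C (N : k) * reflect N p - reflect N (X * derivative p) := by
  have hX : ∀ (r : k[X]) (j : ℕ), (X * derivative r).coeff j = (j : k) * r.coeff j := by
    intro r j
    rcases j with _ | j
    · simp
    · rw [coeff_X_mul, coeff_derivative]
      push_cast
      ring
  ext i
  rw [hX, coeff_sub, coeff_C_mul, coeff_reflect, coeff_reflect, hX]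
  by_cases hi : i ≤ N
  · rw [revAt_le hi, Nat.cast_sub hi]
    ring
  · push Not at hi
    rw [revAt_eq_self_of_lt hi, coeff_eq_zero_of_natDegree_lt (by omega)]
    ring

theorem conj_taylor_deriv (r : k) (p : k[X]) :
    derivative (taylor r p) = taylor r (derivative p) := by
  rw [taylor_apply, taylor_apply, derivative_comp]
  simp

/-- second highest coefficient of a Taylor shift -/
theorem conj_taylor_coeff_top (N : ℕ) (p : k[X]) (hp : p.natDegree ≤ N + 1) (r : k) :
    (taylor r p).coeff (N + 1) = p.coeff (N + 1) ∧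
    (taylor r p).coeff N = p.coeff N + (N + 1) * r * p.coeff (N + 1) := by
  constructor
  · rw [taylor_coeff]
    have h1 : (hasseDeriv (N + 1) p).natDegree ≤ 0 := by
      have := natDegree_hasseDeriv_le p (N + 1)
      omega
    rw [eq_C_of_natDegree_le_zero h1, eval_C, hasseDeriv_coeff]
    simp
  · rw [taylor_coeff]
    have h1 : (hasseDeriv N p).natDegree ≤ 1 := by
      have := natDegree_hasseDeriv_le p N
      omega
    rw [eq_X_add_C_of_natDegree_le_one h1, eval_add, eval_mul, eval_C, eval_C, eval_X,
      hasseDeriv_coeff, hasseDeriv_coeff]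
    have h2 : (1 + N).choose N = N + 1 := by
      rw [Nat.add_comm 1 N]
      exact Nat.choose_succ_self_right N
    rw [h2, Nat.add_comm 1 N]
    simp
    ring

/-- second highest coefficient of the Wronskian -/
theorem conj_wronskian_coeff (N : ℕ) (p q : k[X]) (hp : p.natDegree ≤ N + 2)
    (hq : q.natDegree ≤ N + 2) :
    (derivative p * q - p * derivative q).coeff (2 * (N + 2) - 2) =
      p.coeff (N + 2) * q.coeff (N + 1) - p.coeff (N + 1) * q.coeff (N + 2) := by
  have key : ∀ u v : k[X], u.natDegree ≤ N + 1 → v.natDegree ≤ N + 2 →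
      (u * v).coeff (2 * (N + 2) - 2) = u.coeff (N + 1) * v.coeff (N + 1) +
        u.coeff N * v.coeff (N + 2) := by
    intro u v hu hv
    have h := congrArg (fun w => w.coeff 1) (reflect_mul u v hu hv)
    simp only [mul_coeff_one, coeff_reflect] at h
    rw [revAt_le (by omega), revAt_le (by omega), revAt_le (by omega), revAt_le (by omega),
      revAt_le (by omega)] at h
    have e1 : N + 1 + (N + 2) - 1 = 2 * (N + 2) - 2 := by omega
    have e2 : N + 1 - 0 = N + 1 := by omega
    have e3 : N + 2 - 1 = N + 1 := by omega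
    have e4 : N + 1 - 1 = N := by omega
    have e5 : N + 2 - 0 = N + 2 := by omega
    rw [e1, e2, e3, e4, e5] at h
    exact h
  have hdp : (derivative p).natDegree ≤ N + 1 := by
    have := natDegree_derivative_le p
    omega
  have hdq : (derivative q).natDegree ≤ N + 1 := by
    have := natDegree_derivative_le q
    omega
  rw [coeff_sub, key _ _ hdp hq, mul_comm p (derivative q), key _ _ hdq hp]
  simp only [coeff_derivative]
  push_cast
  ring

end conj_reflect

section conj_cases

variable {K : Type u} [Field K]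

theorem conj_ratMap_some (P Q : K[X]) (x : AlgebraicClosure K) (h : aeval x Q ≠ 0) :
    ratMap P Q (some x) = some (aeval x P / aeval x Q) := by
  simp [ratMap, h]

theorem conj_ratMap_pole (P Q : K[X]) (x : AlgebraicClosure K) (h : aeval x Q = 0) :
    ratMap P Q (some x) = none := by
  simp [ratMap, h]

theorem conj_case1 (P Q : K[X]) (hcop : IsCoprime P Q) (hdeg : 2 ≤ rdeg P Q)
    (hQ0 : Q.coeff (rdeg P Q) = 0) :
    ∃ f : NMap (AlgebraicClosure K), (∀ z, conjOpt f z = ratMap P Q z) ∧
      (∀ b, f.W.eval b = 0 → IsCrit P Q (some b)) := by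
  classical
  have hPd := conj_coeff_ne P Q hdeg hQ0
  have hP0 : P ≠ 0 := by
    intro h
    have : P.natDegree = 0 := by rw [h]; simp
    omega
  have hl : P.leadingCoeff ≠ 0 := leadingCoeff_ne_zero.2 hP0
  have hQne : Q ≠ 0 := by
    intro h
    rw [h] at hcop
    have h1 := isCoprime_zero_right.1 hcop
    have h2 := natDegree_eq_zero_of_isUnit h1
    omega
  have hQd : Q.natDegree < P.natDegree := by
    rw [hPd]
    have h1 : Q.natDegree ≤ rdeg P Q := le_max_right _ _
    rcases lt_or_eq_of_le h1 with h | h
    · exact h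
    · exfalso
      rw [← h] at hQ0
      exact hQne (leadingCoeff_eq_zero.1 hQ0)
  set φ := algebraMap K (AlgebraicClosure K) with hφ
  have hφi : Function.Injective φ := φ.injective
  set l := φ P.leadingCoeff with hl'
  have hlne : l ≠ 0 := by
    intro h
    exact hl (hφi (by rw [map_zero]; exact h))
  let f : NMap (AlgebraicClosure K) :=
    { P := C l⁻¹ * P.map φ
      Q := C l⁻¹ * Q.map φ
      monic := by
        apply monic_C_mul_of_mul_leadingCoeff_eq_one
        rw [leadingCoeff_map_of_injective hφi]
        exact inv_mul_cancel₀ hlne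
      Q_ne := by
        apply mul_ne_zero
        · rw [Ne, C_eq_zero]
          exact inv_ne_zero hlne
        · rwa [Ne, Polynomial.map_eq_zero_iff hφi]
      deg_lt := by
        rw [natDegree_C_mul (inv_ne_zero hlne), natDegree_C_mul (inv_ne_zero hlne),
          natDegree_map_eq_of_injective hφi, natDegree_map_eq_of_injective hφi]
        exact hQd
      two_le := by
        rw [natDegree_C_mul (inv_ne_zero hlne), natDegree_map_eq_of_injective hφi, hPd]
        exact hdeg
      cop := by
        have hu : IsUnit (C l⁻¹ : (AlgebraicClosure K)[X]) :=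
          isUnit_C.2 (isUnit_iff_ne_zero.2 (inv_ne_zero hlne))
        rw [isCoprime_mul_unit_left hu]
        exact IsCoprime.map hcop (mapRingHom φ) }
  have hfP : ∀ b, f.P.eval b = l⁻¹ * aeval b P := by
    intro b
    show (C l⁻¹ * P.map φ).eval b = _
    rw [eval_mul, eval_C, eval_map_algebraMap]
  have hfQ : ∀ b, f.Q.eval b = l⁻¹ * aeval b Q := by
    intro b
    show (C l⁻¹ * Q.map φ).eval b = _
    rw [eval_mul, eval_C, eval_map_algebraMap]
  have hli : l⁻¹ ≠ 0 := inv_ne_zero hlne
  refine ⟨f, ?_, ?_⟩
  · intro z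
    rcases z with _ | b
    · simp [conjOpt, ratMap, hQ0]
    · by_cases hb : aeval b Q = 0
      · rw [conj_opt_pole f b (by rw [hfQ, hb, mul_zero])]
        simp [ratMap, hb]
      · rw [conj_opt_some f b (by rw [hfQ]; exact mul_ne_zero hli hb)]
        have : f.val b = aeval b P / aeval b Q := by
          show f.P.eval b / f.Q.eval b = _
          rw [hfP, hfQ, mul_div_mul_left _ _ hli]
        rw [this]
        simp [ratMap, hb]
  · intro b hb
    have hW : f.W = C (l⁻¹ * l⁻¹) * (derivative P * Q - P * derivative Q).map φ := by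
      show derivative (C l⁻¹ * P.map φ) * (C l⁻¹ * Q.map φ) -
        (C l⁻¹ * P.map φ) * derivative (C l⁻¹ * Q.map φ) = _
      rw [derivative_C_mul, derivative_C_mul, derivative_map, derivative_map, C_mul,
        Polynomial.map_sub, Polynomial.map_mul, Polynomial.map_mul]
      ring
    rw [hW, eval_mul, eval_C, eval_map_algebraMap] at hb
    show aeval b (derivative P * Q - P * derivative Q) = 0
    exact (mul_eq_zero.1 hb).resolve_left (mul_ne_zero hli hli)

open Classical in
/-- the Moebius map `z ↦ 1/(z - ξ)` -/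
noncomputable def conjM {k : Type*} [Field k] (ξ : k) : Option k ≃ Option k where
  toFun
    | none => some 0
    | some z => if z = ξ then none else some (z - ξ)⁻¹
  invFun
    | none => some ξ
    | some b => if b = 0 then none else some (ξ + b⁻¹)
  left_inv := by
    intro z
    rcases z with _ | z
    · simp
    · by_cases hz : z = ξ
      · simp [hz]
      · have : z - ξ ≠ 0 := sub_ne_zero.2 hz
        simp [hz, this]
  right_inv := by
    intro b
    rcases b with _ | b
    · simp
    · by_cases hb : b = 0
      · simp [hb]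
      · simp [hb]

theorem conjM_none {k : Type*} [Field k] (ξ : k) : conjM ξ none = some 0 := rfl

theorem conjM_self {k : Type*} [Field k] (ξ : k) : conjM ξ (some ξ) = none := by
  simp [conjM]

theorem conjM_some {k : Type*} [Field k] (ξ z : k) (h : z ≠ ξ) :
    conjM ξ (some z) = some (z - ξ)⁻¹ := by
  simp [conjM, h]

theorem conjM_symm_zero {k : Type*} [Field k] (ξ : k) : (conjM ξ).symm (some 0) = none := by
  rw [Equiv.symm_apply_eq, conjM_none]

theorem conjM_symm_some {k : Type*} [Field k] (ξ b : k) (h : b ≠ 0) :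
    (conjM ξ).symm (some b) = some (ξ + b⁻¹) := by
  rw [Equiv.symm_apply_eq, conjM_some _ _ (by simpa using h)]
  simp

theorem conj_case2 (P Q : K[X]) (hcop : IsCoprime P Q) (hdeg : 2 ≤ rdeg P Q)
    (hQd : Q.coeff (rdeg P Q) ≠ 0) :
    ∃ (ξ : AlgebraicClosure K) (f : NMap (AlgebraicClosure K)),
      (∀ z, conjOpt f (conjM ξ z) = conjM ξ (ratMap P Q z)) ∧
      (∀ b, f.W.eval b = 0 → IsCrit P Q ((conjM ξ).symm (some b))) := by
  classical
  set φ := algebraMap K (AlgebraicClosure K) with hφ
  have hφi : Function.Injective φ := φ.injective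
  obtain ⟨N, hN⟩ : ∃ N, rdeg P Q = N + 2 := ⟨rdeg P Q - 2, by omega⟩
  have hPdeg : P.natDegree ≤ N + 2 := by rw [← hN]; exact le_max_left _ _
  have hQdeg : Q.natDegree ≤ N + 2 := by rw [← hN]; exact le_max_right _ _
  rw [hN] at hQd
  set Pm := P.map φ with hPm
  set Qm := Q.map φ with hQm
  have hPmd : Pm.natDegree ≤ N + 2 := by
    rw [hPm, natDegree_map_eq_of_injective hφi]; exact hPdeg
  have hQmd : Qm.natDegree ≤ N + 2 := by
    rw [hQm, natDegree_map_eq_of_injective hφi]; exact hQdeg
  have hQmc : Qm.coeff (N + 2) ≠ 0 := by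
    rw [hQm, coeff_map]
    intro h
    exact hQd (hφi (by rw [h, map_zero]))
  have hcommon : ∀ x, Pm.eval x = 0 → Qm.eval x = 0 → False := by
    intro x h1 h2
    rw [hPm, eval_map_algebraMap] at h1
    rw [hQm, eval_map_algebraMap] at h2
    exact conj_noCommon P Q hcop x h1 h2
  -- fixed point
  obtain ⟨ξ, hξ⟩ : ∃ ξ, Pm.eval ξ = ξ * Qm.eval ξ := by
    have hd : (X * Qm - Pm).degree ≠ 0 := by
      intro h
      have h1 : (X * Qm - Pm).coeff (N + 3) = 0 := by
        apply coeff_eq_zero_of_degree_lt
        rw [h]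
        exact_mod_cast (by omega : 0 < N + 3)
      rw [coeff_sub, coeff_X_mul, coeff_eq_zero_of_natDegree_lt (by omega : Pm.natDegree < N + 3),
        sub_zero] at h1
      exact hQmc h1
    obtain ⟨ξ, h⟩ := IsAlgClosed.exists_root _ hd
    refine ⟨ξ, ?_⟩
    rw [IsRoot.def, eval_sub, eval_mul, eval_X] at h
    exact (sub_eq_zero.1 h).symm
  have hQξ : Qm.eval ξ ≠ 0 := by
    intro h
    rw [h, mul_zero] at hξ
    exact hcommon ξ hξ h
  set c := (Qm.eval ξ)⁻¹ with hc
  have hcne : c ≠ 0 := inv_ne_zero hQξ
  set p := taylor ξ Qm with hp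
  set q := taylor ξ (Pm - C ξ * Qm) with hq
  have hpd : p.natDegree ≤ N + 2 := by rw [hp, natDegree_taylor]; exact hQmd
  have hPQd : (Pm - C ξ * Qm).natDegree ≤ N + 2 := by
    refine le_trans (natDegree_sub_le _ _) (max_le hPmd ?_)
    exact le_trans (natDegree_C_mul_le _ _) hQmd
  have hqd : q.natDegree ≤ N + 2 := by rw [hq, natDegree_taylor]; exact hPQd
  have hp0 : p.coeff 0 = Qm.eval ξ := by rw [hp, taylor_coeff_zero]
  have hq0 : q.coeff 0 = 0 := by
    rw [hq, taylor_coeff_zero, eval_sub, eval_mul, eval_C, hξ, sub_self]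
  have hpe : ∀ t, t ≠ 0 → (reflect (N + 2) p).eval t = t ^ (N + 2) * Qm.eval (ξ + t⁻¹) := by
    intro t ht
    rw [conj_reflect_eval _ _ hpd t ht, hp, taylor_eval, add_comm t⁻¹ ξ]
  have hqe : ∀ t, t ≠ 0 → (reflect (N + 2) q).eval t =
      t ^ (N + 2) * (Pm.eval (ξ + t⁻¹) - ξ * Qm.eval (ξ + t⁻¹)) := by
    intro t ht
    rw [conj_reflect_eval _ _ hqd t ht, hq, taylor_eval, add_comm t⁻¹ ξ, eval_sub, eval_mul,
      eval_C]
  have hpe0 : (reflect (N + 2) p).eval 0 = Qm.coeff (N + 2) := by
    rw [← coeff_zero_eq_eval_zero, coeff_reflect, revAt_le (by omega)]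
    exact (conj_taylor_coeff_top (N + 1) Qm hQmd ξ).1
  have hqe0 : (reflect (N + 2) q).eval 0 = Pm.coeff (N + 2) - ξ * Qm.coeff (N + 2) := by
    rw [← coeff_zero_eq_eval_zero, coeff_reflect, revAt_le (by omega)]
    have := (conj_taylor_coeff_top (N + 1) (Pm - C ξ * Qm) hPQd ξ).1
    rw [coeff_sub, coeff_C_mul] at this
    exact this
  have hfPtop : (C c * reflect (N + 2) p).coeff (N + 2) = 1 := by
    rw [coeff_C_mul, coeff_reflect, revAt_le le_rfl, Nat.sub_self, hp0, hc]
    exact inv_mul_cancel₀ hQξ
  have hfPle : (C c * reflect (N + 2) p).natDegree ≤ N + 2 := by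
    refine le_trans (natDegree_C_mul_le _ _) (le_trans natDegree_reflect_le ?_)
    exact max_le le_rfl hpd
  have hfQtop : (C c * reflect (N + 2) q).coeff (N + 2) = 0 := by
    rw [coeff_C_mul, coeff_reflect, revAt_le le_rfl, Nat.sub_self, hq0, mul_zero]
  have hfQle : (C c * reflect (N + 2) q).natDegree ≤ N + 2 := by
    refine le_trans (natDegree_C_mul_le _ _) (le_trans natDegree_reflect_le ?_)
    exact max_le le_rfl hqd
  have hfPdeg : (C c * reflect (N + 2) p).natDegree = N + 2 := by
    apply le_antisymm hfPle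
    apply le_natDegree_of_ne_zero
    rw [hfPtop]
    exact one_ne_zero
  have hfQlt : (C c * reflect (N + 2) q).natDegree < N + 2 := by
    rcases lt_or_eq_of_le hfQle with h | h
    · exact h
    · exfalso
      rw [← h] at hfQtop
      have h0 : C c * reflect (N + 2) q = 0 := leadingCoeff_eq_zero.1 (by
        rw [← hfQtop, h]; simp [leadingCoeff, h])
      rw [h0] at h
      simp at h
  let f : NMap (AlgebraicClosure K) :=
    { P := C c * reflect (N + 2) p
      Q := C c * reflect (N + 2) q
      monic := by
        rw [Monic, leadingCoeff, hfPdeg, hfPtop]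
      Q_ne := by
        apply mul_ne_zero
        · rwa [Ne, C_eq_zero]
        · rw [Ne, reflect_eq_zero_iff, hq, taylor_eq_zero]
          intro h
          have h1 : ∀ x, Pm.eval x = ξ * Qm.eval x := by
            intro x
            have := congrArg (eval x) h
            rw [eval_sub, eval_mul, eval_C, eval_zero] at this
            exact sub_eq_zero.1 this
          have hd : Qm.degree ≠ 0 := by
            intro h2
            apply hQmc
            apply coeff_eq_zero_of_degree_lt
            rw [h2]
            exact_mod_cast (by omega : 0 < N + 2)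
          obtain ⟨x, hx⟩ := IsAlgClosed.exists_root _ hd
          exact hcommon x (by rw [h1 x, hx.eq_zero, mul_zero]) hx.eq_zero
      deg_lt := by
        rw [hfPdeg]
        exact hfQlt
      two_le := by
        rw [hfPdeg]
        omega
      cop := by
        rw [Polynomial.isCoprime_iff_aeval_ne_zero_of_isAlgClosed (AlgebraicClosure K)
          (AlgebraicClosure K)]
        intro t
        by_contra hcon
        push Not at hcon
        obtain ⟨h1, h2⟩ := hcon
        rw [coe_aeval_eq_eval, eval_mul, eval_C] at h1 h2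
        have h1' := (mul_eq_zero.1 h1).resolve_left hcne
        have h2' := (mul_eq_zero.1 h2).resolve_left hcne
        by_cases ht : t = 0
        · rw [ht, hpe0] at h1'
          exact hQmc h1'
        · rw [hpe t ht] at h1'
          rw [hqe t ht] at h2'
          have h3 := (mul_eq_zero.1 h1').resolve_left (pow_ne_zero _ ht)
          have h4 := (mul_eq_zero.1 h2').resolve_left (pow_ne_zero _ ht)
          rw [h3, mul_zero, sub_zero] at h4
          exact hcommon _ h4 h3 }
  have hfP : ∀ t, f.P.eval t = c * (reflect (N + 2) p).eval t := by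
    intro t
    show (C c * reflect (N + 2) p).eval t = _
    rw [eval_mul, eval_C]
  have hfQ : ∀ t, f.Q.eval t = c * (reflect (N + 2) q).eval t := by
    intro t
    show (C c * reflect (N + 2) q).eval t = _
    rw [eval_mul, eval_C]
  refine ⟨ξ, f, ?_, ?_⟩
  · intro z
    rcases z with _ | z
    · -- infinity
      have hF : ratMap P Q none = some (Pm.coeff (N + 2) / Qm.coeff (N + 2)) := by
        have h1 : ratMap P Q none =
            some (algebraMap K (AlgebraicClosure K)
              (P.coeff (rdeg P Q) / Q.coeff (rdeg P Q))) := by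
          unfold ratMap
          rw [if_neg (by rw [hN]; exact hQd)]
        rw [h1, map_div₀, hN, hPm, hQm, coeff_map, coeff_map]
      rw [conjM_none, hF]
      by_cases h : Pm.coeff (N + 2) - ξ * Qm.coeff (N + 2) = 0
      · rw [conj_opt_pole f 0 (by rw [hfQ, hqe0, h, mul_zero])]
        have : Pm.coeff (N + 2) / Qm.coeff (N + 2) = ξ := by
          rw [sub_eq_zero.1 h, mul_div_cancel_right₀ _ hQmc]
        rw [this, conjM_self]
      · rw [conj_opt_some f 0 (by rw [hfQ, hqe0]; exact mul_ne_zero hcne h)]
        have hne : Pm.coeff (N + 2) / Qm.coeff (N + 2) ≠ ξ := by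
          intro h'
          apply h
          rw [← h', div_mul_cancel₀ _ hQmc, sub_self]
        rw [conjM_some _ _ hne]
        congr 1
        show f.P.eval 0 / f.Q.eval 0 = _
        rw [hfP, hfQ, hpe0, hqe0, mul_div_mul_left _ _ hcne]
        have h5 : Pm.coeff (N + 2) / Qm.coeff (N + 2) - ξ =
            (Pm.coeff (N + 2) - ξ * Qm.coeff (N + 2)) / Qm.coeff (N + 2) := by
          field_simp
        rw [h5, inv_div]
    · by_cases hz : z = ξ
      · rw [hz, conjM_self, conj_opt_none]
        have hF : ratMap P Q (some ξ) = some ξ := by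
          have h1 : aeval ξ Q = Qm.eval ξ := by rw [hQm, eval_map_algebraMap]
          have h2 : aeval ξ P = Pm.eval ξ := by rw [hPm, eval_map_algebraMap]
          have h3 : ratMap P Q (some ξ) = some (aeval ξ P / aeval ξ Q) :=
            conj_ratMap_some P Q ξ (by rw [h1]; exact hQξ)
          rw [h3, h1, h2, hξ, mul_div_cancel_right₀ _ hQξ]
        rw [hF, conjM_self]
      · rw [conjM_some _ _ hz]
        have hsub : z - ξ ≠ 0 := sub_ne_zero.2 hz
        have ht : (z - ξ)⁻¹ ≠ 0 := inv_ne_zero hsub
        have hzt : ξ + ((z - ξ)⁻¹)⁻¹ = z := by rw [inv_inv]; ring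
        have h1 : aeval z Q = Qm.eval z := by rw [hQm, eval_map_algebraMap]
        have h2 : aeval z P = Pm.eval z := by rw [hPm, eval_map_algebraMap]
        have hfPz : f.P.eval (z - ξ)⁻¹ = c * ((z - ξ)⁻¹ ^ (N + 2) * Qm.eval z) := by
          rw [hfP, hpe _ ht, hzt]
        have hfQz : f.Q.eval (z - ξ)⁻¹ =
            c * ((z - ξ)⁻¹ ^ (N + 2) * (Pm.eval z - ξ * Qm.eval z)) := by
          rw [hfQ, hqe _ ht, hzt]
        have hpow : (z - ξ)⁻¹ ^ (N + 2) ≠ 0 := pow_ne_zero _ ht
        by_cases hQz : Qm.eval z = 0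
        · have hF : ratMap P Q (some z) = none :=
            conj_ratMap_pole P Q z (by rw [h1]; exact hQz)
          have hPz : Pm.eval z ≠ 0 := fun h => hcommon z h hQz
          rw [hF, conjM_none, conj_opt_some f _ (by
            rw [hfQz, hQz, mul_zero, sub_zero]
            exact mul_ne_zero hcne (mul_ne_zero hpow hPz))]
          congr 1
          show f.P.eval _ / f.Q.eval _ = _
          rw [hfPz, hQz, mul_zero, mul_zero, zero_div]
        · have hF : ratMap P Q (some z) = some (Pm.eval z / Qm.eval z) := by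
            rw [← h1, ← h2]
            exact conj_ratMap_some P Q z (by rw [h1]; exact hQz)
          rw [hF]
          by_cases h : Pm.eval z - ξ * Qm.eval z = 0
          · rw [conj_opt_pole f _ (by rw [hfQz, h, mul_zero, mul_zero])]
            have : Pm.eval z / Qm.eval z = ξ := by
              rw [sub_eq_zero.1 h, mul_div_cancel_right₀ _ hQz]
            rw [this, conjM_self]
          · rw [conj_opt_some f _ (by
              rw [hfQz]; exact mul_ne_zero hcne (mul_ne_zero hpow h))]
            have hne : Pm.eval z / Qm.eval z ≠ ξ := by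
              intro h'
              apply h
              rw [← h', div_mul_cancel₀ _ hQz, sub_self]
            rw [conjM_some _ _ hne]
            congr 1
            show f.P.eval _ / f.Q.eval _ = _
            rw [hfPz, hfQz, mul_div_mul_left _ _ hcne, mul_div_mul_left _ _ hpow]
            have h5 : Pm.eval z / Qm.eval z - ξ = (Pm.eval z - ξ * Qm.eval z) / Qm.eval z := by
              field_simp
            rw [h5, inv_div]
  · intro b hb
    have hWdef : f.W.eval b = c * c * ((derivative (reflect (N + 2) p)).eval b *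
        (reflect (N + 2) q).eval b - (reflect (N + 2) p).eval b *
        (derivative (reflect (N + 2) q)).eval b) := by
      show (derivative (C c * reflect (N + 2) p) * (C c * reflect (N + 2) q) -
        (C c * reflect (N + 2) p) * derivative (C c * reflect (N + 2) q)).eval b = _
      rw [derivative_C_mul, derivative_C_mul]
      simp only [eval_sub, eval_mul, eval_C]
      ring
    have hmapW : ∀ x, aeval x (derivative P * Q - P * derivative Q) =
        (derivative Pm).eval x * Qm.eval x - Pm.eval x * (derivative Qm).eval x := by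
      intro x
      rw [← eval_map_algebraMap, Polynomial.map_sub, Polynomial.map_mul, Polynomial.map_mul,
        ← derivative_map, ← derivative_map, eval_sub, eval_mul, eval_mul]
    by_cases hb0 : b = 0
    · rw [hb0, conjM_symm_zero]
      show (derivative P * Q - P * derivative Q).coeff (2 * rdeg P Q - 2) = 0
      rw [hN, conj_wronskian_coeff N P Q hPdeg hQdeg]
      rw [hWdef, hb0] at hb
      have hb' := (mul_eq_zero.1 hb).resolve_left (mul_ne_zero hcne hcne)
      have hdp : (derivative (reflect (N + 2) p)).eval 0 = p.coeff (N + 1) := by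
        rw [← coeff_zero_eq_eval_zero, coeff_derivative, coeff_reflect, revAt_le (by omega)]
        simp
      have hdq : (derivative (reflect (N + 2) q)).eval 0 = q.coeff (N + 1) := by
        rw [← coeff_zero_eq_eval_zero, coeff_derivative, coeff_reflect, revAt_le (by omega)]
        simp
      rw [hdp, hdq, hpe0, hqe0] at hb'
      have hp1 := (conj_taylor_coeff_top (N + 1) Qm hQmd ξ).2
      have hq1 := (conj_taylor_coeff_top (N + 1) (Pm - C ξ * Qm) hPQd ξ).2
      rw [← hp] at hp1
      rw [← hq] at hq1
      rw [coeff_sub, coeff_sub, coeff_C_mul, coeff_C_mul] at hq1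
      rw [hp1, hq1] at hb'
      apply hφi
      rw [map_sub, map_mul, map_mul, map_zero]
      have e1 : φ (P.coeff (N + 2)) = Pm.coeff (N + 2) := by rw [hPm, coeff_map]
      have e2 : φ (P.coeff (N + 1)) = Pm.coeff (N + 1) := by rw [hPm, coeff_map]
      have e3 : φ (Q.coeff (N + 2)) = Qm.coeff (N + 2) := by rw [hQm, coeff_map]
      have e4 : φ (Q.coeff (N + 1)) = Qm.coeff (N + 1) := by rw [hQm, coeff_map]
      rw [e1, e2, e3, e4]
      have e5 : N + 1 + 1 = N + 2 := rfl
      rw [e5] at hb'
      rw [← hb']
      ring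
    · rw [conjM_symm_some _ _ hb0]
      show aeval (ξ + b⁻¹) (derivative P * Q - P * derivative Q) = 0
      rw [hmapW]
      rw [hWdef] at hb
      have hb' := (mul_eq_zero.1 hb).resolve_left (mul_ne_zero hcne hcne)
      have hrp := congrArg (eval b) (conj_reflect_deriv (N + 2) p hpd)
      have hrq := congrArg (eval b) (conj_reflect_deriv (N + 2) q hqd)
      simp only [eval_sub, eval_mul, eval_C, eval_X] at hrp hrq
      have hXp : (reflect (N + 2) (X * derivative p)).eval b =
          b ^ (N + 2) * (b⁻¹ * (derivative Qm).eval (ξ + b⁻¹)) := by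
        rw [conj_reflect_eval _ _ _ b hb0]
        · rw [eval_mul, eval_X, hp, conj_taylor_deriv, taylor_eval, add_comm b⁻¹ ξ]
        · by_cases h : derivative p = 0
          · rw [h]; simp
          · rw [natDegree_X_mul h]
            have := natDegree_derivative_le p
            omega
      have hXq : (reflect (N + 2) (X * derivative q)).eval b =
          b ^ (N + 2) * (b⁻¹ * ((derivative Pm).eval (ξ + b⁻¹) -
            ξ * (derivative Qm).eval (ξ + b⁻¹))) := by
        rw [conj_reflect_eval _ _ _ b hb0]
        · rw [eval_mul, eval_X, hq, conj_taylor_deriv, taylor_eval, add_comm b⁻¹ ξ,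
            derivative_sub, derivative_C_mul, eval_sub, eval_mul, eval_C]
        · by_cases h : derivative q = 0
          · rw [h]; simp
          · rw [natDegree_X_mul h]
            have := natDegree_derivative_le q
            omega
      rw [hXp] at hrp
      rw [hXq] at hrq
      rw [hpe b hb0] at hrp hb'
      rw [hqe b hb0] at hrq hb'
      have hpow : b ^ (N + 2) ≠ 0 := pow_ne_zero _ hb0
      have hbi : b⁻¹ ≠ 0 := inv_ne_zero hb0
      have hfin : b ^ (N + 2) * (b ^ (N + 2) * (b⁻¹ *
          ((derivative Pm).eval (ξ + b⁻¹) * Qm.eval (ξ + b⁻¹) -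
            Pm.eval (ξ + b⁻¹) * (derivative Qm).eval (ξ + b⁻¹)))) = 0 := by
        linear_combination b * hb' -
          b ^ (N + 2) * (Pm.eval (ξ + b⁻¹) - ξ * Qm.eval (ξ + b⁻¹)) * hrp +
          b ^ (N + 2) * Qm.eval (ξ + b⁻¹) * hrq
      have h1 := (mul_eq_zero.1 hfin).resolve_left hpow
      have h2 := (mul_eq_zero.1 h1).resolve_left hpow
      exact (mul_eq_zero.1 h2).resolve_left hbi

/-- cross ratios -/
theorem conj_cross {F Ω : Type*} [Field F] [Field Ω] [Algebra F Ω] (ξ : Ω)
    (L : IntermediateField F Ω) (x z c e : Ω)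
    (hx : ∀ t, (conjM ξ).symm (some x) = some t → t ∈ L)
    (hz : ∀ t, (conjM ξ).symm (some z) = some t → t ∈ L)
    (hc : ∀ t, (conjM ξ).symm (some c) = some t → t ∈ L)
    (he : ∀ t, (conjM ξ).symm (some e) = some t → t ∈ L) :
    (x - c) * (z - e) / ((x - e) * (z - c)) ∈ L := by
  by_cases h1 : x - c = 0
  · rw [h1, zero_mul, zero_div]; exact zero_mem L
  by_cases h2 : z - e = 0
  · rw [h2, mul_zero, zero_div]; exact zero_mem L
  by_cases h3 : x - e = 0
  · rw [h3, zero_mul, div_zero]; exact zero_mem L
  by_cases h4 : z - c = 0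
  · rw [h4, mul_zero, div_zero]; exact zero_mem L
  have key : ∀ b : Ω, (∀ t, (conjM ξ).symm (some b) = some t → t ∈ L) → b ≠ 0 →
      ∃ t ∈ L, t - ξ ≠ 0 ∧ b = (t - ξ)⁻¹ := by
    intro b hb hb0
    refine ⟨ξ + b⁻¹, hb _ (conjM_symm_some ξ b hb0), ?_, ?_⟩
    · rw [add_sub_cancel_left]; exact inv_ne_zero hb0
    · rw [add_sub_cancel_left, inv_inv]
  have hdiff : ∀ s t : Ω, s - ξ ≠ 0 → t - ξ ≠ 0 →
      (s - ξ)⁻¹ - (t - ξ)⁻¹ = (t - s) / ((s - ξ) * (t - ξ)) := by
    intro s t hs ht
    field_simp
    ring
  by_cases hx0 : x = 0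
  · have hc0 : c ≠ 0 := by rintro rfl; exact h1 (by rw [hx0, sub_zero])
    have he0 : e ≠ 0 := by rintro rfl; exact h3 (by rw [hx0, sub_zero])
    obtain ⟨tc, htc, hc1, hc2⟩ := key c hc hc0
    obtain ⟨te, hte, he1, he2⟩ := key e he he0
    by_cases hz0 : z = 0
    · have : (x - c) * (z - e) / ((x - e) * (z - c)) = 1 := by
        rw [hx0, hz0]
        field_simp
      rw [this]
      exact one_mem L
    · obtain ⟨tz, htz, hz1, hz2⟩ := key z hz hz0
      have h2' : te - tz ≠ 0 := by
        intro h
        apply h2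
        rw [hz2, he2, sub_eq_zero.1 h, sub_self]
      have h4' : tc - tz ≠ 0 := by
        intro h
        apply h4
        rw [hz2, hc2, sub_eq_zero.1 h, sub_self]
      have : (x - c) * (z - e) / ((x - e) * (z - c)) = (te - tz) / (tc - tz) := by
        rw [hx0, hz2, hc2, he2, hdiff tz te hz1 he1, hdiff tz tc hz1 hc1]
        field_simp
        ring
      rw [this]
      exact div_mem (sub_mem hte htz) (sub_mem htc htz)
  obtain ⟨tx, htx, hx1, hx2⟩ := key x hx hx0
  by_cases hz0 : z = 0
  · have hc0 : c ≠ 0 := by rintro rfl; exact h4 (by rw [hz0, sub_zero])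
    have he0 : e ≠ 0 := by rintro rfl; exact h2 (by rw [hz0, sub_zero])
    obtain ⟨tc, htc, hc1, hc2⟩ := key c hc hc0
    obtain ⟨te, hte, he1, he2⟩ := key e he he0
    have h1' : tc - tx ≠ 0 := by
      intro h
      apply h1
      rw [hx2, hc2, sub_eq_zero.1 h, sub_self]
    have h3' : te - tx ≠ 0 := by
      intro h
      apply h3
      rw [hx2, he2, sub_eq_zero.1 h, sub_self]
    have : (x - c) * (z - e) / ((x - e) * (z - c)) = (tc - tx) / (te - tx) := by
      rw [hz0, hx2, hc2, he2, hdiff tx te hx1 he1, hdiff tx tc hx1 hc1]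
      field_simp
      ring
    rw [this]
    exact div_mem (sub_mem htc htx) (sub_mem hte htx)
  obtain ⟨tz, htz, hz1, hz2⟩ := key z hz hz0
  by_cases hc0 : c = 0
  · by_cases he0 : e = 0
    · have : (x - c) * (z - e) / ((x - e) * (z - c)) = 1 := by
        rw [hc0, he0]
        simp only [sub_zero]
        field_simp
      rw [this]
      exact one_mem L
    · obtain ⟨te, hte, he1, he2⟩ := key e he he0
      have h2' : te - tz ≠ 0 := by
        intro h
        apply h2
        rw [hz2, he2, sub_eq_zero.1 h, sub_self]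
      have h3' : te - tx ≠ 0 := by
        intro h
        apply h3
        rw [hx2, he2, sub_eq_zero.1 h, sub_self]
      have : (x - c) * (z - e) / ((x - e) * (z - c)) = (te - tz) / (te - tx) := by
        rw [hc0, hx2, hz2, he2, hdiff tx te hx1 he1, hdiff tz te hz1 he1]
        simp only [sub_zero]
        field_simp
      rw [this]
      exact div_mem (sub_mem hte htz) (sub_mem hte htx)
  obtain ⟨tc, htc, hc1, hc2⟩ := key c hc hc0
  have h1' : tc - tx ≠ 0 := by
    intro h
    apply h1
    rw [hx2, hc2, sub_eq_zero.1 h, sub_self]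
  have h4' : tc - tz ≠ 0 := by
    intro h
    apply h4
    rw [hz2, hc2, sub_eq_zero.1 h, sub_self]
  by_cases he0 : e = 0
  · have : (x - c) * (z - e) / ((x - e) * (z - c)) = (tc - tx) / (tc - tz) := by
      rw [he0, hx2, hz2, hc2, hdiff tx tc hx1 hc1, hdiff tz tc hz1 hc1]
      simp only [sub_zero]
      field_simp
    rw [this]
    exact div_mem (sub_mem htc htx) (sub_mem htc htz)
  obtain ⟨te, hte, he1, he2⟩ := key e he he0
  have h2' : te - tz ≠ 0 := by
    intro h
    apply h2
    rw [hz2, he2, sub_eq_zero.1 h, sub_self]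
  have h3' : te - tx ≠ 0 := by
    intro h
    apply h3
    rw [hx2, he2, sub_eq_zero.1 h, sub_self]
  have : (x - c) * (z - e) / ((x - e) * (z - c)) =
      ((tc - tx) * (te - tz)) / ((te - tx) * (tc - tz)) := by
    rw [hx2, hz2, hc2, he2, hdiff tx tc hx1 hc1, hdiff tz te hz1 he1, hdiff tx te hx1 he1,
      hdiff tz tc hz1 hc1]
    field_simp
  rw [this]
  exact div_mem (mul_mem (sub_mem htc htx) (sub_mem hte htz))
    (mul_mem (sub_mem hte htx) (sub_mem htc htz))

end conj_cases

/-- Module O (reduction to a normalised map). -/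
theorem exists_normalised {K : Type u} [Field K] [NumberField K] (P Q : K[X])
    (hcop : IsCoprime P Q) (hdeg : 2 ≤ rdeg P Q) (hpcf : IsPCF P Q) (α : Option K)
    (hα : NonExceptional P Q α) :
    ∃ (f : NMap (AlgebraicClosure K)) (S : Set (AlgebraicClosure K)) (a : AlgebraicClosure K),
      S.Finite ∧ f.CritSet S ∧ a ∉ S ∧
      ∀ x ∈ f.Back a, ∀ z ∈ f.Back a, ∀ c ∈ f.Back a, ∀ e ∈ f.Back a,
        ∃ n : ℕ, 1 ≤ n ∧ (x - c) * (z - e) / ((x - e) * (z - c)) ∈ towerField P Q α n := by
  by_cases hQ0 : Q.coeff (rdeg P Q) = 0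
  · obtain ⟨f, h1, h2⟩ := conj_case1 P Q hcop hdeg hQ0
    refine conj_abstract P Q hcop hdeg hpcf α hα f (Equiv.refl _) (fun z => h1 z)
      (fun b hb => h2 b hb) ?_
    intro L x z c e hx hz hc he
    have hx' := hx x rfl
    have hz' := hz z rfl
    have hc' := hc c rfl
    have he' := he e rfl
    exact div_mem (mul_mem (sub_mem hx' hc') (sub_mem hz' he'))
      (mul_mem (sub_mem hx' he') (sub_mem hz' hc'))
  · obtain ⟨ξ, f, h1, h2⟩ := conj_case2 P Q hcop hdeg hQ0
    exact conj_abstract P Q hcop hdeg hpcf α hα f (conjM ξ) h1 h2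
      (fun L x z c e hx hz hc he => conj_cross ξ L x z c e hx hz hc he)

end Pool.Agent.H.MP_392fd3_nt
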