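import Pool.Agent.H.MP_392fd3_nt.Slope

set_option autoImplicit false

open Polynomial

namespace Pool.Agent.H.MP_392fd3_nt

/-! Auxiliary piecewise linear functions for `Core.lean`. -/

/-- truncated valuation -/
noncomputable def coreG (a R : ℝ) : ℝ := -Real.log (max a (Real.exp (-R)))

theorem coreG_continuous (a : ℝ) : Continuous (coreG a) := by
  unfold coreG
  apply Continuous.neg
  apply Continuous.log
  · exact continuous_const.max (Real.continuous_exp.comp continuous_neg)
  · intro R
    have : 0 < Real.exp (-R) := Real.exp_pos _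
    exact ne_of_gt (lt_max_of_lt_right this)

theorem coreG_of_le {a R : ℝ} (h : a ≤ Real.exp (-R)) : coreG a R = R := by
  unfold coreG
  rw [max_eq_right h, Real.log_exp]; ring

theorem coreG_of_ge {a R : ℝ} (h : Real.exp (-R) ≤ a) : coreG a R = -Real.log a := by
  unfold coreG
  rw [max_eq_left h]

variable {k : Type*} [NormedField k]

/-- the sum over a multiset of points -/
noncomputable def coreS (s0 : k) (D : ℝ) (Z : Multiset k) (R : ℝ) : ℝ :=
  (Z.map (fun c => coreG (‖c - s0‖ / D) R)).sum

theorem coreS_continuous (s0 : k) (D : ℝ) (Z : Multiset k) : Continuous (coreS s0 D Z) := by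
  induction Z using Multiset.induction with
  | empty =>
    have : coreS s0 D 0 = fun _ => 0 := by
      funext R; simp [coreS]
    rw [this]; exact continuous_const
  | cons a Z ih =>
    have : coreS s0 D (a ::ₘ Z) = fun R => coreG (‖a - s0‖ / D) R + coreS s0 D Z R := by
      funext R; simp [coreS]
    rw [this]
    exact (coreG_continuous _).add ih

theorem coreS_zero (s0 : k) (D : ℝ) (hD : 0 < D) (Z : Multiset k) (hZ : ∀ c ∈ Z, ‖c - s0‖ ≤ D) :
    coreS s0 D Z 0 = 0 := by
  unfold coreS
  have : ∀ c ∈ Z, coreG (‖c - s0‖ / D) 0 = 0 := by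
    intro c hc
    apply coreG_of_le
    simp only [neg_zero, Real.exp_zero]
    rw [div_le_one hD]; exact hZ c hc
  rw [Multiset.map_congr rfl this]
  simp

theorem coreS_affine (s0 : k) (D : ℝ) (hD : 0 < D) (x y : ℝ) (Z : Multiset k)
    (hZ : ∀ z ∈ Z, ¬ (D * Real.exp (-y) < ‖z - s0‖ ∧ ‖z - s0‖ < D * Real.exp (-x))) :
    ∃ n : ℕ, (∀ R1 R2, x ≤ R1 → R1 ≤ y → x ≤ R2 → R2 ≤ y →
        coreS s0 D Z R2 - coreS s0 D Z R1 = n * (R2 - R1)) ∧
      ∀ R, x < R → R < y → Z.countP (fun z => ‖z - s0‖ < D * Real.exp (-R)) = n := by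
  classical
  induction Z using Multiset.induction with
  | empty =>
    refine ⟨0, ?_, ?_⟩
    · intro R1 R2 _ _ _ _; simp [coreS]
    · intro R _ _; simp
  | cons a Z ih =>
    obtain ⟨n, hn1, hn2⟩ := ih (fun z hz => hZ z (Multiset.mem_cons_of_mem hz))
    have ha := hZ a (Multiset.mem_cons_self _ _)
    by_cases h : ‖a - s0‖ ≤ D * Real.exp (-y)
    · refine ⟨n + 1, ?_, ?_⟩
      · intro R1 R2 h1 h2 h3 h4
        have e1 : coreG (‖a - s0‖ / D) R1 = R1 := by
          apply coreG_of_le
          rw [div_le_iff₀ hD]
          calc ‖a - s0‖ ≤ D * Real.exp (-y) := h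
            _ ≤ D * Real.exp (-R1) := by
                apply mul_le_mul_of_nonneg_left _ hD.le
                exact Real.exp_le_exp.mpr (by linarith)
            _ = Real.exp (-R1) * D := by ring
        have e2 : coreG (‖a - s0‖ / D) R2 = R2 := by
          apply coreG_of_le
          rw [div_le_iff₀ hD]
          calc ‖a - s0‖ ≤ D * Real.exp (-y) := h
            _ ≤ D * Real.exp (-R2) := by
                apply mul_le_mul_of_nonneg_left _ hD.le
                exact Real.exp_le_exp.mpr (by linarith)
            _ = Real.exp (-R2) * D := by ring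
        have := hn1 R1 R2 h1 h2 h3 h4
        have f1 : coreS s0 D (a ::ₘ Z) R1 = coreG (‖a - s0‖ / D) R1 + coreS s0 D Z R1 := by
          simp [coreS]
        have f2 : coreS s0 D (a ::ₘ Z) R2 = coreG (‖a - s0‖ / D) R2 + coreS s0 D Z R2 := by
          simp [coreS]
        rw [f1, f2, e1, e2]; push_cast; linarith
      · intro R h1 h2
        have h3 := hn2 R h1 h2
        rw [Multiset.countP_cons_of_pos, h3]
        calc ‖a - s0‖ ≤ D * Real.exp (-y) := h
          _ < D * Real.exp (-R) := by
                apply mul_lt_mul_of_pos_left _ hD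
                exact Real.exp_lt_exp.mpr (by linarith)
    · have h' : D * Real.exp (-x) ≤ ‖a - s0‖ := by
        by_contra hc
        exact ha ⟨lt_of_not_ge h, lt_of_not_ge hc⟩
      refine ⟨n, ?_, ?_⟩
      · intro R1 R2 h1 h2 h3 h4
        have e1 : coreG (‖a - s0‖ / D) R1 = -Real.log (‖a - s0‖ / D) := by
          apply coreG_of_ge
          rw [le_div_iff₀ hD]
          calc Real.exp (-R1) * D = D * Real.exp (-R1) := by ring
            _ ≤ D * Real.exp (-x) := by
                apply mul_le_mul_of_nonneg_left _ hD.le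
                exact Real.exp_le_exp.mpr (by linarith)
            _ ≤ ‖a - s0‖ := h'
        have e2 : coreG (‖a - s0‖ / D) R2 = -Real.log (‖a - s0‖ / D) := by
          apply coreG_of_ge
          rw [le_div_iff₀ hD]
          calc Real.exp (-R2) * D = D * Real.exp (-R2) := by ring
            _ ≤ D * Real.exp (-x) := by
                apply mul_le_mul_of_nonneg_left _ hD.le
                exact Real.exp_le_exp.mpr (by linarith)
            _ ≤ ‖a - s0‖ := h'
        have := hn1 R1 R2 h1 h2 h3 h4
        have f1 : coreS s0 D (a ::ₘ Z) R1 = coreG (‖a - s0‖ / D) R1 + coreS s0 D Z R1 := by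
          simp [coreS]
        have f2 : coreS s0 D (a ::ₘ Z) R2 = coreG (‖a - s0‖ / D) R2 + coreS s0 D Z R2 := by
          simp [coreS]
        rw [f1, f2, e1, e2]; linarith
      · intro R h1 h2
        have h3 := hn2 R h1 h2
        rw [Multiset.countP_cons_of_neg, h3]
        rw [not_lt]
        calc D * Real.exp (-R) ≤ D * Real.exp (-x) := by
                apply mul_le_mul_of_nonneg_left _ hD.le
                exact Real.exp_le_exp.mpr (by linarith)
          _ ≤ ‖a - s0‖ := h'

/-- general principle: monotone on break free intervals implies monotone -/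
theorem core_principle (h : ℝ → ℝ) (F : Finset ℝ) :
    (∀ x y, 0 ≤ x → x < y → (∀ z ∈ F, ¬ (x < z ∧ z < y)) → h x ≤ h y) →
      ∀ x y, 0 ≤ x → x ≤ y → h x ≤ h y := by
  classical
  induction F using Finset.induction with
  | empty =>
    intro hF x y hx hxy
    rcases hxy.lt_or_eq with h1 | h1
    · exact hF x y hx h1 (by simp)
    · rw [h1]
  | insert a F _ ih =>
    intro hF
    apply ih
    intro x y hx hxy hz
    by_cases ha : x < a ∧ a < y
    · have h1 : h x ≤ h a := by
        apply hF x a hx ha.1
        intro z hz'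
        rcases Finset.mem_insert.mp hz' with rfl | h2
        · intro h3; exact absurd h3.2 (lt_irrefl _)
        · intro h3; exact hz z h2 ⟨h3.1, h3.2.trans ha.2⟩
      have h2 : h a ≤ h y := by
        apply hF a y (hx.trans ha.1.le) ha.2
        intro z hz'
        rcases Finset.mem_insert.mp hz' with rfl | h2
        · intro h3; exact absurd h3.1 (lt_irrefl _)
        · intro h3; exact hz z h2 ⟨ha.1.trans h3.1, h3.2⟩
      exact h1.trans h2
    · apply hF x y hx hxy
      intro z hz'
      rcases Finset.mem_insert.mp hz' with rfl | h2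
      · exact ha
      · exact hz z h2

/-- the break point belonging to a point `c` -/
theorem core_break {D r x y : ℝ} (hD : 0 < D) (h : D * Real.exp (-y) < r)
    (h' : r < D * Real.exp (-x)) : x < -Real.log (r / D) ∧ -Real.log (r / D) < y := by
  have hr : 0 < r := lt_trans (mul_pos hD (Real.exp_pos _)) h
  have hrD : 0 < r / D := div_pos hr hD
  constructor
  · have : Real.log (r / D) < -x := by
      rw [Real.log_lt_iff_lt_exp hrD, div_lt_iff₀ hD]; linarith
    linarith
  · have : -y < Real.log (r / D) := by
      rw [Real.lt_log_iff_exp_lt hrD, lt_div_iff₀ hD]; linarith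
    linarith

/-- norm of the value of a split monic polynomial -/
theorem core_norm_eval [IsUltrametricDist k] [IsAlgClosed k] (s0 : k) (D : ℝ) (hD : 0 < D) (A : k[X]) (hA : A.Monic)
    (d : ℕ) (hd : A.natDegree = d) (R : ℝ) (u : k) (hu : ‖u‖ = D * Real.exp (-R))
    (hr : ∀ c ∈ A.roots, ‖c - s0‖ ≠ ‖u‖) :
    ‖A.eval (s0 + u)‖ = D ^ d * Real.exp (-(coreS s0 D A.roots R)) := by
  have hs : A.Splits := IsAlgClosed.splits A
  have key : ∀ Z : Multiset k, (∀ c ∈ Z, ‖c - s0‖ ≠ ‖u‖) →
      ‖(Z.map (fun c => (s0 + u) - c)).prod‖ =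
        D ^ (Multiset.card Z) * Real.exp (-(coreS s0 D Z R)) := by
    intro Z
    induction Z using Multiset.induction with
    | empty => intro _; simp [coreS]
    | cons a Z ih =>
      intro hZ
      have ih' := ih (fun c hc => hZ c (Multiset.mem_cons_of_mem hc))
      have ha := hZ a (Multiset.mem_cons_self _ _)
      have f1 : coreS s0 D (a ::ₘ Z) R = coreG (‖a - s0‖ / D) R + coreS s0 D Z R := by
        simp [coreS]
      rw [Multiset.map_cons, Multiset.prod_cons, norm_mul, ih', f1, Multiset.card_cons, pow_succ,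
        neg_add, Real.exp_add]
      have e1 : ‖s0 + u - a‖ = D * Real.exp (-(coreG (‖a - s0‖ / D) R)) := by
        have e2 : s0 + u - a = u + (-(a - s0)) := by ring
        rw [e2, IsUltrametricDist.norm_add_eq_max_of_norm_ne_norm
          (by rw [norm_neg]; exact fun h => ha h.symm), norm_neg]
        unfold coreG
        rw [neg_neg, Real.exp_log (lt_max_of_lt_right (Real.exp_pos _)), mul_max_of_nonneg _ _ hD.le,
          hu, mul_div_cancel₀ _ hD.ne', max_comm]
      rw [e1]; ring
  rw [hs.eval_eq_prod_roots_of_monic hA, key _ hr, ← hs.natDegree_eq_card_roots, hd]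

end Pool.Agent.H.MP_392fd3_nt
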