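import Pool.Agent.H.MP_392fd3_nt.Slope
import Pool.Agent.H.MP_392fd3_nt.CoreAux

set_option autoImplicit false

open Polynomial

namespace Pool.Agent.H.MP_392fd3_nt

section aux

variable {k : Type*} [NormedField k]

theorem core_monic (d : ℕ) (hd : 2 ≤ d) (U V : k[X]) (hU : U.Monic) (hUd : U.natDegree = d)
    (hVd : V.natDegree ≤ d - 1) (s : k) :
    (U - C s * V).Monic ∧ (U - C s * V).natDegree = d := by
  have h1 : (C s * V).natDegree < U.natDegree := by
    calc (C s * V).natDegree ≤ V.natDegree := natDegree_C_mul_le _ _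
      _ ≤ d - 1 := hVd
      _ < U.natDegree := by omega
  constructor
  · exact hU.sub_of_left (degree_lt_degree h1)
  · rw [natDegree_sub_eq_left_of_natDegree_lt h1, hUd]

theorem core_wronski (U V : k[X]) (a b : k) :
    derivative (U - C a * V) * (U - C b * V) - (U - C a * V) * derivative (U - C b * V) =
      C (a - b) * (derivative U * V - U * derivative V) := by
  simp only [derivative_sub, derivative_mul, derivative_C, zero_mul, zero_add, C_sub]
  ring

theorem core_wronski_deg (d : ℕ) (hd : 2 ≤ d) (U V : k[X]) (hUd : U.natDegree = d)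
    (hVd : V.natDegree ≤ d - 1) :
    (derivative U * V - U * derivative V).natDegree ≤ 2 * d - 2 := by
  apply (natDegree_sub_le _ _).trans
  apply max_le
  · apply natDegree_mul_le.trans
    have := natDegree_derivative_le U
    omega
  · apply natDegree_mul_le.trans
    have := natDegree_derivative_le V
    omega

theorem core_wronski_coeff (d : ℕ) (hd : 2 ≤ d) (U V : k[X]) (hU : U.Monic) (hUd : U.natDegree = d)
    (hVd : V.natDegree ≤ d - 1) (lam : k) (hlam : V.coeff (d - 1) = lam) :
    (derivative U * V - U * derivative V).coeff (2 * d - 2) = lam := by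
  have e1 : 2 * d - 2 = (d - 1) + (d - 1) := by omega
  have e2 : 2 * d - 2 = d + (d - 2) := by omega
  rw [coeff_sub]
  have h1 : (derivative U * V).coeff (2 * d - 2) = d * lam := by
    rw [e1, coeff_mul_add_eq_of_natDegree_le (by
      have := natDegree_derivative_le U
      omega) hVd, coeff_derivative, hlam]
    have e3 : d - 1 + 1 = d := by omega
    rw [e3]
    have : U.coeff d = 1 := by rw [← hUd]; exact hU.coeff_natDegree
    rw [this, Nat.cast_sub (by omega)]
    push_cast; ring
  have h2 : (U * derivative V).coeff (2 * d - 2) = (d - 1) * lam := by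
    rw [e2, coeff_mul_add_eq_of_natDegree_le hUd.le (by
      have := natDegree_derivative_le V
      omega), coeff_derivative]
    have e3 : d - 2 + 1 = d - 1 := by omega
    rw [e3, hlam]
    have : U.coeff d = 1 := by rw [← hUd]; exact hU.coeff_natDegree
    rw [this, Nat.cast_sub (by omega)]
    push_cast; ring
  rw [h1, h2]; ring

end aux

/-- Module C (one step of the tower, in the coordinates in which `y, y'` are at infinity). -/
theorem core_step {k : Type*} [NormedField k] [IsUltrametricDist k] [IsAlgClosed k] [CharZero k]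
    (p : ℕ) (hp : p.Prime) (hp1 : ‖(p : k)‖ < 1) (d : ℕ) (hd : 2 ≤ d)
    (U V : k[X]) (hU : U.Monic) (hUd : U.natDegree = d) (hVd : V.natDegree ≤ d - 1)
    (lam : k) (hlam : V.coeff (d - 1) = lam) (hlam0 : lam ≠ 0)
    (s0' s1' s0 s1 : k) (hs' : s0' ≠ s1') (hs : s0 ≠ s1)
    (h0 : s0 ∈ (U - C s0' * V).roots) (h1 : s1 ∈ (U - C s1' * V).roots)
    (hG0 : ∀ x ∈ (U - C s0' * V).roots, ‖x - s0‖ ≤ ‖s0 - s1‖)
    (hG1 : ∀ x ∈ (U - C s1' * V).roots, ‖x - s0‖ ≤ ‖s0 - s1‖)
    (hG2 : ∀ x ∈ (derivative U * V - U * derivative V).roots, ‖x - s0‖ ≤ ‖s0 - s1‖)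
    (hDL : ∀ r : ℝ, 0 < r → r ≤ ‖s0 - s1‖ →
      (U - C s1' * V).roots.countP (fun x => ‖x - s0‖ < r) <
        (U - C s0' * V).roots.countP (fun x => ‖x - s0‖ < r)) :
    ∃ ρ : ℝ → ℝ, Continuous ρ ∧ ρ 0 = 0 ∧
      (∀ x y, 0 ≤ x → x ≤ y → y - x ≤ ρ y - ρ x) ∧
      (∀ x y, 0 ≤ x → x < y →
        (∀ z ∈ (U - C s0' * V).roots + (U - C s1' * V).roots,
          ¬ (‖s0 - s1‖ * Real.exp (-y) < ‖z - s0‖ ∧ ‖z - s0‖ < ‖s0 - s1‖ * Real.exp (-x))) →
        ∃ m : ℤ, 0 < m ∧ ρ y - ρ x = m * (y - x) ∧
          ‖(m : k)‖ ≤ (‖lam‖ * ‖s0' - s1'‖ / ‖s0 - s1‖) *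
            Real.exp ((2 * d - 2) * (ρ x - x)) ∧
          ∀ R : ℝ, x < R → R < y →
            m = ((U - C s0' * V).roots.countP (fun z => ‖z - s0‖ < ‖s0 - s1‖ * Real.exp (-R)) : ℤ)
              - ((U - C s1' * V).roots.countP
                  (fun z => ‖z - s0‖ < ‖s0 - s1‖ * Real.exp (-R)) : ℤ)) ∧
      (∀ (t' : k) (S R : ℝ), 0 < S → ‖t' - s0'‖ = ‖s0' - s1'‖ * Real.exp (-S) → 0 < R → ρ R = S →
        ∃ t ∈ (U - C t' * V).roots + (U - C s1' * V).roots,
          ‖t - s0‖ = ‖s0 - s1‖ * Real.exp (-R)) := by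
  classical
  have hp0 : (p : k) ≠ 0 := by
    exact_mod_cast hp.ne_zero
  have hD : 0 < ‖s0 - s1‖ := norm_pos_iff.mpr (sub_ne_zero.mpr hs)
  have hD' : 0 < ‖s0' - s1'‖ := norm_pos_iff.mpr (sub_ne_zero.mpr hs')
  obtain ⟨hAm, hAd⟩ := core_monic d hd U V hU hUd hVd s0'
  obtain ⟨hBm, hBd⟩ := core_monic d hd U V hU hUd hVd s1'
  set A := U - C s0' * V with hAdef
  set B := U - C s1' * V with hBdef
  set D := ‖s0 - s1‖ with hDdef
  have hD1 : (0 : ℝ) < ‖lam‖ * ‖s0' - s1'‖ / D :=
    div_pos (mul_pos (norm_pos_iff.mpr hlam0) hD') hD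
  -- the slope function
  let cnt : Multiset k → ℝ → ℤ := fun Z R => (Z.countP (fun z => ‖z - s0‖ < D * Real.exp (-R)) : ℤ)
  set ρ : ℝ → ℝ := fun R => coreS s0 D A.roots R - coreS s0 D B.roots R with hρ
  have hρc : Continuous ρ := (coreS_continuous _ _ _).sub (coreS_continuous _ _ _)
  have hρ0 : ρ 0 = 0 := by
    simp only [hρ]
    rw [coreS_zero s0 D hD _ hG0, coreS_zero s0 D hD _ hG1]; simp
  -- slope on a break free interval
  have hslope : ∀ x y, 0 ≤ x → x < y →
      (∀ z ∈ A.roots + B.roots, ¬ (D * Real.exp (-y) < ‖z - s0‖ ∧ ‖z - s0‖ < D * Real.exp (-x))) →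
      ∃ m : ℤ, 0 < m ∧ ρ y - ρ x = m * (y - x) ∧
        ∀ R : ℝ, x < R → R < y → m = cnt A.roots R - cnt B.roots R := by
    intro x y hx hxy hz
    obtain ⟨n1, hn1, hn1'⟩ := coreS_affine s0 D hD x y A.roots
      (fun z hzA => hz z (Multiset.mem_add.mpr (Or.inl hzA)))
    obtain ⟨n2, hn2, hn2'⟩ := coreS_affine s0 D hD x y B.roots
      (fun z hzB => hz z (Multiset.mem_add.mpr (Or.inr hzB)))
    refine ⟨n1 - n2, ?_, ?_, ?_⟩
    · have hm : x < (x + y) / 2 := by linarith
      have hm' : (x + y) / 2 < y := by linarith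
      have e1 := hn1' _ hm hm'
      have e2 := hn2' _ hm hm'
      have := hDL (D * Real.exp (-((x + y) / 2))) (mul_pos hD (Real.exp_pos _)) (by
        have : Real.exp (-((x + y) / 2)) ≤ 1 := by
          rw [Real.exp_le_one_iff]; linarith
        calc D * Real.exp (-((x + y) / 2)) ≤ D * 1 := mul_le_mul_of_nonneg_left this hD.le
          _ = D := mul_one D)
      rw [e1, e2] at this
      omega
    · have e1 := hn1 x y le_rfl hxy.le hxy.le le_rfl
      have e2 := hn2 x y le_rfl hxy.le hxy.le le_rfl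
      simp only [hρ]
      push_cast
      linarith
    · intro R hR1 hR2
      have e1 := hn1' R hR1 hR2
      have e2 := hn2' R hR1 hR2
      simp only [cnt]
      rw [e1, e2]
  -- finite set of breaks
  set F : Finset ℝ := ((A.roots + B.roots).map (fun z => -Real.log (‖z - s0‖ / D))).toFinset
    with hF
  have hFmem : ∀ z ∈ A.roots + B.roots, -Real.log (‖z - s0‖ / D) ∈ F := by
    intro z hz
    rw [hF, Multiset.mem_toFinset]
    exact Multiset.mem_map_of_mem _ hz
  have hFbf : ∀ x y, (∀ z ∈ F, ¬ (x < z ∧ z < y)) →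
      (∀ z ∈ A.roots + B.roots, ¬ (D * Real.exp (-y) < ‖z - s0‖ ∧ ‖z - s0‖ < D * Real.exp (-x))) := by
    intro x y h z hz h2
    exact h _ (hFmem z hz) (core_break hD h2.1 h2.2)
  have hmono : ∀ x y, 0 ≤ x → x ≤ y → ρ x - x ≤ ρ y - y := by
    apply core_principle (fun R => ρ R - R) F
    intro x y hx hxy hz
    obtain ⟨m, hm0, hm1, _⟩ := hslope x y hx hxy (hFbf x y hz)
    have hm2 : (1 : ℝ) ≤ m := by exact_mod_cast hm0
    have : (y - x) ≤ m * (y - x) := by
      have := mul_le_mul_of_nonneg_right hm2 (by linarith : (0 : ℝ) ≤ y - x)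
      linarith
    linarith
  have hge : ∀ x, 0 ≤ x → 0 ≤ ρ x - x := by
    intro x hx
    have := hmono 0 x le_rfl hx
    rw [hρ0] at this; linarith
  -- the slope bound
  have hwr := core_wronski U V s0' s1'
  have hNroots : (derivative A * B - A * derivative B).roots =
      (derivative U * V - U * derivative V).roots := by
    rw [hAdef, hBdef, hwr]
    exact roots_C_mul _ (sub_ne_zero.mpr hs')
  have hNcoeff : (derivative A * B - A * derivative B).coeff (2 * d - 2) = (s0' - s1') * lam := by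
    rw [hAdef, hBdef, hwr, coeff_C_mul, core_wronski_coeff d hd U V hU hUd hVd lam hlam]
  have hNdeg : (derivative A * B - A * derivative B).natDegree ≤ 2 * d - 2 := by
    rw [hAdef, hBdef, hwr]
    exact (natDegree_C_mul_le _ _).trans (core_wronski_deg d hd U V hUd hVd)
  have hSB : ∀ R, 0 < R → (∀ z ∈ A.roots + B.roots, ‖z - s0‖ ≠ D * Real.exp (-R)) →
      ‖((cnt A.roots R - cnt B.roots R : ℤ) : k)‖ ≤
        (‖lam‖ * ‖s0' - s1'‖ / D) * Real.exp ((2 * d - 2) * R) := by
    intro R hR hz
    have hexp : Real.exp (-R) < 1 := by rw [Real.exp_lt_one_iff]; linarith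
    have := slope_bound p hp hp1 d (by omega) A B hAm hBm hAd hBd s0 s1 h0 h1 hs hG0 hG1
      (by rw [hNroots]; exact hG2) ((s0' - s1') * lam) hNcoeff
      (mul_ne_zero (sub_ne_zero.mpr hs') hlam0) hNdeg (D * Real.exp (-R))
      (mul_pos hD (Real.exp_pos _)) (by
        calc D * Real.exp (-R) < D * 1 := mul_lt_mul_of_pos_left hexp hD
          _ = D := mul_one D)
      (fun x hx => hz x (Multiset.mem_add.mpr (Or.inl hx)))
      (fun x hx => hz x (Multiset.mem_add.mpr (Or.inr hx)))
    refine this.trans (le_of_eq ?_)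
    rw [norm_mul, mul_comm ‖s0' - s1'‖]
    congr 1
    rw [← hDdef]
    have e1 : D / (D * Real.exp (-R)) = Real.exp R := by
      rw [Real.exp_neg]; field_simp
    rw [e1, ← Real.exp_nat_mul]
    congr 1
    have : ((2 * d - 2 : ℕ) : ℝ) = 2 * d - 2 := by
      rw [Nat.cast_sub (by omega)]; push_cast; ring
    rw [this]
  -- the bound at the left end point of a break free interval
  have hd0 : (0 : ℝ) < 2 * d - 2 := by
    have : (2 : ℝ) ≤ d := by exact_mod_cast hd
    linarith
  have hnobreak : ∀ x y R, x < R → R < y →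
      (∀ z ∈ A.roots + B.roots, ¬ (D * Real.exp (-y) < ‖z - s0‖ ∧ ‖z - s0‖ < D * Real.exp (-x))) →
      (∀ z ∈ A.roots + B.roots, ‖z - s0‖ ≠ D * Real.exp (-R)) := by
    intro x y R h1 h2 h z hz h3
    apply h z hz
    rw [h3]
    constructor
    · apply mul_lt_mul_of_pos_left _ hD
      exact Real.exp_lt_exp.mpr (by linarith)
    · apply mul_lt_mul_of_pos_left _ hD
      exact Real.exp_lt_exp.mpr (by linarith)
  have hSBx : ∀ x y, 0 ≤ x → x < y →
      (∀ z ∈ A.roots + B.roots, ¬ (D * Real.exp (-y) < ‖z - s0‖ ∧ ‖z - s0‖ < D * Real.exp (-x))) →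
      ∀ m : ℤ, (∀ R : ℝ, x < R → R < y → m = cnt A.roots R - cnt B.roots R) →
      ‖(m : k)‖ ≤ (‖lam‖ * ‖s0' - s1'‖ / D) * Real.exp ((2 * d - 2) * x) := by
    intro x y hx hxy hz m hm
    have hcont : Continuous (fun R : ℝ => (‖lam‖ * ‖s0' - s1'‖ / D) * Real.exp ((2 * d - 2) * R)) := by
      fun_prop
    have htend : Filter.Tendsto (fun R : ℝ => (‖lam‖ * ‖s0' - s1'‖ / D) *
        Real.exp ((2 * d - 2) * R)) (nhdsWithin x (Set.Ioi x))
        (nhds ((‖lam‖ * ‖s0' - s1'‖ / D) * Real.exp ((2 * d - 2) * x))) :=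
      hcont.continuousAt.tendsto.mono_left nhdsWithin_le_nhds
    apply ge_of_tendsto htend
    filter_upwards [Ioo_mem_nhdsGT hxy] with R hR
    rw [hm R hR.1 hR.2]
    exact hSB R (by linarith [hR.1]) (hnobreak x y R hR.1 hR.2 hz)
  have hint : ∀ m : ℤ, ‖(m : k)‖ ≤ 1 := fun m => IsUltrametricDist.norm_intCast_le_one k m
  refine ⟨ρ, hρc, hρ0, ?_, ?_, ?_⟩
  · intro x y hx hxy
    have := hmono x y hx hxy
    linarith
  · intro x y hx hxy hz
    obtain ⟨m, hm0, hm1, hm2⟩ := hslope x y hx hxy hz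
    refine ⟨m, hm0, hm1, ?_, hm2⟩
    set c0 := ‖lam‖ * ‖s0' - s1'‖ / D with hc0
    have hm3 := hSBx x y hx hxy hz m hm2
    by_cases hc : 1 ≤ c0
    · calc ‖(m : k)‖ ≤ 1 := hint m
        _ ≤ c0 * 1 := by linarith
        _ ≤ c0 * Real.exp ((2 * d - 2) * (ρ x - x)) := by
            apply mul_le_mul_of_nonneg_left _ hD1.le
            rw [Real.one_le_exp_iff]
            exact mul_nonneg hd0.le (hge x hx)
    · have hc' : c0 < 1 := lt_of_not_ge hc
      set rs : ℝ := -Real.log c0 / (2 * d - 2) with hrs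
      have hlog : Real.log c0 < 0 := Real.log_neg hD1 hc'
      have hrs0 : 0 < rs := div_pos (by linarith) hd0
      have hrs1 : c0 * Real.exp ((2 * d - 2) * rs) = 1 := by
        rw [hrs, mul_div_cancel₀ _ hd0.ne', Real.exp_neg, Real.exp_log hD1]
        exact mul_inv_cancel₀ hD1.ne'
      have hkey : ∀ x' y', 0 ≤ x' → x' ≤ y' →
          ρ (min x' rs) - 2 * min x' rs ≤ ρ (min y' rs) - 2 * min y' rs := by
        apply core_principle (fun R => ρ (min R rs) - 2 * min R rs) (insert rs F)
        intro x' y' hx' hxy' hz'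
        by_cases hy : y' ≤ rs
        · show ρ (min x' rs) - 2 * min x' rs ≤ ρ (min y' rs) - 2 * min y' rs
          rw [min_eq_left hy, min_eq_left (hxy'.le.trans hy)]
          have hz2 := hFbf x' y' (fun z hz => hz' z (Finset.mem_insert_of_mem hz))
          obtain ⟨m', hm0', hm1', hm2'⟩ := hslope x' y' hx' hxy' hz2
          have hm4 := hSBx x' y' hx' hxy' hz2 m' hm2'
          have hm5 : ‖(m' : k)‖ < 1 := by
            calc ‖(m' : k)‖ ≤ c0 * Real.exp ((2 * d - 2) * x') := hm4
              _ < c0 * Real.exp ((2 * d - 2) * rs) := by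
                  apply mul_lt_mul_of_pos_left _ hD1
                  apply Real.exp_lt_exp.mpr
                  apply mul_lt_mul_of_pos_left _ hd0
                  linarith
              _ = 1 := hrs1
          have hm6 : m' ≠ 1 := by
            rintro rfl
            simp at hm5
          have hm7 : (2 : ℝ) ≤ m' := by
            have : (2 : ℤ) ≤ m' := by omega
            exact_mod_cast this
          have := mul_le_mul_of_nonneg_right hm7 (by linarith : (0 : ℝ) ≤ y' - x')
          linarith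
        · have hy' : rs < y' := lt_of_not_ge hy
          have hx'' : rs ≤ x' := by
            by_contra hcon
            exact hz' rs (Finset.mem_insert_self _ _) ⟨lt_of_not_ge hcon, hy'⟩
          show ρ (min x' rs) - 2 * min x' rs ≤ ρ (min y' rs) - 2 * min y' rs
          rw [min_eq_right hy'.le, min_eq_right hx'']
      have hk2 := hkey 0 x le_rfl hx
      rw [min_eq_left hrs0.le, hρ0] at hk2
      have hk3 := hmono (min x rs) x (le_min hx hrs0.le) (min_le_left _ _)
      have hk4 : min x rs ≤ ρ x - x := by linarith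
      rcases le_total x rs with hxr | hxr
      · rw [min_eq_left hxr] at hk4
        refine hm3.trans ?_
        apply mul_le_mul_of_nonneg_left _ hD1.le
        apply Real.exp_le_exp.mpr
        exact mul_le_mul_of_nonneg_left hk4 hd0.le
      · rw [min_eq_right hxr] at hk4
        calc ‖(m : k)‖ ≤ 1 := hint m
          _ = c0 * Real.exp ((2 * d - 2) * rs) := hrs1.symm
          _ ≤ c0 * Real.exp ((2 * d - 2) * (ρ x - x)) := by
              apply mul_le_mul_of_nonneg_left _ hD1.le
              apply Real.exp_le_exp.mpr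
              exact mul_le_mul_of_nonneg_left hk4 hd0.le
  · intro t' S R hS ht' hR hρR
    by_contra hcon
    push Not at hcon
    obtain ⟨hTm, hTd⟩ := core_monic d hd U V hU hUd hVd t'
    set T := U - C t' * V with hTdef
    -- theta
    have hexpS : Real.exp (-S) < 1 := by rw [Real.exp_lt_one_iff]; linarith
    have hn1 : ‖t' - s1'‖ = ‖s0' - s1'‖ := by
      have e1 : t' - s1' = (s0' - s1') + (t' - s0') := by ring
      have e2 : ‖t' - s0'‖ < ‖s0' - s1'‖ := by
        rw [ht']
        calc ‖s0' - s1'‖ * Real.exp (-S) < ‖s0' - s1'‖ * 1 := mul_lt_mul_of_pos_left hexpS hD'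
          _ = ‖s0' - s1'‖ := mul_one _
      rw [e1, IsUltrametricDist.norm_add_eq_max_of_norm_ne_norm (ne_of_gt e2), max_eq_left e2.le]
    have hts1 : t' - s1' ≠ 0 := by
      rw [← norm_pos_iff, hn1]; exact hD'
    set θ := (t' - s0') / (t' - s1') with hθ
    have hθn : ‖θ‖ = Real.exp (-S) := by
      rw [hθ, norm_div, ht', hn1]; field_simp
    have h1θ : ‖1 - θ‖ = 1 := by
      have e1 : (1 : k) - θ = 1 + (-θ) := by ring
      rw [e1, IsUltrametricDist.norm_add_eq_max_of_norm_ne_norm, norm_one, norm_neg, hθn,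
        max_eq_left hexpS.le]
      rw [norm_one, norm_neg, hθn]; exact ne_of_gt hexpS
    have hATB : ∀ z : k, A.eval z - θ * B.eval z = (1 - θ) * T.eval z := by
      intro z
      have e1 : (t' - s0') = θ * (t' - s1') := by
        rw [hθ]; field_simp
      simp only [hAdef, hBdef, hTdef, eval_sub, eval_mul, eval_C]
      linear_combination (V.eval z) * e1
    -- lambda
    set lm : ℝ → ℝ := fun R => coreS s0 D T.roots R - coreS s0 D B.roots R with hlm
    have hlam_eq : ∀ R' : ℝ, (∃ u : k, ‖u‖ = D * Real.exp (-R')) →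
        (∀ z ∈ A.roots + B.roots + T.roots, ‖z - s0‖ ≠ D * Real.exp (-R')) → ρ R' ≠ S →
        lm R' = min (ρ R') S := by
      rintro R' ⟨u, hu⟩ hz hne
      have eA := core_norm_eval s0 D hD A hAm d hAd R' u hu (fun c hc => by
        rw [hu]; exact hz c (Multiset.mem_add.mpr (Or.inl (Multiset.mem_add.mpr (Or.inl hc)))))
      have eB := core_norm_eval s0 D hD B hBm d hBd R' u hu (fun c hc => by
        rw [hu]; exact hz c (Multiset.mem_add.mpr (Or.inl (Multiset.mem_add.mpr (Or.inr hc)))))
      have eT := core_norm_eval s0 D hD T hTm d hTd R' u hu (fun c hc => by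
        rw [hu]; exact hz c (Multiset.mem_add.mpr (Or.inr hc)))
      have hB0 : 0 < D ^ d * Real.exp (-(coreS s0 D B.roots R')) :=
        mul_pos (pow_pos hD _) (Real.exp_pos _)
      have eA' : ‖A.eval (s0 + u)‖ = (D ^ d * Real.exp (-(coreS s0 D B.roots R'))) *
          Real.exp (-(ρ R')) := by
        rw [eA, mul_assoc, ← Real.exp_add]
        congr 2
        simp only [hρ]; ring
      have eB' : ‖-(θ * B.eval (s0 + u))‖ = (D ^ d * Real.exp (-(coreS s0 D B.roots R'))) *
          Real.exp (-S) := by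
        rw [norm_neg, norm_mul, hθn, eB]; ring
      have eT' : ‖A.eval (s0 + u) - θ * B.eval (s0 + u)‖ =
          (D ^ d * Real.exp (-(coreS s0 D B.roots R'))) * Real.exp (-(lm R')) := by
        rw [hATB, norm_mul, h1θ, one_mul, eT, mul_assoc, ← Real.exp_add]
        congr 2
        simp only [hlm]; ring
      rw [sub_eq_add_neg, IsUltrametricDist.norm_add_eq_max_of_norm_ne_norm, eA', eB',
        ← mul_max_of_nonneg _ _ hB0.le] at eT'
      · have e3 := mul_left_cancel₀ hB0.ne' eT'
        rw [← Real.exp_monotone.map_max] at e3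
        have e4 := Real.exp_injective e3
        rw [max_neg_neg] at e4
        linarith
      · rw [eA', eB']
        intro h
        have e3 := mul_left_cancel₀ hB0.ne' h
        have e4 := Real.exp_injective e3
        exact hne (by linarith)
    -- the finite set of breaks
    set F2 : Finset ℝ := ((A.roots + B.roots + T.roots).map
      (fun z => -Real.log (‖z - s0‖ / D))).toFinset with hF2
    have hF2mem : ∀ z ∈ A.roots + B.roots + T.roots, -Real.log (‖z - s0‖ / D) ∈ F2 := by
      intro z hz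
      rw [hF2, Multiset.mem_toFinset]
      exact Multiset.mem_map_of_mem _ hz
    obtain ⟨ε, hε, hball⟩ := Metric.isOpen_iff.mp
      ((F2.erase R).finite_toSet.isClosed.isOpen_compl) R (by simp)
    set ε' := min ε R with hε'
    have hε'0 : 0 < ε' := lt_min hε hR
    have hgood : ∀ R', R - ε' < R' → R' < R + ε' → R' ∈ F2 → R' = R := by
      intro R' h1 h2 h3
      by_contra hne
      have h4 : R' ∈ Metric.ball R ε := by
        rw [Metric.mem_ball, Real.dist_eq, abs_lt]
        have := min_le_left ε R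
        constructor <;> linarith
      exact hball h4 (by
        rw [Finset.mem_coe, Finset.mem_erase]; exact ⟨hne, h3⟩)
    have hbreak_eq : ∀ z : k, ∀ R' : ℝ, ‖z - s0‖ = D * Real.exp (-R') →
        -Real.log (‖z - s0‖ / D) = R' := by
      intro z R' h
      rw [h, mul_div_cancel_left₀ _ hD.ne', Real.log_exp, neg_neg]
    have hbreak_eq' : ∀ z : k, D * Real.exp (-(R + ε')) < ‖z - s0‖ →
        -Real.log (‖z - s0‖ / D) = R → ‖z - s0‖ = D * Real.exp (-R) := by
      intro z hz h
      have hz0 : 0 < ‖z - s0‖ := lt_trans (mul_pos hD (Real.exp_pos _)) hz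
      rw [← h, neg_neg, Real.exp_log (div_pos hz0 hD)]
      field_simp
    have hbf : ∀ z ∈ T.roots + B.roots, ¬ (D * Real.exp (-(R + ε')) < ‖z - s0‖ ∧
        ‖z - s0‖ < D * Real.exp (-(R - ε'))) := by
      rintro z hz ⟨h1, h2⟩
      obtain ⟨h3, h4⟩ := core_break hD h1 h2
      have hz' : z ∈ A.roots + B.roots + T.roots := by
        rcases Multiset.mem_add.mp hz with h | h
        · exact Multiset.mem_add.mpr (Or.inr h)
        · exact Multiset.mem_add.mpr (Or.inl (Multiset.mem_add.mpr (Or.inr h)))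
      have h5 := hgood _ h3 h4 (hF2mem z hz')
      exact hcon z hz (hbreak_eq' z h1 h5)
    obtain ⟨nT, hnT, _⟩ := coreS_affine s0 D hD (R - ε') (R + ε') T.roots
      (fun z hz => hbf z (Multiset.mem_add.mpr (Or.inl hz)))
    obtain ⟨nB, hnB, _⟩ := coreS_affine s0 D hD (R - ε') (R + ε') B.roots
      (fun z hz => hbf z (Multiset.mem_add.mpr (Or.inr hz)))
    have hlmaff : ∀ R1 R2, R - ε' ≤ R1 → R1 ≤ R + ε' → R - ε' ≤ R2 → R2 ≤ R + ε' →
        lm R2 - lm R1 = ((nT : ℝ) - nB) * (R2 - R1) := by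
      intro R1 R2 h1 h2 h3 h4
      have e1 := hnT R1 R2 h1 h2 h3 h4
      have e2 := hnB R1 R2 h1 h2 h3 h4
      simp only [hlm]
      linarith
    have hex : ∀ a b : ℝ, a < b → ∃ R', a < R' ∧ R' < b ∧ ∃ u : k, ‖u‖ = D * Real.exp (-R') := by
      intro a b hab
      obtain ⟨u, hu1, hu2⟩ := exists_norm_between (k := k) p hp0 hp1
        (a := D * Real.exp (-b)) (b := D * Real.exp (-a)) (mul_pos hD (Real.exp_pos _)).le (by
          apply mul_lt_mul_of_pos_left _ hD
          exact Real.exp_lt_exp.mpr (by linarith))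
      obtain ⟨h3, h4⟩ := core_break hD hu1 hu2
      refine ⟨_, h3, h4, u, ?_⟩
      have hz0 : 0 < ‖u‖ := lt_trans (mul_pos hD (Real.exp_pos _)) hu1
      rw [neg_neg, Real.exp_log (div_pos hz0 hD)]
      field_simp
    have hval : ∀ R', R - ε' < R' → R' < R + ε' → R' ≠ R → (∃ u : k, ‖u‖ = D * Real.exp (-R')) →
        lm R' = min (ρ R') S := by
      intro R' h1 h2 h3 h4
      have hR'0 : 0 ≤ R' := by
        have := min_le_right ε R
        linarith
      apply hlam_eq R' h4
      · intro z hz h5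
        have h6 := hF2mem z hz
        rw [hbreak_eq z R' h5] at h6
        exact h3 (hgood R' h1 h2 h6)
      · rcases lt_or_gt_of_ne h3 with h5 | h5
        · have := hmono R' R hR'0 h5.le
          intro h6; rw [h6, hρR] at this; linarith
        · have := hmono R R' hR.le h5.le
          intro h6; rw [h6, hρR] at this; linarith
    obtain ⟨R1, hR1, hR1', hu1⟩ := hex R (R + ε') (by linarith)
    obtain ⟨R2, hR2, hR2', hu2⟩ := hex R1 (R + ε') hR1'
    obtain ⟨R3, hR3, hR3', hu3⟩ := hex (R - ε') R (by linarith)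
    have v1 := hval R1 (by linarith) hR1' (by linarith : R < R1).ne' hu1
    have v2 := hval R2 (by linarith) hR2' (by linarith : R < R2).ne' hu2
    have v3 := hval R3 hR3 (by linarith) hR3'.ne hu3
    have m1 := hmono R R1 hR.le hR1.le
    have m2 := hmono R R2 hR.le (by linarith)
    have hR30 : 0 ≤ R3 := by
      have := min_le_right ε R
      linarith
    have m3 := hmono R3 R hR30 hR3'.le
    rw [min_eq_right (by linarith)] at v1 v2
    have a1 := hlmaff R1 R2 (by linarith) hR1'.le (by linarith) hR2'.le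
    have a2 := hlmaff R1 R3 (by linarith) hR1'.le hR3.le (by linarith)
    rw [v1, v2, sub_self] at a1
    have hn : (nT : ℝ) - nB = 0 := by
      rcases mul_eq_zero.mp a1.symm with h | h
      · exact h
      · linarith
    rw [hn, zero_mul, v1, v3] at a2
    have := min_le_left (ρ R3) S
    linarith

end Pool.Agent.H.MP_392fd3_nt
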