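import Mathlib

/-!
# Normalised rational maps

`f = P / Q` with `P` monic of degree `d ≥ 2`, `deg Q < d`, `P, Q` coprime.  The point `∞` is fixed.
-/

set_option autoImplicit false

open Polynomial

namespace Pool.Agent.H.MP_392fd3_nt

/-- A rational map `P / Q` of degree `d = deg P ≥ 2`, normalised so that `∞` is a fixed point and
`P` is monic. -/
structure NMap (C : Type*) [Field C] where
  P : C[X]
  Q : C[X]
  monic : P.Monic
  Q_ne : Q ≠ 0
  deg_lt : Q.natDegree < P.natDegree
  two_le : 2 ≤ P.natDegree
  cop : IsCoprime P Q

namespace NMap

variable {C : Type*} [Field C]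

/-- the degree -/
noncomputable def d (f : NMap C) : ℕ := f.P.natDegree

/-- the numerator of the derivative -/
noncomputable def W (f : NMap C) : C[X] := derivative f.P * f.Q - f.P * derivative f.Q

/-- the value at a finite point which is not a pole -/
noncomputable def val (f : NMap C) (x : C) : C := f.P.eval x / f.Q.eval x

/-- the derivative at a finite point which is not a pole -/
noncomputable def der (f : NMap C) (x : C) : C := f.W.eval x / (f.Q.eval x) ^ 2

/-- the fibre over a finite point `y`, with multiplicities -/
noncomputable def fiber (f : NMap C) (y : C) : Multiset C := (f.P - Polynomial.C y * f.Q).roots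

/-- the iterated fibres (all points of `f^{-n}(y)`, with multiplicities) -/
noncomputable def pre (f : NMap C) : ℕ → C → Multiset C
  | 0, y => {y}
  | n + 1, y => (f.fiber y).bind (fun x => f.pre n x)

/-- the product of `(f^n)'(x)` over all `x ∈ f^{-n}(y)` -/
noncomputable def DD (f : NMap C) : ℕ → C → C
  | 0, _ => 1
  | n + 1, y => ((f.fiber y).map (fun x => f.DD n x * (f.der x) ^ (f.d ^ n))).prod

/-- the product of `e - x` over all `x ∈ f^{-n}(y)` -/
noncomputable def EE (f : NMap C) (e : C) : ℕ → C → C
  | 0, y => e - y
  | n + 1, y => ((f.fiber y).map (fun x => f.EE e n x)).prod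

/-- A set `S` of finite points is a critical set: it contains the finite critical values, it
contains the finite values at its points. -/
def CritSet (f : NMap C) (S : Set C) : Prop :=
  (∀ c, f.W.eval c = 0 → f.Q.eval c ≠ 0 → f.val c ∈ S) ∧
  (∀ a ∈ S, f.Q.eval a ≠ 0 → f.val a ∈ S)

/-- the backward orbit of `y` -/
def Back (f : NMap C) (y : C) : Set C := {x | ∃ n, x ∈ f.pre n y}

end NMap

end Pool.Agent.H.MP_392fd3_nt
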