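import Pool.Agent.H.MP_392fd3_nt.Defs

set_option autoImplicit false

namespace Pool.Agent.H.MP_392fd3_nt

theorem descend_tri {X : Type*} [SeminormedAddCommGroup X] [IsUltrametricDist X] (a b c : X) :
    ‖a - c‖ ≤ max ‖a - b‖ ‖b - c‖ := by
  have h := IsUltrametricDist.norm_add_le_max (a - b) (b - c)
  rwa [sub_add_sub_cancel] at h

theorem descend_count {X : Type*} [SeminormedAddCommGroup X] [IsUltrametricDist X]
    (M : Multiset X) (b x : X) (r D : ℝ) (hrD : r ≤ D) (hb : ‖b - x‖ < D) :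
    M.countP (fun c => ‖c - b‖ < r) =
      (M.filter (fun c => ‖c - x‖ < D)).countP (fun c => ‖c - b‖ < r) := by
  rw [Multiset.countP_filter]
  refine Multiset.countP_congr rfl (fun c _ => ?_)
  rw [eq_iff_iff]
  exact ⟨fun h => ⟨h, lt_of_le_of_lt (descend_tri c b x)
    (max_lt (lt_of_lt_of_le h hrD) hb)⟩, fun h => h.1⟩

theorem descend_count' {X : Type*} [SeminormedAddCommGroup X] [IsUltrametricDist X]
    (M : Multiset X) (b x : X) (r D : ℝ) (hrD : r ≤ D) (hb : ¬ ‖b - x‖ < D) :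
    M.countP (fun c => ‖c - b‖ < r) =
      (M.filter (fun c => ¬ ‖c - x‖ < D)).countP (fun c => ‖c - b‖ < r) := by
  rw [Multiset.countP_filter]
  refine Multiset.countP_congr rfl (fun c _ => ?_)
  rw [eq_iff_iff]
  refine ⟨fun h => ⟨h, fun h2 => hb ?_⟩, fun h => h.1⟩
  refine lt_of_le_of_lt (descend_tri b c x) (max_lt ?_ h2)
  rw [norm_sub_rev]
  exact lt_of_lt_of_le h hrD

theorem descend_full {X : Type*} [SeminormedAddCommGroup X]
    (M : Multiset X) (b : X) (r : ℝ) (h : ∀ c ∈ M, ‖c - b‖ < r) :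
    M.countP (fun c => ‖c - b‖ < r) = Multiset.card M :=
  Multiset.countP_eq_card.mpr h

/-- Module A (descending lemma).  In an ultrametric space, if `Z` has more elements than `Pi` then
some `b ∈ Z` is the centre of balls all of which contain more elements of `Z` than of `Pi`. -/
theorem descend {X : Type*} [SeminormedAddCommGroup X] [IsUltrametricDist X]
    (Z Pi : Multiset X) (h : Multiset.card Pi < Multiset.card Z) :
    ∃ b ∈ Z, ∀ r : ℝ, 0 < r →
      Pi.countP (fun x => ‖x - b‖ < r) < Z.countP (fun x => ‖x - b‖ < r) := by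
  classical
  obtain ⟨n, hn⟩ : ∃ n, Multiset.card Z + Multiset.card Pi = n := ⟨_, rfl⟩
  induction n using Nat.strong_induction_on generalizing Z Pi with
  | _ n ih =>
  obtain ⟨z0, hz0⟩ : ∃ z, z ∈ Z := Multiset.card_pos_iff_exists_mem.mp (by omega)
  obtain ⟨⟨x, y⟩, hxy, hmax⟩ := Finset.exists_max_image
    ((Z + Pi).toFinset ×ˢ (Z + Pi).toFinset) (fun p : X × X => ‖p.1 - p.2‖)
    ⟨(z0, z0), by
      simp only [Finset.mem_product, Multiset.mem_toFinset, Multiset.mem_add]
      exact ⟨Or.inl hz0, Or.inl hz0⟩⟩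
  simp only [Finset.mem_product, Multiset.mem_toFinset] at hxy hmax
  set D : ℝ := ‖x - y‖ with hD
  have hmax' : ∀ a ∈ Z + Pi, ∀ b ∈ Z + Pi, ‖a - b‖ ≤ D := fun a ha b hb => hmax (a, b) ⟨ha, hb⟩
  have hbig : ∀ b ∈ Z, ∀ r : ℝ, D < r →
      Pi.countP (fun c => ‖c - b‖ < r) < Z.countP (fun c => ‖c - b‖ < r) := by
    intro b hb r hr
    rw [descend_full Pi b r (fun c hc => lt_of_le_of_lt
        (hmax' c (Multiset.mem_add.mpr (Or.inr hc)) b (Multiset.mem_add.mpr (Or.inl hb))) hr),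
      descend_full Z b r (fun c hc => lt_of_le_of_lt
        (hmax' c (Multiset.mem_add.mpr (Or.inl hc)) b (Multiset.mem_add.mpr (Or.inl hb))) hr)]
    exact h
  by_cases hD0 : D ≤ 0
  · exact ⟨z0, hz0, fun r hr => hbig z0 hz0 r (lt_of_le_of_lt hD0 hr)⟩
  push Not at hD0
  set Z1 := Z.filter (fun c => ‖c - x‖ < D) with hZ1
  set Z2 := Z.filter (fun c => ¬ ‖c - x‖ < D) with hZ2
  set P1 := Pi.filter (fun c => ‖c - x‖ < D) with hP1
  set P2 := Pi.filter (fun c => ¬ ‖c - x‖ < D) with hP2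
  have hZs : Z1 + Z2 = Z := Multiset.filter_add_not _ _
  have hPs : P1 + P2 = Pi := Multiset.filter_add_not _ _
  have cZ : Multiset.card Z1 + Multiset.card Z2 = Multiset.card Z := by
    rw [← Multiset.card_add, hZs]
  have cP : Multiset.card P1 + Multiset.card P2 = Multiset.card Pi := by
    rw [← Multiset.card_add, hPs]
  have hx1 : x ∈ Z1 + P1 := by
    rcases Multiset.mem_add.mp hxy.1 with hx | hx
    · exact Multiset.mem_add.mpr (Or.inl (Multiset.mem_filter.mpr ⟨hx, by simpa using hD0⟩))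
    · exact Multiset.mem_add.mpr (Or.inr (Multiset.mem_filter.mpr ⟨hx, by simpa using hD0⟩))
  have hyx : ¬ ‖y - x‖ < D := by
    rw [norm_sub_rev]
    exact lt_irrefl _
  have hy2 : y ∈ Z2 + P2 := by
    rcases Multiset.mem_add.mp hxy.2 with hy | hy
    · exact Multiset.mem_add.mpr (Or.inl (Multiset.mem_filter.mpr ⟨hy, hyx⟩))
    · exact Multiset.mem_add.mpr (Or.inr (Multiset.mem_filter.mpr ⟨hy, hyx⟩))
  have hpos1 : 0 < Multiset.card Z1 + Multiset.card P1 := by
    rw [← Multiset.card_add]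
    exact Multiset.card_pos_iff_exists_mem.mpr ⟨x, hx1⟩
  have hpos2 : 0 < Multiset.card Z2 + Multiset.card P2 := by
    rw [← Multiset.card_add]
    exact Multiset.card_pos_iff_exists_mem.mpr ⟨y, hy2⟩
  by_cases hcase : Multiset.card P1 < Multiset.card Z1
  · obtain ⟨b, hb, hbr⟩ := ih (Multiset.card Z1 + Multiset.card P1) (by omega) Z1 P1 hcase rfl
    obtain ⟨hbZ, hbx⟩ := Multiset.mem_filter.mp hb
    refine ⟨b, hbZ, fun r hr => ?_⟩
    rcases le_or_gt r D with hrD | hrD
    · rw [descend_count Z b x r D hrD hbx, descend_count Pi b x r D hrD hbx]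
      exact hbr r hr
    · exact hbig b hbZ r hrD
  · obtain ⟨b, hb, hbr⟩ := ih (Multiset.card Z2 + Multiset.card P2) (by omega) Z2 P2
      (by omega) rfl
    obtain ⟨hbZ, hbx⟩ := Multiset.mem_filter.mp hb
    refine ⟨b, hbZ, fun r hr => ?_⟩
    rcases le_or_gt r D with hrD | hrD
    · rw [descend_count' Z b x r D hrD hbx, descend_count' Pi b x r D hrD hbx]
      exact hbr r hr
    · exact hbig b hbZ r hrD

end Pool.Agent.H.MP_392fd3_nt
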