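import Mathlib

set_option autoImplicit false

open IsDedekindDomain
open scoped NumberField

namespace Pool.Agent.H.MP_392fd3_nt

universe u

/-- Auxiliary: extension to an algebraically closed field with the spectral norm. -/
theorem ext_aux1 {F K Ω : Type u} [Field F] [NontriviallyNormedField K] [CompleteSpace K]
    [IsUltrametricDist K] (ψ : F →+* K) [Field Ω] [Algebra F Ω] [Algebra.IsAlgebraic F Ω] :
    ∃ (k : Type u) (_ : NormedField k) (_ : IsUltrametricDist k) (_ : IsAlgClosed k)
      (φ : Ω →+* k), ∀ x : F, ‖φ (algebraMap F Ω x)‖ = ‖ψ x‖ := by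
  let _ : NormedField (AlgebraicClosure K) := spectralNorm.normedField K (AlgebraicClosure K)
  have hult : IsUltrametricDist (AlgebraicClosure K) :=
    IsUltrametricDist.isUltrametricDist_of_forall_norm_add_le_max_norm
      (isNonarchimedean_spectralNorm (K := K) (L := AlgebraicClosure K))
  let _ : Algebra F (AlgebraicClosure K) :=
    ((algebraMap K (AlgebraicClosure K)).comp ψ).toAlgebra
  refine ⟨AlgebraicClosure K, inferInstance, hult, inferInstance,
    (IsAlgClosed.lift : Ω →ₐ[F] AlgebraicClosure K).toRingHom, fun x => ?_⟩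
  have h1 : (IsAlgClosed.lift : Ω →ₐ[F] AlgebraicClosure K).toRingHom (algebraMap F Ω x) =
      algebraMap K (AlgebraicClosure K) (ψ x) :=
    (IsAlgClosed.lift : Ω →ₐ[F] AlgebraicClosure K).commutes x
  rw [h1]
  exact spectralNorm_extends (K := K) (L := AlgebraicClosure K) (ψ x)

/-- Auxiliary: a prime number in a nonzero prime ideal. -/
theorem ext_aux2 {F : Type u} [Field F] [NumberField F] (v : HeightOneSpectrum (𝓞 F)) :
    ∃ p : ℕ, p.Prime ∧ (p : 𝓞 F) ∈ v.asIdeal := by
  have key : ∀ n : ℕ, n ≠ 0 → (n : 𝓞 F) ∈ v.asIdeal →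
      ∃ p : ℕ, p.Prime ∧ (p : 𝓞 F) ∈ v.asIdeal := by
    intro n
    induction n using induction_on_primes with
    | zero => intro h; exact absurd rfl h
    | one =>
      intro _ h
      rw [Nat.cast_one] at h
      exact absurd ((Ideal.eq_top_iff_one _).mpr h) v.isPrime.ne_top
    | prime_mul p a hp ih =>
      intro h h2
      rw [Nat.cast_mul] at h2
      rcases v.isPrime.mem_or_mem h2 with h3 | h3
      · exact ⟨p, hp, h3⟩
      · exact ih (fun h4 => h (by rw [h4, mul_zero])) h3
  refine key (Ideal.absNorm v.asIdeal) ?_ (Ideal.absNorm_mem v.asIdeal)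
  have := NumberField.HeightOneSpectrum.one_lt_absNorm v
  omega

/-- Module M (extension of a finite place to the algebraic closure). -/
theorem exists_ext {F : Type u} [Field F] [NumberField F] (v : HeightOneSpectrum (𝓞 F))
    {Ω : Type u} [Field Ω] [Algebra F Ω] [Algebra.IsAlgebraic F Ω] :
    ∃ (k : Type u) (_ : NormedField k) (_ : IsUltrametricDist k) (_ : IsAlgClosed k)
      (_ : CharZero k) (φ : Ω →+* k) (p : ℕ), p.Prime ∧ ‖(p : k)‖ < 1 ∧
      ∀ x : F, ‖φ (algebraMap F Ω x)‖ = NumberField.HeightOneSpectrum.adicAbv F v x := by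
  -- a prime number in `v`
  obtain ⟨p, hp, hpv⟩ := ext_aux2 v
  have hpn : ‖NumberField.FinitePlace.embedding (K := F) v (algebraMap (𝓞 F) F (p : 𝓞 F))‖ < 1 :=
    (NumberField.FinitePlace.norm_lt_one_iff_mem (K := F) v (p : 𝓞 F)).mpr hpv
  have hp0 : NumberField.FinitePlace.embedding (K := F) v (algebraMap (𝓞 F) F (p : 𝓞 F)) ≠ 0 := by
    rw [map_natCast, map_natCast]
    have : (p : F) ≠ 0 := by exact_mod_cast hp.ne_zero
    have h2 := (map_ne_zero_iff _
      (NumberField.FinitePlace.embedding (K := F) v).injective).mpr this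
    rwa [map_natCast] at h2
  have hnontriv : ∃ x : v.adicCompletion F, 1 < ‖x‖ := by
    refine ⟨(NumberField.FinitePlace.embedding (K := F) v
      (algebraMap (𝓞 F) F (p : 𝓞 F)))⁻¹, ?_⟩
    rw [norm_inv]
    exact (one_lt_inv₀ (norm_pos_iff.mpr hp0)).mpr hpn
  let _ : NontriviallyNormedField (v.adicCompletion F) :=
    { NumberField.HeightOneSpectrum.instNormedFieldValuedAdicCompletion F v with
      non_trivial := hnontriv }
  have hult : IsUltrametricDist (v.adicCompletion F) := by
    infer_instance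
  have hcompl : CompleteSpace (v.adicCompletion F) := by
    infer_instance
  obtain ⟨k, hk1, hk2, hk3, φ, hφ⟩ := ext_aux1 (Ω := Ω)
    (NumberField.FinitePlace.embedding (K := F) v)
  refine ⟨k, hk1, hk2, hk3, ?_, φ, p, hp, ?_, ?_⟩
  · exact charZero_of_injective_ringHom (φ.comp (algebraMap F Ω)).injective
  · have h3 := hφ (algebraMap (𝓞 F) F p)
    rw [map_natCast (algebraMap (𝓞 F) F), map_natCast (algebraMap F Ω), map_natCast φ] at h3
    rw [h3, ← map_natCast (algebraMap (𝓞 F) F)]
    exact hpn
  · intro x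
    rw [hφ]
    exact NumberField.FinitePlace.norm_embedding v x

end Pool.Agent.H.MP_392fd3_nt
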