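import Pool.Agent.H.MP_392fd3_nt.Formula

set_option autoImplicit false

open Polynomial

namespace Pool.Agent.H.MP_392fd3_nt

/-- the image of a map under a field homomorphism -/
noncomputable def mapCompatMap {k k' : Type*} [Field k] [Field k'] (φ : k →+* k') (f : NMap k) :
    NMap k' where
  P := f.P.map φ
  Q := f.Q.map φ
  monic := f.monic.map φ
  Q_ne := (Polynomial.map_ne_zero_iff φ.injective).mpr f.Q_ne
  deg_lt := by rw [natDegree_map, natDegree_map]; exact f.deg_lt
  two_le := by rw [natDegree_map]; exact f.two_le
  cop := f.cop.map (mapRingHom φ)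

theorem mapCompat_fiber {k k' : Type*} [Field k] [Field k'] [IsAlgClosed k] (φ : k →+* k')
    (f : NMap k) (y : k) : (mapCompatMap φ f).fiber (φ y) = (f.fiber y).map φ := by
  unfold NMap.fiber
  have h : (mapCompatMap φ f).P - C (φ y) * (mapCompatMap φ f).Q = (f.P - C y * f.Q).map φ := by
    simp [mapCompatMap]
  rw [h, (IsAlgClosed.splits (f.P - C y * f.Q)).roots_map]

theorem mapCompat_W {k k' : Type*} [Field k] [Field k'] (φ : k →+* k')
    (f : NMap k) : (mapCompatMap φ f).W = f.W.map φ := by
  simp [NMap.W, mapCompatMap, derivative_map]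

theorem mapCompat_der {k k' : Type*} [Field k] [Field k'] (φ : k →+* k')
    (f : NMap k) (x : k) : (mapCompatMap φ f).der (φ x) = φ (f.der x) := by
  unfold NMap.der
  rw [mapCompat_W]
  simp [mapCompatMap, eval_map_apply]

theorem mapCompat_val {k k' : Type*} [Field k] [Field k'] (φ : k →+* k')
    (f : NMap k) (x : k) : (mapCompatMap φ f).val (φ x) = φ (f.val x) := by
  unfold NMap.val
  simp [mapCompatMap, eval_map_apply]

/-- Module L (compatibility with field homomorphisms). -/
theorem exists_map {k k' : Type*} [Field k] [Field k'] [CharZero k] [IsAlgClosed k] (φ : k →+* k')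
    (f : NMap k) :
    ∃ f' : NMap k', f'.d = f.d ∧ f'.P = f.P.map φ ∧ f'.Q = f.Q.map φ ∧
      (∀ n y, f'.pre n (φ y) = (f.pre n y).map φ) ∧
      (∀ n y, f'.DD n (φ y) = φ (f.DD n y)) ∧
      (∀ S : Set k, f.CritSet S → f'.CritSet (φ '' S)) := by
  have hd : (mapCompatMap φ f).d = f.d := by
    show (f.P.map φ).natDegree = f.P.natDegree
    rw [natDegree_map]
  refine ⟨mapCompatMap φ f, hd, rfl, rfl, ?_, ?_, ?_⟩
  · intro n
    induction n with
    | zero => intro y; simp [NMap.pre]
    | succ n ih =>
      intro y
      simp only [NMap.pre]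
      rw [mapCompat_fiber, Multiset.bind_map, Multiset.map_bind]
      exact Multiset.bind_congr (fun x _ => ih x)
  · intro n
    induction n with
    | zero => intro y; simp [NMap.DD]
    | succ n ih =>
      intro y
      simp only [NMap.DD]
      rw [mapCompat_fiber, Multiset.map_map, map_multiset_prod, Multiset.map_map]
      congr 1
      apply Multiset.map_congr rfl
      intro x _
      simp only [Function.comp_apply]
      rw [ih, mapCompat_der, hd]
      simp
  · intro S hS
    constructor
    · intro c' hc' hq
      rw [mapCompat_W] at hc'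
      have hW : f.W.map φ ≠ 0 := (Polynomial.map_ne_zero_iff φ.injective).mpr (formula_W_ne f)
      have h1 : c' ∈ (f.W.map φ).roots := by
        rw [mem_roots hW]; exact hc'
      rw [(IsAlgClosed.splits f.W).roots_map] at h1
      obtain ⟨c, hc, rfl⟩ := Multiset.mem_map.mp h1
      have hc2 : f.W.eval c = 0 := (mem_roots (formula_W_ne f)).mp hc
      have hq2 : f.Q.eval c ≠ 0 := by
        intro h
        apply hq
        show (f.Q.map φ).eval (φ c) = 0
        rw [eval_map_apply, h, map_zero]
      rw [mapCompat_val]
      exact Set.mem_image_of_mem _ (hS.1 c hc2 hq2)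
    · rintro _ ⟨a, ha, rfl⟩ hq
      have hq2 : f.Q.eval a ≠ 0 := by
        intro h
        apply hq
        show (f.Q.map φ).eval (φ a) = 0
        rw [eval_map_apply, h, map_zero]
      rw [mapCompat_val]
      exact Set.mem_image_of_mem _ (hS.2 a ha hq2)

end Pool.Agent.H.MP_392fd3_nt
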