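import Pool.Agent.H.MP_392fd3_nt.ArchBound
import Pool.Agent.H.MP_392fd3_nt.MapCompat
import Pool.Agent.H.MP_392fd3_nt.Ext
import Pool.Agent.H.MP_392fd3_nt.Formula

set_option autoImplicit false

open Polynomial

namespace Pool.Agent.H.MP_392fd3_nt

universe u

/-- infinite places -/
theorem global_arch {K : Type u} [Field K] [NumberField K]
    (f : NMap (AlgebraicClosure K)) (S : Set (AlgebraicClosure K)) (hSf : S.Finite)
    (hS : f.CritSet S) (a : AlgebraicClosure K) (ha : a ∉ S)
    {F : Type u} [Field F] [NumberField F] [Algebra F (AlgebraicClosure K)]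
    [Algebra.IsAlgebraic F (AlgebraicClosure K)] (w : NumberField.InfinitePlace F) :
    ∃ B : ℝ, ∀ (n : ℕ) (x : F), algebraMap F (AlgebraicClosure K) x = f.DD n a →
      (f.d : ℝ) ^ n * (n / 2 * Real.log f.d - B) ≤ Real.log (w x) := by
  let _ : Algebra F ℂ := w.embedding.toAlgebra
  let φ : AlgebraicClosure K →ₐ[F] ℂ := IsAlgClosed.lift
  obtain ⟨f', hd, -, -, -, hDD, hC⟩ := exists_map (φ : AlgebraicClosure K →+* ℂ) f
  have hinj : Function.Injective (φ : AlgebraicClosure K →+* ℂ) := RingHom.injective _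
  have ha' : (φ : AlgebraicClosure K →+* ℂ) a ∉ (φ : AlgebraicClosure K →+* ℂ) '' S := by
    rintro ⟨s, hs, hsa⟩
    exact ha (hinj hsa ▸ hs)
  obtain ⟨B, hB⟩ := arch_bound f' _ (hSf.image _) (hC S hS) _ ha'
  refine ⟨B, fun n x hx => ?_⟩
  have h1 := hB n
  rw [hDD, ← hx, hd] at h1
  have h2 : (φ : AlgebraicClosure K →+* ℂ) (algebraMap F (AlgebraicClosure K) x)
      = w.embedding x := φ.commutes x
  rw [h2] at h1
  have h3 : ‖w.embedding x‖ = w x := NumberField.InfinitePlace.norm_embedding_eq w x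
  rwa [h3] at h1

/-- finite places -/
theorem global_fin {K : Type u} [Field K] [NumberField K]
    (f : NMap (AlgebraicClosure K)) (a : AlgebraicClosure K)
    (hloc : ∀ (k : Type u) (_ : NormedField k) (_ : IsUltrametricDist k) (_ : IsAlgClosed k)
      (_ : CharZero k) (φ : AlgebraicClosure K →+* k) (p : ℕ), p.Prime → ‖(p : k)‖ < 1 →
      ∃ B : ℝ, ∀ n : ℕ, -Real.log ‖φ (f.DD n a)‖ ≤ B * f.d ^ n)
    {F : Type u} [Field F] [NumberField F] [Algebra F (AlgebraicClosure K)]
    [Algebra.IsAlgebraic F (AlgebraicClosure K)] (w : NumberField.FinitePlace F) :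
    ∃ B : ℝ, ∀ (n : ℕ) (x : F), algebraMap F (AlgebraicClosure K) x = f.DD n a →
      -Real.log (w x) ≤ B * f.d ^ n := by
  obtain ⟨k, i1, i2, i3, i4, φ, p, hp, hp1, hφ⟩ :=
    exists_ext (Ω := AlgebraicClosure K) w.maximalIdeal
  obtain ⟨B, hB⟩ := hloc k i1 i2 i3 i4 φ p hp hp1
  refine ⟨B, fun n x hx => ?_⟩
  have h1 := hB n
  rw [← hx, hφ x] at h1
  have h2 : NumberField.HeightOneSpectrum.adicAbv F w.maximalIdeal x = w x := by
    rw [← NumberField.FinitePlace.norm_embedding, NumberField.FinitePlace.norm_embedding_eq]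
  rwa [h2] at h1

/-- the values `DD n a` are `V`-units of a number field `F` -/
theorem global_units {K : Type u} [Field K] [NumberField K]
    (f : NMap (AlgebraicClosure K)) (S : Set (AlgebraicClosure K)) (hSf : S.Finite)
    (hS : f.CritSet S) (a : AlgebraicClosure K) (ha : a ∉ S) :
    ∃ (F : Type u) (_ : Field F) (_ : NumberField F) (_ : Algebra F (AlgebraicClosure K))
      (_ : Algebra.IsAlgebraic F (AlgebraicClosure K)) (V : Set (NumberField.FinitePlace F)),
      V.Finite ∧ ∀ n : ℕ, ∃ x : F, algebraMap F (AlgebraicClosure K) x = f.DD n a ∧ x ≠ 0 ∧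
        ∀ w : NumberField.FinitePlace F, w ∉ V → w x = 1 := by
  obtain ⟨G, hG, hform⟩ := DD_formula f S hSf hS
  let T : Set (AlgebraicClosure K) := ((fun u : (AlgebraicClosure K)ˣ => (u : AlgebraicClosure K)) '' G) ∪
    ((fun s => s - a) '' S)
  have hT : T.Finite := (hG.image _).union (hSf.image _)
  have _ : Finite T := hT
  let F : IntermediateField K (AlgebraicClosure K) := IntermediateField.adjoin K T
  have _ : FiniteDimensional K F :=
    IntermediateField.finiteDimensional_adjoin (fun x _ => Algebra.IsIntegral.isIntegral x)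
  have _ : NumberField F := NumberField.of_module_finite K F
  have hT0 : ∀ t ∈ T, t ≠ 0 := by
    rintro t (⟨u, -, rfl⟩ | ⟨s, hs, rfl⟩)
    · exact u.ne_zero
    · intro h
      exact ha (sub_eq_zero.mp h ▸ hs)
  have hTF : ∀ t ∈ T, t ∈ F := fun t ht => IntermediateField.subset_adjoin K T ht
  let V : Set (NumberField.FinitePlace F) :=
    ⋃ t ∈ {x : F | (x : AlgebraicClosure K) ∈ T}, {w : NumberField.FinitePlace F | w t ≠ 1}
  have hTfin : {x : F | (x : AlgebraicClosure K) ∈ T}.Finite :=
    hT.preimage (Subtype.coe_injective.injOn)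
  have hV : V.Finite := by
    refine hTfin.biUnion (fun t ht => ?_)
    have ht0 : t ≠ 0 := by
      rintro rfl
      exact hT0 _ ht rfl
    exact NumberField.FinitePlace.hasFiniteMulSupport ht0
  have hVT : ∀ w : NumberField.FinitePlace F, w ∉ V → ∀ x : F, (x : AlgebraicClosure K) ∈ T → w x = 1 := by
    intro w hw x hx
    by_contra h
    exact hw (Set.mem_biUnion (x := x) hx h)
  refine ⟨F, inferInstance, inferInstance, inferInstance, inferInstance, V, hV, fun n => ?_⟩
  obtain ⟨κ, hκ, M, hM, -, hfo⟩ := hform n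
  let U : Subgroup (AlgebraicClosure K)ˣ :=
    { carrier := {u | ∃ x : F, (x : AlgebraicClosure K) = u ∧
        ∀ w : NumberField.FinitePlace F, w ∉ V → w x = 1}
      mul_mem' := by
        rintro u v ⟨x, hx, hx1⟩ ⟨y, hy, hy1⟩
        refine ⟨x * y, by simp [hx, hy], fun w hw => ?_⟩
        rw [map_mul, hx1 w hw, hy1 w hw, one_mul]
      one_mem' := ⟨1, by simp, fun w _ => map_one w⟩
      inv_mem' := by
        rintro u ⟨x, hx, hx1⟩
        refine ⟨x⁻¹, by simp [hx], fun w hw => ?_⟩
        rw [map_inv₀, hx1 w hw, inv_one] }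
  have hκU : κ ∈ U := by
    have : Subgroup.closure G ≤ U := by
      rw [Subgroup.closure_le]
      intro g hg
      have hgT : (g : AlgebraicClosure K) ∈ T := Or.inl ⟨g, hg, rfl⟩
      exact ⟨⟨g, hTF _ hgT⟩, rfl, fun w hw => hVT w hw _ hgT⟩
    exact this hκ
  obtain ⟨x, hx, hx1⟩ := hκU
  have hprod : ∀ M : Multiset (AlgebraicClosure K), (∀ b ∈ M, b ∈ S) →
      ∃ y : F, (y : AlgebraicClosure K) = (M.map (fun s => s - a)).prod ∧ y ≠ 0 ∧
        ∀ w : NumberField.FinitePlace F, w ∉ V → w y = 1 := by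
    intro M
    induction M using Multiset.induction_on with
    | empty => intro _; exact ⟨1, by simp, one_ne_zero, fun w _ => map_one w⟩
    | cons s M ih =>
      intro hM
      obtain ⟨y, hy, hy0, hy1⟩ := ih (fun b hb => hM b (Multiset.mem_cons_of_mem hb))
      have hsT : s - a ∈ T := Or.inr ⟨s, hM s (Multiset.mem_cons_self s M), rfl⟩
      refine ⟨⟨s - a, hTF _ hsT⟩ * y, ?_, ?_, ?_⟩
      · simp [hy]
      · refine mul_ne_zero ?_ hy0
        intro h
        exact hT0 _ hsT (congrArg Subtype.val h)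
      · intro w hw
        rw [map_mul, hy1 w hw, hVT w hw _ hsT, one_mul]
  obtain ⟨y, hy, hy0, hy1⟩ := hprod M hM
  refine ⟨x * y, ?_, ?_, ?_⟩
  · rw [hfo a]
    change ((x * y : F) : AlgebraicClosure K) = _
    rw [MulMemClass.coe_mul, hx, hy]
  · refine mul_ne_zero ?_ hy0
    rintro rfl
    exact κ.ne_zero hx.symm
  · intro w hw
    rw [map_mul, hx1 w hw, hy1 w hw, one_mul]

/-- Module K (product formula). -/
theorem global_contradiction {K : Type u} [Field K] [NumberField K]
    (f : NMap (AlgebraicClosure K)) (S : Set (AlgebraicClosure K)) (hSf : S.Finite)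
    (hS : f.CritSet S) (a : AlgebraicClosure K) (ha : a ∉ S)
    (hloc : ∀ (k : Type u) (_ : NormedField k) (_ : IsUltrametricDist k) (_ : IsAlgClosed k)
      (_ : CharZero k) (φ : AlgebraicClosure K →+* k) (p : ℕ), p.Prime → ‖(p : k)‖ < 1 →
      ∃ B : ℝ, ∀ n : ℕ, -Real.log ‖φ (f.DD n a)‖ ≤ B * f.d ^ n) : False := by
  obtain ⟨F, i1, i2, i3, i4, V, hV, hz⟩ := global_units f S hSf hS a ha
  choose z hz0 hzne hz1 using hz
  choose B hB using fun w : NumberField.InfinitePlace F => global_arch f S hSf hS a ha w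
  choose C hC using fun w : NumberField.FinitePlace F => global_fin f a hloc (F := F) w
  have hd2 : 2 ≤ f.d := f.two_le
  have hd0 : (0 : ℝ) < f.d := by
    have : (2 : ℝ) ≤ f.d := by exact_mod_cast hd2
    linarith
  have hlog : 0 < Real.log f.d := by
    apply Real.log_pos
    exact_mod_cast (show 1 < f.d by omega)
  -- the inequality for all `n`
  have key : ∀ n : ℕ, ∑ w : NumberField.InfinitePlace F, (w.mult : ℝ) * (n / 2 * Real.log f.d - B w)
      ≤ ∑ w ∈ hV.toFinset, C w := by
    intro n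
    have hpf := NumberField.prod_abs_eq_one (K := F) (hzne n)
    have hfp : ∏ᶠ w : NumberField.FinitePlace F, w (z n) = ∏ w ∈ hV.toFinset, w (z n) := by
      apply finprod_eq_prod_of_mulSupport_subset
      intro w hw
      by_contra h
      exact hw (hz1 n w (by simpa using h))
    rw [hfp] at hpf
    have hpos1 : ∀ w : NumberField.InfinitePlace F, 0 < w (z n) := fun w =>
      NumberField.InfinitePlace.pos_iff.mpr (hzne n)
    have hpos2 : ∀ w : NumberField.FinitePlace F, 0 < w (z n) := fun w =>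
      NumberField.FinitePlace.pos_iff.mpr (hzne n)
    have hl := congrArg Real.log hpf
    rw [Real.log_mul (Finset.prod_ne_zero_iff.mpr fun w _ => (pow_pos (hpos1 w) _).ne')
      (Finset.prod_ne_zero_iff.mpr fun w _ => (hpos2 w).ne'), Real.log_one,
      Real.log_prod (fun w _ => (pow_pos (hpos1 w) _).ne'),
      Real.log_prod (fun w _ => (hpos2 w).ne')] at hl
    have hdn : (0 : ℝ) < (f.d : ℝ) ^ n := pow_pos hd0 n
    have h1 : (f.d : ℝ) ^ n * ∑ w : NumberField.InfinitePlace F,
        (w.mult : ℝ) * (n / 2 * Real.log f.d - B w) ≤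
        ∑ w : NumberField.InfinitePlace F, Real.log (w (z n) ^ w.mult) := by
      rw [Finset.mul_sum]
      refine Finset.sum_le_sum fun w _ => ?_
      rw [Real.log_pow]
      have := hB w n (z n) (hz0 n)
      have hm : (0 : ℝ) ≤ (w.mult : ℝ) := Nat.cast_nonneg _
      calc (f.d : ℝ) ^ n * ((w.mult : ℝ) * (n / 2 * Real.log f.d - B w))
          = (w.mult : ℝ) * ((f.d : ℝ) ^ n * (n / 2 * Real.log f.d - B w)) := by ring
        _ ≤ _ := mul_le_mul_of_nonneg_left this hm
    have h2 : -∑ w ∈ hV.toFinset, Real.log (w (z n)) ≤ (f.d : ℝ) ^ n * ∑ w ∈ hV.toFinset, C w := by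
      rw [← Finset.sum_neg_distrib, Finset.mul_sum]
      refine Finset.sum_le_sum fun w _ => ?_
      have := hC w n (z n) (hz0 n)
      linarith [mul_comm (C w) ((f.d : ℝ) ^ n)]
    have h3 : (f.d : ℝ) ^ n * ∑ w : NumberField.InfinitePlace F,
        (w.mult : ℝ) * (n / 2 * Real.log f.d - B w) ≤ (f.d : ℝ) ^ n * ∑ w ∈ hV.toFinset, C w := by
      linarith
    exact le_of_mul_le_mul_left h3 hdn
  -- conclusion
  set A : ℝ := ∑ w : NumberField.InfinitePlace F, (w.mult : ℝ) * B w with hA
  set D : ℝ := ∑ w ∈ hV.toFinset, C w with hD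
  set m : ℝ := ∑ w : NumberField.InfinitePlace F, (w.mult : ℝ) with hm
  have hm1 : 1 ≤ m := by
    have h := NumberField.InfinitePlace.sum_mult_eq (K := F)
    have h' : (m : ℝ) = (Module.finrank ℚ F : ℝ) := by
      rw [hm, ← h]; push_cast; rfl
    rw [h']
    exact_mod_cast (Module.finrank_pos : 0 < Module.finrank ℚ F)
  have hkey' : ∀ n : ℕ, (n : ℝ) * (m * Real.log f.d / 2) ≤ D + A := by
    intro n
    have h := key n
    have h2 : ∑ w : NumberField.InfinitePlace F, (w.mult : ℝ) * (n / 2 * Real.log f.d - B w)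
        = m * (n / 2 * Real.log f.d) - A := by
      rw [hm, hA, Finset.sum_mul, ← Finset.sum_sub_distrib]
      refine Finset.sum_congr rfl fun w _ => by ring
    rw [h2] at h
    linarith
  have hc : 0 < m * Real.log f.d / 2 := by positivity
  obtain ⟨n, hn⟩ := exists_nat_gt ((D + A) / (m * Real.log f.d / 2))
  have h := hkey' n
  rw [div_lt_iff₀ hc] at hn
  linarith

end Pool.Agent.H.MP_392fd3_nt
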