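import Pool.Agent.H.MP_392fd3_nt.Near
import Pool.Agent.H.MP_392fd3_nt.Descend
import Pool.Agent.H.MP_392fd3_nt.Formula

set_option autoImplicit false

open Polynomial

namespace Pool.Agent.H.MP_392fd3_nt

theorem goodPair_sub_le {k : Type*} [NormedField k] [IsUltrametricDist k] (a b : k) :
    ‖a - b‖ ≤ max ‖a‖ ‖b‖ := by
  have h := IsUltrametricDist.norm_add_le_max a (-b)
  rwa [norm_neg, ← sub_eq_add_neg] at h

theorem goodPair_norm_one {k : Type*} [NormedField k] [IsUltrametricDist k] {u : k}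
    (hu : ‖u - 1‖ < 1) : ‖u‖ = 1 := by
  apply le_antisymm
  · have h := IsUltrametricDist.norm_add_le_max (u - 1) 1
    rw [sub_add_cancel, norm_one] at h
    exact h.trans (max_le hu.le le_rfl)
  · have h := goodPair_sub_le u (u - 1)
    rw [sub_sub_cancel, norm_one] at h
    rcases le_max_iff.mp h with h | h
    · exact h
    · exact absurd hu (not_lt.mpr h)

theorem goodPair_mul {k : Type*} [NormedField k] [IsUltrametricDist k] {u v : k}
    (hu : ‖u - 1‖ < 1) (hv : ‖v - 1‖ < 1) : ‖u * v - 1‖ < 1 := by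
  have h := IsUltrametricDist.norm_add_le_max (u * (v - 1)) (u - 1)
  rw [norm_mul, goodPair_norm_one hu, one_mul] at h
  have h2 : u * (v - 1) + (u - 1) = u * v - 1 := by ring
  rw [h2] at h
  exact lt_of_le_of_lt h (max_lt hv hu)

theorem goodPair_inv {k : Type*} [NormedField k] [IsUltrametricDist k] {u : k}
    (hu : ‖u - 1‖ < 1) : ‖u⁻¹ - 1‖ < 1 := by
  have h1 := goodPair_norm_one hu
  have h0 : u ≠ 0 := by
    intro h
    rw [h, norm_zero] at h1
    exact zero_ne_one h1
  have h2 : u⁻¹ - 1 = -(u⁻¹ * (u - 1)) := by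
    rw [mul_sub, inv_mul_cancel₀ h0]
    ring
  rw [h2, norm_neg, norm_mul, norm_inv, h1]
  simpa using hu

theorem goodPair_pair {k X C : Type*} [NormedField k] [IsUltrametricDist k] (g : X → k)
    (cl : X → C) (Z Pi : Multiset X) (hcl : Z.map cl = Pi.map cl)
    (hgh : ∀ z ∈ Z, ∀ p ∈ Pi, cl z = cl p → ‖g z / g p - 1‖ < 1) :
    ‖(Z.map g).prod / (Pi.map g).prod - 1‖ < 1 := by
  induction Z using Multiset.induction_on generalizing Pi with
  | empty =>
    rw [Multiset.map_zero] at hcl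
    have h := Multiset.map_eq_zero.mp hcl.symm
    simp [h]
  | cons z Z ih =>
    have hz : cl z ∈ Pi.map cl := by
      rw [← hcl, Multiset.map_cons]
      exact Multiset.mem_cons_self _ _
    obtain ⟨p, hp, hpz⟩ := Multiset.mem_map.mp hz
    obtain ⟨P', rfl⟩ := Multiset.exists_cons_of_mem hp
    rw [Multiset.map_cons, Multiset.map_cons, hpz] at hcl
    have hcl' := (Multiset.cons_inj_right _).mp hcl
    have h1 := ih P' hcl' (fun a ha b hb => hgh a (Multiset.mem_cons_of_mem ha) b
      (Multiset.mem_cons_of_mem hb))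
    have h2 := hgh z (Multiset.mem_cons_self _ _) p (Multiset.mem_cons_self _ _) hpz.symm
    have h3 := goodPair_mul h2 h1
    rw [Multiset.map_cons, Multiset.map_cons, Multiset.prod_cons, Multiset.prod_cons]
    rwa [mul_div_mul_comm]

theorem goodPair_near_none {k : Type*} [NormedField k] [IsUltrametricDist k] {y' b0 b1 : k}
    (h1 : y' ≠ b1) (h : ‖(y' - b0) / (y' - b1) - 1‖ < 1) : Near y' b0 b1 none := by
  have h1' : y' - b1 ≠ 0 := sub_ne_zero.mpr h1
  have hn := goodPair_norm_one h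
  have h2 : (y' - b0) / (y' - b1) - 1 = (b1 - b0) / (y' - b1) := by
    field_simp
    ring
  rw [h2, norm_div, div_lt_one (norm_pos_iff.mpr h1')] at h
  rw [norm_div, div_eq_one_iff_eq (norm_ne_zero_iff.mpr h1')] at hn
  show ‖b0 - b1‖ < ‖b0 - y'‖
  rw [norm_sub_rev b0 b1, norm_sub_rev b0 y', hn]
  exact h

theorem goodPair_prod {k : Type*} [NormedField k] [IsAlgClosed k]
    (f : NMap k) (y y' b : k) (hy : y ∈ f.fiber y') (hb : y' ≠ b) :
    ((f.fiber b).map (fun x => (x - y)⁻¹)).prod =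
      ((-1) ^ f.d * (f.Q.eval y * (y' - b)))⁻¹ := by
  obtain ⟨hQ, hv⟩ := (mem_fiber f y y').mp hy
  have hP : f.P.eval y = y' * f.Q.eval y := by
    rwa [NMap.val, div_eq_iff hQ] at hv
  have h := prod_fiber_sub f y b
  rw [Multiset.prod_map_inv]
  congr 1
  have : (fun x => x - y) = fun x => -1 * (y - x) := by
    funext x
    ring
  rw [this, Multiset.prod_map_mul, Multiset.map_const', Multiset.prod_replicate, card_fiber, h, hP]
  ring

theorem goodPair_ne {k : Type*} [NormedField k]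
    (f : NMap k) (y y' b : k) (hy : y ∈ f.fiber y') (hb : y' ≠ b) (c : k) (hc : c ∈ f.fiber b) :
    c - y ≠ 0 := by
  intro h
  have h' : c = y := sub_eq_zero.mp h
  obtain ⟨_, hv⟩ := (mem_fiber f y y').mp hy
  obtain ⟨_, hv'⟩ := (mem_fiber f c b).mp hc
  rw [h'] at hv'
  exact hb (hv.symm.trans hv')

theorem goodPair_sub_inv {k : Type*} [NormedField k] (y c x : k) (hc : c - y ≠ 0)
    (hx : x - y ≠ 0) : c - x = ((x - y)⁻¹ - (c - y)⁻¹) * ((c - y) * (x - y)) := by
  field_simp
  ring

theorem goodPair_ball {k : Type*} [NormedField k] [IsUltrametricDist k] (a b : k) (D : ℝ) :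
    (0 < D) → (Metric.ball a D = Metric.ball b D ↔ ‖a - b‖ < D) := by
  intro hD
  constructor
  · intro h
    have : a ∈ Metric.ball b D := by
      rw [← h]
      exact Metric.mem_ball_self hD
    rwa [mem_ball_iff_norm] at this
  · intro h
    have : a ∈ Metric.ball b D := by
      rwa [mem_ball_iff_norm]
    exact (IsUltrametricDist.ball_eq_of_mem this).symm

theorem goodPair_claim {k : Type*} [NormedField k] [IsUltrametricDist k] [IsAlgClosed k]
    (f : NMap k) (y y' b0 b1 : k) (hy : y ∈ f.fiber y')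
    (h0 : y' ≠ b0) (h1 : y' ≠ b1) (h01 : b0 ≠ b1)
    (hB : ∀ B ∈ f.bad b0 b1, ¬ Near y' b0 b1 B) (D : ℝ) (hD0 : 0 < D)
    (hD : ∀ c ∈ f.fiber b0 + f.fiber b1, ∀ c' ∈ f.fiber b0 + f.fiber b1,
      ‖(c - y)⁻¹ - (c' - y)⁻¹‖ ≤ D)
    (hD' : ∃ c ∈ f.fiber b0 + f.fiber b1, ∃ c' ∈ f.fiber b0 + f.fiber b1,
      ‖(c - y)⁻¹ - (c' - y)⁻¹‖ = D)
    (hbal : (f.fiber b0).map (fun x => Metric.ball ((x - y)⁻¹) D) =
      (f.fiber b1).map (fun x => Metric.ball ((x - y)⁻¹) D)) : False := by
  classical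
  have hyQ := ((mem_fiber f y y').mp hy).1
  have hne0 : ∀ c ∈ f.fiber b0, c - y ≠ 0 := goodPair_ne f y y' b0 hy h0
  have hne1 : ∀ c ∈ f.fiber b1, c - y ≠ 0 := goodPair_ne f y y' b1 hy h1
  have hne : ∀ c ∈ f.fiber b0 + f.fiber b1, c - y ≠ 0 := by
    intro c hc
    rcases Multiset.mem_add.mp hc with hc | hc
    · exact hne0 c hc
    · exact hne1 c hc
  have h0' : y' - b0 ≠ 0 := sub_ne_zero.mpr h0
  have h1' : y' - b1 ≠ 0 := sub_ne_zero.mpr h1
  have hp1 : ((-1 : k)) ^ f.d ≠ 0 := pow_ne_zero _ (by simp)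
  -- the value of `u0`
  have hU : (y' - b0) / (y' - b1) = ((f.fiber b1).map (fun x => (x - y)⁻¹)).prod /
      ((f.fiber b0).map (fun x => (x - y)⁻¹)).prod := by
    rw [goodPair_prod f y y' b0 hy h0, goodPair_prod f y y' b1 hy h1]
    field_simp
  have hnone : ¬ Near y' b0 b1 none := hB none (Or.inl rfl)
  by_cases hA : ∀ c ∈ f.fiber b0 + f.fiber b1, D < ‖(c - y)⁻¹‖
  · -- Case A
    have h := goodPair_pair (fun x => (x - y)⁻¹) (fun _ => ()) (f.fiber b1) (f.fiber b0)
      (by rw [Multiset.map_const', Multiset.map_const', card_fiber, card_fiber])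
      (by
        intro p hp z hz _
        have hz' := hA z (Multiset.mem_add.mpr (Or.inl hz))
        have hzn : (z - y)⁻¹ ≠ 0 := inv_ne_zero (hne0 z hz)
        have e : (p - y)⁻¹ / (z - y)⁻¹ - 1 = ((p - y)⁻¹ - (z - y)⁻¹) / (z - y)⁻¹ := by
          rw [sub_div, div_self hzn]
        show ‖(p - y)⁻¹ / (z - y)⁻¹ - 1‖ < 1
        rw [e, norm_div, div_lt_one (norm_pos_iff.mpr hzn)]
        exact lt_of_le_of_lt (hD p (Multiset.mem_add.mpr (Or.inr hp)) z
          (Multiset.mem_add.mpr (Or.inl hz))) hz')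
    rw [← hU] at h
    exact hnone (goodPair_near_none h1 h)
  · -- Case B
    push Not at hA
    obtain ⟨c1, hc1, hc1D⟩ := hA
    have hall : ∀ c ∈ f.fiber b0 + f.fiber b1, ‖(c - y)⁻¹‖ ≤ D := by
      intro c hc
      have h := IsUltrametricDist.norm_add_le_max ((c - y)⁻¹ - (c1 - y)⁻¹) ((c1 - y)⁻¹)
      rw [sub_add_cancel] at h
      exact h.trans (max_le (hD c hc c1 hc1) hc1D)
    have hex : ∃ c ∈ f.fiber b0 + f.fiber b1, ‖(c - y)⁻¹‖ = D := by
      obtain ⟨c, hc, c', hc', h⟩ := hD'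
      by_contra hcon
      push Not at hcon
      have h2 := goodPair_sub_le ((c - y)⁻¹) ((c' - y)⁻¹)
      rw [h] at h2
      have h3 := lt_of_le_of_ne (hall c hc) (hcon c hc)
      have h4 := lt_of_le_of_ne (hall c' hc') (hcon c' hc')
      exact absurd (max_lt h3 h4) (not_lt.mpr h2)
    obtain ⟨c, hc, hcD⟩ := hex
    have hcn := hne c hc
    set t : k → k := fun x => (x - y)⁻¹ with ht
    set cl : k → Set k := fun x => Metric.ball (t x) D with hcl
    have hclt : ∀ a b : k, cl a = cl b ↔ ‖t a - t b‖ < D := fun a b => goodPair_ball _ _ D hD0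
    set Z0 := (f.fiber b0).filter (fun x => cl x = cl c) with hZ0
    set Z1 := (f.fiber b0).filter (fun x => ¬ cl x = cl c) with hZ1
    set P0 := (f.fiber b1).filter (fun x => cl x = cl c) with hP0
    set P1 := (f.fiber b1).filter (fun x => ¬ cl x = cl c) with hP1
    have hZs : Z0 + Z1 = f.fiber b0 := Multiset.filter_add_not _ _
    have hPs : P0 + P1 = f.fiber b1 := Multiset.filter_add_not _ _
    have e0 : Z0.map cl = P0.map cl := by
      have h := congrArg (Multiset.filter (fun x => x = cl c)) hbal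
      rw [Multiset.filter_map, Multiset.filter_map] at h
      exact h
    have e1 : Z1.map cl = P1.map cl := by
      have h := congrArg (Multiset.filter (fun x => ¬ x = cl c)) hbal
      rw [Multiset.filter_map, Multiset.filter_map] at h
      exact h
    have hcard : Multiset.card Z1 = Multiset.card P1 := by
      have := congrArg Multiset.card e1
      simpa using this
    have mZ0 : ∀ z ∈ Z0, z ∈ f.fiber b0 ∧ ‖t z - t c‖ < D := by
      intro z hz
      rw [hZ0, Multiset.mem_filter, hclt] at hz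
      exact hz
    have mP0 : ∀ z ∈ P0, z ∈ f.fiber b1 ∧ ‖t z - t c‖ < D := by
      intro z hz
      rw [hP0, Multiset.mem_filter, hclt] at hz
      exact hz
    have mZ1 : ∀ z ∈ Z1, z ∈ f.fiber b0 ∧ D = ‖t z - t c‖ := by
      intro z hz
      rw [hZ1, Multiset.mem_filter, hclt, not_lt] at hz
      exact ⟨hz.1, le_antisymm hz.2 (hD z (Multiset.mem_add.mpr (Or.inl hz.1)) c hc)⟩
    have mP1 : ∀ z ∈ P1, z ∈ f.fiber b1 ∧ D = ‖t z - t c‖ := by
      intro z hz
      rw [hP1, Multiset.mem_filter, hclt, not_lt] at hz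
      exact ⟨hz.1, le_antisymm hz.2 (hD z (Multiset.mem_add.mpr (Or.inr hz.1)) c hc)⟩
    -- first factor
    have f0 := goodPair_pair t cl P0 Z0 e0.symm (by
      intro p hp z hz hpz
      obtain ⟨hz1, hz2⟩ := mZ0 z hz
      have hzn : t z ≠ 0 := inv_ne_zero (hne0 z hz1)
      have hzD : D ≤ ‖t z‖ := by
        have h := goodPair_sub_le (t z) (t z - t c)
        rw [sub_sub_cancel] at h
        have hcD' : ‖t c‖ = D := hcD
        rw [hcD'] at h
        rcases le_max_iff.mp h with h | h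
        · exact h
        · exact absurd hz2 (not_lt.mpr h)
      have e : t p / t z - 1 = (t p - t z) / t z := by
        rw [sub_div, div_self hzn]
      rw [e, norm_div, div_lt_one (norm_pos_iff.mpr hzn)]
      exact lt_of_lt_of_le ((hclt p z).mp hpz) hzD)
    -- second factor
    have f1 := goodPair_pair (fun x => t x - t c) cl P1 Z1 e1.symm (by
      intro p hp z hz hpz
      obtain ⟨hz1, hz2⟩ := mZ1 z hz
      have hzn : t z - t c ≠ 0 := by
        rw [← norm_pos_iff, ← hz2]
        exact hD0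
      have e : (t p - t c) / (t z - t c) - 1 = (t p - t z) / (t z - t c) := by
        rw [div_sub_one hzn]
        congr 1
        ring
      show ‖(t p - t c) / (t z - t c) - 1‖ < 1
      rw [e, norm_div, div_lt_one (norm_pos_iff.mpr hzn), ← hz2]
      exact (hclt p z).mp hpz)
    set A : k := (Z1.map (fun x => c - x)).prod / (P1.map (fun x => c - x)).prod with hAdef
    -- products
    have htne0 : ∀ M : Multiset k, (∀ x ∈ M, x - y ≠ 0) → (M.map t).prod ≠ 0 := by
      intro M hM h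
      rw [Multiset.prod_eq_zero_iff, Multiset.mem_map] at h
      obtain ⟨x, hx, hx0⟩ := h
      exact inv_ne_zero (hM x hx) hx0
    have htc : t c ≠ 0 := inv_ne_zero hcn
    have hprodA : ∀ M : Multiset k, (∀ x ∈ M, x - y ≠ 0) → (M.map (fun x => c - x)).prod =
        (M.map (fun x => t x - t c)).prod * (t c ^ Multiset.card M * (M.map t).prod)⁻¹ := by
      intro M hM
      have e : M.map (fun x => c - x) = M.map (fun x => (t x - t c) * (t c * t x)⁻¹) := by
        refine Multiset.map_congr rfl (fun x hx => ?_)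
        rw [goodPair_sub_inv y c x hcn (hM x hx)]
        simp only [ht, mul_inv, inv_inv]
      rw [e, Multiset.prod_map_mul, Multiset.prod_map_inv, Multiset.prod_map_mul,
        Multiset.map_const', Multiset.prod_replicate]
    have hZ1ne : ∀ x ∈ Z1, x - y ≠ 0 := fun x hx => hne0 x (mZ1 x hx).1
    have hP1ne : ∀ x ∈ P1, x - y ≠ 0 := fun x hx => hne1 x (mP1 x hx).1
    have hZ0ne : ∀ x ∈ Z0, x - y ≠ 0 := fun x hx => hne0 x (mZ0 x hx).1
    have hP0ne : ∀ x ∈ P0, x - y ≠ 0 := fun x hx => hne1 x (mP0 x hx).1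
    have hsubne : ∀ M : Multiset k, (∀ x ∈ M, D = ‖t x - t c‖) →
        (M.map (fun x => t x - t c)).prod ≠ 0 := by
      intro M hM h
      rw [Multiset.prod_eq_zero_iff, Multiset.mem_map] at h
      obtain ⟨x, hx, hx0⟩ := h
      have := hM x hx
      rw [hx0, norm_zero] at this
      exact hD0.ne' this
    have q1 := htne0 Z0 hZ0ne
    have q2 := htne0 Z1 hZ1ne
    have q3 := htne0 P0 hP0ne
    have q4 := htne0 P1 hP1ne
    have q5 := hsubne Z1 (fun x hx => (mZ1 x hx).2)
    have q6 := hsubne P1 (fun x hx => (mP1 x hx).2)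
    have hAeq : A = ((Z1.map (fun x => t x - t c)).prod * (P1.map t).prod) /
        ((P1.map (fun x => t x - t c)).prod * (Z1.map t).prod) := by
      rw [hAdef, hprodA Z1 hZ1ne, hprodA P1 hP1ne, hcard]
      have := pow_ne_zero (Multiset.card P1) htc
      field_simp
    have hA0 : A ≠ 0 := by
      rw [hAeq]
      exact div_ne_zero (mul_ne_zero q5 q4) (mul_ne_zero q6 q2)
    have hUA : ((y' - b0) / (y' - b1)) / A = ((P0.map t).prod / (Z0.map t).prod) *
        ((P1.map (fun x => t x - t c)).prod / (Z1.map (fun x => t x - t c)).prod) := by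
      rw [hU, hAeq, ← hZs, ← hPs, Multiset.map_add, Multiset.map_add, Multiset.prod_add,
        Multiset.prod_add]
      field_simp
    have hone : ‖((y' - b0) / (y' - b1)) / A - 1‖ < 1 := by
      rw [hUA]
      exact goodPair_mul f0 f1
    by_cases hA1 : A = 1
    · rw [hA1, div_one] at hone
      exact hnone (goodPair_near_none h1 hone)
    · have h1A : 1 - A ≠ 0 := sub_ne_zero.mpr (Ne.symm hA1)
      have hmem : some ((b0 - A * b1) / (1 - A)) ∈ f.bad b0 b1 :=
        Or.inr ⟨c, hc, Z1, Multiset.filter_le _ _, P1, Multiset.filter_le _ _, A, rfl, rfl⟩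
      refine hB _ hmem ?_
      set B := (b0 - A * b1) / (1 - A) with hBdef
      have hBb1 : B - b1 = (b0 - b1) / (1 - A) := by
        rw [hBdef]
        field_simp
        ring
      have hb01 : b0 - b1 ≠ 0 := sub_ne_zero.mpr h01
      have hBb1' : B - b1 ≠ 0 := by
        rw [hBb1]
        exact div_ne_zero hb01 h1A
      have hinv := goodPair_inv hone
      have e : (((y' - b0) / (y' - b1)) / A)⁻¹ - 1 =
          ((b0 - b1) * (B - y')) / ((B - b1) * (y' - b0)) := by
        rw [hBb1, hBdef]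
        field_simp
        ring
      rw [e, norm_div, div_lt_one (norm_pos_iff.mpr (mul_ne_zero hBb1' h0')), norm_mul,
        norm_mul] at hinv
      show ‖b0 - b1‖ * ‖B - y'‖ < ‖B - b1‖ * ‖b0 - y'‖
      rw [norm_sub_rev b0 y']
      exact hinv

/-- Module D2 (existence of a good pair above `(b0, b1)`, near `y`). -/
theorem exists_good_pair {k : Type*} [NormedField k] [IsUltrametricDist k] [IsAlgClosed k]
    (f : NMap k) (y y' b0 b1 : k) (hy : y ∈ f.fiber y')
    (h0 : y' ≠ b0) (h1 : y' ≠ b1) (h01 : b0 ≠ b1)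
    (hB : ∀ B ∈ f.bad b0 b1, ¬ Near y' b0 b1 B) :
    ∃ b ∈ f.fiber b0, ∃ b' ∈ f.fiber b1,
      (∀ c ∈ f.fiber b0 + f.fiber b1, ¬ Near y b b' (some c)) ∧
      ∀ r : ℝ, 0 < r → r ≤ ‖(b - y)⁻¹ - (b' - y)⁻¹‖ →
        ((f.fiber b1).map (fun x => (x - y)⁻¹)).countP (fun t => ‖t - (b - y)⁻¹‖ < r) <
          ((f.fiber b0).map (fun x => (x - y)⁻¹)).countP (fun t => ‖t - (b - y)⁻¹‖ < r) := by
  classical
  have hne0 : ∀ c ∈ f.fiber b0, c - y ≠ 0 := goodPair_ne f y y' b0 hy h0
  have hne1 : ∀ c ∈ f.fiber b1, c - y ≠ 0 := goodPair_ne f y y' b1 hy h1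
  have hne : ∀ c ∈ f.fiber b0 + f.fiber b1, c - y ≠ 0 := by
    intro c hc
    rcases Multiset.mem_add.mp hc with hc | hc
    · exact hne0 c hc
    · exact hne1 c hc
  have hd : 2 ≤ f.d := f.two_le
  set t : k → k := fun x => (x - y)⁻¹ with ht
  -- the diameter
  obtain ⟨z0, hz0⟩ : ∃ z, z ∈ f.fiber b0 := Multiset.card_pos_iff_exists_mem.mp (by
    rw [card_fiber]
    omega)
  obtain ⟨p0, hp0⟩ : ∃ z, z ∈ f.fiber b1 := Multiset.card_pos_iff_exists_mem.mp (by
    rw [card_fiber]
    omega)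
  obtain ⟨⟨x0, y0⟩, hxy, hmax⟩ := Finset.exists_max_image
    ((f.fiber b0 + f.fiber b1).toFinset ×ˢ (f.fiber b0 + f.fiber b1).toFinset)
    (fun p : k × k => ‖t p.1 - t p.2‖)
    ⟨(z0, z0), by
      simp only [Finset.mem_product, Multiset.mem_toFinset, Multiset.mem_add]
      exact ⟨Or.inl hz0, Or.inl hz0⟩⟩
  simp only [Finset.mem_product, Multiset.mem_toFinset] at hxy hmax
  set D : ℝ := ‖t x0 - t y0‖ with hDdef
  have hD : ∀ c ∈ f.fiber b0 + f.fiber b1, ∀ c' ∈ f.fiber b0 + f.fiber b1,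
      ‖t c - t c'‖ ≤ D := fun c hc c' hc' => hmax (c, c') ⟨hc, hc'⟩
  have hD0 : 0 < D := by
    have hzp : z0 ≠ p0 := by
      intro h
      have e1 := ((mem_fiber f z0 b0).mp hz0).2
      have e2 := ((mem_fiber f p0 b1).mp hp0).2
      rw [← h] at e2
      exact h01 (e1.symm.trans e2)
    have h2 : 0 < ‖t z0 - t p0‖ := by
      rw [norm_pos_iff, sub_ne_zero]
      intro h
      exact hzp (sub_left_injective (inv_injective h))
    exact lt_of_lt_of_le h2 (hD z0 (Multiset.mem_add.mpr (Or.inl hz0)) p0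
      (Multiset.mem_add.mpr (Or.inr hp0)))
  -- a class with more elements of the first fibre
  have hclass : ∃ c0 ∈ f.fiber b0,
      ((f.fiber b1).map t).countP (fun x => ‖x - t c0‖ < D) <
        ((f.fiber b0).map t).countP (fun x => ‖x - t c0‖ < D) := by
    by_contra hcon
    push Not at hcon
    refine goodPair_claim f y y' b0 b1 hy h0 h1 h01 hB D hD0 hD ⟨x0, hxy.1, y0, hxy.2, rfl⟩ ?_
    refine Multiset.eq_of_le_of_card_le ?_ (by simp [card_fiber])
    rw [Multiset.le_iff_count]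
    intro C
    rw [Multiset.count_map, Multiset.count_map]
    by_cases hC : ∃ c0 ∈ f.fiber b0, C = Metric.ball (t c0) D
    · obtain ⟨c0, hc0, rfl⟩ := hC
      have h := hcon c0 hc0
      rw [Multiset.countP_map, Multiset.countP_map] at h
      have e : ∀ M : Multiset k, M.filter (fun a => Metric.ball (t c0) D =
          Metric.ball ((a - y)⁻¹) D) = M.filter (fun a => ‖t a - t c0‖ < D) := by
        intro M
        refine Multiset.filter_congr (fun x _ => ?_)
        rw [eq_comm]
        exact goodPair_ball _ _ D hD0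
      rw [e, e]
      exact h
    · have e : (f.fiber b0).filter (fun a => C = Metric.ball ((a - y)⁻¹) D) = 0 := by
        rw [Multiset.filter_eq_nil]
        intro a ha h
        exact hC ⟨a, ha, h⟩
      rw [e]
      exact Nat.zero_le _
  obtain ⟨c0, hc0, hcount⟩ := hclass
  set ZT := ((f.fiber b0).map t).filter (fun x => ‖x - t c0‖ < D) with hZT
  set PT := ((f.fiber b1).map t).filter (fun x => ‖x - t c0‖ < D) with hPT
  have hcard : Multiset.card PT < Multiset.card ZT := by
    rw [hZT, hPT, ← Multiset.countP_eq_card_filter, ← Multiset.countP_eq_card_filter]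
    exact hcount
  obtain ⟨bt, hbt, hr⟩ := descend ZT PT hcard
  rw [hZT, Multiset.mem_filter, Multiset.mem_map] at hbt
  obtain ⟨⟨b, hb, rfl⟩, hbD⟩ := hbt
  -- the element `b'`
  have hb' : ∃ b' ∈ f.fiber b1, D ≤ ‖t b' - t c0‖ := by
    by_contra hcon
    push Not at hcon
    have e : PT = (f.fiber b1).map t := by
      rw [hPT, Multiset.filter_eq_self]
      intro x hx
      obtain ⟨a, ha, rfl⟩ := Multiset.mem_map.mp hx
      exact hcon a ha
    rw [e, Multiset.card_map, card_fiber] at hcard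
    have h2 : Multiset.card ZT ≤ f.d := by
      have := Multiset.card_le_card (Multiset.filter_le (fun x => ‖x - t c0‖ < D)
        ((f.fiber b0).map t))
      rwa [Multiset.card_map, card_fiber] at this
    omega
  obtain ⟨b', hb', hb'D⟩ := hb'
  have hbb' : ‖t b - t b'‖ = D := by
    refine le_antisymm (hD b (Multiset.mem_add.mpr (Or.inl hb)) b'
      (Multiset.mem_add.mpr (Or.inr hb'))) ?_
    by_contra hlt
    push Not at hlt
    have h := goodPair_sub_le (t b - t c0) (t b - t b')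
    rw [sub_sub_sub_cancel_left] at h
    exact absurd (max_lt hbD hlt) (not_lt.mpr (hb'D.trans h))
  refine ⟨b, hb, b', hb', ?_, ?_⟩
  · intro c hc hnear
    have hcD := hD c hc b' (Multiset.mem_add.mpr (Or.inr hb'))
    rw [← hbb'] at hcD
    have hcn := hne c hc
    have hbn := hne0 b hb
    have hbn' := hne1 b' hb'
    change ‖b - b'‖ * ‖c - y‖ < ‖c - b'‖ * ‖b - y‖ at hnear
    rw [goodPair_sub_inv y b b' hbn hbn', goodPair_sub_inv y c b' hcn hbn'] at hnear
    simp only [norm_mul] at hnear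
    have n1 : 0 < ‖c - y‖ := norm_pos_iff.mpr hcn
    have n2 : 0 < ‖b - y‖ := norm_pos_iff.mpr hbn
    have n3 : 0 < ‖b' - y‖ := norm_pos_iff.mpr hbn'
    have n4 : 0 < ‖c - y‖ * ‖b - y‖ * ‖b' - y‖ := by positivity
    rw [norm_sub_rev (t c), norm_sub_rev (t b)] at hcD
    have h5 := mul_le_mul_of_nonneg_right hcD n4.le
    have h6 : ‖t b' - t b‖ * (‖c - y‖ * ‖b - y‖ * ‖b' - y‖) <
        ‖t b' - t c‖ * (‖c - y‖ * ‖b - y‖ * ‖b' - y‖) := by
      calc ‖t b' - t b‖ * (‖c - y‖ * ‖b - y‖ * ‖b' - y‖)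
          = ‖(b' - y)⁻¹ - (b - y)⁻¹‖ * (‖b - y‖ * ‖b' - y‖) * ‖c - y‖ := by
            simp only [ht]
            ring
        _ < ‖(b' - y)⁻¹ - (c - y)⁻¹‖ * (‖c - y‖ * ‖b' - y‖) * ‖b - y‖ := hnear
        _ = ‖t b' - t c‖ * (‖c - y‖ * ‖b - y‖ * ‖b' - y‖) := by
            simp only [ht]
            ring
    exact absurd h6 (not_lt.mpr h5)
  · intro r hr0 hrD
    have hrD' : r ≤ D := by
      rw [← hbb']
      exact hrD
    have e : ∀ M : Multiset k, M.countP (fun x => ‖x - t b‖ < r) =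
        (M.filter (fun x => ‖x - t c0‖ < D)).countP (fun x => ‖x - t b‖ < r) := by
      intro M
      rw [Multiset.countP_filter]
      refine Multiset.countP_congr rfl (fun x _ => ?_)
      rw [eq_iff_iff]
      constructor
      · intro h
        refine ⟨h, ?_⟩
        have h2 := IsUltrametricDist.norm_add_le_max (x - t b) (t b - t c0)
        rw [sub_add_sub_cancel] at h2
        exact lt_of_le_of_lt h2 (max_lt (lt_of_lt_of_le h hrD') hbD)
      · exact fun h => h.1
    have h := hr r hr0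
    rw [hZT, hPT, ← e, ← e] at h
    exact h

end Pool.Agent.H.MP_392fd3_nt
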