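import Pool.Agent.H.MP_392fd3_nt.Defs

set_option autoImplicit false

open Polynomial

namespace Pool.Agent.H.MP_392fd3_nt

/-- norms of integers in an ultrametric field of residue characteristic `p` -/
theorem div_of_norm_le {k : Type*} [NormedField k] [IsUltrametricDist k] [CharZero k]
    (p : ℕ) (hp : p.Prime) (hp1 : ‖(p : k)‖ < 1) (K : ℕ) (m : ℤ)
    (h : ‖(m : k)‖ ≤ ‖(p : k)‖ ^ K) : (p : ℤ) ^ K ∣ m := by
  have hp0 : 0 < ‖(p : k)‖ := norm_pos_iff.2 (Nat.cast_ne_zero.2 hp.ne_zero)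
  rcases eq_or_ne m 0 with rfl | hm
  · exact dvd_zero _
  -- write `m = p ^ v * u`
  obtain ⟨v, u, hu, hmu⟩ : ∃ (v : ℕ) (u : ℤ), ¬ (p : ℤ) ∣ u ∧ m = (p : ℤ) ^ v * u := by
    have hfin : FiniteMultiplicity (p : ℤ) m := by
      rw [Int.finiteMultiplicity_iff]
      exact ⟨by simpa using hp.ne_one, hm⟩
    obtain ⟨u, hu⟩ := pow_multiplicity_dvd (p : ℤ) m
    refine ⟨multiplicity (p : ℤ) m, u, ?_, hu⟩
    intro hdvd
    obtain ⟨w, rfl⟩ := hdvd
    have : (p : ℤ) ^ (multiplicity (p : ℤ) m + 1) ∣ m := ⟨w, hu.trans (by ring)⟩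
    exact hfin.not_pow_dvd_of_multiplicity_lt (Nat.lt_succ_self _) this
  have hint : ∀ z : ℤ, ‖(z : k)‖ ≤ 1 := fun z => IsUltrametricDist.norm_intCast_le_one k z
  have hu1 : ‖(u : k)‖ = 1 := by
    -- Bezout
    have hcop : IsCoprime (p : ℤ) u := by
      rw [Int.isCoprime_iff_gcd_eq_one]
      have := (Nat.Prime.coprime_iff_not_dvd hp).2 (fun h => hu (Int.natCast_dvd.2 h))
      simpa [Int.gcd] using this
    obtain ⟨s, t, hst⟩ := hcop
    refine le_antisymm (hint u) ?_
    by_contra hlt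
    push Not at hlt
    have h1 : (1 : k) = (s : k) * (p : k) + (t : k) * (u : k) := by
      have := congrArg (Int.cast (R := k)) hst
      push_cast at this
      exact this.symm
    have h2 : ‖(1 : k)‖ < 1 := by
      rw [h1]
      refine lt_of_le_of_lt (IsUltrametricDist.norm_add_le_max _ _) (max_lt ?_ ?_)
      · rw [norm_mul]
        calc ‖(s : k)‖ * ‖(p : k)‖ ≤ 1 * ‖(p : k)‖ :=
              mul_le_mul_of_nonneg_right (hint s) (norm_nonneg _)
          _ < 1 := by rw [one_mul]; exact hp1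
      · rw [norm_mul]
        calc ‖(t : k)‖ * ‖(u : k)‖ ≤ 1 * ‖(u : k)‖ :=
              mul_le_mul_of_nonneg_right (hint t) (norm_nonneg _)
          _ < 1 := by rw [one_mul]; exact hlt
    rw [norm_one] at h2
    exact lt_irrefl _ h2
  have hmn : ‖(m : k)‖ = ‖(p : k)‖ ^ v := by
    rw [hmu]; push_cast; rw [norm_mul, norm_pow, hu1, mul_one]
  rw [hmn] at h
  have hKv : K ≤ v := by
    by_contra hlt
    push Not at hlt
    exact absurd h (not_le.2 (pow_lt_pow_right_of_lt_one₀ hp0 hp1 hlt))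
  rw [hmu]
  exact Dvd.dvd.mul_right (pow_dvd_pow _ hKv) _

/-- the divisibility lemma for piecewise linear functions. `pos` is the finite set of positions of
the break points -/
theorem div_lemma (Γ : AddSubgroup ℝ) (p K : ℕ) (ψ : ℝ → ℝ) (F : Finset ℝ) (a c : ℝ)
    (hF : ∀ x ∈ F, ∀ z ∈ F, z - x ∈ Γ)
    (hslope : ∀ x z, a ≤ x → x < z → z ≤ c → (∀ w ∈ F, ¬ (x < w ∧ w < z)) →
      ∃ m : ℤ, (p : ℤ) ^ K ∣ m ∧ ψ z - ψ x = m * (z - x)) :
    ∀ x z, a ≤ x → x < z → z ≤ c → x ∈ F → z ∈ F →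
      ∃ g ∈ Γ, ψ z - ψ x = (p : ℝ) ^ K * g := by
  classical
  have main : ∀ N : ℕ, ∀ x z, a ≤ x → x < z → z ≤ c → x ∈ F → z ∈ F →
      (F.filter (fun w => x < w ∧ w < z)).card ≤ N → ∃ g ∈ Γ, ψ z - ψ x = (p : ℝ) ^ K * g := by
    intro N
    induction N with
    | zero =>
      intro x z hx hxz hz hxF hzF hN
      have hemp : F.filter (fun w => x < w ∧ w < z) = ∅ := Finset.card_eq_zero.1 (Nat.le_zero.1 hN)
      obtain ⟨m, ⟨q, hq⟩, hm⟩ := hslope x z hx hxz hz (by
        intro w hw hw'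
        have : w ∈ F.filter (fun w => x < w ∧ w < z) := Finset.mem_filter.2 ⟨hw, hw'⟩
        rw [hemp] at this
        exact absurd this (Finset.notMem_empty _))
      refine ⟨q * (z - x), ?_, ?_⟩
      · have := AddSubgroup.zsmul_mem Γ (hF x hxF z hzF) q
        rwa [zsmul_eq_mul] at this
      · rw [hm, hq]; push_cast; ring
    | succ N ih =>
      intro x z hx hxz hz hxF hzF hN
      by_cases hemp : F.filter (fun w => x < w ∧ w < z) = ∅
      · exact ih x z hx hxz hz hxF hzF (by rw [hemp]; simp)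
      · obtain ⟨w, hw⟩ := Finset.nonempty_iff_ne_empty.2 hemp
        obtain ⟨hwF, hxw, hwz⟩ := Finset.mem_filter.1 hw
        have hlt1 : (F.filter (fun v => x < v ∧ v < w)).card <
            (F.filter (fun v => x < v ∧ v < z)).card := by
          apply Finset.card_lt_card
          refine ⟨?_, ?_⟩
          · intro v hv
            obtain ⟨h1, h2, h3⟩ := Finset.mem_filter.1 hv
            exact Finset.mem_filter.2 ⟨h1, h2, h3.trans hwz⟩
          · intro hsub
            have := hsub hw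
            exact absurd (Finset.mem_filter.1 this).2.2 (lt_irrefl _)
        have hlt2 : (F.filter (fun v => w < v ∧ v < z)).card <
            (F.filter (fun v => x < v ∧ v < z)).card := by
          apply Finset.card_lt_card
          refine ⟨?_, ?_⟩
          · intro v hv
            obtain ⟨h1, h2, h3⟩ := Finset.mem_filter.1 hv
            exact Finset.mem_filter.2 ⟨h1, hxw.trans h2, h3⟩
          · intro hsub
            have := hsub hw
            exact absurd (Finset.mem_filter.1 this).2.1 (lt_irrefl _)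
        obtain ⟨g1, hg1, h1⟩ := ih x w hx hxw (hwz.le.trans hz) hxF hwF (by omega)
        obtain ⟨g2, hg2, h2⟩ := ih w z (hx.trans hxw.le) hwz hz hwF hzF (by omega)
        refine ⟨g1 + g2, Γ.add_mem hg1 hg2, ?_⟩
        linear_combination h1 + h2
  intro x z hx hxz hz hxF hzF
  exact main _ x z hx hxz hz hxF hzF le_rfl

end Pool.Agent.H.MP_392fd3_nt
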