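import Pool.Agent.H.MP_392fd3_nt.LocalTower
import Pool.Agent.H.MP_392fd3_nt.LocalDiv

set_option autoImplicit false

open Polynomial

namespace Pool.Agent.H.MP_392fd3_nt

/-- positions of points: relation between `u` and the coordinate `1/(z - y0)` -/
theorem local_position {k : Type*} [NormedField k] [IsUltrametricDist k] (a0 a1 y0 t : k)
    (h01 : a0 ≠ a1) (hy0 : y0 ≠ a0) (hy1 : y0 ≠ a1) (ht0 : t ≠ a0) (ht1 : t ≠ a1)
    (hlt : ‖(t - a0) / (t - a1)‖ < ‖(y0 - a0) / (y0 - a1)‖) :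
    ‖(t - y0)⁻¹ - (a0 - y0)⁻¹‖ = ‖(a0 - y0)⁻¹ - (a1 - y0)⁻¹‖ *
      Real.exp (-(Real.log ‖(y0 - a0) / (y0 - a1)‖ - Real.log ‖(t - a0) / (t - a1)‖)) := by
  have hty : t ≠ y0 := by
    rintro rfl; exact lt_irrefl _ hlt
  have e1 : t - a0 ≠ 0 := sub_ne_zero.2 ht0
  have e2 : t - a1 ≠ 0 := sub_ne_zero.2 ht1
  have e3 : y0 - a0 ≠ 0 := sub_ne_zero.2 hy0
  have e4 : y0 - a1 ≠ 0 := sub_ne_zero.2 hy1
  have e5 : t - y0 ≠ 0 := sub_ne_zero.2 hty
  have e6 : a0 - a1 ≠ 0 := sub_ne_zero.2 h01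
  have e7 : a0 - y0 ≠ 0 := sub_ne_zero.2 hy0.symm
  have e8 : a1 - y0 ≠ 0 := sub_ne_zero.2 hy1.symm
  have hut : 0 < ‖(t - a0) / (t - a1)‖ := norm_pos_iff.2 (div_ne_zero e1 e2)
  have huy : 0 < ‖(y0 - a0) / (y0 - a1)‖ := norm_pos_iff.2 (div_ne_zero e3 e4)
  rw [neg_sub, Real.exp_sub, Real.exp_log hut, Real.exp_log huy, tower_norm_inv_sub hty hy0.symm,
    tower_norm_inv_sub hy0.symm hy1.symm]
  -- `‖û(t) - 1‖ = 1`
  have key : (t - a0) / (t - a1) - (y0 - a0) / (y0 - a1) =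
      (t - y0) * (a0 - a1) / ((t - a1) * (y0 - a1)) := by
    field_simp; ring
  have hn : ‖(t - y0) * (a0 - a1) / ((t - a1) * (y0 - a1))‖ = ‖(y0 - a0) / (y0 - a1)‖ := by
    rw [← key, sub_eq_add_neg, IsUltrametricDist.norm_add_eq_max_of_norm_ne_norm
      (by rw [norm_neg]; exact hlt.ne), norm_neg, max_eq_right hlt.le]
  rw [norm_div, norm_mul, norm_mul, norm_div] at hn
  rw [norm_div, norm_div, norm_sub_rev a0 y0, norm_sub_rev a1 y0]
  have p1 : 0 < ‖t - a0‖ := norm_pos_iff.2 e1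
  have p2 : 0 < ‖t - a1‖ := norm_pos_iff.2 e2
  have p3 : 0 < ‖y0 - a0‖ := norm_pos_iff.2 e3
  have p4 : 0 < ‖y0 - a1‖ := norm_pos_iff.2 e4
  have p5 : 0 < ‖t - y0‖ := norm_pos_iff.2 e5
  have p6 : 0 < ‖a0 - a1‖ := norm_pos_iff.2 e6
  have hn' : ‖t - y0‖ * ‖a0 - a1‖ = ‖y0 - a0‖ * ‖t - a1‖ := by
    field_simp at hn
    linarith
  field_simp
  linear_combination (-1 : ℝ) * hn'

/-- differences of positions are in `Γ` -/
theorem local_gamma {k : Type*} [NormedField k] [IsUltrametricDist k] (y b b' c c' : k)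
    (hb : b ≠ y) (hb' : b' ≠ y) (hc : c ≠ y) (hc' : c' ≠ y) (R R' : ℝ) (hR : 0 < R)
    (hR' : 0 < R') (hbb : b ≠ b')
    (h1 : ‖(c - y)⁻¹ - (b - y)⁻¹‖ = ‖(b - y)⁻¹ - (b' - y)⁻¹‖ * Real.exp (-R))
    (h2 : ‖(c' - y)⁻¹ - (b - y)⁻¹‖ = ‖(b - y)⁻¹ - (b' - y)⁻¹‖ * Real.exp (-R')) :
    R' - R = Real.log ‖(c - b) * (c' - b') / ((c - b') * (c' - b))‖ := by
  have hD : 0 < ‖(b - y)⁻¹ - (b' - y)⁻¹‖ := by
    rw [norm_pos_iff, sub_ne_zero]
    intro h
    exact hbb (sub_left_injective (inv_injective h))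
  have hcb : c ≠ b := by
    rintro rfl
    rw [sub_self, norm_zero] at h1
    exact absurd h1 (by positivity)
  have hcb' : c' ≠ b := by
    rintro rfl
    rw [sub_self, norm_zero] at h2
    exact absurd h2 (by positivity)
  have far : ∀ w : k, ∀ Q : ℝ, 0 < Q →
      ‖(w - y)⁻¹ - (b - y)⁻¹‖ = ‖(b - y)⁻¹ - (b' - y)⁻¹‖ * Real.exp (-Q) →
      ‖(w - y)⁻¹ - (b' - y)⁻¹‖ = ‖(b - y)⁻¹ - (b' - y)⁻¹‖ := by
    intro w Q hQ h
    have hlt : ‖(w - y)⁻¹ - (b - y)⁻¹‖ < ‖(b - y)⁻¹ - (b' - y)⁻¹‖ := by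
      rw [h]
      calc ‖(b - y)⁻¹ - (b' - y)⁻¹‖ * Real.exp (-Q) < ‖(b - y)⁻¹ - (b' - y)⁻¹‖ * 1 :=
            mul_lt_mul_of_pos_left (Real.exp_lt_one_iff.2 (by linarith)) hD
        _ = _ := mul_one _
    have e : (w - y)⁻¹ - (b' - y)⁻¹ = ((w - y)⁻¹ - (b - y)⁻¹) + ((b - y)⁻¹ - (b' - y)⁻¹) := by
      ring
    rw [e, IsUltrametricDist.norm_add_eq_max_of_norm_ne_norm hlt.ne, max_eq_right hlt.le]
  have f1 := far c R hR h1
  have f2 := far c' R' hR' h2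
  have hcb1 : c ≠ b' := by
    rintro rfl
    rw [sub_self, norm_zero] at f1
    exact absurd f1.symm hD.ne'
  have hcb1' : c' ≠ b' := by
    rintro rfl
    rw [sub_self, norm_zero] at f2
    exact absurd f2.symm hD.ne'
  have key : (c - b) * (c' - b') / ((c - b') * (c' - b)) =
      (((c - y)⁻¹ - (b - y)⁻¹) * ((c' - y)⁻¹ - (b' - y)⁻¹)) /
        (((c - y)⁻¹ - (b' - y)⁻¹) * ((c' - y)⁻¹ - (b - y)⁻¹)) := by
    rw [tower_inv_sub_inv hc hb, tower_inv_sub_inv hc' hb', tower_inv_sub_inv hc hb',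
      tower_inv_sub_inv hc' hb]
    have e1 : c - y ≠ 0 := sub_ne_zero.2 hc
    have e2 : c' - y ≠ 0 := sub_ne_zero.2 hc'
    have e3 : b - y ≠ 0 := sub_ne_zero.2 hb
    have e4 : b' - y ≠ 0 := sub_ne_zero.2 hb'
    have e5 : c - b' ≠ 0 := sub_ne_zero.2 hcb1
    have e6 : c' - b ≠ 0 := sub_ne_zero.2 hcb'
    have e7 : b' - c ≠ 0 := sub_ne_zero.2 hcb1.symm
    have e8 : b - c' ≠ 0 := sub_ne_zero.2 hcb'.symm
    field_simp
    ring
  rw [key, norm_div, norm_mul, norm_mul, f1, f2, h1, h2]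
  have : ‖(b - y)⁻¹ - (b' - y)⁻¹‖ * Real.exp (-R) * ‖(b - y)⁻¹ - (b' - y)⁻¹‖ /
      (‖(b - y)⁻¹ - (b' - y)⁻¹‖ * (‖(b - y)⁻¹ - (b' - y)⁻¹‖ * Real.exp (-R'))) =
      Real.exp (R' - R) := by
    rw [show R' - R = -R - -R' by ring, Real.exp_sub]
    generalize ‖(b - y)⁻¹ - (b' - y)⁻¹‖ = X at hD
    field_simp
  rw [this, Real.log_exp]

/-- Module I (local theorem). -/
theorem local_bound {k : Type*} [NormedField k] [IsUltrametricDist k] [IsAlgClosed k] [CharZero k]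
    (p : ℕ) (hp : p.Prime) (hp1 : ‖(p : k)‖ < 1) (f : NMap k) (S : Set k) (hSf : S.Finite)
    (hS : f.CritSet S) (a : k) (ha : a ∉ S) (Γ : AddSubgroup ℝ)
    (hΓ : ∀ x : ℝ, (∀ n : ℕ, ∃ g ∈ Γ, x = (p : ℝ) ^ n * g) → x = 0)
    (hcr : ∀ x ∈ f.Back a, ∀ z ∈ f.Back a, ∀ c ∈ f.Back a, ∀ e ∈ f.Back a,
      Real.log ‖(x - c) * (z - e) / ((x - e) * (z - c))‖ ∈ Γ) :
    ∃ B : ℝ, ∀ n : ℕ, -Real.log ‖f.DD n a‖ ≤ B * f.d ^ n := by
  classical
  have hd2 : 2 ≤ f.d := f.two_le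
  have hdpos : ∀ n : ℕ, (0 : ℝ) < (f.d : ℝ) ^ n := fun n => by
    have : (0 : ℝ) < f.d := by exact_mod_cast (by omega : 0 < f.d)
    positivity
  -- bounds for small `log / d^n`
  suffices hsuf : ∃ B : ℝ, ∀ n : ℕ, -B ≤ Real.log ‖f.DD n a‖ / (f.d : ℝ) ^ n by
    obtain ⟨B, hB⟩ := hsuf
    refine ⟨B, fun n => ?_⟩
    have := hB n
    rw [le_div_iff₀ (hdpos n)] at this
    linarith
  by_cases hstar : Star (f.Back a)
  · -- star case
    obtain ⟨a0, ha0, a1, ha1, h01⟩ : ∃ a0 ∈ f.fiber a, ∃ a1 ∈ f.fiber a, a0 ≠ a1 := by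
      have hnd := tower_fiber_nodup f S hS ha
      have hcard := card_fiber f a
      by_contra hcon
      push Not at hcon
      obtain ⟨x, hx⟩ := Multiset.card_pos_iff_exists_mem.1 (by omega : 0 < Multiset.card (f.fiber a))
      have hle : f.fiber a ≤ {x} := by
        rw [Multiset.le_iff_count]
        intro z
        by_cases hz : z ∈ f.fiber a
        · rw [← hcon x hx z hz, Multiset.count_singleton_self]
          exact Multiset.nodup_iff_count_le_one.1 hnd x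
        · rw [Multiset.count_eq_zero_of_notMem hz]; exact Nat.zero_le _
      have := Multiset.card_le_card hle
      rw [Multiset.card_singleton] at this
      omega
    have hb0 : a0 ∈ f.Back a := back_fiber f a a ⟨0, by simp [NMap.pre]⟩ a0 ha0
    have hb1 : a1 ∈ f.Back a := back_fiber f a a ⟨0, by simp [NMap.pre]⟩ a1 ha1
    obtain ⟨C, hC, hCn⟩ := exists_tower p hp hp1 f S hSf hS a ha a0 a1 h01 {a0, a1}
      (Set.toFinite _) (by
        intro x hx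
        rcases hx with rfl | hx
        · exact hb0
        · rw [Set.mem_singleton_iff.1 hx]; exact hb1) (by simp) (by simp) 1 2 one_pos (by norm_num)
    refine ⟨Real.log C, fun n => ?_⟩
    obtain ⟨y0, y, b, b', G, ψ, -, -, -, -, I, -, hbd⟩ := hCn n
    obtain ⟨ε, hε, hψ⟩ := I.star hstar
    obtain ⟨ε', hε', hfree⟩ := tower_free ((preSet_finite f n {a0, a1}
      (Set.toFinite _)).toFinset.val) (fun c => ‖(c - y)⁻¹ - (b - y)⁻¹‖)
      ‖(b - y)⁻¹ - (b' - y)⁻¹‖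
    have hmin : 0 < min ε ε' := lt_min hε hε'
    obtain ⟨m, hm, hm1, hm2⟩ := I.slope 0 (min ε ε') le_rfl hmin (by
      intro c hc hcc
      have hc' : c ∈ (preSet_finite f n {a0, a1} (Set.toFinite _)).toFinset.val :=
        (Set.Finite.mem_toFinset _).2 hc
      refine hfree c hc' ⟨lt_of_le_of_lt ?_ hcc.1, hcc.2⟩
      apply mul_le_mul_of_nonneg_left _ (norm_nonneg _)
      exact Real.exp_le_exp.2 (by have := min_le_right ε ε'; linarith))
    have h0 := hψ 0 le_rfl hε.le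
    have h1 := hψ (min ε ε') hmin.le (min_le_left _ _)
    rw [h0, h1, sub_zero] at hm1
    have hm3 : (m : ℝ) = 1 := by
      have : (m : ℝ) * min ε ε' = 1 * min ε ε' := by rw [one_mul]; exact hm1.symm
      exact mul_right_cancel₀ hmin.ne' this
    have hm4 : m = 1 := by exact_mod_cast hm3
    rw [hm4, h0, sub_zero, mul_zero, Real.exp_zero, mul_one, Int.cast_one, norm_one] at hm2
    have h2 := hm2.trans hbd
    have h3 := Real.log_le_log one_pos h2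
    rw [Real.log_one, Real.log_mul hC.ne' (Real.exp_pos _).ne', Real.log_exp] at h3
    linarith
  · -- there are four points with cross ratio not a unit
    unfold Star at hstar
    push Not at hstar
    obtain ⟨x, hx, z, hz, a0, ha0, a1, ha1, hxz, hx0, hx1, hz0, hz1, h01, hne⟩ := hstar
    -- order them
    obtain ⟨t2, ht2, t3, ht3, h20, h21, h30, h31, hlt⟩ : ∃ t2 ∈ f.Back a, ∃ t3 ∈ f.Back a,
        t2 ≠ a0 ∧ t2 ≠ a1 ∧ t3 ≠ a0 ∧ t3 ≠ a1 ∧
        ‖(t3 - a0) / (t3 - a1)‖ < ‖(t2 - a0) / (t2 - a1)‖ := by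
      have e1 : x - a0 ≠ 0 := sub_ne_zero.2 hx0
      have e2 : x - a1 ≠ 0 := sub_ne_zero.2 hx1
      have e3 : z - a0 ≠ 0 := sub_ne_zero.2 hz0
      have e4 : z - a1 ≠ 0 := sub_ne_zero.2 hz1
      have h1 : ‖(x - a0) / (x - a1)‖ ≠ ‖(z - a0) / (z - a1)‖ := by
        intro h
        apply hne
        have hpos : 0 < ‖(z - a0) / (z - a1)‖ := norm_pos_iff.2 (div_ne_zero e3 e4)
        have : (x - a0) * (z - a1) / ((x - a1) * (z - a0)) =
            ((x - a0) / (x - a1)) / ((z - a0) / (z - a1)) := by field_simp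
        rw [this, norm_div, h, div_self hpos.ne']
      rcases lt_or_gt_of_ne h1 with h | h
      · exact ⟨z, hz, x, hx, hz0, hz1, hx0, hx1, h⟩
      · exact ⟨x, hx, z, hz, hx0, hx1, hz0, hz1, h⟩
    set u2 : ℝ := ‖(t2 - a0) / (t2 - a1)‖ with hu2
    set u3 : ℝ := ‖(t3 - a0) / (t3 - a1)‖ with hu3
    have hu3pos : 0 < u3 := norm_pos_iff.2 (div_ne_zero (sub_ne_zero.2 h30) (sub_ne_zero.2 h31))
    have hu2pos : 0 < u2 := hu3pos.trans hlt
    set T : Set k := {a0, a1, t2, t3} with hT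
    have hTf : T.Finite := Set.toFinite _
    have hTB : T ⊆ f.Back a := by
      intro w hw
      simp only [hT, Set.mem_insert_iff, Set.mem_singleton_iff] at hw
      rcases hw with rfl | rfl | rfl | rfl
      · exact ha0
      · exact ha1
      · exact ht2
      · exact ht3
    have hT0 : a0 ∈ T := by simp [hT]
    have hT1 : a1 ∈ T := by simp [hT]
    have hT2 : t2 ∈ T := by simp [hT]
    have hT3 : t3 ∈ T := by simp [hT]
    obtain ⟨C, hC, hCn⟩ := exists_tower p hp hp1 f S hSf hS a ha a0 a1 h01 T hTf hTB hT0 hT1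
      u2 (2 * u2) hu2pos (by linarith)
    by_contra hcon
    push Not at hcon
    set δ : ℝ := Real.log u2 - Real.log u3 with hδ
    have hδpos : 0 < δ := sub_pos.2 (Real.log_lt_log hu3pos hlt)
    apply hδpos.ne'
    apply hΓ
    intro K
    have hpn : 0 < ‖(p : k)‖ := norm_pos_iff.2 (Nat.cast_ne_zero.2 hp.ne_zero)
    -- choose `n`
    set E : ℝ := (2 * (f.d : ℝ) - 2) * (Real.log (2 * u2) - Real.log u3) with hE
    obtain ⟨n, hn⟩ := hcon (Real.log C + E - K * Real.log ‖(p : k)‖)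
    obtain ⟨y0, y, b, b', G, ψ, hy0, hy1, hlo, hhi, I, hyback, hbd⟩ := hCn n
    set uy : ℝ := ‖(y0 - a0) / (y0 - a1)‖ with huy
    have huypos : 0 < uy := hu2pos.trans hlo
    have hpos2 := local_position a0 a1 y0 t2 h01 hy0 hy1 h20 h21 hlo
    have hpos3 := local_position a0 a1 y0 t3 h01 hy0 hy1 h30 h31 (hlt.trans hlo)
    have hS2 : 0 < Real.log uy - Real.log u2 := sub_pos.2 (Real.log_lt_log hu2pos hlo)
    have hS3 : 0 < Real.log uy - Real.log u3 := sub_pos.2 (Real.log_lt_log hu3pos (hlt.trans hlo))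
    obtain ⟨R2, hR2, hψ2, c2, hc2, hc2n⟩ := I.lift t2 hT2 _ hS2 hpos2
    obtain ⟨R3, hR3, hψ3, c3, hc3, hc3n⟩ := I.lift t3 hT3 _ hS3 hpos3
    have hR23 : R2 < R3 := by
      by_contra hle
      push Not at hle
      have := I.mono R3 R2 hR3.le hle
      rw [hψ2, hψ3] at this
      linarith
    -- positions of the break points
    have hpf := preSet_finite f n T hTf
    have hD : 0 < ‖(b - y)⁻¹ - (b' - y)⁻¹‖ := by
      rw [norm_pos_iff, sub_ne_zero]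
      intro h
      exact I.ne01 (sub_left_injective (inv_injective h))
    set D : ℝ := ‖(b - y)⁻¹ - (b' - y)⁻¹‖ with hDdef
    set pos : k → ℝ := fun c => -Real.log (‖(c - y)⁻¹ - (b - y)⁻¹‖ / D) with hposdef
    set F : Finset ℝ := ((hpf.toFinset.filter (fun c => c ≠ y ∧
      ∃ R : ℝ, 0 < R ∧ ‖(c - y)⁻¹ - (b - y)⁻¹‖ = D * Real.exp (-R))).image pos) with hF
    have hposR : ∀ c : k, ∀ R : ℝ, ‖(c - y)⁻¹ - (b - y)⁻¹‖ = D * Real.exp (-R) → pos c = R := by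
      intro c R h
      simp only [hposdef, h]
      rw [mul_div_assoc, mul_comm, div_mul_cancel₀ _ hD.ne', Real.log_exp, neg_neg]
    have hpreB : preSet f n T ⊆ f.Back a := preSet_subset f n T _ (back_fiber f a) hTB
    have hbB : b ∈ f.Back a := hpreB ⟨a0, hT0, I.memb⟩
    have hbB' : b' ∈ f.Back a := hpreB ⟨a1, hT1, I.memb'⟩
    have hFΓ : ∀ r ∈ F, ∀ s ∈ F, s - r ∈ Γ := by
      intro r hr s hs
      rw [hF, Finset.mem_image] at hr hs
      obtain ⟨c, hc, rfl⟩ := hr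
      obtain ⟨c', hc', rfl⟩ := hs
      rw [Finset.mem_filter, Set.Finite.mem_toFinset] at hc hc'
      obtain ⟨hc1, hcy, R, hR, hcR⟩ := hc
      obtain ⟨hc1', hcy', R', hR', hcR'⟩ := hc'
      rw [hposR c R hcR, hposR c' R' hcR']
      rw [local_gamma y b b' c c' I.ne0.symm I.ne1.symm hcy hcy' R R' hR hR' I.ne01 hcR hcR']
      exact hcr c (hpreB hc1) c' (hpreB hc1') b hbB b' hbB'
    have hmemF : ∀ c ∈ preSet f n T, ∀ R : ℝ, 0 < R →
        ‖(c - y)⁻¹ - (b - y)⁻¹‖ = D * Real.exp (-R) → R ∈ F := by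
      intro c hc R hR h
      rw [hF, Finset.mem_image]
      refine ⟨c, ?_, hposR c R h⟩
      rw [Finset.mem_filter, Set.Finite.mem_toFinset]
      exact ⟨hc, hyback c hc, R, hR, h⟩
    have hbound : ∀ x : ℝ, 0 ≤ x → x ≤ R3 → ψ x - x ≤ Real.log (2 * u2) - Real.log u3 := by
      intro x hx hx3
      have h1 := I.mono x R3 hx hx3
      have h2 : Real.log uy ≤ Real.log (2 * u2) := Real.log_le_log huypos hhi.le
      rw [hψ3] at h1
      linarith
    have hd2' : (0 : ℝ) ≤ 2 * (f.d : ℝ) - 2 := by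
      have : (2 : ℝ) ≤ f.d := by exact_mod_cast hd2
      linarith
    obtain ⟨g, hg, hgK⟩ := div_lemma Γ p K ψ F 0 R3 hFΓ (by
      intro x z hx hxz hz hfree
      obtain ⟨m, hm, hm1, hm2⟩ := I.slope x z hx hxz (by
        intro c hc hcc
        obtain ⟨Q, hQ1, hQ2, hQ3⟩ := tower_exp_lt hD hcc.1 hcc.2
        exact hfree Q (hmemF c hc Q (lt_of_le_of_lt hx hQ1) hQ3) ⟨hQ1, hQ2⟩)
      refine ⟨m, div_of_norm_le p hp hp1 K m ?_, hm1⟩
      have h1 : ‖(m : k)‖ ≤ C * Real.exp (Real.log ‖f.DD n a‖ / (f.d : ℝ) ^ n) * Real.exp E := by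
        refine hm2.trans ?_
        apply mul_le_mul hbd _ (Real.exp_pos _).le (by positivity)
        apply Real.exp_le_exp.2
        exact mul_le_mul_of_nonneg_left (hbound x hx (hxz.le.trans hz)) hd2'
      refine h1.trans ?_
      rw [← Real.exp_log (pow_pos hpn K), Real.log_pow]
      nth_rewrite 1 [← Real.exp_log hC]
      rw [← Real.exp_add, ← Real.exp_add]
      apply Real.exp_le_exp.2
      linarith) R2 R3 hR2.le hR23 le_rfl (hmemF c2 hc2 R2 hR2 hc2n) (hmemF c3 hc3 R3 hR3 hc3n)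
    refine ⟨g, hg, ?_⟩
    rw [← hgK, hψ2, hψ3, hδ]
    ring

end Pool.Agent.H.MP_392fd3_nt
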