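import Pool.Agent.H.MP_392fd3_nt.Tower
import Pool.Agent.H.MP_392fd3_nt.Chain

set_option autoImplicit false

open Polynomial

namespace Pool.Agent.H.MP_392fd3_nt

theorem back_fiber {k : Type*} [Field k] (f : NMap k) (a : k) :
    ∀ x ∈ f.Back a, ∀ z ∈ f.fiber x, z ∈ f.Back a := by
  rintro x ⟨n, hx⟩ z hz
  exact ⟨n + 1, (tower_mem_pre_succ f n a z).2 ⟨x, hx, hz⟩⟩

theorem back_disjoint {k : Type*} [Field k] (f : NMap k) (S : Set k) (hS : f.CritSet S) (a : k)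
    (ha : a ∉ S) : Disjoint (f.Back a) S := by
  rw [Set.disjoint_left]
  rintro x ⟨n, hx⟩ hxS
  have h1 := tower_opt_pre f n hx
  rcases tower_opt_crit f S hS n (some x) (Or.inr ⟨x, hxS, rfl⟩) with h | ⟨a', ha', h⟩
  · rw [h1] at h; exact absurd h (by simp)
  · rw [h1] at h
    have : a = a' := Option.some_injective _ h
    exact ha (this ▸ ha')

theorem preSet_finite {k : Type*} [Field k] (f : NMap k) (n : ℕ) (T : Set k) (hT : T.Finite) :
    (preSet f n T).Finite := by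
  classical
  have : preSet f n T = ⋃ a ∈ T, {x | x ∈ f.pre n a} := by
    ext x; simp [preSet]
  rw [this]
  refine hT.biUnion fun a _ => ?_
  have : {x | x ∈ f.pre n a} = ((f.pre n a).toFinset : Set k) := by
    ext x; simp
  rw [this]
  exact Finset.finite_toSet _

theorem preSet_subset {k : Type*} [Field k] (f : NMap k) (n : ℕ) (T Bk : Set k)
    (hBk : ∀ x ∈ Bk, ∀ z ∈ f.fiber x, z ∈ Bk) (hT : T ⊆ Bk) : preSet f n T ⊆ Bk := by
  rintro x ⟨a, ha, hx⟩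
  have : ∀ m : ℕ, ∀ x, x ∈ f.pre m a → x ∈ Bk := by
    intro m
    induction m with
    | zero => intro x hx; simp [NMap.pre] at hx; rw [hx]; exact hT ha
    | succ m ih =>
      intro x hx
      obtain ⟨z, hz, hxz⟩ := (tower_mem_pre_succ f m a x).1 hx
      exact hBk z (ih z hz) x hxz
  exact this n x hx

theorem gen_finite {k : Type*} [Field k] (f : NMap k) (S : Set k) (hS : S.Finite) (a0 a1 : k)
    (n : ℕ) : (Gen f S a0 a1 n).Finite := by
  classical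
  have h1 : Gen f S a0 a1 n = {none} ∪ (some '' S) ∪
      ⋃ j ∈ Finset.range n, ⋃ b ∈ {x | x ∈ f.pre j a0}, ⋃ b' ∈ {x | x ∈ f.pre j a1},
        (f.opt^[j]) '' (f.bad b b') := by
    ext B
    simp only [Gen, Set.mem_ofPred_eq, Set.mem_union, Set.mem_singleton_iff, Set.mem_image,
      Set.mem_iUnion, Finset.mem_range, exists_prop]
    constructor
    · rintro (h | ⟨a, ha, h⟩ | ⟨j, hj, b, hb, b', hb', B', hB', h⟩)
      · exact Or.inl (Or.inl h)
      · exact Or.inl (Or.inr ⟨a, ha, h.symm⟩)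
      · exact Or.inr ⟨j, hj, b, hb, b', hb', B', hB', h.symm⟩
    · rintro ((h | ⟨a, ha, h⟩) | ⟨j, hj, b, hb, b', hb', B', hB', h⟩)
      · exact Or.inl h
      · exact Or.inr (Or.inl ⟨a, ha, h.symm⟩)
      · exact Or.inr (Or.inr ⟨j, hj, b, hb, b', hb', B', hB', h.symm⟩)
  have hpre : ∀ j (a : k), ({x | x ∈ f.pre j a} : Set k).Finite := by
    intro j a
    have : {x | x ∈ f.pre j a} = ((f.pre j a).toFinset : Set k) := by
      ext x; simp
    rw [this]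
    exact Finset.finite_toSet _
  rw [h1]
  refine ((Set.finite_singleton _).union (hS.image _)).union ?_
  refine Set.Finite.biUnion (Finset.finite_toSet _) fun j _ => ?_
  refine Set.Finite.biUnion (hpre j a0) fun b _ => ?_
  exact Set.Finite.biUnion (hpre j a1) fun b' _ => (NMap.bad_finite f b b').image _

/-- choice of an element of generic norm -/
theorem exists_generic {k : Type*} [NormedField k] [IsAlgClosed k] (p : ℕ)
    (hp0 : (p : k) ≠ 0) (hp1 : ‖(p : k)‖ < 1) (lo hi : ℝ) (hlo : 0 < lo) (hhi : lo < hi)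
    (F : Set ℝ) (hF : F.Finite) : ∃ θ : k, lo < ‖θ‖ ∧ ‖θ‖ < hi ∧ ‖θ‖ ∉ F := by
  have h1 : IsOpen (Set.Ioo lo hi \ F) := isOpen_Ioo.sdiff hF.isClosed
  have h2 : (Set.Ioo lo hi \ F).Nonempty := by
    have hinf : (Set.Ioo lo hi).Infinite := Set.Ioo_infinite hhi
    obtain ⟨x, hx, hxF⟩ := hinf.exists_notMem_finite hF
    exact ⟨x, hx, hxF⟩
  obtain ⟨x, hx⟩ := h2
  obtain ⟨ε, hε, hball⟩ := Metric.isOpen_iff.1 h1 x hx
  obtain ⟨θ, hθ1, hθ2⟩ := exists_norm_between (k := k) p hp0 hp1 (a := x) (b := x + ε)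
    (hlo.le.trans hx.1.1.le) (by linarith)
  have hmem : ‖θ‖ ∈ Set.Ioo lo hi \ F := by
    apply hball
    rw [Metric.mem_ball, Real.dist_eq, abs_lt]
    constructor <;> linarith
  exact ⟨θ, hmem.1.1, hmem.1.2, hmem.2⟩

section theta

variable {k : Type*} [NormedField k] [IsUltrametricDist k]

/-- the point `y0` with `u(y0) = θ`, `u(z) = (z - a0)/(z - a1)` -/
theorem theta_props (a0 a1 θ : k) (h01 : a0 ≠ a1) (hθ : ‖θ‖ ≠ 1) (hθ0 : θ ≠ 0) :
    let y0 := (a0 - θ * a1) / (1 - θ)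
    y0 ≠ a0 ∧ y0 ≠ a1 ∧ (y0 - a0) / (y0 - a1) = θ ∧ ‖y0‖ ≤ max ‖a0‖ ‖a1‖ ∧
      ¬ Near y0 a0 a1 none ∧
      (∀ b : k, ‖(b - a0) / (b - a1)‖ ≠ ‖θ‖ → ¬ Near y0 a0 a1 (some b)) ∧
      ‖(a0 - y0)⁻¹ - (a1 - y0)⁻¹‖ = (max 1 ‖θ‖) ^ 2 / (‖θ‖ * ‖a0 - a1‖) := by
  intro y0
  have h1θ : ‖1 - θ‖ = max 1 ‖θ‖ := by
    have := IsUltrametricDist.norm_add_eq_max_of_norm_ne_norm (x := (1 : k)) (y := -θ)
      (by rw [norm_one, norm_neg]; exact hθ.symm)
    rw [← sub_eq_add_neg, norm_one, norm_neg] at this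
    exact this
  have hmaxpos : 0 < max 1 ‖θ‖ := lt_of_lt_of_le one_pos (le_max_left _ _)
  have h1θ0 : (1 : k) - θ ≠ 0 := by
    rw [← norm_pos_iff, h1θ]; exact hmaxpos
  have h01' : a0 - a1 ≠ 0 := sub_ne_zero.2 h01
  have e0 : y0 - a0 = θ * (a0 - a1) / (1 - θ) := by
    simp only [y0]; field_simp; ring
  have e1 : y0 - a1 = (a0 - a1) / (1 - θ) := by
    simp only [y0]; field_simp; ring
  have n0 : y0 - a0 ≠ 0 := by
    rw [e0]; exact div_ne_zero (mul_ne_zero hθ0 h01') h1θ0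
  have n1 : y0 - a1 ≠ 0 := by
    rw [e1]; exact div_ne_zero h01' h1θ0
  have hu : (y0 - a0) / (y0 - a1) = θ := by
    rw [e0, e1]; field_simp
  have hθpos : 0 < ‖θ‖ := norm_pos_iff.2 hθ0
  have hdpos : 0 < ‖a0 - a1‖ := norm_pos_iff.2 h01'
  have nn0 : ‖a0 - y0‖ = ‖θ‖ * ‖a0 - a1‖ / max 1 ‖θ‖ := by
    rw [norm_sub_rev, e0, norm_div, norm_mul, h1θ]
  have nn1 : ‖a1 - y0‖ = ‖a0 - a1‖ / max 1 ‖θ‖ := by
    rw [norm_sub_rev, e1, norm_div, h1θ]
  refine ⟨sub_ne_zero.1 n0, sub_ne_zero.1 n1, hu, ?_, ?_, ?_, ?_⟩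
  · simp only [y0]
    rw [norm_div, h1θ, div_le_iff₀ hmaxpos]
    have : a0 - θ * a1 = a0 + -(θ * a1) := by ring
    rw [this]
    refine (IsUltrametricDist.norm_add_le_max _ _).trans ?_
    rw [norm_neg, norm_mul]
    refine max_le ?_ ?_
    · calc ‖a0‖ = ‖a0‖ * 1 := (mul_one _).symm
        _ ≤ max ‖a0‖ ‖a1‖ * max 1 ‖θ‖ :=
          mul_le_mul (le_max_left _ _) (le_max_left _ _) zero_le_one
            ((norm_nonneg _).trans (le_max_left _ _))
    · rw [mul_comm]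
      exact mul_le_mul (le_max_right _ _) (le_max_right _ _) (norm_nonneg _)
            ((norm_nonneg _).trans (le_max_left _ _))
  · intro h
    simp only [Near] at h
    rw [nn0, lt_div_iff₀ hmaxpos] at h
    have : ‖a0 - a1‖ * max 1 ‖θ‖ < ‖a0 - a1‖ * ‖θ‖ := by rw [mul_comm ‖a0 - a1‖ ‖θ‖]; exact h
    have := lt_of_mul_lt_mul_left this hdpos.le
    exact absurd (le_max_right 1 ‖θ‖) (not_le.2 this)
  · intro b hb h
    simp only [Near] at h
    by_cases hb1 : b = a1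
    · subst hb1
      rw [sub_self, norm_zero, zero_mul] at h
      exact absurd h (not_lt.2 (by positivity))
    have hb1' : b - a1 ≠ 0 := sub_ne_zero.2 hb1
    have key : (b - a0) / (b - a1) - θ = (b - y0) * (a0 - a1) / ((b - a1) * (y0 - a1)) := by
      rw [← hu]; field_simp; ring
    have hnn : ‖(b - a0) / (b - a1) - θ‖ = max ‖(b - a0) / (b - a1)‖ ‖θ‖ := by
      rw [sub_eq_add_neg, IsUltrametricDist.norm_add_eq_max_of_norm_ne_norm
        (by rw [norm_neg]; exact hb), norm_neg]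
    have hge : ‖θ‖ ≤ ‖b - y0‖ * ‖a0 - a1‖ / (‖b - a1‖ * ‖y0 - a1‖) := by
      rw [← norm_mul, ← norm_mul, ← norm_div, ← key, hnn]
      exact le_max_right _ _
    have hb1p : 0 < ‖b - a1‖ := norm_pos_iff.2 hb1'
    have hy1p : 0 < ‖y0 - a1‖ := norm_pos_iff.2 n1
    rw [le_div_iff₀ (by positivity)] at hge
    have hθ' : ‖θ‖ * ‖y0 - a1‖ = ‖a0 - y0‖ := by
      rw [norm_sub_rev a0 y0, ← hu, norm_div]; field_simp
    have : ‖b - a1‖ * ‖a0 - y0‖ ≤ ‖b - y0‖ * ‖a0 - a1‖ := by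
      rw [← hθ']; linarith
    linarith
  · rw [tower_norm_inv_sub (sub_ne_zero.1 n0).symm (sub_ne_zero.1 n1).symm, nn0, nn1]
    field_simp

end theta

end Pool.Agent.H.MP_392fd3_nt
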