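import Pool.Agent.H.MP_392fd3_nt.LocalChoice

set_option autoImplicit false

open Polynomial

namespace Pool.Agent.H.MP_392fd3_nt

/-- For a bounded family of starting points the tower exists with good bounds. -/
theorem exists_tower {k : Type*} [NormedField k] [IsUltrametricDist k] [IsAlgClosed k] [CharZero k]
    (p : ℕ) (hp : p.Prime) (hp1 : ‖(p : k)‖ < 1) (f : NMap k) (S : Set k) (hSf : S.Finite)
    (hS : f.CritSet S) (a : k) (ha : a ∉ S) (a0 a1 : k) (h01 : a0 ≠ a1) (T : Set k)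
    (hTf : T.Finite) (hT : T ⊆ f.Back a) (hT0 : a0 ∈ T) (hT1 : a1 ∈ T) (lo hi : ℝ)
    (hlo : 0 < lo) (hhi : lo < hi) :
    ∃ C : ℝ, 0 < C ∧ ∀ n : ℕ, ∃ (y0 y b b' : k) (G : ℝ) (ψ : ℝ → ℝ),
      y0 ≠ a0 ∧ y0 ≠ a1 ∧ lo < ‖(y0 - a0) / (y0 - a1)‖ ∧ ‖(y0 - a0) / (y0 - a1)‖ < hi ∧
      Inv f (f.Back a) a0 a1 y0 T n y b b' G ψ ∧ (∀ c ∈ preSet f n T, c ≠ y) ∧
      G * ‖(a0 - y0)⁻¹ - (a1 - y0)⁻¹‖ / ‖(b - y)⁻¹ - (b' - y)⁻¹‖ ≤
        C * Real.exp (Real.log ‖f.DD n a‖ / (f.d : ℝ) ^ n) := by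
  classical
  have hp0 : (p : k) ≠ 0 := Nat.cast_ne_zero.2 hp.ne_zero
  have hd2 : 2 ≤ f.d := f.two_le
  obtain ⟨e, he⟩ := exists_aux f
  obtain ⟨B1, hB1⟩ := EE_formula f e he
  obtain ⟨Gs, -, hGs⟩ := DD_formula f S hSf hS
  have hB1nn : 0 ≤ B1 := by
    obtain ⟨κ, -, hκ, -⟩ := hB1 0
    have := (abs_nonneg _).trans hκ
    simpa using this
  have h01' : 0 < ‖a0 - a1‖ := norm_pos_iff.2 (sub_ne_zero.2 h01)
  -- constants
  set Y : ℝ := max ‖a0‖ ‖a1‖ with hY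
  obtain ⟨C1, hC1nn, hC1⟩ : ∃ C1 : ℝ, 0 ≤ C1 ∧ ∀ s ∈ S, ∀ y0 : k, ‖y0‖ ≤ Y → s ≠ y0 →
      Real.log ‖s - y0‖ ≤ Real.log ‖s - a‖ + C1 := by
    have h1 : ∀ s ∈ hSf.toFinset, ∃ c : ℝ, 0 ≤ c ∧ ∀ y0 : k, ‖y0‖ ≤ Y → s ≠ y0 →
        Real.log ‖s - y0‖ ≤ Real.log ‖s - a‖ + c := by
      intro s _
      refine ⟨|Real.log (‖s‖ + Y + 1)| + |Real.log ‖s - a‖|, by positivity, ?_⟩
      intro y0 hy0 hne
      have h2 : ‖s - y0‖ ≤ ‖s‖ + Y + 1 := by
        have := norm_sub_le s y0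
        linarith
      have h3 : 0 < ‖s - y0‖ := norm_pos_iff.2 (sub_ne_zero.2 hne)
      have h4 := Real.log_le_log h3 h2
      have h5 := le_abs_self (Real.log (‖s‖ + Y + 1))
      have h6 := neg_abs_le (Real.log ‖s - a‖)
      linarith
    choose! c hc using h1
    refine ⟨∑ s ∈ hSf.toFinset, c s, Finset.sum_nonneg fun s hs => (hc s hs).1, ?_⟩
    intro s hs y0 hy0 hne
    have hs' : s ∈ hSf.toFinset := hSf.mem_toFinset.2 hs
    have h2 := (hc s hs').2 y0 hy0 hne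
    have h3 : c s ≤ ∑ s ∈ hSf.toFinset, c s :=
      Finset.single_le_sum (fun s hs => (hc s hs).1) hs'
    linarith
  set C2 : ℝ := |Real.log (‖e‖ + Y + 1)| with hC2
  have hC2nn : 0 ≤ C2 := abs_nonneg _
  set D0 : ℝ := (max 1 hi) ^ 2 / (lo * ‖a0 - a1‖) with hD0
  have hmaxpos : 0 < max 1 hi := lt_of_lt_of_le one_pos (le_max_left _ _)
  have hD0pos : 0 < D0 := by positivity
  refine ⟨D0 * Real.exp (2 * f.d * C1 + B1 + C2), by positivity, ?_⟩
  intro n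
  -- forbidden norms
  set Forb : Set (Option k) := Gen f S a0 a1 n ∪ (some '' T) ∪ {some e} with hForb
  have hForbF : Forb.Finite :=
    ((gen_finite f S hSf a0 a1 n).union (hTf.image _)).union (Set.finite_singleton _)
  set nrm : Option k → ℝ := fun B => match B with
    | none => 1
    | some b => ‖(b - a0) / (b - a1)‖ with hnrm
  obtain ⟨θ, hθlo, hθhi, hθF⟩ := exists_generic (k := k) p hp0 hp1 lo hi hlo hhi
    (insert 1 (nrm '' Forb)) ((hForbF.image _).insert _)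
  have hθ0 : θ ≠ 0 := by
    rw [← norm_pos_iff]; exact hlo.trans hθlo
  have hθ1 : ‖θ‖ ≠ 1 := fun h => hθF (Or.inl h)
  have hθB : ∀ b : k, some b ∈ Forb → ‖(b - a0) / (b - a1)‖ ≠ ‖θ‖ := by
    intro b hb h
    exact hθF (Or.inr ⟨some b, hb, h⟩)
  obtain ⟨hy0, hy1, hu, hyY, hnone, hsome, hDD0⟩ := theta_props a0 a1 θ h01 hθ1 hθ0
  set y0 : k := (a0 - θ * a1) / (1 - θ) with hy0def
  have hnear : ∀ B ∈ Forb, ¬ Near y0 a0 a1 B := by
    intro B hB
    cases B with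
    | none => exact hnone
    | some b => exact hsome b (hθB b hB)
  have hne_of : ∀ b : k, some b ∈ Forb → b ≠ y0 := by
    rintro b hb rfl
    exact hθB _ hb (by rw [hu])
  have hyT : y0 ∉ T := fun h => hne_of y0 (Or.inl (Or.inr ⟨y0, h, rfl⟩)) rfl
  have hyS : ∀ s ∈ S, s ≠ y0 := fun s hs =>
    hne_of s (Or.inl (Or.inl (Or.inr (Or.inl ⟨s, hs, rfl⟩))))
  have hye : e ≠ y0 := hne_of e (Or.inr rfl)
  -- the products at `y0`
  obtain ⟨κ, hκ, M, hMS, hMc, hDDf⟩ := hGs n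
  have hκ0 : (κ : k) ≠ 0 := κ.ne_zero
  have hprod_ne : ∀ z : k, (∀ s ∈ S, s ≠ z) → (M.map (fun s => s - z)).prod ≠ 0 := by
    intro z hz
    rw [Ne, Multiset.prod_eq_zero_iff]
    intro h0
    obtain ⟨s, hs, hs0⟩ := Multiset.mem_map.1 h0
    exact hz s (hMS s hs) (sub_eq_zero.1 hs0)
  have hDy : f.DD n y0 ≠ 0 := by
    rw [hDDf]; exact mul_ne_zero hκ0 (hprod_ne y0 hyS)
  have hSa : ∀ s ∈ S, s ≠ a := by
    rintro s hs rfl; exact ha hs
  have hDa : f.DD n a ≠ 0 := by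
    rw [hDDf]; exact mul_ne_zero hκ0 (hprod_ne a hSa)
  obtain ⟨κ', hκ'0, hκ', hEE⟩ := hB1 n
  have hey : e - y0 ≠ 0 := sub_ne_zero.2 hye
  have hEy : f.EE e n y0 ≠ 0 := by
    rcases hEE with h | h
    · rw [h]; exact hκ'0
    · rw [h]; exact mul_ne_zero hκ'0 hey
  -- logarithms
  have hdn : (1 : ℝ) ≤ (f.d : ℝ) ^ n := one_le_pow₀ (by exact_mod_cast (by omega : 1 ≤ f.d))
  have hdnpos : (0 : ℝ) < (f.d : ℝ) ^ n := lt_of_lt_of_le one_pos hdn
  have hsum : ∀ N : Multiset k, (∀ s ∈ N, s ∈ S) →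
      Real.log ‖(N.map (fun s => s - y0)).prod‖ ≤
        Real.log ‖(N.map (fun s => s - a)).prod‖ + Multiset.card N * C1 := by
    intro N
    induction N using Multiset.induction_on with
    | empty => intro _; simp
    | cons s N ih =>
      intro hN
      have hs : s ∈ S := hN s (Multiset.mem_cons_self _ _)
      have hN' : ∀ t ∈ N, t ∈ S := fun t ht => hN t (Multiset.mem_cons_of_mem ht)
      have hne : ∀ z : k, (∀ s ∈ S, s ≠ z) → (N.map (fun s => s - z)).prod ≠ 0 := by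
        intro z hz
        rw [Ne, Multiset.prod_eq_zero_iff]
        intro h0
        obtain ⟨t, ht, ht0⟩ := Multiset.mem_map.1 h0
        exact hz t (hN' t ht) (sub_eq_zero.1 ht0)
      rw [Multiset.map_cons, Multiset.prod_cons, Multiset.map_cons, Multiset.prod_cons, norm_mul,
        norm_mul, Real.log_mul (norm_ne_zero_iff.2 (sub_ne_zero.2 (hyS s hs)))
          (norm_ne_zero_iff.2 (hne y0 hyS)),
        Real.log_mul (norm_ne_zero_iff.2 (sub_ne_zero.2 (hSa s hs)))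
          (norm_ne_zero_iff.2 (hne a hSa)), Multiset.card_cons]
      have h1 := hC1 s hs y0 hyY (hyS s hs)
      have h2 := ih hN'
      push_cast
      linarith
  have hlogD : Real.log ‖f.DD n y0‖ ≤ Real.log ‖f.DD n a‖ + 2 * f.d * C1 * (f.d : ℝ) ^ n := by
    rw [hDDf, hDDf, norm_mul, norm_mul, Real.log_mul (norm_ne_zero_iff.2 hκ0)
      (norm_ne_zero_iff.2 (hprod_ne y0 hyS)), Real.log_mul (norm_ne_zero_iff.2 hκ0)
      (norm_ne_zero_iff.2 (hprod_ne a hSa))]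
    have h1 := hsum M hMS
    have h2 : (Multiset.card M : ℝ) * C1 ≤ 2 * f.d * C1 * (f.d : ℝ) ^ n := by
      have : (Multiset.card M : ℝ) ≤ 2 * f.d * (f.d : ℝ) ^ n := by exact_mod_cast hMc
      calc (Multiset.card M : ℝ) * C1 ≤ (2 * f.d * (f.d : ℝ) ^ n) * C1 :=
            mul_le_mul_of_nonneg_right this hC1nn
        _ = _ := by ring
    linarith
  have hlogE : Real.log ‖f.EE e n y0‖ ≤ (B1 + C2) * (f.d : ℝ) ^ n := by
    have h1 : Real.log ‖κ'‖ ≤ B1 * (f.d : ℝ) ^ n := (le_abs_self _).trans hκ'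
    have h2 : Real.log ‖e - y0‖ ≤ C2 := by
      have h3 : ‖e - y0‖ ≤ ‖e‖ + Y + 1 := by
        have := norm_sub_le e y0
        have := hyY
        linarith
      exact (Real.log_le_log (norm_pos_iff.2 hey) h3).trans (le_abs_self _)
    have h4 : C2 ≤ C2 * (f.d : ℝ) ^ n := le_mul_of_one_le_right hC2nn hdn
    rcases hEE with h | h
    · rw [h]; nlinarith
    · rw [h, norm_mul, Real.log_mul (norm_ne_zero_iff.2 hκ'0) (norm_ne_zero_iff.2 hey)]
      nlinarith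
  -- the chain
  obtain ⟨c, hc0, hchain, hder, hecn, hsumc⟩ := exists_chain f e n y0 hDy hEy
  have hgen : ∀ B ∈ Gen f S a0 a1 n, ¬ Near (c 0) a0 a1 B := by
    intro B hB
    rw [hc0]
    exact hnear B (Or.inl (Or.inl hB))
  obtain ⟨b, b', ψ, I⟩ := tower p hp hp1 f S hS (f.Back a) (back_fiber f a)
    (back_disjoint f S hS a ha) a0 a1 h01 T hT hT0 hT1 c (by rw [hc0]; exact hyT) n hchain hder
    hgen
  rw [hc0] at I
  refine ⟨y0, c n, b, b', _, ψ, hy0, hy1, by rw [hu]; exact hθlo, by rw [hu]; exact hθhi, I,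
    ?_, ?_⟩
  · rintro _ ⟨t, ht, hyt⟩ rfl
    have h1 := tower_opt_pre f n hyt
    have h2 := tower_opt_chain f c n hchain
    rw [h1, hc0] at h2
    have : t = y0 := Option.some_injective _ h2
    exact hyT (this ▸ ht)
  -- lower bound for the radius
  have hb : b ≠ c n := I.ne0.symm
  have hb' : b' ≠ c n := I.ne1.symm
  have hN1 : ¬ Near (c n) b b' none := by
    intro h
    have := I.push none h
    rw [tower_opt_none] at this
    exact hnone this
  have hN2 : ¬ Near (c n) b b' (some e) := by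
    intro h
    have h1 := I.push _ h
    have h2 : ∀ m : ℕ, f.opt^[m] (some e) = none ∨ f.opt^[m] (some e) = some e := by
      intro m
      induction m with
      | zero => exact Or.inr rfl
      | succ m ih =>
        rw [Function.iterate_succ_apply']
        rcases ih with h | h
        · rw [h]; exact Or.inl rfl
        · rw [h]
          rcases he with h0 | ⟨h0, h0'⟩
          · left; simp [NMap.opt, h0]
          · right; simp [NMap.opt, h0, h0']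
    rcases h2 n with h3 | h3
    · rw [h3] at h1; exact hnone h1
    · rw [h3] at h1; exact hnear (some e) (Or.inr rfl) h1
  rw [tower_near_none hb hb', not_lt] at hN1
  rw [tower_near_some hb hb' hecn, not_lt] at hN2
  have hecn' : 0 < ‖e - c n‖ := norm_pos_iff.2 (sub_ne_zero.2 hecn)
  have hDn : ‖e - c n‖⁻¹ ≤ ‖(b - c n)⁻¹ - (b' - c n)⁻¹‖ := by
    rw [← norm_inv]
    have : (e - c n)⁻¹ = ((e - c n)⁻¹ - (b' - c n)⁻¹) + (b' - c n)⁻¹ := by ring
    rw [this]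
    exact (IsUltrametricDist.norm_add_le_max _ _).trans (max_le hN2 hN1)
  have hDnpos : 0 < ‖(b - c n)⁻¹ - (b' - c n)⁻¹‖ := lt_of_lt_of_le (by positivity) hDn
  have hD0' : ‖(a0 - y0)⁻¹ - (a1 - y0)⁻¹‖ ≤ D0 := by
    rw [hDD0, hD0]
    have hθpos : 0 < ‖θ‖ := norm_pos_iff.2 hθ0
    apply div_le_div₀ (by positivity) _ (by positivity) _
    · exact pow_le_pow_left₀ (by positivity) (max_le_max le_rfl hθhi.le) 2
    · exact mul_le_mul_of_nonneg_right hθlo.le h01'.le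
  have hGpos : 0 < ∏ j ∈ Finset.range n, ‖f.der (c (j + 1))‖ :=
    Finset.prod_pos fun j hj => norm_pos_iff.2 (hder j (Finset.mem_range.1 hj))
  have hG : (∏ j ∈ Finset.range n, ‖f.der (c (j + 1))‖) * ‖e - c n‖ ≤
      Real.exp (Real.log ‖f.DD n a‖ / (f.d : ℝ) ^ n + (2 * f.d * C1 + B1 + C2)) := by
    rw [← Real.log_le_iff_le_exp (by positivity), Real.log_mul hGpos.ne' hecn'.ne',
      Real.log_prod (fun j hj => norm_ne_zero_iff.2 (hder j (Finset.mem_range.1 hj)))]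
    refine hsumc.le.trans ?_
    rw [div_le_iff₀ hdnpos, add_mul, div_mul_cancel₀ _ hdnpos.ne']
    linarith
  calc (∏ j ∈ Finset.range n, ‖f.der (c (j + 1))‖) * ‖(a0 - y0)⁻¹ - (a1 - y0)⁻¹‖ /
        ‖(b - c n)⁻¹ - (b' - c n)⁻¹‖
      ≤ (∏ j ∈ Finset.range n, ‖f.der (c (j + 1))‖) * D0 * ‖e - c n‖ := by
        rw [div_le_iff₀ hDnpos]
        have h1 : 1 ≤ ‖e - c n‖ * ‖(b - c n)⁻¹ - (b' - c n)⁻¹‖ := by
          have := mul_le_mul_of_nonneg_left hDn hecn'.le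
          rwa [mul_inv_cancel₀ hecn'.ne'] at this
        calc (∏ j ∈ Finset.range n, ‖f.der (c (j + 1))‖) * ‖(a0 - y0)⁻¹ - (a1 - y0)⁻¹‖
            ≤ (∏ j ∈ Finset.range n, ‖f.der (c (j + 1))‖) * D0 :=
              mul_le_mul_of_nonneg_left hD0' hGpos.le
          _ = (∏ j ∈ Finset.range n, ‖f.der (c (j + 1))‖) * D0 * 1 := (mul_one _).symm
          _ ≤ (∏ j ∈ Finset.range n, ‖f.der (c (j + 1))‖) * D0 *
              (‖e - c n‖ * ‖(b - c n)⁻¹ - (b' - c n)⁻¹‖) :=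
              mul_le_mul_of_nonneg_left h1 (by positivity)
          _ = _ := by ring
    _ = D0 * ((∏ j ∈ Finset.range n, ‖f.der (c (j + 1))‖) * ‖e - c n‖) := by ring
    _ ≤ D0 * Real.exp (Real.log ‖f.DD n a‖ / (f.d : ℝ) ^ n + (2 * f.d * C1 + B1 + C2)) :=
        mul_le_mul_of_nonneg_left hG hD0pos.le
    _ = _ := by rw [Real.exp_add]; ring

end Pool.Agent.H.MP_392fd3_nt
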