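import Mathlib

set_option autoImplicit false

open IsDedekindDomain
open scoped NumberField

namespace Pool.Agent.H.MP_392fd3_nt

/-- Auxiliary: integral elements have norm at most one. -/
theorem tame_aux1 {K : Type*} [Field K] [NumberField K] {k : Type*} [NormedField k]
    [IsUltrametricDist k] (φ : K →+* k) (x : 𝓞 K) : ‖φ (x : K)‖ ≤ 1 := by
  have h1 : IsIntegral ℤ (x : K) := NumberField.RingOfIntegers.isIntegral_coe x
  obtain ⟨f, hf, hfx⟩ := h1
  by_contra hcon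
  push Not at hcon
  have h2 : (f.map (Int.castRingHom k)).eval (φ x) = 0 := by
    have h3 := congrArg φ hfx
    rw [map_zero, Polynomial.hom_eval₂,
      show φ.comp (algebraMap ℤ K) = Int.castRingHom k from RingHom.ext_int _ _] at h3
    rw [Polynomial.eval_map]
    exact h3
  set g := f.map (Int.castRingHom k) with hg
  have hgm : g.Monic := hf.map _
  rw [Polynomial.eval_eq_sum_range, Finset.sum_range_succ, hgm.coeff_natDegree, one_mul] at h2
  have h4 : ‖(φ x) ^ g.natDegree‖ = ‖∑ i ∈ Finset.range g.natDegree, g.coeff i * (φ x) ^ i‖ := by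
    rw [← norm_neg]
    congr 1
    rw [neg_eq_iff_add_eq_zero, add_comm]
    exact h2
  rcases Nat.eq_zero_or_pos g.natDegree with h0 | h0
  · rw [h0] at h4
    simp at h4
  · have hpos : 0 < ‖φ (x : K)‖ := by linarith
    have h5 : ‖∑ i ∈ Finset.range g.natDegree, g.coeff i * (φ x) ^ i‖ ≤
        ‖φ (x : K)‖ ^ (g.natDegree - 1) := by
      refine IsUltrametricDist.norm_sum_le_of_forall_le_of_nonneg (by positivity) fun i hi => ?_
      rw [norm_mul, norm_pow]
      have hi' := Finset.mem_range.mp hi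
      have h6 : ‖g.coeff i‖ ≤ 1 := by
        rw [hg, Polynomial.coeff_map]
        exact IsUltrametricDist.norm_intCast_le_one k (f.coeff i)
      calc ‖g.coeff i‖ * ‖φ (x : K)‖ ^ i ≤ 1 * ‖φ (x : K)‖ ^ (g.natDegree - 1) := by
            apply mul_le_mul h6 _ (by positivity) zero_le_one
            exact pow_le_pow_right₀ hcon.le (by omega)
        _ = _ := one_mul _
    rw [← h4, norm_pow] at h5
    have h6 : ‖φ (x : K)‖ ^ (g.natDegree - 1) < ‖φ (x : K)‖ ^ g.natDegree :=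
      pow_lt_pow_right₀ hcon (by omega)
    linarith

/-- Auxiliary: the prime ideal of a nonarchimedean embedding. -/
theorem tame_aux2 {K : Type*} [Field K] [NumberField K] {k : Type*} [NormedField k]
    [IsUltrametricDist k] (φ : K →+* k) (p : ℕ) (hp : p.Prime) (hp1 : ‖(p : k)‖ < 1) :
    ∃ v : HeightOneSpectrum (𝓞 K), (∀ x : 𝓞 K, x ∈ v.asIdeal ↔ ‖φ (x : K)‖ < 1) ∧
      (p : 𝓞 K) ∈ v.asIdeal := by
  let I : Ideal (𝓞 K) :=
    { carrier := {x | ‖φ (x : K)‖ < 1}
      zero_mem' := by simp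
      add_mem' := by
        intro a b ha hb
        change ‖φ ((a : K) + (b : K))‖ < 1
        rw [map_add]
        exact (IsUltrametricDist.norm_add_le_max _ _).trans_lt (max_lt ha hb)
      smul_mem' := by
        intro c x hx
        change ‖φ ((c : K) * (x : K))‖ < 1
        rw [map_mul, norm_mul]
        exact mul_lt_one_of_nonneg_of_lt_one_right (tame_aux1 φ c) (norm_nonneg _) hx }
  have hI : ∀ x : 𝓞 K, x ∈ I ↔ ‖φ (x : K)‖ < 1 := fun x => Iff.rfl
  have hpI : (p : 𝓞 K) ∈ I := by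
    rw [hI]
    simpa using hp1
  have hprime : I.IsPrime := by
    refine ⟨?_, ?_⟩
    · intro h
      have : (1 : 𝓞 K) ∈ I := by rw [h]; trivial
      rw [hI] at this
      simp at this
    · intro x y hxy
      rw [hI] at hxy
      rw [hI, hI]
      by_contra hcon
      push Not at hcon
      change ‖φ ((x : K) * (y : K))‖ < 1 at hxy
      rw [map_mul, norm_mul] at hxy
      have h1 := le_antisymm (tame_aux1 φ x) hcon.1
      have h2 := le_antisymm (tame_aux1 φ y) hcon.2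
      rw [h1, h2] at hxy
      norm_num at hxy
  have hbot : I ≠ ⊥ := by
    intro h
    rw [h] at hpI
    have : (p : 𝓞 K) = 0 := by simpa using hpI
    exact hp.ne_zero (by exact_mod_cast this)
  exact ⟨⟨I, hprime, hbot⟩, hI, hpI⟩

/-- Auxiliary: elements of valuation one have norm one. -/
theorem tame_aux3 {K : Type*} [Field K] [NumberField K] {k : Type*} [NormedField k]
    [IsUltrametricDist k] (φ : K →+* k) (v : HeightOneSpectrum (𝓞 K))
    (hv : ∀ x : 𝓞 K, x ∈ v.asIdeal ↔ ‖φ (x : K)‖ < 1) (x : K) (hx : v.valuation K x = 1) :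
    ‖φ x‖ = 1 := by
  obtain ⟨n, d, hnd⟩ := HeightOneSpectrum.exists_primeCompl_mul_eq_of_integer v x hx.le
  have hone : ∀ y : 𝓞 K, y ∉ v.asIdeal → ‖φ (y : K)‖ = 1 := by
    intro y hy
    rw [hv, not_lt] at hy
    exact le_antisymm (tame_aux1 φ y) hy
  have hd : ‖φ ((d : 𝓞 K) : K)‖ = 1 := hone _ d.2
  have hn : ‖φ (n : K)‖ = 1 := by
    apply hone
    rw [← HeightOneSpectrum.valuation_eq_one_iff_notMem (K := K)]
    rw [← hnd, map_mul, hx, one_mul]
    rw [HeightOneSpectrum.valuation_eq_one_iff_notMem]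
    exact d.2
  have h2 := congrArg (fun z => ‖φ z‖) hnd
  simp only [map_mul, norm_mul] at h2
  rw [show ‖φ (algebraMap (𝓞 K) K (d : 𝓞 K))‖ = 1 from hd,
    show ‖φ (algebraMap (𝓞 K) K n)‖ = 1 from hn, mul_one] at h2
  exact h2

/-- Auxiliary: the norm in terms of the valuation. -/
theorem tame_aux4 {K : Type*} [Field K] [NumberField K] {k : Type*} [NormedField k]
    [IsUltrametricDist k] (φ : K →+* k) (v : HeightOneSpectrum (𝓞 K))
    (hv : ∀ x : 𝓞 K, x ∈ v.asIdeal ↔ ‖φ (x : K)‖ < 1) (π : K) (e : ℕ)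
    (hπ : v.valuation K π = WithZero.exp (-(e : ℤ))) (x : K) (hx : x ≠ 0) :
    ∃ m : ℤ, (e : ℝ) * Real.log ‖φ x‖ = m * Real.log ‖φ π‖ := by
  have hx0 : v.valuation K x ≠ 0 := (Valuation.ne_zero_iff _).mpr hx
  obtain ⟨m, hm⟩ : ∃ m : ℤ, v.valuation K x = WithZero.exp m := by
    refine ⟨WithZero.log (v.valuation K x), ?_⟩
    rw [WithZero.exp_log hx0]
  have hπ0 : π ≠ 0 := by
    intro h
    rw [h, map_zero] at hπ
    exact WithZero.exp_ne_zero hπ.symm
  have h1 : v.valuation K (x ^ e * π ^ m) = 1 := by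
    rw [map_mul, map_pow, map_zpow₀, hm, hπ, ← WithZero.exp_nsmul, ← WithZero.exp_zsmul,
      ← WithZero.exp_add]
    rw [WithZero.exp_eq_one]
    simp
    ring
  have h2 := tame_aux3 φ v hv _ h1
  rw [map_mul, map_pow, map_zpow₀, norm_mul, norm_pow, norm_zpow] at h2
  have hφx : ‖φ x‖ ≠ 0 := by
    rw [norm_ne_zero_iff]
    exact (map_ne_zero_iff _ φ.injective).mpr hx
  have hφπ : ‖φ π‖ ≠ 0 := by
    rw [norm_ne_zero_iff]
    exact (map_ne_zero_iff _ φ.injective).mpr hπ0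
  have h3 := congrArg Real.log h2
  rw [Real.log_mul (pow_ne_zero _ hφx) (zpow_ne_zero _ hφπ), Real.log_pow, Real.log_zpow,
    Real.log_one] at h3
  refine ⟨-m, ?_⟩
  push_cast
  linarith

/-- Module N1: the value group of a number field is cyclic. -/
theorem value_cyclic {K : Type*} [Field K] [NumberField K] {k : Type*} [NormedField k]
    [IsUltrametricDist k] (φ : K →+* k) (p : ℕ) (hp : p.Prime) (hp1 : ‖(p : k)‖ < 1) :
    ∃ ω : ℝ, ω ≠ 0 ∧ ∀ x : K, x ≠ 0 → ∃ m : ℤ, Real.log ‖φ x‖ = m * ω := by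
  obtain ⟨v, hv, hpv⟩ := tame_aux2 φ p hp hp1
  obtain ⟨π, hπ⟩ := v.valuation_exists_uniformizer' K
  have hπ0 : (π : K) ≠ 0 := by
    intro h
    have h2 : v.valuation K (algebraMap (𝓞 K) K π) = 0 := by
      rw [show algebraMap (𝓞 K) K π = 0 from h, map_zero]
    rw [h2] at hπ
    exact WithZero.exp_ne_zero hπ.symm
  have hlt : ‖φ (π : K)‖ < 1 := by
    rw [← hv, ← HeightOneSpectrum.valuation_lt_one_iff_mem (K := K)]
    refine hπ.trans_lt ?_
    rw [← WithZero.exp_zero, WithZero.exp_lt_exp]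
    norm_num
  have hφπ : 0 < ‖φ (π : K)‖ := by
    rw [norm_pos_iff]
    exact (map_ne_zero_iff _ φ.injective).mpr hπ0
  refine ⟨Real.log ‖φ (π : K)‖, (Real.log_neg hφπ hlt).ne, fun x hx => ?_⟩
  obtain ⟨m, hm⟩ := tame_aux4 φ v hv (π : K) 1 (by simpa using hπ) x hx
  exact ⟨m, by simpa using hm⟩

/-- Module N2: if `L / K` is tamely ramified at all primes then the values of `L` are in
`Z_(p) ω`. -/
theorem tame_log {K L : Type*} [Field K] [NumberField K] [Field L] [NumberField L] [Algebra K L]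
    {k : Type*} [NormedField k] [IsUltrametricDist k] (φ : L →+* k) (p : ℕ) (hp : p.Prime)
    (hp1 : ‖(p : k)‖ < 1)
    (htame : ∀ P : Ideal (𝓞 L), P.IsPrime → P ≠ ⊥ →
      ¬ ringChar (𝓞 L ⧸ P) ∣ Ideal.ramificationIdx' (P.under (𝓞 K)) P)
    (ω : ℝ) (hω : ∀ x : K, x ≠ 0 → ∃ m : ℤ, Real.log ‖φ (algebraMap K L x)‖ = m * ω) :
    ∀ x : L, x ≠ 0 → ∃ e m : ℤ, ¬ (p : ℤ) ∣ e ∧ e * Real.log ‖φ x‖ = m * ω := by
  obtain ⟨w, hw, hpw⟩ := tame_aux2 φ p hp hp1
  obtain ⟨v, hv, hpv⟩ := tame_aux2 (φ.comp (algebraMap K L)) p hp hp1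
  have hvw : v.asIdeal = w.asIdeal.under (𝓞 K) := by
    ext y
    rw [hv, Ideal.mem_comap, hw]
    rfl
  have hlies : w.asIdeal.LiesOver v.asIdeal := ⟨hvw⟩
  have ht := htame w.asIdeal w.isPrime w.ne_bot
  rw [← hvw] at ht
  set e := Ideal.ramificationIdx' v.asIdeal w.asIdeal with he
  have hchar : ringChar (𝓞 L ⧸ w.asIdeal) = p := by
    have h1 : ringChar (𝓞 L ⧸ w.asIdeal) ∣ p := by
      apply ringChar.dvd
      rw [← map_natCast (Ideal.Quotient.mk w.asIdeal)]
      exact Ideal.Quotient.eq_zero_iff_mem.mpr hpw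
    rcases (Nat.dvd_prime hp).mp h1 with h2 | h2
    · exfalso
      have h3 : ((1 : ℕ) : 𝓞 L ⧸ w.asIdeal) = 0 := (ringChar.spec _ 1).mpr (by rw [h2])
      rw [Nat.cast_one] at h3
      have := w.isPrime
      exact one_ne_zero h3
    · exact h2
  rw [hchar] at ht
  obtain ⟨π, hπ⟩ := v.valuation_exists_uniformizer K
  have hπ0 : π ≠ 0 := by
    intro h
    rw [h, map_zero] at hπ
    exact WithZero.exp_ne_zero hπ.symm
  have hπL : w.valuation L (algebraMap K L π) = WithZero.exp (-(e : ℤ)) := by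
    rw [← HeightOneSpectrum.valuation_liesOver L v w π, hπ, ← he, ← WithZero.exp_nsmul]
    simp
  intro x hx
  obtain ⟨m, hm⟩ := tame_aux4 φ w hw (algebraMap K L π) e hπL x hx
  obtain ⟨m0, hm0⟩ := hω π hπ0
  refine ⟨(e : ℤ), m * m0, fun h => ht (by exact_mod_cast h), ?_⟩
  push_cast
  rw [hm, hm0]
  ring

/-- the group `Z_(p) ω` -/
def tameGroup (p : ℕ) (hp : p.Prime) (ω : ℝ) : AddSubgroup ℝ where
  carrier := {r | ∃ e m : ℤ, ¬ (p : ℤ) ∣ e ∧ e * r = m * ω}
  zero_mem' := by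
    refine ⟨1, 0, ?_, by simp⟩
    intro h
    have := Int.natAbs_dvd_natAbs.mpr h
    simp only [Int.natAbs_natCast, Int.natAbs_one, Nat.dvd_one] at this
    exact hp.ne_one this
  add_mem' := by
    rintro a b ⟨e1, m1, h1, h1'⟩ ⟨e2, m2, h2, h2'⟩
    refine ⟨e1 * e2, m1 * e2 + m2 * e1, ?_, ?_⟩
    · intro h
      rcases (Nat.prime_iff_prime_int.mp hp).dvd_or_dvd h with h3 | h3
      · exact h1 h3
      · exact h2 h3
    · push_cast
      linear_combination (e2 : ℝ) * h1' + (e1 : ℝ) * h2'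
  neg_mem' := by
    rintro a ⟨e, m, h, h'⟩
    refine ⟨e, -m, h, ?_⟩
    push_cast
    linear_combination -h'

/-- Module N3. -/
theorem tameGroup_inter (p : ℕ) (hp : p.Prime) (ω : ℝ) (x : ℝ)
    (hx : ∀ n : ℕ, ∃ g ∈ tameGroup p hp ω, x = (p : ℝ) ^ n * g) : x = 0 := by
  obtain ⟨g0, ⟨e0, m0, he0, hg0⟩, hx0⟩ := hx 0
  rw [pow_zero, one_mul] at hx0
  subst hx0
  have he0' : (e0 : ℝ) ≠ 0 := by
    intro h
    have : e0 = 0 := by exact_mod_cast h
    exact he0 (this ▸ dvd_zero _)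
  by_cases hω : ω = 0
  · rw [hω, mul_zero] at hg0
    exact (mul_eq_zero.mp hg0).resolve_left he0'
  have hdvd : ∀ n : ℕ, ((p : ℤ) ^ n) ∣ m0 := by
    intro n
    obtain ⟨g, ⟨e, m, he, hg⟩, hxn⟩ := hx n
    have h1 : (e : ℝ) * m0 = e0 * (p : ℝ) ^ n * m := by
      apply mul_right_cancel₀ hω
      calc (e : ℝ) * m0 * ω = e * (m0 * ω) := by ring
        _ = e * (e0 * x) := by rw [hg0]
        _ = e0 * (p : ℝ) ^ n * (e * g) := by rw [hxn]; ring
        _ = e0 * (p : ℝ) ^ n * m * ω := by rw [hg]; ring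
    have h2 : e * m0 = e0 * (p : ℤ) ^ n * m := by exact_mod_cast h1
    have h3 : ((p : ℤ) ^ n) ∣ e * m0 := by
      rw [h2]
      exact ⟨e0 * m, by ring⟩
    have hcop : IsCoprime ((p : ℤ) ^ n) e := by
      apply IsCoprime.pow_left
      exact ((Nat.prime_iff_prime_int.mp hp).coprime_iff_not_dvd).mpr he
    exact hcop.dvd_of_dvd_mul_left h3
  have hm0 : m0 = 0 := by
    by_contra hne
    have h1 := Int.le_of_dvd (abs_pos.mpr hne) ((dvd_abs _ _).mpr (hdvd m0.natAbs))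
    have h2 : m0.natAbs < p ^ m0.natAbs := Nat.lt_pow_self hp.one_lt
    have h3 : |m0| = (m0.natAbs : ℤ) := Int.abs_eq_natAbs m0
    rw [h3] at h1
    have h4 : p ^ m0.natAbs ≤ m0.natAbs := by exact_mod_cast h1
    omega
  rw [hm0, Int.cast_zero, zero_mul] at hg0
  exact (mul_eq_zero.mp hg0).resolve_left he0'

end Pool.Agent.H.MP_392fd3_nt
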