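import Pool.Agent.H.MP_392fd3_nt.TowerField
import Pool.Agent.H.MP_392fd3_nt.Conj
import Pool.Agent.H.MP_392fd3_nt.Global
import Pool.Agent.H.MP_392fd3_nt.Tame
import Pool.Agent.H.MP_392fd3_nt.Local

set_option autoImplicit false

open Polynomial
open scoped NumberField

namespace Pool.Agent.H.MP_392fd3_nt

universe u

theorem main {K : Type u} [Field K] [NumberField K] (P Q : K[X])
    (hcop : IsCoprime P Q) (hdeg : 2 ≤ rdeg P Q) (hpcf : IsPCF P Q) (α : Option K)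
    (hα : NonExceptional P Q α) :
    ∃ n : ℕ, 1 ≤ n ∧ ∃ 𝔓 : Ideal (𝓞 (towerField P Q α n)), 𝔓.IsPrime ∧ 𝔓 ≠ ⊥ ∧
      ringChar (𝓞 (towerField P Q α n) ⧸ 𝔓) ∣ Ideal.ramificationIdx' (𝔓.under (𝓞 K)) 𝔓 := by
  by_contra hcon
  push Not at hcon
  obtain ⟨f, S, a, hSf, hS, ha, hcr⟩ := exists_normalised P Q hcop hdeg hpcf α hα
  refine global_contradiction f S hSf hS a ha ?_
  intro k _ _ _ _ φ p hp hp1
  -- the value group of `K`
  obtain ⟨ω, -, hω⟩ := value_cyclic (φ.comp (algebraMap K (AlgebraicClosure K))) p hp hp1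
  obtain ⟨f', hd', -, -, hpre, hDD, hcrit⟩ := exists_map φ f
  have hback : ∀ x ∈ f'.Back (φ a), ∃ x0 ∈ f.Back a, x = φ x0 := by
    rintro x ⟨n, hx⟩
    rw [hpre, Multiset.mem_map] at hx
    obtain ⟨x0, hx0, rfl⟩ := hx
    exact ⟨x0, ⟨n, hx0⟩, rfl⟩
  obtain ⟨B, hB⟩ := local_bound p hp hp1 f' (φ '' S) (hSf.image _) (hcrit S hS) (φ a)
    (by
      rintro ⟨s, hs, hsa⟩
      exact ha (φ.injective hsa ▸ hs))
    (tameGroup p hp ω) (fun x hx => tameGroup_inter p hp ω x hx) (by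
      intro x hx z hz c hc e he
      obtain ⟨x0, hx0, rfl⟩ := hback x hx
      obtain ⟨z0, hz0, rfl⟩ := hback z hz
      obtain ⟨c0, hc0, rfl⟩ := hback c hc
      obtain ⟨e0, he0, rfl⟩ := hback e he
      obtain ⟨n, hn, hmem⟩ := hcr x0 hx0 z0 hz0 c0 hc0 e0 he0
      have hval : (φ x0 - φ c0) * (φ z0 - φ e0) / ((φ x0 - φ e0) * (φ z0 - φ c0)) =
          φ ((x0 - c0) * (z0 - e0) / ((x0 - e0) * (z0 - c0))) := by
        simp only [map_div₀, map_mul, map_sub]
      rw [hval]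
      set r := (x0 - c0) * (z0 - e0) / ((x0 - e0) * (z0 - c0)) with hr
      by_cases hr0 : r = 0
      · rw [hr0, map_zero, norm_zero, Real.log_zero]
        exact (tameGroup p hp ω).zero_mem
      have := towerField_numberField P Q hcop hdeg α n
      obtain ⟨e, m, he, hm⟩ := tame_log (K := K) (L := towerField P Q α n)
        (φ.comp (algebraMap (towerField P Q α n) (AlgebraicClosure K))) p hp hp1
        (fun 𝔓 h1 h2 => hcon n hn 𝔓 h1 h2) ω (by
          intro x hx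
          exact hω x hx) ⟨r, hmem⟩ (by
          intro h
          exact hr0 (congrArg Subtype.val h))
      exact ⟨e, m, he, hm⟩)
  refine ⟨B, fun n => ?_⟩
  rw [← hDD, ← hd']
  exact hB n

end Pool.Agent.H.MP_392fd3_nt
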