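import Pool.Agent.H.MP_392fd3_nt.Defs

set_option autoImplicit false

open Polynomial

namespace Pool.Agent.H.MP_392fd3_nt

/-- `Near y b0 b1 B`: the point `B` of `P^1` (`none = ∞`) is in the direction of `y` seen from the
path joining `b0` and `b1` at the point where `y` branches off: `|u(B)/u(y) - 1| < 1` for
`u(z) = (z - b0)/(z - b1)`.  Equivalently, with `t(z) = 1/(z - y)`, `t(∞) = 0`:
`‖t(B) - t(b1)‖ > ‖t(b0) - t(b1)‖`. -/
def Near {k : Type*} [NormedField k] (y b0 b1 : k) : Option k → Prop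
  | none => ‖b0 - b1‖ < ‖b0 - y‖
  | some b => ‖b0 - b1‖ * ‖b - y‖ < ‖b - b1‖ * ‖b0 - y‖

namespace NMap

variable {k : Type*} [Field k]

open Classical in
/-- the map induced on `P^1 = Option k` (`none = ∞`) -/
noncomputable def opt (f : NMap k) : Option k → Option k
  | none => none
  | some b => if f.Q.eval b = 0 then none else some (f.val b)

/-- the (finite) set of forbidden directions -/
def bad (f : NMap k) (b0 b1 : k) : Set (Option k) :=
  {B | B = none ∨ ∃ c ∈ f.fiber b0 + f.fiber b1, ∃ Z₁ ≤ f.fiber b0, ∃ P₁ ≤ f.fiber b1, ∃ A : k,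
    A = (Z₁.map (fun x => c - x)).prod / (P₁.map (fun x => c - x)).prod ∧
      B = some ((b0 - A * b1) / (1 - A))}

theorem bad_finite (f : NMap k) (b0 b1 : k) : (f.bad b0 b1).Finite := by
  classical
  let F : k × (Multiset k × Multiset k) → Option k := fun q =>
    some ((b0 - (q.2.1.map (fun x => q.1 - x)).prod / (q.2.2.map (fun x => q.1 - x)).prod * b1) /
      (1 - (q.2.1.map (fun x => q.1 - x)).prod / (q.2.2.map (fun x => q.1 - x)).prod))
  let S : Finset (k × (Multiset k × Multiset k)) :=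
    (f.fiber b0 + f.fiber b1).toFinset ×ˢ
      ((f.fiber b0).powerset.toFinset ×ˢ (f.fiber b1).powerset.toFinset)
  apply Set.Finite.subset (Set.Finite.insert none ((S.finite_toSet).image F))
  intro B hB
  rcases hB with h | ⟨c, hc, Z, hZ, P, hP, A, hA, hB⟩
  · left; exact h
  · right
    refine ⟨(c, (Z, P)), ?_, ?_⟩
    · simp only [S, Finset.coe_product, Set.mem_prod, Finset.mem_coe, Multiset.mem_toFinset,
        Multiset.mem_powerset]
      exact ⟨hc, hZ, hP⟩
    · simp only [F]
      rw [hB, hA]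

end NMap

theorem near_fiber_monic {k : Type*} [Field k] (f : NMap k) (y : k) :
    (f.P - Polynomial.C y * f.Q).Monic := by
  apply f.monic.sub_of_left
  by_cases hy : y = 0
  · rw [hy, C_0, zero_mul, degree_zero]
    exact bot_lt_iff_ne_bot.mpr (fun h => f.monic.ne_zero (degree_eq_bot.mp h))
  · rw [degree_C_mul hy]
    exact degree_lt_degree f.deg_lt

theorem near_fiber_natDegree {k : Type*} [Field k] (f : NMap k) (y : k) :
    (f.P - Polynomial.C y * f.Q).natDegree = f.P.natDegree := by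
  apply natDegree_sub_eq_left_of_natDegree_lt
  calc natDegree (C y * f.Q) ≤ natDegree f.Q := natDegree_C_mul_le y f.Q
    _ < natDegree f.P := f.deg_lt

theorem near_card_fiber {k : Type*} [Field k] [IsAlgClosed k] (f : NMap k) (y : k) :
    Multiset.card (f.fiber y) = f.P.natDegree := by
  unfold NMap.fiber
  rw [← (IsAlgClosed.splits (f.P - Polynomial.C y * f.Q)).natDegree_eq_card_roots,
    near_fiber_natDegree]

theorem near_prod_fiber {k : Type*} [Field k] [IsAlgClosed k] (f : NMap k) (a y : k) :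
    ((f.fiber y).map (fun x => a - x)).prod = f.P.eval a - y * f.Q.eval a := by
  unfold NMap.fiber
  rw [← (IsAlgClosed.splits (f.P - Polynomial.C y * f.Q)).eval_eq_prod_roots_of_monic
    (near_fiber_monic f y) a]
  simp

theorem near_mem_fiber {k : Type*} [Field k] (f : NMap k) (x y : k) (h : x ∈ f.fiber y) :
    f.Q.eval x ≠ 0 ∧ f.P.eval x = y * f.Q.eval x := by
  unfold NMap.fiber at h
  rw [mem_roots (near_fiber_monic f y).ne_zero, IsRoot.def, eval_sub, eval_mul, eval_C] at h
  have h2 : f.P.eval x = y * f.Q.eval x := sub_eq_zero.mp h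
  refine ⟨fun hQ => ?_, h2⟩
  obtain ⟨u, v, huv⟩ := f.cop
  have h3 := congrArg (eval x) huv
  rw [eval_add, eval_mul, eval_mul, h2, hQ, eval_one] at h3
  simp at h3

theorem near_norm_sub_le {k : Type*} [NormedField k] [IsUltrametricDist k] (x y : k) :
    ‖x - y‖ ≤ max ‖x‖ ‖y‖ := by
  rw [sub_eq_add_neg, ← norm_neg y]
  exact IsUltrametricDist.norm_add_le_max x (-y)

/-- units congruent to one modulo the maximal ideal -/
theorem near_unit_norm {k : Type*} [NormedField k] [IsUltrametricDist k] {x : k}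
    (hx : ‖x - 1‖ < 1) : ‖x‖ = 1 := by
  have h1 : ‖x‖ ≤ 1 := by
    have : x = (x - 1) + 1 := by ring
    rw [this]
    exact (IsUltrametricDist.norm_add_le_max _ _).trans (max_le hx.le (by simp))
  have h2 : (1 : ℝ) ≤ ‖x‖ := by
    by_contra hlt
    push Not at hlt
    have h3 : (1 : k) = x - (x - 1) := by ring
    have h4 : ‖(1 : k)‖ ≤ max ‖x‖ ‖x - 1‖ := by
      conv_lhs => rw [h3]
      exact near_norm_sub_le _ _
    rw [norm_one] at h4
    have := max_lt hlt hx
    linarith
  exact le_antisymm h1 h2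

theorem near_unit_mul {k : Type*} [NormedField k] [IsUltrametricDist k] {x y : k}
    (hx : ‖x - 1‖ < 1) (hy : ‖y - 1‖ < 1) : ‖x * y - 1‖ < 1 := by
  have h1 : x * y - 1 = (x - 1) * y + (y - 1) := by ring
  rw [h1]
  refine (IsUltrametricDist.norm_add_le_max _ _).trans_lt (max_lt ?_ hy)
  rw [norm_mul, near_unit_norm hy, mul_one]
  exact hx

theorem near_unit_div {k : Type*} [NormedField k] [IsUltrametricDist k] {x y : k}
    (hx : ‖x - 1‖ < 1) (hy : ‖y - 1‖ < 1) : ‖x / y - 1‖ < 1 := by
  have hy0 : y ≠ 0 := by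
    intro h
    have := near_unit_norm hy
    rw [h, norm_zero] at this
    exact zero_ne_one this
  have h1 : x / y - 1 = ((x - 1) - (y - 1)) / y := by field_simp; ring
  rw [h1, norm_div, near_unit_norm hy, div_one]
  exact (near_norm_sub_le _ _).trans_lt (max_lt hx hy)

theorem near_unit_prod {k : Type*} [NormedField k] [IsUltrametricDist k] (a : k)
    (s : Multiset k) (g : k → k) (hs : ∀ x ∈ s, ‖g x / a - 1‖ < 1) :
    ‖(s.map g).prod / a ^ Multiset.card s - 1‖ < 1 := by
  induction s using Multiset.induction_on with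
  | empty => simp
  | cons x s ih =>
    rw [Multiset.map_cons, Multiset.prod_cons, Multiset.card_cons, pow_succ]
    have h1 : g x * (s.map g).prod / (a ^ Multiset.card s * a)
        = (g x / a) * ((s.map g).prod / a ^ Multiset.card s) := by
      rw [mul_comm (a ^ Multiset.card s) a, mul_div_mul_comm]
    rw [h1]
    exact near_unit_mul (hs x (Multiset.mem_cons_self x s))
      (ih (fun z hz => hs z (Multiset.mem_cons_of_mem hz)))

/-- The key estimate: `t(B) = w` where `t(z) = 1/(z-y)`. -/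
theorem near_key {k : Type*} [NormedField k] [IsUltrametricDist k] [IsAlgClosed k] (f : NMap k)
    (y b b' b0 b1 w : k)
    (hby : b ≠ y) (hb'y : b' ≠ y)
    (hy0 : ∀ c ∈ f.fiber b0 + f.fiber b1, c ≠ y)
    (hG : ∀ c ∈ f.fiber b0 + f.fiber b1, ¬ Near y b b' (some c))
    (hw : ‖b - b'‖ / (‖b - y‖ * ‖b' - y‖) < ‖w - 1 / (b' - y)‖) :
    ‖((f.fiber b0).map (fun c => w - 1 / (c - y))).prod /
      ((f.fiber b1).map (fun c => w - 1 / (c - y))).prod - 1‖ < 1 ∧
      ((f.fiber b1).map (fun c => w - 1 / (c - y))).prod ≠ 0 := by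
  set a : k := w - 1 / (b' - y) with ha
  have hD : 0 ≤ ‖b - b'‖ / (‖b - y‖ * ‖b' - y‖) := by positivity
  have ha0 : a ≠ 0 := by
    intro h
    rw [h, norm_zero] at hw
    linarith
  have hb1 : 0 < ‖b - y‖ := norm_pos_iff.mpr (sub_ne_zero.mpr hby)
  have hb2 : 0 < ‖b' - y‖ := norm_pos_iff.mpr (sub_ne_zero.mpr hb'y)
  have hunit : ∀ c ∈ f.fiber b0 + f.fiber b1, ‖(w - 1 / (c - y)) / a - 1‖ < 1 := by
    intro c hc
    have hcy := hy0 c hc
    have hc1 : 0 < ‖c - y‖ := norm_pos_iff.mpr (sub_ne_zero.mpr hcy)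
    have hG' := hG c hc
    simp only [Near, not_lt] at hG'
    have h1 : (w - 1 / (c - y)) / a - 1 = ((c - b') / ((c - y) * (b' - y))) / a := by
      have e1 : c - y ≠ 0 := sub_ne_zero.mpr hcy
      have e2 : b' - y ≠ 0 := sub_ne_zero.mpr hb'y
      have h2 : (w - 1 / (c - y)) = a + (c - b') / ((c - y) * (b' - y)) := by
        rw [ha]; field_simp; ring
      rw [h2, add_div, div_self ha0]
      ring
    rw [h1, norm_div, div_lt_one (norm_pos_iff.mpr ha0)]
    refine lt_of_le_of_lt ?_ hw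
    rw [norm_div, norm_mul, div_le_div_iff₀ (by positivity) (by positivity)]
    calc ‖c - b'‖ * (‖b - y‖ * ‖b' - y‖) = (‖c - b'‖ * ‖b - y‖) * ‖b' - y‖ := by ring
      _ ≤ (‖b - b'‖ * ‖c - y‖) * ‖b' - y‖ := by gcongr
      _ = ‖b - b'‖ * (‖c - y‖ * ‖b' - y‖) := by ring
  have h0 := near_unit_prod a (f.fiber b0) (fun c => w - 1 / (c - y))
    (fun x hx => hunit x (Multiset.mem_add.mpr (Or.inl hx)))
  have h1 := near_unit_prod a (f.fiber b1) (fun c => w - 1 / (c - y))
    (fun x hx => hunit x (Multiset.mem_add.mpr (Or.inr hx)))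
  rw [near_card_fiber] at h0 h1
  have hap : a ^ f.P.natDegree ≠ 0 := pow_ne_zero _ ha0
  constructor
  · have h2 := near_unit_div h0 h1
    rwa [div_div_div_cancel_right₀ hap] at h2
  · intro h
    rw [h, zero_div] at h1
    simp at h1

theorem near_prod_t {k : Type*} [Field k] [IsAlgClosed k] (f : NMap k) (y z β : k)
    (hz : z ≠ y) (hy : ∀ c ∈ f.fiber β, c ≠ y) :
    ((f.fiber β).map (fun c => 1 / (z - y) - 1 / (c - y))).prod =
      (f.P.eval z - β * f.Q.eval z) / ((z - y) ^ f.P.natDegree * (f.P.eval y - β * f.Q.eval y)) := by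
  have hzy : z - y ≠ 0 := sub_ne_zero.mpr hz
  have h1 : (f.fiber β).map (fun c => 1 / (z - y) - 1 / (c - y))
      = (f.fiber β).map (fun c => ((z - c) / ((z - y) * (y - c)))) := by
    apply Multiset.map_congr rfl
    intro c hc
    have hcy : c - y ≠ 0 := sub_ne_zero.mpr (hy c hc)
    have hyc : y - c ≠ 0 := sub_ne_zero.mpr (hy c hc).symm
    field_simp
    ring
  rw [h1, Multiset.prod_map_div, Multiset.prod_map_mul, Multiset.map_const', Multiset.prod_replicate,
    near_card_fiber, near_prod_fiber, near_prod_fiber]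

theorem near_prod_inf {k : Type*} [Field k] [IsAlgClosed k] (f : NMap k) (y β : k)
    (hy : ∀ c ∈ f.fiber β, c ≠ y) :
    ((f.fiber β).map (fun c => (0 : k) - 1 / (c - y))).prod =
      1 / (f.P.eval y - β * f.Q.eval y) := by
  have h1 : (f.fiber β).map (fun c => (0 : k) - 1 / (c - y))
      = (f.fiber β).map (fun c => 1 / (y - c)) := by
    apply Multiset.map_congr rfl
    intro c hc
    have hcy : c - y ≠ 0 := sub_ne_zero.mpr (hy c hc)
    have hyc : y - c ≠ 0 := sub_ne_zero.mpr (hy c hc).symm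
    field_simp
    ring
  rw [h1, Multiset.prod_map_div, near_prod_fiber]
  simp

/-- Module D1 (push forward of directions). -/
theorem near_push {k : Type*} [NormedField k] [IsUltrametricDist k] [IsAlgClosed k] (f : NMap k)
    (y y' b b' b0 b1 : k) (hy : y ∈ f.fiber y') (hb : b ∈ f.fiber b0) (hb' : b' ∈ f.fiber b1)
    (h0 : y' ≠ b0) (h1 : y' ≠ b1) (h01 : b0 ≠ b1)
    (hG : ∀ c ∈ f.fiber b0 + f.fiber b1, ¬ Near y b b' (some c))
    (B : Option k) (hB : Near y b b' B) : Near y' b0 b1 (f.opt B) := by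
  have hyQ := near_mem_fiber f y y' hy
  have hfib : ∀ β, y' ≠ β → ∀ c ∈ f.fiber β, c ≠ y := by
    intro β hβ c hc hcy
    have h2 := near_mem_fiber f c β hc
    rw [hcy] at h2
    have h3 : y' * f.Q.eval y = β * f.Q.eval y := by rw [← hyQ.2, ← h2.2]
    exact hβ (mul_right_cancel₀ hyQ.1 h3)
  have hy0 : ∀ c ∈ f.fiber b0 + f.fiber b1, c ≠ y := by
    intro c hc
    rcases Multiset.mem_add.mp hc with h | h
    · exact hfib b0 h0 c h
    · exact hfib b1 h1 c h
  have hby : b ≠ y := hfib b0 h0 b hb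
  have hb'y : b' ≠ y := hfib b1 h1 b' hb'
  have hnb : 0 < ‖b - y‖ := norm_pos_iff.mpr (sub_ne_zero.mpr hby)
  have hnb' : 0 < ‖b' - y‖ := norm_pos_iff.mpr (sub_ne_zero.mpr hb'y)
  have e0 : f.P.eval y - b0 * f.Q.eval y = (y' - b0) * f.Q.eval y := by rw [hyQ.2]; ring
  have e1 : f.P.eval y - b1 * f.Q.eval y = (y' - b1) * f.Q.eval y := by rw [hyQ.2]; ring
  have hQy := hyQ.1
  have s0 : y' - b0 ≠ 0 := sub_ne_zero.mpr h0
  have s1 : y' - b1 ≠ 0 := sub_ne_zero.mpr h1
  -- the conclusion at infinity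
  have hinf : ‖(y' - b1) / (y' - b0) - 1‖ < 1 → ‖b0 - b1‖ < ‖b0 - y'‖ := by
    intro h
    have h2 : (y' - b1) / (y' - b0) - 1 = (b0 - b1) / (y' - b0) := by field_simp; ring
    rw [h2, norm_div, div_lt_one (norm_pos_iff.mpr s0)] at h
    rwa [norm_sub_rev b0 y']
  match B, hB with
  | none, hB =>
    have hw : ‖b - b'‖ / (‖b - y‖ * ‖b' - y‖) < ‖(0 : k) - 1 / (b' - y)‖ := by
      rw [zero_sub, norm_neg, norm_div, norm_one, div_lt_div_iff₀ (by positivity) hnb', one_mul]
      have : ‖b - b'‖ < ‖b - y‖ := hB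
      exact mul_lt_mul_of_pos_right this hnb'
    have hk := (near_key f y b b' b0 b1 0 hby hb'y hy0 hG hw).1
    rw [near_prod_inf f y b0 (hfib b0 h0), near_prod_inf f y b1 (hfib b1 h1), e0, e1] at hk
    show ‖b0 - b1‖ < ‖b0 - y'‖
    apply hinf
    have h3 : 1 / ((y' - b0) * eval y f.Q) / (1 / ((y' - b1) * eval y f.Q))
        = (y' - b1) / (y' - b0) := by field_simp
    rwa [h3] at hk
  | some z, hB =>
    by_cases hzy : z = y
    · subst hzy
      have h3 : f.opt (some z) = some y' := by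
        simp only [NMap.opt, hQy, if_false]
        congr 1
        unfold NMap.val
        rw [hyQ.2]
        field_simp
      rw [h3]
      show ‖b0 - b1‖ * ‖y' - y'‖ < ‖y' - b1‖ * ‖b0 - y'‖
      rw [sub_self, norm_zero, mul_zero]
      exact mul_pos (norm_pos_iff.mpr s1) (norm_pos_iff.mpr (sub_ne_zero.mpr h0.symm))
    · have hnz : 0 < ‖z - y‖ := norm_pos_iff.mpr (sub_ne_zero.mpr hzy)
      have hzy' : z - y ≠ 0 := sub_ne_zero.mpr hzy
      have hb'y' : b' - y ≠ 0 := sub_ne_zero.mpr hb'y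
      have hw : ‖b - b'‖ / (‖b - y‖ * ‖b' - y‖) < ‖1 / (z - y) - 1 / (b' - y)‖ := by
        have h3 : 1 / (z - y) - 1 / (b' - y) = (b' - z) / ((z - y) * (b' - y)) := by
          field_simp; ring
        have h4 : ‖b - b'‖ * ‖z - y‖ < ‖z - b'‖ * ‖b - y‖ := hB
        rw [h3, norm_div, norm_mul, div_lt_div_iff₀ (by positivity) (by positivity),
          norm_sub_rev b' z]
        nlinarith
      have hk := near_key f y b b' b0 b1 (1 / (z - y)) hby hb'y hy0 hG hw
      rw [near_prod_t f y z b0 hzy (hfib b0 h0), near_prod_t f y z b1 hzy (hfib b1 h1), e0, e1] at hk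
      obtain ⟨hk1, hk2⟩ := hk
      have hden : f.P.eval z - b1 * f.Q.eval z ≠ 0 := by
        intro h
        rw [h, zero_div] at hk2
        exact hk2 rfl
      have hpw : (z - y) ^ f.P.natDegree ≠ 0 := pow_ne_zero _ hzy'
      have h3 : (f.P.eval z - b0 * f.Q.eval z) / ((z - y) ^ f.P.natDegree * ((y' - b0) * f.Q.eval y)) /
          ((f.P.eval z - b1 * f.Q.eval z) / ((z - y) ^ f.P.natDegree * ((y' - b1) * f.Q.eval y)))
          = ((f.P.eval z - b0 * f.Q.eval z) / (f.P.eval z - b1 * f.Q.eval z)) *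
            ((y' - b1) / (y' - b0)) := by
        field_simp
      rw [h3] at hk1
      by_cases hQz : f.Q.eval z = 0
      · have h4 : f.opt (some z) = none := by simp only [NMap.opt, hQz, if_true]
        rw [h4]
        show ‖b0 - b1‖ < ‖b0 - y'‖
        apply hinf
        have hPz : f.P.eval z ≠ 0 := by
          intro h
          rw [h, hQz] at hden
          simp at hden
        rw [hQz, mul_zero, mul_zero, sub_zero, div_self hPz, one_mul] at hk1
        exact hk1
      · have h4 : f.opt (some z) = some (f.val z) := by simp only [NMap.opt, hQz, if_false]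
        rw [h4]
        show ‖b0 - b1‖ * ‖f.val z - y'‖ < ‖f.val z - b1‖ * ‖b0 - y'‖
        set v := f.val z with hv
        have hPv : f.P.eval z = v * f.Q.eval z := by
          rw [hv]; unfold NMap.val; field_simp
        have hvb : v - b1 ≠ 0 := by
          intro h
          apply hden
          rw [hPv, ← sub_mul, h, zero_mul]
        have h5 : (f.P.eval z - b0 * f.Q.eval z) / (f.P.eval z - b1 * f.Q.eval z) *
            ((y' - b1) / (y' - b0)) - 1 = ((b0 - b1) * (v - y')) / ((v - b1) * (y' - b0)) := by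
          rw [hPv, ← sub_mul, ← sub_mul]
          field_simp
          ring
        rw [h5, norm_div, norm_mul, norm_mul, div_lt_one (by positivity)] at hk1
        rwa [norm_sub_rev b0 y']

end Pool.Agent.H.MP_392fd3_nt
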