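import Pool.Agent.H.MP_392fd3_nt.Defs
import Pool.Agent.H.MP_392fd3_nt.Formula

set_option autoImplicit false

open Polynomial

namespace Pool.Agent.H.MP_392fd3_nt

theorem normalForm_coeff_X_mul {k : Type*} [Field k] (p : k[X]) (n : ℕ) :
    (X * derivative p).coeff n = n * p.coeff n := by
  cases n with
  | zero => simp
  | succ n =>
    rw [coeff_X_mul, coeff_derivative]
    push_cast
    ring

theorem normalForm_deriv {k : Type*} [Field k] (p : k[X]) (d : ℕ) (hp : p.natDegree ≤ d) :
    X * derivative (reflect d p) = C (d : k) * reflect d p - reflect d (X * derivative p) := by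
  ext n
  rw [normalForm_coeff_X_mul, coeff_sub, coeff_C_mul, coeff_reflect, coeff_reflect,
    normalForm_coeff_X_mul]
  rcases le_or_gt n d with h | h
  · rw [revAt_le h]
    have : ((d - n : ℕ) : k) = d - n := by
      push_cast [Nat.cast_sub h]
      ring
    rw [this]
    ring
  · rw [revAt_eq_self_of_lt h, coeff_eq_zero_of_natDegree_lt (by omega)]
    ring

theorem normalForm_eval {k : Type*} [Field k] (p : k[X]) (d : ℕ) (hp : p.natDegree ≤ d) (x : k)
    (hx : x ≠ 0) : (reflect d p).eval x = x ^ d * p.eval x⁻¹ := by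
  have hx' : x⁻¹ ≠ 0 := inv_ne_zero hx
  let : Invertible x⁻¹ := invertibleOfNonzero hx'
  have h := eval₂_reflect_mul_pow (RingHom.id k) x⁻¹ d p hp
  rw [invOf_eq_inv, inv_inv] at h
  change (reflect d p).eval x * x⁻¹ ^ d = p.eval x⁻¹ at h
  rw [← h, inv_pow]
  field_simp

theorem normalForm_eval_deriv {k : Type*} [Field k] (p : k[X]) (d : ℕ) (hp : p.natDegree ≤ d)
    (x : k) (hx : x ≠ 0) : x * (derivative (reflect d p)).eval x =
      d * (x ^ d * p.eval x⁻¹) - x ^ d * (x⁻¹ * (derivative p).eval x⁻¹) := by
  have h := congrArg (eval x) (normalForm_deriv p d hp)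
  rw [eval_mul, eval_X, eval_sub, eval_mul, eval_C, normalForm_eval p d hp x hx] at h
  rw [h]
  congr 1
  by_cases hd : d = 0
  · have h0 : derivative p = 0 := by
      rw [eq_C_of_natDegree_eq_zero (by omega : p.natDegree = 0)]
      simp
    rw [h0]
    simp
  · rw [normalForm_eval (X * derivative p) d _ x hx, eval_mul, eval_X]
    refine natDegree_mul_le.trans ?_
    have := natDegree_derivative_le p
    rw [natDegree_X]
    omega

theorem normalForm_prod {k : Type*} [Field k] (y : k) (M : Multiset k)
    (hM : ∀ x ∈ M, x - y ≠ 0) :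
    ∃ a : k, a ≠ 0 ∧ reflect (Multiset.card M) (taylor y (M.map (fun x => X - C x)).prod) =
      C a * ((M.map (fun x => (x - y)⁻¹)).map (fun x => X - C x)).prod := by
  induction M using Multiset.induction_on with
  | empty => exact ⟨1, one_ne_zero, by simp⟩
  | cons b M ih =>
    obtain ⟨a, ha, h⟩ := ih (fun x hx => hM x (Multiset.mem_cons_of_mem hx))
    have hb := hM b (Multiset.mem_cons_self b M)
    refine ⟨-(b - y) * a, mul_ne_zero (neg_ne_zero.mpr hb) ha, ?_⟩
    rw [Multiset.card_cons, Multiset.map_cons, Multiset.prod_cons, taylor_mul, add_comm,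
      reflect_mul _ _ (F := 1) (G := Multiset.card M), h, Multiset.map_cons, Multiset.map_cons,
      Multiset.prod_cons]
    · have e : reflect 1 (taylor y (X - C b)) = C (-(b - y)) * (X - C (b - y)⁻¹) := by
        rw [map_sub, taylor_X, taylor_C, reflect_sub, reflect_add, reflect_one_X, reflect_C,
          reflect_C, pow_one]
        have : C (-(b - y)) * (X - C (b - y)⁻¹) = (1 : k[X]) + C y * X - C b * X := by
          rw [mul_sub, ← C_mul]
          have : -(b - y) * (b - y)⁻¹ = -1 := by
            field_simp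
          rw [this]
          simp only [map_neg, map_sub, map_one]
          ring
        rw [this]
      rw [e, C_mul]
      ring
    · rw [natDegree_taylor, natDegree_X_sub_C]
    · rw [natDegree_taylor, natDegree_multiset_prod_X_sub_C_eq_card]

/-- Module E (normal form). In the coordinates `t = 1/(z - y)`, `t' = 1/(z' - y')` the map `f` is
`U / V`. -/
theorem normal_form {k : Type*} [Field k] [IsAlgClosed k] (f : NMap k) (y y' : k)
    (hy : y ∈ f.fiber y') :
    ∃ U V : k[X], U.Monic ∧ U.natDegree = f.d ∧ V.natDegree ≤ f.d - 1 ∧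
      V.coeff (f.d - 1) = f.der y ∧
      (∀ c, c ≠ y' →
        (U - C ((c - y')⁻¹) * V).roots = (f.fiber c).map (fun x => (x - y)⁻¹)) ∧
      (∀ x ∈ (derivative U * V - U * derivative V).roots, x = 0 ∨ f.W.eval (y + x⁻¹) = 0) := by
  obtain ⟨hQ, hv⟩ := (mem_fiber f y y').mp hy
  have hP : f.P.eval y = y' * f.Q.eval y := by
    rwa [NMap.val, div_eq_iff hQ] at hv
  have hd : 2 ≤ f.d := f.two_le
  have hQd : f.Q.natDegree < f.d := f.deg_lt
  set q : k := f.Q.eval y with hq
  set R : k[X] := f.P - C y' * f.Q with hR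
  have hRd : R.natDegree = f.d := formula_natDegree f y'
  have hQt : (taylor y f.Q).natDegree ≤ f.d := by
    rw [natDegree_taylor]
    exact hQd.le
  have hRt : (taylor y R).natDegree ≤ f.d := by
    rw [natDegree_taylor, hRd]
  set U : k[X] := C q⁻¹ * reflect f.d (taylor y f.Q) with hU
  set V : k[X] := C q⁻¹ * reflect f.d (taylor y R) with hV
  have hUc : U.coeff f.d = 1 := by
    rw [hU, coeff_C_mul, coeff_reflect, revAt_le le_rfl, Nat.sub_self, taylor_coeff_zero, ← hq]
    exact inv_mul_cancel₀ hQ
  have hUd : U.natDegree ≤ f.d := by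
    rw [hU]
    refine (natDegree_C_mul_le _ _).trans (natDegree_reflect_le.trans (max_le le_rfl hQt))
  have hUm : U.Monic := monic_of_natDegree_le_of_coeff_eq_one f.d hUd hUc
  have hVc0 : V.coeff f.d = 0 := by
    rw [hV, coeff_C_mul, coeff_reflect, revAt_le le_rfl, Nat.sub_self, taylor_coeff_zero, hR]
    simp [hP, hq]
  have hVd' : V.natDegree ≤ f.d := by
    rw [hV]
    refine (natDegree_C_mul_le _ _).trans (natDegree_reflect_le.trans (max_le le_rfl hRt))
  refine ⟨U, V, hUm, ?_, ?_, ?_, ?_, ?_⟩
  · refine le_antisymm hUd (le_natDegree_of_ne_zero ?_)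
    rw [hUc]
    exact one_ne_zero
  · rw [natDegree_le_iff_coeff_eq_zero]
    intro N hN
    rcases Nat.lt_or_ge f.d N with h | h
    · exact coeff_eq_zero_of_natDegree_lt (by omega)
    · have : N = f.d := by omega
      rw [this]
      exact hVc0
  · rw [hV, coeff_C_mul, coeff_reflect, revAt_le (by omega),
      (by omega : f.d - (f.d - 1) = 1), taylor_coeff_one, hR, NMap.der, NMap.W]
    simp only [derivative_sub, derivative_mul, derivative_C, eval_sub, eval_mul, eval_C,
      zero_mul, zero_add, hP, ← hq]
    field_simp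
  · intro c hc
    have hc' : c - y' ≠ 0 := sub_ne_zero.mpr hc
    set s : k := (c - y')⁻¹ with hs
    have hs0 : s ≠ 0 := inv_ne_zero hc'
    have e1 : U - C s * V = C (-(s * q⁻¹)) * reflect f.d (taylor y (f.P - C c * f.Q)) := by
      have e2 : f.Q - C s * R = C (-s) * (f.P - C c * f.Q) := by
        have e3 : s * c = 1 + s * y' := by
          rw [hs]
          field_simp
          ring
        have e4 : C s * C c = (1 : k[X]) + C s * C y' := by
          rw [← C_mul, e3, C_add, C_mul, C_1]
        rw [hR, C_neg]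
        linear_combination (- f.Q) * e4
      have e5 : U - C s * V = C q⁻¹ * reflect f.d (taylor y (f.Q - C s * R)) := by
        rw [map_sub, taylor_mul, taylor_C, reflect_sub, reflect_C_mul, hU, hV]
        ring
      rw [e5, e2, taylor_mul, taylor_C, reflect_C_mul, ← mul_assoc, ← C_mul]
      congr 2
      ring
    have e6 : f.P - C c * f.Q = ((f.fiber c).map (fun x => X - C x)).prod :=
      (IsAlgClosed.splits (f.P - Polynomial.C c * f.Q)).eq_prod_roots_of_monic
        (formula_monic f c)
    have hne : ∀ x ∈ f.fiber c, x - y ≠ 0 := by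
      intro x hx h0
      have h1 : x = y := sub_eq_zero.mp h0
      have h2 := ((mem_fiber f x c).mp hx).2
      rw [h1, hv] at h2
      exact hc h2.symm
    obtain ⟨a, ha, h⟩ := normalForm_prod y (f.fiber c) hne
    rw [card_fiber, ← e6] at h
    rw [e1, h, ← mul_assoc, ← C_mul, roots_C_mul, roots_multiset_prod_X_sub_C]
    exact mul_ne_zero (neg_ne_zero.mpr (mul_ne_zero hs0 (inv_ne_zero hQ))) ha
  · intro x hx
    by_cases hx0 : x = 0
    · exact Or.inl hx0
    right
    have hroot := (mem_roots'.mp hx).2
    rw [IsRoot, eval_sub, eval_mul, eval_mul] at hroot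
    have dU := normalForm_eval_deriv (taylor y f.Q) f.d hQt x hx0
    have dV := normalForm_eval_deriv (taylor y R) f.d hRt x hx0
    have vU := normalForm_eval (taylor y f.Q) f.d hQt x hx0
    have vV := normalForm_eval (taylor y R) f.d hRt x hx0
    have tder : ∀ p : k[X], (derivative (taylor y p)).eval x⁻¹ =
        (derivative p).eval (y + x⁻¹) := by
      intro p
      rw [taylor_apply, derivative_comp]
      simp [eval_comp, add_comm]
    have teval : ∀ p : k[X], (taylor y p).eval x⁻¹ = p.eval (y + x⁻¹) := by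
      intro p
      rw [taylor_eval, add_comm]
    rw [tder, teval] at dU dV
    rw [teval] at vU vV
    set z := y + x⁻¹ with hz
    have hRz : R.eval z = f.P.eval z - y' * f.Q.eval z := by
      rw [hR]
      simp
    have hRz' : (derivative R).eval z = (derivative f.P).eval z - y' * (derivative f.Q).eval z := by
      rw [hR]
      simp
    rw [hU, hV, derivative_C_mul, derivative_C_mul] at hroot
    simp only [eval_mul, eval_C] at hroot
    rw [vU, vV] at hroot
    rw [NMap.W, eval_sub, eval_mul, eval_mul]
    have hq0 : q⁻¹ ≠ 0 := inv_ne_zero hQ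
    have hxd : x ^ f.d ≠ 0 := pow_ne_zero _ hx0
    have key : (x ^ f.d * q⁻¹) ^ 2 * x⁻¹ * ((derivative f.P).eval z * f.Q.eval z -
        f.P.eval z * (derivative f.Q).eval z) = 0 := by
      have h2 : q⁻¹ * q⁻¹ * ((x * (derivative (reflect f.d (taylor y f.Q))).eval x) *
          (x ^ f.d * R.eval z) - (x ^ f.d * f.Q.eval z) *
          (x * (derivative (reflect f.d (taylor y R))).eval x)) = 0 := by
        linear_combination x * hroot
      rw [dU, dV, hRz, hRz'] at h2
      linear_combination h2
    rcases mul_eq_zero.mp key with h | h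
    · exfalso
      exact mul_ne_zero (pow_ne_zero 2 (mul_ne_zero hxd hq0)) (inv_ne_zero hx0) h
    · exact h

end Pool.Agent.H.MP_392fd3_nt
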