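import Pool.Agent.H.MP_392fd3_nt.Defs

set_option autoImplicit false

open Polynomial

namespace Pool.Agent.H.MP_392fd3_nt

/-- Norms are dense in `(0, ∞)`. -/
theorem exists_norm_between {k : Type*} [NormedField k] [IsAlgClosed k] (p : ℕ)
    (hp0 : (p : k) ≠ 0) (hp1 : ‖(p : k)‖ < 1) {a b : ℝ} (ha : 0 ≤ a) (hab : a < b) :
    ∃ x : k, a < ‖x‖ ∧ ‖x‖ < b := by
  have hb : 0 < b := lt_of_le_of_lt ha hab
  set a' := max a (b / 2) with ha'
  have ha'pos : 0 < a' := lt_of_lt_of_le (by positivity) (le_max_right _ _)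
  have ha'b : a' < b := max_lt hab (by linarith)
  have hq : 0 < ‖(p : k)‖ := norm_pos_iff.mpr hp0
  obtain ⟨N, hN⟩ := pow_unbounded_of_one_lt (‖(p : k)‖⁻¹) ((one_lt_div ha'pos).mpr ha'b)
  have hN0 : N ≠ 0 := by
    rintro rfl
    rw [pow_zero] at hN
    exact absurd hN (not_lt.mpr (one_lt_inv₀ hq |>.mpr hp1).le)
  obtain ⟨y, hy⟩ := IsAlgClosed.exists_pow_nat_eq (p : k) (Nat.pos_of_ne_zero hN0)
  have hyn : ‖y‖ ^ N = ‖(p : k)‖ := by rw [← norm_pow, hy]
  have hypos : 0 < ‖y‖ := by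
    rcases (norm_nonneg y).lt_or_eq with h | h
    · exact h
    · rw [← h, zero_pow hN0] at hyn
      exact absurd hyn hq.ne
  have hy1 : ‖y‖ < 1 := by
    by_contra h
    push Not at h
    have := one_le_pow₀ h (n := N)
    rw [hyn] at this
    linarith
  have hc1 : 1 < ‖y‖⁻¹ := (one_lt_inv₀ hypos).mpr hy1
  have hc2 : ‖y‖⁻¹ < b / a' := by
    refine lt_of_pow_lt_pow_left₀ N (by positivity) ?_
    rw [inv_pow, hyn]
    exact hN
  obtain ⟨n, hn1, hn2⟩ := exists_mem_Ico_zpow ha'pos hc1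
  refine ⟨(y⁻¹) ^ (n + 1), ?_, ?_⟩
  · rw [norm_zpow, norm_inv]
    exact lt_of_le_of_lt (le_max_left _ _) hn2
  · rw [norm_zpow, norm_inv, zpow_add₀ (by positivity), zpow_one]
    calc ‖y‖⁻¹ ^ n * ‖y‖⁻¹ ≤ a' * ‖y‖⁻¹ := by gcongr
      _ < a' * (b / a') := by gcongr
      _ = b := by field_simp

/-- Average over roots of unity. -/
theorem sum_primitiveRoot {k : Type*} [Field k] {N : ℕ} (hN : 0 < N) (ζ : k)
    (hζ : IsPrimitiveRoot ζ N) (x c : k) (hxc : x ^ N ≠ c ^ N) :
    ∑ i ∈ Finset.range N, (ζ ^ i * x) / (ζ ^ i * x - c) = N * x ^ N / (x ^ N - c ^ N) := by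
  have hne : x ^ N - c ^ N ≠ 0 := sub_ne_zero.mpr hxc
  have key : ∀ i ∈ Finset.range N, (ζ ^ i * x) / (ζ ^ i * x - c) =
      (∑ j ∈ Finset.range N, (ζ ^ (j + 1)) ^ i * (x ^ (j + 1) * c ^ (N - 1 - j))) /
        (x ^ N - c ^ N) := by
    intro i _
    have h1 : (ζ ^ i * x) ^ N = x ^ N := by
      rw [mul_pow, ← pow_mul, mul_comm i N, pow_mul, hζ.pow_eq_one, one_pow, one_mul]
    have h2 : ζ ^ i * x - c ≠ 0 := by
      intro h
      rw [sub_eq_zero] at h
      rw [h] at h1
      exact hxc h1.symm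
    rw [div_eq_div_iff h2 hne]
    have h3 := geom_sum₂_mul (ζ ^ i * x) c N
    rw [h1] at h3
    rw [← h3, ← mul_assoc]
    congr 1
    rw [Finset.mul_sum]
    refine Finset.sum_congr rfl fun j _ => ?_
    rw [← pow_mul, mul_comm (j + 1) i, pow_mul, ← mul_assoc, ← mul_assoc, ← mul_pow, pow_succ']
  rw [Finset.sum_congr rfl key, ← Finset.sum_div, Finset.sum_comm]
  congr 1
  have h4 : ∀ j ∈ Finset.range N, ∑ i ∈ Finset.range N,
      (ζ ^ (j + 1)) ^ i * (x ^ (j + 1) * c ^ (N - 1 - j)) =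
      if j = N - 1 then (N : k) * x ^ N else 0 := by
    intro j hj
    rw [← Finset.sum_mul]
    rw [Finset.mem_range] at hj
    split_ifs with h
    · subst h
      have : N - 1 + 1 = N := by omega
      rw [this, hζ.pow_eq_one]
      simp
    · have h5 : ζ ^ (j + 1) ≠ 1 := by
        intro h6
        have := hζ.dvd_of_pow_eq_one _ h6
        have := Nat.le_of_dvd (by omega) this
        omega
      have h7 := geom_sum_mul (ζ ^ (j + 1)) N
      rw [← pow_mul, mul_comm (j + 1) N, pow_mul, hζ.pow_eq_one, one_pow, sub_self] at h7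
      have h8 : ∑ i ∈ Finset.range N, (ζ ^ (j + 1)) ^ i = 0 := by
        rcases mul_eq_zero.mp h7 with h9 | h9
        · exact h9
        · exact absurd (sub_eq_zero.mp h9) h5
      rw [h8, zero_mul]
  rw [Finset.sum_congr rfl h4, Finset.sum_ite_eq' (Finset.range N) (N - 1)]
  rw [if_pos (Finset.mem_range.mpr (by omega))]

/-- Auxiliary: the distance of `s0 + u` to `x`. -/
theorem slope_aux_max {k : Type*} [NormedField k] [IsUltrametricDist k] (s0 u x : k)
    (h : ‖x - s0‖ ≠ ‖u‖) : ‖s0 + u - x‖ = max ‖u‖ ‖x - s0‖ := by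
  have h1 : s0 + u - x = u + (-(x - s0)) := by ring
  rw [h1, IsUltrametricDist.norm_add_eq_max_of_norm_ne_norm (by rw [norm_neg]; exact h.symm),
    norm_neg]

theorem slope_aux_prod_ge {k : Type*} [NormedField k] (S : Multiset k) (f : k → ℝ) (r : ℝ)
    (hr : 0 ≤ r) (h : ∀ x ∈ S, r ≤ f x) : r ^ S.card ≤ (S.map f).prod := by
  induction S using Multiset.induction_on with
  | empty => simp
  | cons a S ih =>
    rw [Multiset.card_cons, Multiset.map_cons, Multiset.prod_cons, pow_succ']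
    have h1 := h a (Multiset.mem_cons_self a S)
    have h2 := ih (fun x hx => h x (Multiset.mem_cons_of_mem hx))
    exact mul_le_mul h1 h2 (pow_nonneg hr _) (hr.trans h1)

theorem slope_aux_prod_le {k : Type*} [NormedField k] (S : Multiset k) (f : k → ℝ) (r : ℝ)
    (h0 : ∀ x ∈ S, 0 ≤ f x) (h : ∀ x ∈ S, f x ≤ r) : (S.map f).prod ≤ r ^ S.card := by
  induction S using Multiset.induction_on with
  | empty => simp
  | cons a S ih =>
    rw [Multiset.card_cons, Multiset.map_cons, Multiset.prod_cons, pow_succ']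
    have h1 := h a (Multiset.mem_cons_self a S)
    have h0' := h0 a (Multiset.mem_cons_self a S)
    have h2 := ih (fun x hx => h0 x (Multiset.mem_cons_of_mem hx))
      (fun x hx => h x (Multiset.mem_cons_of_mem hx))
    refine mul_le_mul h1 h2 ?_ (h0'.trans h1)
    refine Multiset.prod_nonneg ?_
    intro y hy
    obtain ⟨x, hx, rfl⟩ := Multiset.mem_map.mp hy
    exact h0 x (Multiset.mem_cons_of_mem hx)

theorem slope_aux_norm_eval {k : Type*} [NormedField k] [IsAlgClosed k] (A : k[X]) (t : k) :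
    ‖A.eval t‖ = ‖A.leadingCoeff‖ * (A.roots.map fun x => ‖t - x‖).prod := by
  have h := (IsAlgClosed.splits A).eval_eq_prod_roots t
  rw [h, norm_mul]
  congr 1
  have := map_multiset_prod (normHom : k →*₀ ℝ) (A.roots.map fun x => t - x)
  simpa [Multiset.map_map, Function.comp_def] using this

theorem slope_aux_card {k : Type*} [Field k] [IsAlgClosed k] (A : k[X]) :
    A.roots.card = A.natDegree :=
  ((IsAlgClosed.splits A).natDegree_eq_card_roots).symm

/-- The bound for the function `h`. -/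
theorem slope_aux_h_le {k : Type*} [NormedField k] [IsUltrametricDist k] [IsAlgClosed k]
    (d : ℕ) (hd : 1 ≤ d)
    (A B : k[X]) (hA : A.Monic) (hB : B.Monic) (hAd : A.natDegree = d) (hBd : B.natDegree = d)
    (s0 s1 : k) (h1 : s1 ∈ B.roots) (hs : s0 ≠ s1)
    (hNr : ∀ x ∈ (derivative A * B - A * derivative B).roots, ‖x - s0‖ ≤ ‖s0 - s1‖)
    (mu : k) (hmu : (derivative A * B - A * derivative B).coeff (2 * d - 2) = mu) (hmu0 : mu ≠ 0)
    (hNd : (derivative A * B - A * derivative B).natDegree ≤ 2 * d - 2)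
    (u : k) (hu : u ≠ 0) (huD : ‖u‖ < ‖s0 - s1‖)
    (hA' : ∀ x ∈ A.roots, ‖x - s0‖ ≠ ‖u‖) (hB' : ∀ x ∈ B.roots, ‖x - s0‖ ≠ ‖u‖) :
    ‖u * ((derivative A * B - A * derivative B).eval (s0 + u) /
      (A.eval (s0 + u) * B.eval (s0 + u)))‖ ≤
      ‖mu‖ / ‖s0 - s1‖ * (‖s0 - s1‖ / ‖u‖) ^ (2 * d - 2) := by
  set D := ‖s0 - s1‖ with hD
  have hDpos : 0 < D := norm_pos_iff.mpr (sub_ne_zero.mpr hs)
  have hr : 0 < ‖u‖ := norm_pos_iff.mpr hu
  set r := ‖u‖ with hrdef
  set N := derivative A * B - A * derivative B with hN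
  have hNdeg : N.natDegree = 2 * d - 2 :=
    le_antisymm hNd (le_natDegree_of_ne_zero (by rw [hmu]; exact hmu0))
  have hNlead : N.leadingCoeff = mu := by rw [leadingCoeff, hNdeg, hmu]
  -- A
  have hAev : r ^ d ≤ ‖A.eval (s0 + u)‖ := by
    rw [slope_aux_norm_eval, hA.leadingCoeff, norm_one, one_mul, ← hAd, ← slope_aux_card]
    refine slope_aux_prod_ge _ _ _ hr.le fun x hx => ?_
    rw [slope_aux_max s0 u x (hA' x hx)]
    exact le_max_left _ _
  have hBev : r ^ (d - 1) * D ≤ ‖B.eval (s0 + u)‖ := by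
    rw [slope_aux_norm_eval, hB.leadingCoeff, norm_one, one_mul]
    obtain ⟨T, hT⟩ := Multiset.exists_cons_of_mem h1
    have hcard : T.card = d - 1 := by
      have := slope_aux_card B
      rw [hT, Multiset.card_cons, hBd] at this
      omega
    rw [hT, Multiset.map_cons, Multiset.prod_cons, mul_comm, ← hcard]
    have hs1 : ‖s0 + u - s1‖ = D := by
      rw [slope_aux_max s0 u s1 (hB' s1 h1), norm_sub_rev s1 s0]
      exact max_eq_right huD.le
    rw [hs1]
    refine mul_le_mul_of_nonneg_left ?_ hDpos.le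
    refine slope_aux_prod_ge _ _ _ hr.le fun x hx => ?_
    rw [slope_aux_max s0 u x (hB' x (by rw [hT]; exact Multiset.mem_cons_of_mem hx))]
    exact le_max_left _ _
  have hNev : ‖N.eval (s0 + u)‖ ≤ ‖mu‖ * D ^ (2 * d - 2) := by
    rw [slope_aux_norm_eval, hNlead, ← hNdeg, ← slope_aux_card]
    refine mul_le_mul_of_nonneg_left ?_ (norm_nonneg _)
    refine slope_aux_prod_le _ _ _ (fun x _ => norm_nonneg _) fun x hx => ?_
    have e : s0 + u - x = u + (-(x - s0)) := by ring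
    rw [e]
    refine (IsUltrametricDist.norm_add_le_max _ _).trans ?_
    rw [norm_neg]
    exact max_le huD.le (hNr x hx)
  rw [norm_mul, norm_div, norm_mul]
  have hden : r ^ d * (r ^ (d - 1) * D) ≤ ‖A.eval (s0 + u)‖ * ‖B.eval (s0 + u)‖ :=
    mul_le_mul hAev hBev (by positivity) (norm_nonneg _)
  have hdenpos : 0 < r ^ d * (r ^ (d - 1) * D) := by positivity
  calc r * (‖N.eval (s0 + u)‖ / (‖A.eval (s0 + u)‖ * ‖B.eval (s0 + u)‖))
      ≤ r * ((‖mu‖ * D ^ (2 * d - 2)) / (r ^ d * (r ^ (d - 1) * D))) := by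
        gcongr
    _ = ‖mu‖ / D * (D / r) ^ (2 * d - 2) := by
        obtain ⟨e, rfl⟩ : ∃ e, d = e + 1 := ⟨d - 1, by omega⟩
        have h2 : 2 * (e + 1) - 2 = 2 * e := by omega
        have h3 : e + 1 - 1 = e := by omega
        rw [h2, h3, div_pow]
        field_simp
        ring

/-- `h` as a sum of simple fractions. -/
theorem slope_aux_h_eq {k : Type*} [Field k] [IsAlgClosed k]
    (A B : k[X]) (s0 u : k) (hA0 : A.eval (s0 + u) ≠ 0) (hB0 : B.eval (s0 + u) ≠ 0) :
    u * ((derivative A * B - A * derivative B).eval (s0 + u) /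
      (A.eval (s0 + u) * B.eval (s0 + u))) =
      (A.roots.map fun x => u / (u - (x - s0))).sum -
        (B.roots.map fun x => u / (u - (x - s0))).sum := by
  have e1 := (IsAlgClosed.splits A).eval_derivative_div_eval_of_ne_zero hA0
  have e2 := (IsAlgClosed.splits B).eval_derivative_div_eval_of_ne_zero hB0
  have e3 : ∀ S : Multiset k, (S.map fun x => u / (u - (x - s0))).sum =
      u * (S.map fun z => 1 / (s0 + u - z)).sum := by
    intro S
    rw [← Multiset.sum_map_mul_left]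
    congr 1
    refine Multiset.map_congr rfl fun x _ => ?_
    rw [mul_one_div]
    congr 1
    ring
  rw [e3, e3, ← e1, ← e2, ← mul_sub]
  congr 1
  rw [eval_sub, eval_mul, eval_mul]
  field_simp

/-- sum over multisets and counting -/
theorem slope_aux_count {k : Type*} [NormedField k] (S : Multiset k) (s0 : k) (r : ℝ) :
    (S.map fun x => if ‖x - s0‖ < r then (1 : k) else 0).sum =
      (S.countP (fun x => ‖x - s0‖ < r) : k) := by
  classical
  induction S using Multiset.induction_on with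
  | empty => simp
  | cons a S ih =>
    rw [Multiset.map_cons, Multiset.sum_cons, ih, Multiset.countP_cons]
    split_ifs <;> push_cast <;> ring

theorem slope_aux_tendsto {k : Type*} [NormedField k] (s c : k) (hs : s ≠ 0)
    (hc : ‖c‖ ≠ ‖s‖) (n : ℕ → ℕ) (hn : Filter.Tendsto n Filter.atTop Filter.atTop) :
    Filter.Tendsto (fun j => s ^ n j / (s ^ n j - c ^ n j)) Filter.atTop
      (nhds (if ‖c‖ < ‖s‖ then (1 : k) else 0)) := by
  have hspos : 0 < ‖s‖ := norm_pos_iff.mpr hs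
  split_ifs with h
  · have h1 : ‖c / s‖ < 1 := by rw [norm_div, div_lt_one hspos]; exact h
    have h2 : Filter.Tendsto (fun j => 1 / (1 - (c / s) ^ n j)) Filter.atTop
        (nhds (1 / (1 - 0))) := by
      refine Filter.Tendsto.div tendsto_const_nhds ?_ (by norm_num)
      exact tendsto_const_nhds.sub ((tendsto_pow_atTop_nhds_zero_of_norm_lt_one h1).comp hn)
    rw [sub_zero, div_one] at h2
    refine h2.congr fun j => ?_
    have h3 : s ^ n j ≠ 0 := pow_ne_zero _ hs
    rw [div_pow, one_sub_div h3, one_div_div]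
  · have hc' : ‖s‖ < ‖c‖ := lt_of_le_of_ne (not_lt.mp h) hc.symm
    have hcpos : 0 < ‖c‖ := hspos.trans hc'
    have hc0 : c ≠ 0 := norm_pos_iff.mp hcpos
    have h1 : ‖s / c‖ < 1 := by rw [norm_div, div_lt_one hcpos]; exact hc'
    have h0 := (tendsto_pow_atTop_nhds_zero_of_norm_lt_one h1).comp hn
    have h2 : Filter.Tendsto (fun j => (s / c) ^ n j / ((s / c) ^ n j - 1)) Filter.atTop
        (nhds (0 / (0 - 1))) := by
      refine Filter.Tendsto.div h0 ?_ (by norm_num)
      exact h0.sub tendsto_const_nhds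
    rw [zero_div] at h2
    refine h2.congr fun j => ?_
    have h3 : c ^ n j ≠ 0 := pow_ne_zero _ hc0
    rw [div_pow, div_sub_one h3, div_div_div_cancel_right₀ h3]

theorem slope_aux_swap {k M : Type*} [AddCommMonoid M] (S : Multiset k) (T : Finset ℕ)
    (f : ℕ → k → M) :
    ∑ i ∈ T, (S.map fun x => f i x).sum = (S.map fun x => ∑ i ∈ T, f i x).sum := by
  induction S using Multiset.induction_on with
  | empty => simp
  | cons a S ih => simp only [Multiset.map_cons, Multiset.sum_cons, Finset.sum_add_distrib, ih]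

/-- The case that `r` is a value of the norm. -/
theorem slope_aux_value {k : Type*} [NormedField k] [IsUltrametricDist k] [IsAlgClosed k]
    [CharZero k]
    (p : ℕ) (hp : p.Prime) (hp1 : ‖(p : k)‖ < 1) (d : ℕ) (hd : 1 ≤ d)
    (A B : k[X]) (hA : A.Monic) (hB : B.Monic) (hAd : A.natDegree = d) (hBd : B.natDegree = d)
    (s0 s1 : k) (h1 : s1 ∈ B.roots) (hs : s0 ≠ s1)
    (hNr : ∀ x ∈ (derivative A * B - A * derivative B).roots, ‖x - s0‖ ≤ ‖s0 - s1‖)
    (mu : k) (hmu : (derivative A * B - A * derivative B).coeff (2 * d - 2) = mu) (hmu0 : mu ≠ 0)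
    (hNd : (derivative A * B - A * derivative B).natDegree ≤ 2 * d - 2)
    (s : k) (hs0 : s ≠ 0) (hrD : ‖s‖ < ‖s0 - s1‖)
    (hA' : ∀ x ∈ A.roots, ‖x - s0‖ ≠ ‖s‖) (hB' : ∀ x ∈ B.roots, ‖x - s0‖ ≠ ‖s‖) :
    ‖(((A.roots.countP (fun x => ‖x - s0‖ < ‖s‖) : ℤ) -
        (B.roots.countP (fun x => ‖x - s0‖ < ‖s‖) : ℤ) : ℤ) : k)‖ ≤
      ‖mu‖ / ‖s0 - s1‖ * (‖s0 - s1‖ / ‖s‖) ^ (2 * d - 2) := by
  set M := ‖mu‖ / ‖s0 - s1‖ * (‖s0 - s1‖ / ‖s‖) ^ (2 * d - 2) with hM
  have hMnn : 0 ≤ M := by positivity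
  set n : ℕ → ℕ := fun j => (p + 1) ^ j with hn
  have hntend : Filter.Tendsto n Filter.atTop Filter.atTop :=
    tendsto_pow_atTop_atTop_of_one_lt (by have := hp.pos; omega)
  have hnorm : ∀ j, ‖((n j : ℕ) : k)‖ = 1 := by
    intro j
    simp only [hn]
    push_cast
    rw [norm_pow]
    have : ‖(p : k) + 1‖ = 1 := by
      rw [IsUltrametricDist.norm_add_eq_max_of_norm_ne_norm (by rw [norm_one]; exact hp1.ne),
        norm_one]
      exact max_eq_right hp1.le
    rw [this, one_pow]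
  have hnpos : ∀ j, 0 < n j := fun j => pow_pos (by omega) j
  -- the average
  have havg : ∀ j, ‖(A.roots.map fun x => s ^ n j / (s ^ n j - (x - s0) ^ n j)).sum -
      (B.roots.map fun x => s ^ n j / (s ^ n j - (x - s0) ^ n j)).sum‖ ≤ M := by
    intro j
    have : NeZero ((n j : ℕ) : k) := ⟨by
      have := hnpos j
      exact_mod_cast this.ne'⟩
    obtain ⟨ζ, hζ⟩ := (IsSepClosed.hasEnoughRootsOfUnity k (n j)).prim
    have hζn : ‖ζ‖ = 1 := by
      have h2 : ‖ζ‖ ^ n j = 1 := by rw [← norm_pow, hζ.pow_eq_one, norm_one]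
      exact (pow_eq_one_iff_of_nonneg (norm_nonneg _) (hnpos j).ne').mp h2
    have hroot : ∀ (S : Multiset k), (∀ x ∈ S, ‖x - s0‖ ≠ ‖s‖) →
        ∑ i ∈ Finset.range (n j), (S.map fun x => (ζ ^ i * s) / (ζ ^ i * s - (x - s0))).sum =
        (n j : k) * (S.map fun x => s ^ n j / (s ^ n j - (x - s0) ^ n j)).sum := by
      intro S hS
      rw [← Multiset.sum_map_mul_left]
      have : ∀ x ∈ S, (n j : k) * (s ^ n j / (s ^ n j - (x - s0) ^ n j)) =
          ∑ i ∈ Finset.range (n j), (ζ ^ i * s) / (ζ ^ i * s - (x - s0)) := by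
        intro x hx
        rw [sum_primitiveRoot (hnpos j) ζ hζ s (x - s0), mul_div_assoc]
        intro h
        have h2 : ‖s‖ ^ n j = ‖x - s0‖ ^ n j := by rw [← norm_pow, ← norm_pow, h]
        exact hS x hx
          (((pow_left_inj₀ (norm_nonneg _) (norm_nonneg _) (hnpos j).ne').mp h2).symm)
      rw [Multiset.map_congr rfl this]
      exact slope_aux_swap S _ _
    have hprod : (n j : k) * ((A.roots.map fun x => s ^ n j / (s ^ n j - (x - s0) ^ n j)).sum -
      (B.roots.map fun x => s ^ n j / (s ^ n j - (x - s0) ^ n j)).sum) =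
      ∑ i ∈ Finset.range (n j), ((ζ ^ i * s) *
        ((derivative A * B - A * derivative B).eval (s0 + ζ ^ i * s) /
      (A.eval (s0 + ζ ^ i * s) * B.eval (s0 + ζ ^ i * s)))) := by
      rw [mul_sub, ← hroot _ hA', ← hroot _ hB', ← Finset.sum_sub_distrib]
      refine Finset.sum_congr rfl fun i _ => ?_
      have hnu : ‖ζ ^ i * s‖ = ‖s‖ := by rw [norm_mul, norm_pow, hζn, one_pow, one_mul]
      rw [slope_aux_h_eq]
      · intro h
        have : s0 + ζ ^ i * s ∈ A.roots := (mem_roots hA.ne_zero).mpr h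
        have h3 := hA' _ this
        rw [add_sub_cancel_left, hnu] at h3
        exact h3 rfl
      · intro h
        have : s0 + ζ ^ i * s ∈ B.roots := (mem_roots hB.ne_zero).mpr h
        have h3 := hB' _ this
        rw [add_sub_cancel_left, hnu] at h3
        exact h3 rfl
    have hfin : ‖(n j : k) * ((A.roots.map fun x => s ^ n j / (s ^ n j - (x - s0) ^ n j)).sum -
      (B.roots.map fun x => s ^ n j / (s ^ n j - (x - s0) ^ n j)).sum)‖ ≤ M := by
      rw [hprod]
      refine IsUltrametricDist.norm_sum_le_of_forall_le_of_nonneg hMnn fun i _ => ?_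
      have hnu : ‖ζ ^ i * s‖ = ‖s‖ := by rw [norm_mul, norm_pow, hζn, one_pow, one_mul]
      have hz : ζ ^ i * s ≠ 0 := by
        rw [← norm_ne_zero_iff, hnu, norm_ne_zero_iff]
        exact hs0
      have h4 := slope_aux_h_le d hd A B hA hB hAd hBd s0 s1 h1 hs hNr mu hmu hmu0 hNd
        (ζ ^ i * s) hz (by rw [hnu]; exact hrD) (by rw [hnu]; exact hA') (by rw [hnu]; exact hB')
      rw [hnu] at h4
      exact h4
    rw [norm_mul, hnorm j, one_mul] at hfin
    exact hfin
  have hlim : Filter.Tendsto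
      (fun j => (A.roots.map fun x => s ^ n j / (s ^ n j - (x - s0) ^ n j)).sum -
      (B.roots.map fun x => s ^ n j / (s ^ n j - (x - s0) ^ n j)).sum) Filter.atTop
      (nhds ((((A.roots.countP (fun x => ‖x - s0‖ < ‖s‖) : ℤ) -
        (B.roots.countP (fun x => ‖x - s0‖ < ‖s‖) : ℤ) : ℤ) : k))) := by
    push_cast
    rw [← slope_aux_count, ← slope_aux_count]
    refine Filter.Tendsto.sub ?_ ?_
    · exact tendsto_multiset_sum _ fun x hx =>
        slope_aux_tendsto s (x - s0) hs0 (hA' x hx) n hntend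
    · exact tendsto_multiset_sum _ fun x hx =>
        slope_aux_tendsto s (x - s0) hs0 (hB' x hx) n hntend
  exact le_of_tendsto' hlim.norm havg

/-- There is a gap to the right of `r`. -/
theorem slope_aux_gap (S : Multiset ℝ) (r : ℝ) :
    ∃ b, r < b ∧ ∀ x ∈ S, r < x → b ≤ x := by
  induction S using Multiset.induction_on with
  | empty => exact ⟨r + 1, by linarith, by simp⟩
  | cons a S ih =>
    obtain ⟨b, hb, h⟩ := ih
    by_cases ha : r < a
    · refine ⟨min a b, lt_min ha hb, fun x hx hrx => ?_⟩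
      rcases Multiset.mem_cons.mp hx with rfl | hx
      · exact min_le_left _ _
      · exact (min_le_right _ _).trans (h x hx hrx)
    · refine ⟨b, hb, fun x hx hrx => ?_⟩
      rcases Multiset.mem_cons.mp hx with rfl | hx
      · exact absurd hrx ha
      · exact h x hx hrx

/-- Module B (slope bound). `A`, `B` monic of the same degree `d`, `N = A' B - A B'` has leading
coefficient `mu` in degree `2 d - 2`, all roots of `A`, `B`, `N` are in the closed ball of radius
`D = ‖s0 - s1‖` about `s0`, where `A(s0) = 0 = B(s1)`.  For `r < D` which is not the distance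
of `s0` to a root of `A` or `B`, the difference of the numbers of roots of `A` and `B` in the open
ball of radius `r` is `p`-adically small. -/
theorem slope_bound {k : Type*} [NormedField k] [IsUltrametricDist k] [IsAlgClosed k] [CharZero k]
    (p : ℕ) (hp : p.Prime) (hp1 : ‖(p : k)‖ < 1) (d : ℕ) (hd : 1 ≤ d)
    (A B : k[X]) (hA : A.Monic) (hB : B.Monic) (hAd : A.natDegree = d) (hBd : B.natDegree = d)
    (s0 s1 : k) (h0 : s0 ∈ A.roots) (h1 : s1 ∈ B.roots) (hs : s0 ≠ s1)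
    (hAr : ∀ x ∈ A.roots, ‖x - s0‖ ≤ ‖s0 - s1‖) (hBr : ∀ x ∈ B.roots, ‖x - s0‖ ≤ ‖s0 - s1‖)
    (hNr : ∀ x ∈ (derivative A * B - A * derivative B).roots, ‖x - s0‖ ≤ ‖s0 - s1‖)
    (mu : k) (hmu : (derivative A * B - A * derivative B).coeff (2 * d - 2) = mu) (hmu0 : mu ≠ 0)
    (hNd : (derivative A * B - A * derivative B).natDegree ≤ 2 * d - 2)
    (r : ℝ) (hr : 0 < r) (hrD : r < ‖s0 - s1‖)
    (hA' : ∀ x ∈ A.roots, ‖x - s0‖ ≠ r) (hB' : ∀ x ∈ B.roots, ‖x - s0‖ ≠ r) :
    ‖(((A.roots.countP (fun x => ‖x - s0‖ < r) : ℤ) -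
        (B.roots.countP (fun x => ‖x - s0‖ < r) : ℤ) : ℤ) : k)‖ ≤
      ‖mu‖ / ‖s0 - s1‖ * (‖s0 - s1‖ / r) ^ (2 * d - 2) := by
  have hp0 : (p : k) ≠ 0 := by exact_mod_cast hp.ne_zero
  obtain ⟨b1, hb1, hb1'⟩ := slope_aux_gap (A.roots.map fun x => ‖x - s0‖) r
  obtain ⟨b2, hb2, hb2'⟩ := slope_aux_gap (B.roots.map fun x => ‖x - s0‖) r
  obtain ⟨s, hs1, hs2⟩ := exists_norm_between (k := k) p hp0 hp1 hr.le
    (lt_min (lt_min hb1 hb2) hrD)
  have hsD : ‖s‖ < ‖s0 - s1‖ := hs2.trans_le (min_le_right _ _)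
  have hsb1 : ‖s‖ < b1 := hs2.trans_le ((min_le_left _ _).trans (min_le_left _ _))
  have hsb2 : ‖s‖ < b2 := hs2.trans_le ((min_le_left _ _).trans (min_le_right _ _))
  have hs0 : s ≠ 0 := norm_pos_iff.mp (hr.trans hs1)
  have key : ∀ (S : Multiset k) (b : ℝ), ‖s‖ < b →
      (∀ x ∈ S.map (fun x => ‖x - s0‖), r < x → b ≤ x) → (∀ x ∈ S, ‖x - s0‖ ≠ r) →
      (∀ x ∈ S, (‖x - s0‖ < r ↔ ‖x - s0‖ < ‖s‖)) ∧ (∀ x ∈ S, ‖x - s0‖ ≠ ‖s‖) := by
    intro S b hb hS hne
    have h3 : ∀ x ∈ S, ‖x - s0‖ < r ∨ ‖s‖ < ‖x - s0‖ := by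
      intro x hx
      rcases lt_or_gt_of_ne (hne x hx) with h | h
      · exact Or.inl h
      · exact Or.inr (hb.trans_le (hS _ (Multiset.mem_map_of_mem _ hx) h))
    refine ⟨fun x hx => ⟨fun h => h.trans hs1, fun h => ?_⟩, fun x hx h => ?_⟩
    · rcases h3 x hx with h4 | h4
      · exact h4
      · exact absurd h (not_lt.mpr h4.le)
    · rcases h3 x hx with h4 | h4
      · linarith
      · linarith
  obtain ⟨kA, kA'⟩ := key A.roots b1 hsb1 hb1' hA'
  obtain ⟨kB, kB'⟩ := key B.roots b2 hsb2 hb2' hB'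
  have hcA : A.roots.countP (fun x => ‖x - s0‖ < r) =
      A.roots.countP (fun x => ‖x - s0‖ < ‖s‖) := Multiset.countP_congr rfl (fun x hx => by
        simpa using kA x hx)
  have hcB : B.roots.countP (fun x => ‖x - s0‖ < r) =
      B.roots.countP (fun x => ‖x - s0‖ < ‖s‖) := Multiset.countP_congr rfl (fun x hx => by
        simpa using kB x hx)
  rw [hcA, hcB]
  refine (slope_aux_value p hp hp1 d hd A B hA hB hAd hBd s0 s1 h1 hs hNr mu hmu hmu0 hNd s hs0
    hsD kA' kB').trans ?_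
  have : ‖s0 - s1‖ / ‖s‖ ≤ ‖s0 - s1‖ / r := by gcongr
  gcongr

end Pool.Agent.H.MP_392fd3_nt
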