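import Mathlib

set_option autoImplicit false

open Polynomial
open scoped NumberField

namespace Pool.Agent.H.MP_392fd3_nt

universe u

variable {K : Type u} [Field K]

/-- The degree of the rational function `P / Q` (`P, Q` coprime). -/
noncomputable def rdeg (P Q : K[X]) : ℕ := max P.natDegree Q.natDegree

/-- The map of `P^1(K̄) = K̄ ∪ {∞}` (`Option`, with `none = ∞`) given by `P / Q`. -/
noncomputable def ratMap (P Q : K[X]) : Option (AlgebraicClosure K) → Option (AlgebraicClosure K)
  | none => open Classical in
      if Q.coeff (rdeg P Q) = 0 then none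
      else some (algebraMap K (AlgebraicClosure K) (P.coeff (rdeg P Q) / Q.coeff (rdeg P Q)))
  | some x => open Classical in
      if aeval x Q = 0 then none else some (aeval x P / aeval x Q)

/-- Critical points: zeros of the Wronskian `P' Q - P Q'`, viewed as a binary form of degree
`2 d - 2`. -/
def IsCrit (P Q : K[X]) : Option (AlgebraicClosure K) → Prop
  | none => (derivative P * Q - P * derivative Q).coeff (2 * rdeg P Q - 2) = 0
  | some x => aeval x (derivative P * Q - P * derivative Q) = 0

/-- postcritically finite -/
def IsPCF (P Q : K[X]) : Prop :=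
  ∀ c : Option (AlgebraicClosure K), IsCrit P Q c →
    (Set.range (fun m : ℕ => (ratMap P Q)^[m] c)).Finite

/-- a point of `P^1(K)` as a point of `P^1(K̄)` -/
noncomputable def basePt (α : Option K) : Option (AlgebraicClosure K) :=
  α.map (algebraMap K (AlgebraicClosure K))

/-- the field `K_n = K(f^{-n}(α))` -/
noncomputable def towerField (P Q : K[X]) (α : Option K) (n : ℕ) :
    IntermediateField K (AlgebraicClosure K) :=
  IntermediateField.adjoin K
    {x : AlgebraicClosure K | (ratMap P Q)^[n] (some x) = basePt α}

/-- the backward orbit is infinite -/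
def NonExceptional (P Q : K[X]) (α : Option K) : Prop :=
  {x : Option (AlgebraicClosure K) | ∃ n : ℕ, (ratMap P Q)^[n] x = basePt α}.Infinite

end Pool.Agent.H.MP_392fd3_nt
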