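import Pool.Agent.H.MP_392fd3_nt.TowerStep

set_option autoImplicit false

open Polynomial

namespace Pool.Agent.H.MP_392fd3_nt

theorem tower_preSet_succ {k : Type*} [Field k] (f : NMap k) (n : ℕ) (T : Set k) {c x : k}
    (hc : c ∈ preSet f n T) (hx : x ∈ f.fiber c) : x ∈ preSet f (n + 1) T := by
  obtain ⟨a, ha, hca⟩ := hc
  exact ⟨a, ha, (tower_mem_pre_succ f n a x).2 ⟨c, hca, hx⟩⟩

/-- position of a point strictly between -/
theorem tower_exp_lt {D v : ℝ} (hD : 0 < D) {x z : ℝ} (h1 : D * Real.exp (-z) < v)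
    (h2 : v < D * Real.exp (-x)) :
    ∃ S : ℝ, x < S ∧ S < z ∧ v = D * Real.exp (-S) := by
  have hv : 0 < v := lt_trans (by positivity) h1
  refine ⟨-Real.log (v / D), ?_, ?_, ?_⟩
  · have : v / D < Real.exp (-x) := by rw [div_lt_iff₀ hD, mul_comm]; exact h2
    have := Real.log_lt_log (by positivity) this
    rw [Real.log_exp] at this
    linarith
  · have : Real.exp (-z) < v / D := by rw [lt_div_iff₀ hD, mul_comm]; exact h1
    have := Real.log_lt_log (by positivity) this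
    rw [Real.log_exp] at this
    linarith
  · rw [neg_neg, Real.exp_log (by positivity)]
    field_simp

/-- there is an interval next to `0` without break points -/
theorem tower_free {k : Type*} (M : Multiset k) (v : k → ℝ) (D : ℝ) :
    ∃ ε : ℝ, 0 < ε ∧ ∀ c ∈ M, ¬ (D * Real.exp (-ε) < v c ∧ v c < D * Real.exp (-0)) := by
  classical
  have h1 : ∀ c ∈ M.toFinset, ∀ᶠ ε : ℝ in nhdsWithin 0 (Set.Ioi 0),
      ¬ (D * Real.exp (-ε) < v c ∧ v c < D * Real.exp (-0)) := by
    intro c _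
    by_cases hc : v c < D * Real.exp (-0)
    · have h2 : Filter.Tendsto (fun ε : ℝ => D * Real.exp (-ε)) (nhdsWithin 0 (Set.Ioi 0))
          (nhds (D * Real.exp (-0))) := by
        apply Filter.Tendsto.mono_left _ nhdsWithin_le_nhds
        exact (Continuous.tendsto (by fun_prop) 0)
      filter_upwards [h2.eventually (lt_mem_nhds hc)] with ε hε
      exact fun h => absurd h.1 (not_lt.2 hε.le)
    · exact Filter.Eventually.of_forall fun ε h => hc h.2
  have h2 := (Filter.eventually_all_finset M.toFinset).2 h1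
  obtain ⟨ε, hε1, hε2⟩ := (h2.and self_mem_nhdsWithin).exists
  exact ⟨ε, hε2, fun c hc => hε1 c (Multiset.mem_toFinset.2 hc)⟩

/-- in the star situation the slope next to `0` is `1` -/
theorem tower_star_step {k : Type*} [NormedField k] [IsUltrametricDist k]
    (Bk : Set k) (hstar : Star Bk) (Z Pi : Multiset k) (d : ℕ) (hZc : Multiset.card Z = d)
    (hPc : Multiset.card Pi = d) (hZ : Z.Nodup) (hPi : Pi.Nodup)
    (hZB : ∀ x ∈ Z, x ∈ Bk) (hPB : ∀ x ∈ Pi, x ∈ Bk) (hdis : ∀ x ∈ Z, x ∉ Pi)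
    (y b : k) (hb : b ∈ Z) (hyZ : ∀ x ∈ Z, x ≠ y) (hyP : ∀ x ∈ Pi, x ≠ y) (r : ℝ)
    (m : ℤ) (hm : 0 < m)
    (hmc : m = (Z.countP (fun c => ‖(c - y)⁻¹ - (b - y)⁻¹‖ < r) : ℤ)
              - (Pi.countP (fun c => ‖(c - y)⁻¹ - (b - y)⁻¹‖ < r) : ℤ)) : m = 1 := by
  classical
  by_contra hm1
  have hm2 : 2 ≤ m := by omega
  -- a second zero in the ball
  set Zf := Z.filter (fun c => ‖(c - y)⁻¹ - (b - y)⁻¹‖ < r) with hZf
  set Pf := Pi.filter (fun c => ‖(c - y)⁻¹ - (b - y)⁻¹‖ < r) with hPf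
  set Pn := Pi.filter (fun c => ¬ ‖(c - y)⁻¹ - (b - y)⁻¹‖ < r) with hPn
  have hZf' : Multiset.card Zf = Z.countP (fun c => ‖(c - y)⁻¹ - (b - y)⁻¹‖ < r) :=
    (Multiset.countP_eq_card_filter _ _).symm
  have hPf' : Multiset.card Pf = Pi.countP (fun c => ‖(c - y)⁻¹ - (b - y)⁻¹‖ < r) :=
    (Multiset.countP_eq_card_filter _ _).symm
  have hPn' : Multiset.card Pf + Multiset.card Pn = d := by
    rw [← Multiset.card_add, Multiset.filter_add_not, hPc]
  have hZle : Multiset.card Zf ≤ d := by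
    rw [← hZc]; exact Multiset.card_le_card (Multiset.filter_le _ _)
  have hc1 : 2 ≤ Multiset.card Zf := by omega
  have hc2 : 2 ≤ Multiset.card Pn := by omega
  have two : ∀ s : Multiset k, s.Nodup → 2 ≤ Multiset.card s → ∀ x : k, ∃ z ∈ s, z ≠ x := by
    intro s hs hcard x
    by_contra hcon
    push Not at hcon
    have : s ≤ {x} := by
      rw [Multiset.le_iff_count]
      intro z
      by_cases hz : z ∈ s
      · rw [hcon z hz, Multiset.count_singleton_self]
        exact Multiset.nodup_iff_count_le_one.1 hs x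
      · rw [Multiset.count_eq_zero_of_notMem hz]; exact Nat.zero_le _
    have := Multiset.card_le_card this
    rw [Multiset.card_singleton] at this
    omega
  obtain ⟨g, hg, hgb⟩ := two Zf (hZ.filter _) hc1 b
  obtain ⟨u, hu⟩ := Multiset.card_pos_iff_exists_mem.1 (by omega : 0 < Multiset.card Pn)
  obtain ⟨v, hv, hvu⟩ := two Pn (hPi.filter _) hc2 u
  rw [hZf, Multiset.mem_filter] at hg
  rw [hPn, Multiset.mem_filter] at hu hv
  have hgy := hyZ g hg.1
  have hby := hyZ b hb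
  have huy := hyP u hu.1
  have hvy := hyP v hv.1
  have hbu : b ≠ u := fun h => hdis b hb (h ▸ hu.1)
  have hbv : b ≠ v := fun h => hdis b hb (h ▸ hv.1)
  have hgu : g ≠ u := fun h => hdis g hg.1 (h ▸ hu.1)
  have hgv : g ≠ v := fun h => hdis g hg.1 (h ▸ hv.1)
  have h1 := hstar b (hZB b hb) u (hPB u hu.1) g (hZB g hg.1) v (hPB v hv.1) hbu hgb.symm hbv
    hgu.symm hvu.symm hgv
  -- (b - g)(u - v)/((b - v)(u - g))
  have key : (b - g) * (u - v) / ((b - v) * (u - g)) =
      ((g - y)⁻¹ - (b - y)⁻¹) * ((v - y)⁻¹ - (u - y)⁻¹) /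
        (((v - y)⁻¹ - (b - y)⁻¹) * ((g - y)⁻¹ - (u - y)⁻¹)) := by
    rw [tower_inv_sub_inv hgy hby, tower_inv_sub_inv hvy huy, tower_inv_sub_inv hvy hby,
      tower_inv_sub_inv hgy huy]
    have e1 : g - y ≠ 0 := sub_ne_zero.2 hgy
    have e2 : b - y ≠ 0 := sub_ne_zero.2 hby
    have e3 : u - y ≠ 0 := sub_ne_zero.2 huy
    have e4 : v - y ≠ 0 := sub_ne_zero.2 hvy
    have e5 : b - v ≠ 0 := sub_ne_zero.2 hbv
    have e6 : u - g ≠ 0 := sub_ne_zero.2 hgu.symm
    field_simp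
  rw [key] at h1
  set tg := (g - y)⁻¹
  set tb := (b - y)⁻¹
  set tu := (u - y)⁻¹
  set tv := (v - y)⁻¹
  have n1 : ‖tg - tb‖ < ‖tu - tb‖ := lt_of_lt_of_le hg.2 (not_lt.1 hu.2)
  have n2 : ‖tg - tb‖ < ‖tv - tb‖ := lt_of_lt_of_le hg.2 (not_lt.1 hv.2)
  have n3 : ‖tg - tu‖ = ‖tu - tb‖ := by
    have : tg - tu = (tg - tb) + (tb - tu) := by ring
    rw [this, IsUltrametricDist.norm_add_eq_max_of_norm_ne_norm]
    · rw [norm_sub_rev tb tu, max_eq_right n1.le]
    · rw [norm_sub_rev tb tu]; exact n1.ne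
  have n4 : ‖tv - tu‖ ≤ max ‖tv - tb‖ ‖tu - tb‖ := by
    have : tv - tu = (tv - tb) + (tb - tu) := by ring
    rw [this]
    refine (IsUltrametricDist.norm_add_le_max _ _).trans ?_
    rw [norm_sub_rev tb tu]
  have hpos1 : 0 < ‖tu - tb‖ := lt_of_le_of_lt (norm_nonneg _) n1
  have hpos2 : 0 < ‖tv - tb‖ := lt_of_le_of_lt (norm_nonneg _) n2
  rw [norm_div, norm_mul, norm_mul, n3, div_eq_one_iff_eq (by positivity)] at h1
  have h2 : ‖tg - tb‖ * ‖tv - tu‖ < ‖tv - tb‖ * ‖tu - tb‖ := by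
    rcases le_total ‖tv - tb‖ ‖tu - tb‖ with h | h
    · rw [max_eq_right h] at n4
      calc ‖tg - tb‖ * ‖tv - tu‖ ≤ ‖tg - tb‖ * ‖tu - tb‖ :=
            mul_le_mul_of_nonneg_left n4 (norm_nonneg _)
        _ < ‖tv - tb‖ * ‖tu - tb‖ := mul_lt_mul_of_pos_right n2 hpos1
    · rw [max_eq_left h] at n4
      calc ‖tg - tb‖ * ‖tv - tu‖ ≤ ‖tg - tb‖ * ‖tv - tb‖ :=
            mul_le_mul_of_nonneg_left n4 (norm_nonneg _)
        _ < ‖tu - tb‖ * ‖tv - tb‖ := mul_lt_mul_of_pos_right n1 hpos2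
        _ = ‖tv - tb‖ * ‖tu - tb‖ := mul_comm _ _
  exact absurd h1 h2.ne

/-- Module H (the tower). -/
theorem tower {k : Type*} [NormedField k] [IsUltrametricDist k] [IsAlgClosed k] [CharZero k]
    (p : ℕ) (hp : p.Prime) (hp1 : ‖(p : k)‖ < 1) (f : NMap k) (S : Set k) (hS : f.CritSet S)
    (Bk : Set k) (hBk : ∀ x ∈ Bk, ∀ z ∈ f.fiber x, z ∈ Bk) (hBS : Disjoint Bk S)
    (a0 a1 : k) (h01 : a0 ≠ a1) (T : Set k) (hT : T ⊆ Bk) (hT0 : a0 ∈ T)
    (hT1 : a1 ∈ T) (y : ℕ → k) (hyT : y 0 ∉ T) (n : ℕ)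
    (hchain : ∀ j < n, y (j + 1) ∈ f.fiber (y j)) (hder : ∀ j < n, f.der (y (j + 1)) ≠ 0)
    (hgen : ∀ B ∈ Gen f S a0 a1 n, ¬ Near (y 0) a0 a1 B) :
    ∃ b b' ψ, Inv f Bk a0 a1 (y 0) T n (y n) b b'
      (∏ j ∈ Finset.range n, ‖f.der (y (j + 1))‖) ψ := by
  classical
  induction n with
  | zero =>
    have e0 : a0 ≠ y 0 := fun h => hyT (h ▸ hT0)
    have e1 : a1 ≠ y 0 := fun h => hyT (h ▸ hT1)
    have hD : 0 < ‖(a0 - y 0)⁻¹ - (a1 - y 0)⁻¹‖ := by
      rw [norm_pos_iff, sub_ne_zero]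
      intro h
      exact h01 (sub_left_injective (inv_injective h))
    refine ⟨a0, a1, id, ?_⟩
    refine
      { memb := by simp [NMap.pre]
        memb' := by simp [NMap.pre]
        ne0 := e0.symm
        ne1 := e1.symm
        ne01 := h01
        push := fun B hB => hB
        cont := continuous_id
        zero := rfl
        mono := fun x z _ _ => le_rfl
        slope := ?_
        lift := ?_
        star := fun _ => ⟨1, one_pos, fun x _ _ => rfl⟩ }
    · intro x z hx hxz _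
      refine ⟨1, one_pos, by simp, ?_⟩
      simp only [Finset.range_zero, Finset.prod_empty, id, sub_self, mul_zero, Real.exp_zero,
        mul_one, one_mul, Int.cast_one, norm_one]
      rw [div_self hD.ne']
    · intro t ht Q hQ hn
      exact ⟨Q, hQ, rfl, t, ⟨t, ht, by simp [NMap.pre]⟩, hn⟩
  | succ n ih =>
    obtain ⟨b0, b1, ψ, I⟩ := ih (fun j hj => hchain j (Nat.lt_succ_of_lt hj))
      (fun j hj => hder j (Nat.lt_succ_of_lt hj)) (by
        intro B hB
        apply hgen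
        rcases hB with h | h | ⟨j, hj, h⟩
        · exact Or.inl h
        · exact Or.inr (Or.inl h)
        · exact Or.inr (Or.inr ⟨j, Nat.lt_succ_of_lt hj, h⟩))
    have hy : y (n + 1) ∈ f.fiber (y n) := hchain n (Nat.lt_succ_self n)
    have hdern := hder n (Nat.lt_succ_self n)
    have hbad : ∀ B ∈ f.bad b0 b1, ¬ Near (y n) b0 b1 B := by
      intro B hB hN
      exact hgen _ (Or.inr (Or.inr ⟨n, Nat.lt_succ_self n, b0, I.memb, b1, I.memb', B, hB, rfl⟩))
        (I.push B hN)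
    have hSn : ∀ a ∈ S, ¬ Near (y n) b0 b1 (some a) := by
      intro a ha hN
      have h1 := I.push _ hN
      rcases tower_opt_crit f S hS n (some a) (Or.inr ⟨a, ha, rfl⟩) with h | ⟨a', ha', h⟩
      · rw [h] at h1; exact hgen _ (Or.inl rfl) h1
      · rw [h] at h1; exact hgen _ (Or.inr (Or.inl ⟨a', ha', rfl⟩)) h1
    obtain ⟨b, hb, b', hb', hyb, hyb', hbb', hpush, ρ, hρc, hρ0, hρm, hρs, hρl⟩ :=
      tower_step_data p hp hp1 f S hS (y (n + 1)) (y n) b0 b1 hy hdern I.ne0 I.ne1 I.ne01 hbad hSn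
    have hpre0 : b0 ∈ preSet f n T := ⟨a0, hT0, I.memb⟩
    have hpre1 : b1 ∈ preSet f n T := ⟨a1, hT1, I.memb'⟩
    -- `y n` is not in `preSet`
    have hyn : y n ∉ preSet f n T := by
      rintro ⟨a, ha, hya⟩
      have h1 := tower_opt_pre f n hya
      have h2 := tower_opt_chain f y n (fun j hj => hchain j (Nat.lt_succ_of_lt hj))
      rw [h1] at h2
      have : a = y 0 := Option.some_injective _ h2
      exact hyT (this ▸ ha)
    have hD : 0 < ‖(b - y (n + 1))⁻¹ - (b' - y (n + 1))⁻¹‖ := by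
      rw [norm_pos_iff, sub_ne_zero]
      intro h
      exact hbb' (sub_left_injective (inv_injective h))
    have hDn : 0 < ‖(b0 - y n)⁻¹ - (b1 - y n)⁻¹‖ := by
      rw [norm_pos_iff, sub_ne_zero]
      intro h
      exact I.ne01 (sub_left_injective (inv_injective h))
    have hρnn : ∀ x, 0 ≤ x → 0 ≤ ρ x := by
      intro x hx
      have := hρm 0 x le_rfl hx
      rw [hρ0] at this
      linarith
    -- break points below lift to break points above
    have hbreak : ∀ x z, 0 ≤ x → x < z →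
        (∀ c ∈ preSet f (n + 1) T,
          ¬ (‖(b - y (n + 1))⁻¹ - (b' - y (n + 1))⁻¹‖ * Real.exp (-z) <
              ‖(c - y (n + 1))⁻¹ - (b - y (n + 1))⁻¹‖ ∧
            ‖(c - y (n + 1))⁻¹ - (b - y (n + 1))⁻¹‖ <
              ‖(b - y (n + 1))⁻¹ - (b' - y (n + 1))⁻¹‖ * Real.exp (-x))) →
        (∀ c ∈ preSet f n T,
          ¬ (‖(b0 - y n)⁻¹ - (b1 - y n)⁻¹‖ * Real.exp (-ρ z) <
              ‖(c - y n)⁻¹ - (b0 - y n)⁻¹‖ ∧
            ‖(c - y n)⁻¹ - (b0 - y n)⁻¹‖ <
              ‖(b0 - y n)⁻¹ - (b1 - y n)⁻¹‖ * Real.exp (-ρ x))) := by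
      intro x z hx hxz hbr c hc hcc
      obtain ⟨Q, hQ1, hQ2, hQ3⟩ := tower_exp_lt hDn hcc.1 hcc.2
      obtain ⟨R, hR1, hR2, hR3⟩ := tower_between ρ hρc hxz hQ1 hQ2
      have hcy : c ≠ y n := fun h => hyn (h ▸ hc)
      obtain ⟨w, hw, hwn⟩ := hρl c Q R hcy (lt_of_le_of_lt (hρnn x hx) hQ1) hQ3
        (lt_of_le_of_lt hx hR1) hR3
      have hw' : w ∈ preSet f (n + 1) T := by
        rcases Multiset.mem_add.1 hw with h | h
        · exact tower_preSet_succ f n T hc h
        · exact tower_preSet_succ f n T hpre1 h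
      refine hbr w hw' ⟨?_, ?_⟩
      · rw [hwn]
        exact mul_lt_mul_of_pos_left (Real.exp_lt_exp.2 (by linarith)) hD
      · rw [hwn]
        exact mul_lt_mul_of_pos_left (Real.exp_lt_exp.2 (by linarith)) hD
    refine ⟨b, b', fun x => ψ (ρ x), ?_⟩
    refine
      { memb := (tower_mem_pre_succ f n a0 b).2 ⟨b0, I.memb, hb⟩
        memb' := (tower_mem_pre_succ f n a1 b').2 ⟨b1, I.memb', hb'⟩
        ne0 := hyb
        ne1 := hyb'
        ne01 := hbb'
        push := ?_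
        cont := I.cont.comp hρc
        zero := by simp only [hρ0, I.zero]
        mono := ?_
        slope := ?_
        lift := ?_
        star := ?_ }
    · intro B hB
      rw [Function.iterate_succ_apply]
      exact I.push _ (hpush B hB)
    · intro x z hx hxz
      have h1 := hρm x z hx hxz
      have h2 := I.mono (ρ x) (ρ z) (hρnn x hx) (by linarith)
      linarith
    · intro x z hx hxz hbr
      obtain ⟨m1, hm1, hm1', hm1'', -⟩ := hρs x z hx hxz (by
        intro c hc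
        apply hbr
        rcases Multiset.mem_add.1 hc with h | h
        · exact tower_preSet_succ f n T hpre0 h
        · exact tower_preSet_succ f n T hpre1 h)
      have hρxz : ρ x < ρ z := tower_strict ρ hρm hx hxz
      obtain ⟨m2, hm2, hm2', hm2''⟩ := I.slope (ρ x) (ρ z) (hρnn x hx) hρxz
        (hbreak x z hx hxz hbr)
      refine ⟨m2 * m1, mul_pos hm2 hm1, ?_, ?_⟩
      · rw [hm2', hm1']; push_cast; ring
      · push_cast
        rw [norm_mul, Finset.prod_range_succ]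
        have h3 := mul_le_mul hm2'' hm1'' (norm_nonneg _) ((norm_nonneg _).trans hm2'')
        refine h3.trans (le_of_eq ?_)
        have h4 : Real.exp ((2 * (f.d : ℝ) - 2) * (ψ (ρ x) - x)) =
            Real.exp ((2 * (f.d : ℝ) - 2) * (ψ (ρ x) - ρ x)) *
              Real.exp ((2 * (f.d : ℝ) - 2) * (ρ x - x)) := by
          rw [← Real.exp_add]; congr 1; ring
        rw [h4]
        have hDn' := hDn.ne'
        generalize Real.exp ((2 * (f.d : ℝ) - 2) * (ψ (ρ x) - ρ x)) = E1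
        generalize Real.exp ((2 * (f.d : ℝ) - 2) * (ρ x - x)) = E2
        generalize ∏ j ∈ Finset.range n, ‖f.der (y (j + 1))‖ = Pr
        generalize ‖(a0 - y 0)⁻¹ - (a1 - y 0)⁻¹‖ = X0
        generalize ‖(b - y (n + 1))⁻¹ - (b' - y (n + 1))⁻¹‖ = X2
        generalize ‖(b0 - y n)⁻¹ - (b1 - y n)⁻¹‖ = X1 at *
        generalize ‖f.der (y (n + 1))‖ = X3
        by_cases hX2 : X2 = 0
        · simp [hX2]
        · field_simp
    · intro t ht Q hQ hn
      obtain ⟨R, hR, hRQ, c, hc, hcn⟩ := I.lift t ht Q hQ hn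
      obtain ⟨R', hR', hRR'⟩ := tower_ivt ρ hρc hρ0 hρm hR
      have hcy : c ≠ y n := fun h => hyn (h ▸ hc)
      obtain ⟨w, hw, hwn⟩ := hρl c R R' hcy hR hcn hR' hRR'
      refine ⟨R', hR', by simp only [hRR', hRQ], w, ?_, hwn⟩
      rcases Multiset.mem_add.1 hw with h | h
      · exact tower_preSet_succ f n T hc h
      · exact tower_preSet_succ f n T hpre1 h
    · intro hstar
      obtain ⟨ε, hε, hψ⟩ := I.star hstar
      -- break-free interval next to `0`
      have hBpre : ∀ m : ℕ, ∀ a ∈ Bk, ∀ x ∈ f.pre m a, x ∈ Bk := by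
        intro m
        induction m with
        | zero => intro a ha x hx; simp [NMap.pre] at hx; rwa [hx]
        | succ m ihm =>
          intro a ha x hx
          obtain ⟨z, hz, hxz⟩ := (tower_mem_pre_succ f m a x).1 hx
          exact hBk z (ihm a ha z hz) x hxz
      have hb0B : b0 ∈ Bk := hBpre n a0 (hT hT0) b0 I.memb
      have hb1B : b1 ∈ Bk := hBpre n a1 (hT hT1) b1 I.memb'
      have hb0S : b0 ∉ S := fun h => Set.disjoint_left.1 hBS hb0B h
      have hb1S : b1 ∉ S := fun h => Set.disjoint_left.1 hBS hb1B h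
      obtain ⟨ε1, hε1, hfree⟩ := tower_free (f.fiber b0 + f.fiber b1)
        (fun c => ‖(c - y (n + 1))⁻¹ - (b - y (n + 1))⁻¹‖)
        ‖(b - y (n + 1))⁻¹ - (b' - y (n + 1))⁻¹‖
      obtain ⟨m, hm, hm', -, hmc⟩ := hρs 0 ε1 le_rfl hε1 hfree
      have hyv := (mem_fiber f (y (n + 1)) (y n)).1 hy
      have hm1 : m = 1 := by
        refine tower_star_step Bk hstar (f.fiber b0) (f.fiber b1) f.d (card_fiber f b0)
          (card_fiber f b1) (tower_fiber_nodup f S hS hb0S) (tower_fiber_nodup f S hS hb1S)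
          (fun x hx => hBk b0 hb0B x hx) (fun x hx => hBk b1 hb1B x hx) ?_ (y (n + 1)) b hb ?_ ?_
          _ m hm (hmc (ε1 / 2) (by linarith) (by linarith))
        · intro x hx hx'
          exact I.ne01 (((mem_fiber f x b0).1 hx).2.symm.trans ((mem_fiber f x b1).1 hx').2)
        · rintro x hx rfl
          exact I.ne0 (hyv.2.symm.trans ((mem_fiber f _ b0).1 hx).2)
        · rintro x hx rfl
          exact I.ne1 (hyv.2.symm.trans ((mem_fiber f _ b1).1 hx).2)
      -- hence `ρ x = x` near `0`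
      have hρid : ∀ x, 0 ≤ x → x ≤ ε1 → ρ x = x := by
        intro x hx hx1
        have h1 := hρm 0 x le_rfl hx
        have h2 := hρm x ε1 hx hx1
        rw [hm1] at hm'
        rw [hρ0] at h1 hm'
        push_cast at hm'
        linarith
      refine ⟨min ε ε1, lt_min hε hε1, fun x hx hx' => ?_⟩
      have h1 := hρid x hx (hx'.trans (min_le_right _ _))
      simp only [h1]
      exact hψ x hx (hx'.trans (min_le_left _ _))

end Pool.Agent.H.MP_392fd3_nt
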