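import Pool.Agent.H.MP_392fd3_nt.Core
import Pool.Agent.H.MP_392fd3_nt.GoodPair
import Pool.Agent.H.MP_392fd3_nt.NormalForm
import Pool.Agent.H.MP_392fd3_nt.Formula

set_option autoImplicit false

open Polynomial

namespace Pool.Agent.H.MP_392fd3_nt

section basic

variable {k : Type*} [Field k]

theorem tower_mem_pre_succ (f : NMap k) (n : ℕ) : ∀ (a x : k),
    x ∈ f.pre (n + 1) a ↔ ∃ z ∈ f.pre n a, x ∈ f.fiber z := by
  induction n with
  | zero =>
    intro a x
    simp [NMap.pre]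
  | succ n ih =>
    intro a x
    have h1 : x ∈ f.pre (n + 1 + 1) a ↔ ∃ x1 ∈ f.fiber a, x ∈ f.pre (n + 1) x1 := by
      rw [NMap.pre, Multiset.mem_bind]
    rw [h1]
    constructor
    · rintro ⟨x1, hx1, hx⟩
      obtain ⟨z, hz, hxz⟩ := (ih x1 x).1 hx
      refine ⟨z, ?_, hxz⟩
      rw [NMap.pre, Multiset.mem_bind]
      exact ⟨x1, hx1, hz⟩
    · rintro ⟨z, hz, hxz⟩
      rw [NMap.pre, Multiset.mem_bind] at hz
      obtain ⟨x1, hx1, hz⟩ := hz
      exact ⟨x1, hx1, (ih x1 x).2 ⟨z, hz, hxz⟩⟩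

theorem tower_opt_fiber (f : NMap k) {x y : k} (h : x ∈ f.fiber y) : f.opt (some x) = some y := by
  obtain ⟨h1, h2⟩ := (mem_fiber f x y).1 h
  simp [NMap.opt, h1, h2]

theorem tower_opt_pre (f : NMap k) (n : ℕ) : ∀ {a x : k}, x ∈ f.pre n a →
    f.opt^[n] (some x) = some a := by
  induction n with
  | zero =>
    intro a x hx
    simpa [NMap.pre] using hx
  | succ n ih =>
    intro a x hx
    obtain ⟨z, hz, hxz⟩ := (tower_mem_pre_succ f n a x).1 hx
    rw [Function.iterate_succ_apply, tower_opt_fiber f hxz]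
    exact ih hz

theorem tower_opt_chain (f : NMap k) (y : ℕ → k) (n : ℕ)
    (h : ∀ j < n, y (j + 1) ∈ f.fiber (y j)) : f.opt^[n] (some (y n)) = some (y 0) := by
  induction n with
  | zero => rfl
  | succ n ih =>
    rw [Function.iterate_succ_apply, tower_opt_fiber f (h n (Nat.lt_succ_self n))]
    exact ih fun j hj => h j (Nat.lt_succ_of_lt hj)

theorem tower_opt_none (f : NMap k) (n : ℕ) : f.opt^[n] none = none := by
  induction n with
  | zero => rfl
  | succ n ih =>
    rw [Function.iterate_succ_apply]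
    exact ih

theorem tower_opt_crit (f : NMap k) (S : Set k) (hS : f.CritSet S) (n : ℕ) : ∀ B : Option k,
    (B = none ∨ ∃ a ∈ S, B = some a) →
    (f.opt^[n] B = none ∨ ∃ a ∈ S, f.opt^[n] B = some a) := by
  induction n with
  | zero => intro B hB; exact hB
  | succ n ih =>
    intro B hB
    rw [Function.iterate_succ_apply]
    apply ih
    rcases hB with rfl | ⟨a, ha, rfl⟩
    · exact Or.inl rfl
    · by_cases h : f.Q.eval a = 0
      · left; simp [NMap.opt, h]
      · right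
        exact ⟨f.val a, hS.2 a ha h, by simp [NMap.opt, h]⟩

/-- the fibre of a noncritical value is reduced -/
theorem tower_fiber_nodup (f : NMap k) (S : Set k) (hS : f.CritSet S) {c : k} (hc : c ∉ S) :
    (f.fiber c).Nodup := by
  classical
  rw [Multiset.nodup_iff_count_le_one]
  intro x
  by_contra hx
  push Not at hx
  have hne : f.P - Polynomial.C c * f.Q ≠ 0 := by
    intro h0
    rw [NMap.fiber, h0] at hx
    simp at hx
  rw [NMap.fiber, Polynomial.count_roots] at hx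
  have h2 := (Polynomial.one_lt_rootMultiplicity_iff_isRoot hne).1 hx
  have hroot : x ∈ f.fiber c := by
    rw [NMap.fiber, Polynomial.mem_roots hne]
    exact h2.1
  obtain ⟨hQ, hval⟩ := (mem_fiber f x c).1 hroot
  apply hc
  rw [← hval]
  apply hS.1 x _ hQ
  have h3 : (derivative (f.P - Polynomial.C c * f.Q)).eval x = 0 := h2.2
  have h4 : (f.P - Polynomial.C c * f.Q).eval x = 0 := h2.1
  simp only [derivative_sub, derivative_mul, derivative_C, zero_mul, zero_add, eval_sub, eval_mul,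
    eval_C] at h3 h4
  simp only [NMap.W, eval_sub, eval_mul]
  linear_combination (f.Q.eval x) * h3 - (derivative f.Q).eval x * h4

end basic

section near

variable {k : Type*} [NormedField k]

theorem tower_inv_sub_inv {y b c : k} (hb : b ≠ y) (hc : c ≠ y) :
    (b - y)⁻¹ - (c - y)⁻¹ = (c - b) / ((b - y) * (c - y)) := by
  have h1 : b - y ≠ 0 := sub_ne_zero.2 hb
  have h2 : c - y ≠ 0 := sub_ne_zero.2 hc
  field_simp
  ring

theorem tower_norm_inv_sub {y b c : k} (hb : b ≠ y) (hc : c ≠ y) :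
    ‖(b - y)⁻¹ - (c - y)⁻¹‖ = ‖b - c‖ / (‖b - y‖ * ‖c - y‖) := by
  rw [tower_inv_sub_inv hb hc, norm_div, norm_mul, norm_sub_rev c b]

theorem tower_near_some {y b b' c : k} (hb : b ≠ y) (hb' : b' ≠ y) (hc : c ≠ y) :
    Near y b b' (some c) ↔ ‖(b - y)⁻¹ - (b' - y)⁻¹‖ < ‖(c - y)⁻¹ - (b' - y)⁻¹‖ := by
  rw [tower_norm_inv_sub hb hb', tower_norm_inv_sub hc hb']
  have h1 : 0 < ‖b - y‖ := norm_pos_iff.2 (sub_ne_zero.2 hb)
  have h2 : 0 < ‖b' - y‖ := norm_pos_iff.2 (sub_ne_zero.2 hb')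
  have h3 : 0 < ‖c - y‖ := norm_pos_iff.2 (sub_ne_zero.2 hc)
  rw [div_lt_div_iff₀ (by positivity) (by positivity)]
  simp only [Near]
  constructor
  · intro h
    have := mul_lt_mul_of_pos_right h h2
    nlinarith
  · intro h
    have h' : (‖b - b'‖ * ‖c - y‖) * ‖b' - y‖ < (‖c - b'‖ * ‖b - y‖) * ‖b' - y‖ := by nlinarith
    exact lt_of_mul_lt_mul_right h' h2.le

theorem tower_near_none {y b b' : k} (hb : b ≠ y) (hb' : b' ≠ y) :
    Near y b b' none ↔ ‖(b - y)⁻¹ - (b' - y)⁻¹‖ < ‖(b' - y)⁻¹‖ := by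
  rw [tower_norm_inv_sub hb hb', norm_inv]
  have h1 : 0 < ‖b - y‖ := norm_pos_iff.2 (sub_ne_zero.2 hb)
  have h2 : 0 < ‖b' - y‖ := norm_pos_iff.2 (sub_ne_zero.2 hb')
  rw [← one_div, div_lt_div_iff₀ (by positivity) (by positivity)]
  simp only [Near]
  constructor
  · intro h
    have := mul_lt_mul_of_pos_right h h2
    nlinarith
  · intro h
    have h' : ‖b - b'‖ * ‖b' - y‖ < ‖b - y‖ * ‖b' - y‖ := by nlinarith
    exact lt_of_mul_lt_mul_right h' h2.le

end near

end Pool.Agent.H.MP_392fd3_nt
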