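import Pool.Agent.H.MP_392fd3_nt.Near

set_option autoImplicit false

open Polynomial

namespace Pool.Agent.H.MP_392fd3_nt

/-- the set of points of `f^{-n}(T)` -/
def preSet {k : Type*} [Field k] (f : NMap k) (n : ℕ) (T : Set k) : Set k :=
  {x | ∃ a ∈ T, x ∈ f.pre n a}

/-- all cross ratios of distinct points of `Bk` are units -/
def Star {k : Type*} [NormedField k] (Bk : Set k) : Prop :=
  ∀ a ∈ Bk, ∀ b ∈ Bk, ∀ c ∈ Bk, ∀ e ∈ Bk, a ≠ b → a ≠ c → a ≠ e → b ≠ c → b ≠ e → c ≠ e →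
    ‖(a - c) * (b - e) / ((a - e) * (b - c))‖ = 1

/-- The invariant of the tower at level `n`. Here `G` is the product of the `‖f'(y_j)‖`. -/
structure Inv {k : Type*} [NormedField k] (f : NMap k) (Bk : Set k) (a0 a1 y0 : k) (T : Set k)
    (n : ℕ) (y b b' : k) (G : ℝ) (ψ : ℝ → ℝ) : Prop where
  memb : b ∈ f.pre n a0
  memb' : b' ∈ f.pre n a1
  ne0 : y ≠ b
  ne1 : y ≠ b'
  ne01 : b ≠ b'
  push : ∀ B, Near y b b' B → Near y0 a0 a1 (f.opt^[n] B)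
  cont : Continuous ψ
  zero : ψ 0 = 0
  mono : ∀ x z, 0 ≤ x → x ≤ z → z - x ≤ ψ z - ψ x
  slope : ∀ x z, 0 ≤ x → x < z →
    (∀ c ∈ preSet f n T,
      ¬ (‖(b - y)⁻¹ - (b' - y)⁻¹‖ * Real.exp (-z) < ‖(c - y)⁻¹ - (b - y)⁻¹‖ ∧
        ‖(c - y)⁻¹ - (b - y)⁻¹‖ < ‖(b - y)⁻¹ - (b' - y)⁻¹‖ * Real.exp (-x))) →
    ∃ m : ℤ, 0 < m ∧ ψ z - ψ x = m * (z - x) ∧
      ‖(m : k)‖ ≤ (G * ‖(a0 - y0)⁻¹ - (a1 - y0)⁻¹‖ / ‖(b - y)⁻¹ - (b' - y)⁻¹‖) *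
        Real.exp ((2 * f.d - 2) * (ψ x - x))
  lift : ∀ t ∈ T, ∀ S : ℝ, 0 < S →
    ‖(t - y0)⁻¹ - (a0 - y0)⁻¹‖ = ‖(a0 - y0)⁻¹ - (a1 - y0)⁻¹‖ * Real.exp (-S) →
    ∃ R : ℝ, 0 < R ∧ ψ R = S ∧ ∃ c ∈ preSet f n T,
      ‖(c - y)⁻¹ - (b - y)⁻¹‖ = ‖(b - y)⁻¹ - (b' - y)⁻¹‖ * Real.exp (-R)
  star : Star Bk → ∃ ε : ℝ, 0 < ε ∧ ∀ x, 0 ≤ x → x ≤ ε → ψ x = x

/-- the finite set of directions which `y 0` has to avoid -/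
def Gen {k : Type*} [Field k] (f : NMap k) (S : Set k) (a0 a1 : k) (n : ℕ) : Set (Option k) :=
  {B | B = none ∨ (∃ a ∈ S, B = some a) ∨ ∃ j < n, ∃ b ∈ f.pre j a0, ∃ b' ∈ f.pre j a1,
    ∃ B' ∈ f.bad b b', B = f.opt^[j] B'}

end Pool.Agent.H.MP_392fd3_nt
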