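import Pool.Agent.H.MP_392fd3_nt.Statement

set_option autoImplicit false

open Polynomial
open scoped NumberField

namespace Pool.Agent.H.MP_392fd3_nt

universe u

variable {K : Type u} [Field K]

theorem towerField_fiber_finite (P Q : K[X]) (hcop : IsCoprime P Q) (hdeg : 2 ≤ rdeg P Q)
    (y : Option (AlgebraicClosure K)) : {z | ratMap P Q z = y}.Finite := by
  classical
  set i := algebraMap K (AlgebraicClosure K) with hi
  -- `P - y Q` and `Q` are nonzero
  have hQ0 : Q ≠ 0 := by
    rintro rfl
    rw [isCoprime_zero_right] at hcop
    have := natDegree_eq_zero_of_isUnit hcop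
    rw [rdeg, this] at hdeg
    simp at hdeg
  have hcop' : IsCoprime (P.map i) (Q.map i) := by
    obtain ⟨a, b, h⟩ := hcop
    refine ⟨a.map i, b.map i, ?_⟩
    rw [← Polynomial.map_mul, ← Polynomial.map_mul, ← Polynomial.map_add, h, Polynomial.map_one]
  have hPQ : ∀ c : AlgebraicClosure K, P.map i - C c * Q.map i ≠ 0 := by
    intro c h
    have h1 : P.map i = C c * Q.map i := sub_eq_zero.1 h
    rw [h1] at hcop'
    have h2 : IsUnit (Q.map i) := by
      have : IsCoprime (Q.map i) (Q.map i) := IsCoprime.of_mul_left_right hcop'
      exact isCoprime_self.1 this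
    have h3 := natDegree_eq_zero_of_isUnit h2
    have h4 : (P.map i).natDegree = 0 := by
      rw [h1]
      have := natDegree_C_mul_le c (Q.map i)
      omega
    rw [natDegree_map] at h3 h4
    rw [rdeg, h3, h4] at hdeg
    simp at hdeg
  have hsub : {z | ratMap P Q z = y} ⊆ {none} ∪ some ''
      ((match y with
        | none => (Q.map i).roots.toFinset
        | some c => (P.map i - C c * Q.map i).roots.toFinset : Finset (AlgebraicClosure K)) :
        Set (AlgebraicClosure K)) := by
    intro z hz
    cases z with
    | none => exact Or.inl rfl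
    | some x =>
      right
      refine ⟨x, ?_, rfl⟩
      have hz' : ratMap P Q (some x) = y := hz
      rw [ratMap] at hz'
      split_ifs at hz' with h
      · subst hz'
        simp only [Finset.mem_coe, Multiset.mem_toFinset]
        rw [mem_roots (by
          intro h0
          exact hQ0 ((Polynomial.map_eq_zero i).1 h0))]
        rw [IsRoot.def, eval_map_algebraMap]
        exact h
      · subst hz'
        simp only [Finset.mem_coe, Multiset.mem_toFinset]
        rw [mem_roots (hPQ _), IsRoot.def, eval_sub, eval_mul, eval_C, eval_map_algebraMap,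
          eval_map_algebraMap, div_mul_cancel₀ _ h, sub_self]
  exact ((Set.finite_singleton _).union ((Finset.finite_toSet _).image _)).subset hsub

theorem towerField_iter_finite (P Q : K[X]) (hcop : IsCoprime P Q) (hdeg : 2 ≤ rdeg P Q)
    (n : ℕ) : ∀ y : Option (AlgebraicClosure K), {z | (ratMap P Q)^[n] z = y}.Finite := by
  induction n with
  | zero => intro y; simp
  | succ n ih =>
    intro y
    have : {z | (ratMap P Q)^[n + 1] z = y} =
        ⋃ w ∈ {w | (ratMap P Q)^[n] w = y}, {z | ratMap P Q z = w} := by
      ext z
      simp [Function.iterate_succ_apply]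
    rw [this]
    exact (ih y).biUnion fun w _ => towerField_fiber_finite P Q hcop hdeg w

theorem towerField_numberField [NumberField K] (P Q : K[X]) (hcop : IsCoprime P Q)
    (hdeg : 2 ≤ rdeg P Q) (α : Option K) (n : ℕ) : NumberField (towerField P Q α n) := by
  have hfin : {x : AlgebraicClosure K | (ratMap P Q)^[n] (some x) = basePt α}.Finite :=
    (towerField_iter_finite P Q hcop hdeg n (basePt α)).preimage
      (Option.some_injective _).injOn
  have : Finite {x : AlgebraicClosure K | (ratMap P Q)^[n] (some x) = basePt α} :=
    hfin.to_subtype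
  have : FiniteDimensional K (towerField P Q α n) :=
    IntermediateField.finiteDimensional_adjoin fun x _ => Algebra.IsIntegral.isIntegral x
  exact NumberField.of_module_finite K _

end Pool.Agent.H.MP_392fd3_nt
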