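import Pool.Agent.H.MP_392fd3_nt.TowerAux
import Pool.Agent.H.MP_392fd3_nt.TowerDefs

set_option autoImplicit false

open Polynomial

namespace Pool.Agent.H.MP_392fd3_nt

/-- intermediate value: `ρ` takes every value `S > 0` at some point of `(0, S]`. -/
theorem tower_ivt (ρ : ℝ → ℝ) (hρ : Continuous ρ) (h0 : ρ 0 = 0)
    (hmono : ∀ x y, 0 ≤ x → x ≤ y → y - x ≤ ρ y - ρ x) {S : ℝ} (hS : 0 < S) :
    ∃ R : ℝ, 0 < R ∧ ρ R = S := by
  have h1 : S ≤ ρ S := by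
    have := hmono 0 S le_rfl hS.le
    rw [h0] at this
    linarith
  have h2 : S ∈ Set.Icc (ρ 0) (ρ S) := ⟨by rw [h0]; exact hS.le, h1⟩
  obtain ⟨R, hR, hRS⟩ := intermediate_value_Icc hS.le hρ.continuousOn h2
  refine ⟨R, ?_, hRS⟩
  rcases lt_or_eq_of_le hR.1 with h | h
  · exact h
  · rw [← h, h0] at hRS
    exact absurd hRS.symm hS.ne'

theorem tower_strict (ρ : ℝ → ℝ) (hmono : ∀ x y, 0 ≤ x → x ≤ y → y - x ≤ ρ y - ρ x)
    {x y : ℝ} (hx : 0 ≤ x) (hxy : x < y) : ρ x < ρ y := by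
  have := hmono x y hx hxy.le
  linarith

theorem tower_between (ρ : ℝ → ℝ) (hρ : Continuous ρ) {x z S : ℝ} (hxz : x < z)
    (h1 : ρ x < S) (h2 : S < ρ z) : ∃ R : ℝ, x < R ∧ R < z ∧ ρ R = S := by
  obtain ⟨R, hR, hRS⟩ := intermediate_value_Icc hxz.le hρ.continuousOn
    (⟨h1.le, h2.le⟩ : S ∈ Set.Icc (ρ x) (ρ z))
  refine ⟨R, ?_, ?_, hRS⟩
  · rcases lt_or_eq_of_le hR.1 with h | h
    · exact h
    · rw [← h] at hRS; exact absurd hRS h1.ne
  · rcases lt_or_eq_of_le hR.2 with h | h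
    · exact h
    · rw [h] at hRS; exact absurd hRS h2.ne'

/-- the data of one step -/
theorem tower_step_data {k : Type*} [NormedField k] [IsUltrametricDist k] [IsAlgClosed k]
    [CharZero k] (p : ℕ) (hp : p.Prime) (hp1 : ‖(p : k)‖ < 1) (f : NMap k) (S : Set k)
    (hS : f.CritSet S) (y y' b0 b1 : k) (hy : y ∈ f.fiber y') (hder : f.der y ≠ 0)
    (h0 : y' ≠ b0) (h1 : y' ≠ b1) (h01 : b0 ≠ b1)
    (hB : ∀ B ∈ f.bad b0 b1, ¬ Near y' b0 b1 B)
    (hSn : ∀ a ∈ S, ¬ Near y' b0 b1 (some a)) :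
    ∃ b ∈ f.fiber b0, ∃ b' ∈ f.fiber b1, y ≠ b ∧ y ≠ b' ∧ b ≠ b' ∧
      (∀ B, Near y b b' B → Near y' b0 b1 (f.opt B)) ∧
      ∃ ρ : ℝ → ℝ, Continuous ρ ∧ ρ 0 = 0 ∧
      (∀ x z, 0 ≤ x → x ≤ z → z - x ≤ ρ z - ρ x) ∧
      (∀ x z, 0 ≤ x → x < z →
        (∀ c ∈ f.fiber b0 + f.fiber b1,
          ¬ (‖(b - y)⁻¹ - (b' - y)⁻¹‖ * Real.exp (-z) < ‖(c - y)⁻¹ - (b - y)⁻¹‖ ∧
            ‖(c - y)⁻¹ - (b - y)⁻¹‖ < ‖(b - y)⁻¹ - (b' - y)⁻¹‖ * Real.exp (-x))) →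
        ∃ m : ℤ, 0 < m ∧ ρ z - ρ x = m * (z - x) ∧
          ‖(m : k)‖ ≤ (‖f.der y‖ * ‖(b0 - y')⁻¹ - (b1 - y')⁻¹‖ / ‖(b - y)⁻¹ - (b' - y)⁻¹‖) *
            Real.exp ((2 * f.d - 2) * (ρ x - x)) ∧
          ∀ R : ℝ, x < R → R < z →
            m = ((f.fiber b0).countP (fun c => ‖(c - y)⁻¹ - (b - y)⁻¹‖ <
                  ‖(b - y)⁻¹ - (b' - y)⁻¹‖ * Real.exp (-R)) : ℤ)
              - ((f.fiber b1).countP (fun c => ‖(c - y)⁻¹ - (b - y)⁻¹‖ <
                  ‖(b - y)⁻¹ - (b' - y)⁻¹‖ * Real.exp (-R)) : ℤ)) ∧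
      (∀ (t : k) (Q R : ℝ), t ≠ y' → 0 < Q →
        ‖(t - y')⁻¹ - (b0 - y')⁻¹‖ = ‖(b0 - y')⁻¹ - (b1 - y')⁻¹‖ * Real.exp (-Q) →
        0 < R → ρ R = Q →
        ∃ c ∈ f.fiber t + f.fiber b1,
          ‖(c - y)⁻¹ - (b - y)⁻¹‖ = ‖(b - y)⁻¹ - (b' - y)⁻¹‖ * Real.exp (-R)) := by
  obtain ⟨b, hb, b', hb', hG, hDL⟩ := exists_good_pair f y y' b0 b1 hy h0 h1 h01 hB
  have hyv := (mem_fiber f y y').1 hy
  have hbv := (mem_fiber f b b0).1 hb
  have hbv' := (mem_fiber f b' b1).1 hb'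
  have hyb : y ≠ b := by
    rintro rfl; exact h0 (hyv.2.symm.trans hbv.2)
  have hyb' : y ≠ b' := by
    rintro rfl; exact h1 (hyv.2.symm.trans hbv'.2)
  have hbb' : b ≠ b' := by
    rintro rfl; exact h01 (hbv.2.symm.trans hbv'.2)
  have hpush : ∀ B, Near y b b' B → Near y' b0 b1 (f.opt B) :=
    near_push f y y' b b' b0 b1 hy hb hb' h0 h1 h01 hG
  refine ⟨b, hb, b', hb', hyb, hyb', hbb', hpush, ?_⟩
  obtain ⟨U, V, hU, hUd, hVd, hVl, hroots, hcrit⟩ := normal_form f y y' hy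
  have hr0 := hroots b0 h0.symm
  have hr1 := hroots b1 h1.symm
  -- the fibres do not contain `y`
  have hne0 : ∀ c ∈ f.fiber b0, c ≠ y := by
    rintro c hc rfl
    exact h0 (hyv.2.symm.trans ((mem_fiber f c b0).1 hc).2)
  have hne1 : ∀ c ∈ f.fiber b1, c ≠ y := by
    rintro c hc rfl
    exact h1 (hyv.2.symm.trans ((mem_fiber f c b1).1 hc).2)
  set s0 : k := (b - y)⁻¹ with hs0
  set s1 : k := (b' - y)⁻¹ with hs1
  have hs : s0 ≠ s1 := by
    intro h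
    exact hbb' (sub_left_injective (inv_injective h))
  have hs' : (b0 - y')⁻¹ ≠ (b1 - y')⁻¹ := by
    intro h
    exact h01 (sub_left_injective (inv_injective h))
  have hclose1 : ∀ c ∈ f.fiber b0 + f.fiber b1, ‖(c - y)⁻¹ - s1‖ ≤ ‖s0 - s1‖ := by
    intro c hc
    have hcy : c ≠ y := by
      rcases Multiset.mem_add.1 hc with h | h
      · exact hne0 c h
      · exact hne1 c h
    have := hG c hc
    rw [tower_near_some hyb.symm hyb'.symm hcy] at this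
    exact not_lt.1 this
  have hult : ∀ x : k, ‖x - s1‖ ≤ ‖s0 - s1‖ → ‖x - s0‖ ≤ ‖s0 - s1‖ := by
    intro x hx
    have h1 : x - s0 = (x - s1) + (s1 - s0) := by ring
    rw [h1]
    refine (IsUltrametricDist.norm_add_le_max _ _).trans (max_le hx ?_)
    rw [norm_sub_rev]
  have hG0 : ∀ x ∈ (U - C ((b0 - y')⁻¹) * V).roots, ‖x - s0‖ ≤ ‖s0 - s1‖ := by
    intro x hx
    rw [hr0, Multiset.mem_map] at hx
    obtain ⟨c, hc, rfl⟩ := hx
    exact hult _ (hclose1 c (Multiset.mem_add.2 (Or.inl hc)))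
  have hG1 : ∀ x ∈ (U - C ((b1 - y')⁻¹) * V).roots, ‖x - s0‖ ≤ ‖s0 - s1‖ := by
    intro x hx
    rw [hr1, Multiset.mem_map] at hx
    obtain ⟨c, hc, rfl⟩ := hx
    exact hult _ (hclose1 c (Multiset.mem_add.2 (Or.inr hc)))
  have hnone : ¬ Near y' b0 b1 none := hB none (Or.inl rfl)
  have hG2 : ∀ x ∈ (derivative U * V - U * derivative V).roots, ‖x - s0‖ ≤ ‖s0 - s1‖ := by
    intro x hx
    apply hult
    rcases hcrit x hx with rfl | hW
    · have h2 : ¬ Near y b b' none := fun h => hnone (hpush none h)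
      rw [tower_near_none hyb.symm hyb'.symm] at h2
      rw [zero_sub, norm_neg]
      exact not_lt.1 h2
    · by_cases hx0 : x = 0
      · subst hx0
        have h2 : ¬ Near y b b' none := fun h => hnone (hpush none h)
        rw [tower_near_none hyb.symm hyb'.symm] at h2
        rw [zero_sub, norm_neg]
        exact not_lt.1 h2
      · have h2 : ¬ Near y b b' (some (y + x⁻¹)) := by
          intro h
          have h3 := hpush _ h
          by_cases hQ : f.Q.eval (y + x⁻¹) = 0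
          · simp only [NMap.opt, hQ, if_true] at h3
            exact hnone h3
          · simp only [NMap.opt, hQ, if_false] at h3
            exact hSn _ (hS.1 _ hW hQ) h3
        have hne : y + x⁻¹ ≠ y := by
          intro h
          rw [add_eq_left, inv_eq_zero] at h
          exact hx0 h
        rw [tower_near_some hyb.symm hyb'.symm hne] at h2
        have h4 : (y + x⁻¹ - y)⁻¹ = x := by rw [add_sub_cancel_left, inv_inv]
        rw [h4] at h2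
        exact not_lt.1 h2
  have hDL' : ∀ r : ℝ, 0 < r → r ≤ ‖s0 - s1‖ →
      (U - C ((b1 - y')⁻¹) * V).roots.countP (fun x => ‖x - s0‖ < r) <
        (U - C ((b0 - y')⁻¹) * V).roots.countP (fun x => ‖x - s0‖ < r) := by
    intro r hr hr'
    rw [hr0, hr1]
    exact hDL r hr hr'
  have hm0 : s0 ∈ (U - C ((b0 - y')⁻¹) * V).roots := by
    rw [hr0]; exact Multiset.mem_map_of_mem _ hb
  have hm1 : s1 ∈ (U - C ((b1 - y')⁻¹) * V).roots := by
    rw [hr1]; exact Multiset.mem_map_of_mem _ hb'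
  obtain ⟨ρ, hρc, hρ0, hρm, hρs, hρl⟩ := core_step p hp hp1 f.d f.two_le U V hU hUd hVd
    (f.der y) hVl hder ((b0 - y')⁻¹) ((b1 - y')⁻¹) s0 s1 hs' hs hm0 hm1 hG0 hG1 hG2 hDL'
  refine ⟨ρ, hρc, hρ0, hρm, ?_, ?_⟩
  · intro x z hx hxz hbr
    obtain ⟨m, hm, hm1, hm2, hm3⟩ := hρs x z hx hxz (by
      intro w hw
      rw [hr0, hr1, ← Multiset.map_add, Multiset.mem_map] at hw
      obtain ⟨c, hc, rfl⟩ := hw
      exact hbr c hc)
    refine ⟨m, hm, hm1, hm2, ?_⟩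
    intro R hR1 hR2
    have := hm3 R hR1 hR2
    rw [hr0, hr1, Multiset.countP_map, Multiset.countP_map] at this
    rw [this, Multiset.countP_eq_card_filter, Multiset.countP_eq_card_filter]
  · intro t Q R ht hQ hnorm hR hRQ
    obtain ⟨w, hw, hwn⟩ := hρl ((t - y')⁻¹) Q R hQ hnorm hR hRQ
    rw [hroots t ht, hr1, ← Multiset.map_add, Multiset.mem_map] at hw
    obtain ⟨c, hc, rfl⟩ := hw
    exact ⟨c, hc, hwn⟩

end Pool.Agent.H.MP_392fd3_nt
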